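import Pool.Agent.Work.MP_308fa9_nt.SC.Defs
import Pool.Agent.Work.MP_308fa9_nt.BF.Basic
import Pool.Agent.Work.MP_308fa9_nt.BG.HankL

set_option autoImplicit false

/-!
Working definitions.
-/

namespace Stoll308.SC

open Polynomial Finset Matrix BG BF

/-- There is a point `(x, y)`, `y` invertible, of the curve with coordinates in a finite
commutative algebra `E` of odd dimension over the field `K ⊇ ℚ`, such that the norm of `ψ(x)² - θ`
from `E ⊗ K[θ]` to `K[θ]` is `δ` times a square in `K[θ] = K[T]/(f)`, where `θ` is the class of `T`.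
(The norm of `z - T` is `-χ(T)` for the characteristic polynomial `χ` of the multiplication by `z`
on `E`, since the dimension is odd.) -/
def OddImage {n : ℕ} (ψ : ℤ[X]) (a : Fin (n + 1) → ℤ) (δ : ℚ[X]) (K : Type) [Field K]
    [Algebra ℚ K] : Prop :=
  ∃ (E : Type) (_ : CommRing E) (_ : Algebra K E) (_ : Module.Finite K E) (x y : E) (s : K[X]),
    Odd (Module.finrank K E) ∧ IsUnit y ∧ y ^ 2 = aeval ((aeval x ψ) ^ 2) (GZ K a) ∧
      GZ K a ∣ -(LinearMap.mulLeft K ((aeval x ψ) ^ 2)).charpoly -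
        δ.map (algebraMap ℚ K) * s ^ 2

/-- Some `δ ∈ ℚ[θ]ˣ` is at every odd prime the class of a point over an algebra of odd
dimension. -/
def OddSel {n : ℕ} (ψ : ℤ[X]) (a : Fin (n + 1) → ℤ) : Prop :=
  ∃ δ : ℚ[X], IsCoprime δ (GZ ℚ a) ∧
    ∀ (p : ℕ) [Fact p.Prime], p ≠ 2 → OddImage ψ a δ ℚ_[p]

/-- The local condition in terms of polynomials. -/
def OLoc {K : Type*} [Field K] (f δ : K[X]) : Prop :=
  (∃ h r w s : K[X], h.Monic ∧ Odd h.natDegree ∧ IsCoprime h f ∧ IsCoprime s f ∧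
    h ∣ f - r ^ 2 ∧ h ∣ X - w ^ 2 ∧ f ∣ h + δ * s ^ 2) ∧
  ∃ u v s : K[X], IsCoprime s f ∧ f ∣ (u ^ 2 - X * v ^ 2) - δ * s ^ 2

/-- The polynomial with integral coefficients, over `ℚ_p`. -/
noncomputable abbrev toQ {p : ℕ} [Fact p.Prime] (g : ℤ_[p][X]) : ℚ_[p][X] :=
  g.map (algebraMap ℤ_[p] ℚ_[p])

/-- The form `(λ, μ) ↦ [θ^(n-1)](δ λ μ)` has a self-dual lattice which is stable under `θ`. -/
def Good (p : ℕ) [Fact p.Prime] (n : ℕ) (g δ : ℚ_[p][X]) : Prop :=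
  ∃ G : Matrix (Fin n) (Fin n) ℚ_[p], G.det ≠ 0 ∧
    (∀ (k : ℕ) (i j : Fin n), ‖(G * Hank n g (X ^ k * δ) * Gᵀ) i j‖ ≤ 1) ∧
    ‖(G * Hank n g δ * Gᵀ).det‖ = 1

end Stoll308.SC
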