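import Pool.Agent.Work.MP_308fa9_nt.SC.Basic
import Pool.Agent.Work.MP_308fa9_nt.BF.Main

set_option autoImplicit false

/-!
Multiples of the polynomial by a square.
-/

namespace Stoll308.SC

open Polynomial Finset Matrix BG BF

/-- The polynomial `N² f`. -/
def sc {n : ℕ} (N : ℕ) (a : Fin (n + 1) → ℤ) : Fin (n + 1) → ℤ := fun i => (N : ℤ) ^ 2 * a i

lemma GZ_sc (R : Type*) [CommRing R] {n : ℕ} (N : ℕ) (a : Fin (n + 1) → ℤ) :
    GZ R (sc N a) = C ((N : R) ^ 2) * GZ R a := by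
  unfold GZ gpol sc
  rw [Finset.mul_sum]
  refine Finset.sum_congr rfl fun i _ => ?_
  push_cast
  rw [C_mul, mul_assoc]

lemma isUnit_sc {K : Type*} [Field K] [CharZero K] {N : ℕ} (hN : 0 < N) :
    IsUnit (C ((N : K) ^ 2)) := by
  rw [isUnit_C, isUnit_iff_ne_zero]
  exact pow_ne_zero _ (by exact_mod_cast hN.ne')

lemma mon_sc {K : Type*} [Field K] [CharZero K] {n : ℕ} {N : ℕ} (hN : 0 < N)
    (a : Fin (n + 1) → ℤ) : mon K (sc N a) = mon K a := by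
  have hN' : (N : K) ^ 2 ≠ 0 := pow_ne_zero _ (by exact_mod_cast hN.ne')
  unfold mon
  rw [GZ_sc, ← mul_assoc, ← C_mul]
  congr 2
  unfold sc
  push_cast
  rw [mul_inv, mul_comm ((N : K) ^ 2)⁻¹, mul_assoc, inv_mul_cancel₀ hN', mul_one]

lemma IsPair.sc {n : ℕ} {a : Fin (n + 1) → ℤ} {δ : ℚ[X]} {A B : Matrix (Fin n) (Fin n) ℤ}
    (h : BF.IsPair a δ A B) {N : ℕ} (hN : 0 < N) : BF.IsPair (SC.sc N a) δ A B := by
  obtain ⟨G, hG, hA, hB⟩ := h
  have hN' : (N : ℚ) ≠ 0 := by exact_mod_cast hN.ne'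
  have key : ∀ M : Matrix (Fin n) (Fin n) ℚ, ((SC.sc N a 0 : ℤ) : ℚ)⁻¹ •
      (((N : ℚ) • G) * M * ((N : ℚ) • G)ᵀ) = (a 0 : ℚ)⁻¹ • (G * M * Gᵀ) := by
    intro M
    rw [Matrix.transpose_smul, Matrix.mul_smul, Matrix.smul_mul, Matrix.smul_mul, smul_smul,
      smul_smul]
    congr 1
    unfold SC.sc
    push_cast
    rw [mul_inv]
    field_simp
  refine ⟨(N : ℚ) • G, ?_, ?_, ?_⟩
  · rw [Matrix.det_smul]
    exact mul_ne_zero (pow_ne_zero _ hN') hG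
  · rw [mon_sc hN, key]
    exact hA
  · rw [mon_sc hN, key]
    exact hB

lemma cnt_scale {n : ℕ} (P P' : (Fin (n + 1) → ℤ) → Prop) (N : ℕ) (hN : 0 < N) (H : ℕ) (R : ℝ)
    (hP : ∀ a, P a → P' (sc N a))
    (h : ∀ T : Finset (Fin (n + 1) → ℤ), (∀ a ∈ T, P' a) → (T.card : ℝ) ≤ R) :
    (cnt n P H : ℝ) ≤ R := by
  classical
  refine cnt_le_of_card P H R fun T hT => ?_
  have hinj : Function.Injective (sc (n := n) N) := by
    intro a b hab
    funext i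
    have h1 := congrFun hab i
    unfold sc at h1
    exact mul_left_cancel₀ (pow_ne_zero 2 (by exact_mod_cast hN.ne')) h1
  rw [← card_image_of_injective T hinj]
  apply h
  intro b hb
  obtain ⟨a, ha, rfl⟩ := mem_image.1 hb
  exact hP a (hT a ha)

lemma cnt_exists {n : ℕ} (Q : ℕ → (Fin (n + 1) → ℤ) → Prop) (M H : ℕ) :
    cnt n (fun a => ∃ N, 0 < N ∧ N ≤ M ∧ Q N a) H ≤ ∑ N ∈ Icc 1 M, cnt n (Q N) H := by
  classical
  unfold BF.cnt
  refine le_trans (card_le_card ?_) (card_biUnion_le (s := Icc 1 M))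
  intro a ha
  simp only [mem_filter, mem_biUnion, mem_Icc] at ha ⊢
  obtain ⟨h1, N, h2, h3, h4⟩ := ha
  exact ⟨N, ⟨h2, h3⟩, h1, h4⟩

end Stoll308.SC
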