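import Pool.Agent.Work.MP_308fa9_nt.SC.Basic
import Pool.Agent.Work.MP_308fa9_nt.BF.Main

set_option autoImplicit false

/-!
Few polynomials have two coefficients divisible by a large prime.
-/

namespace Stoll308.SC

open Polynomial Finset Matrix BG BF

/-- Counting the vectors whose coordinates `i ≠ j` are in given sets. -/
lemma cnt_two (n : ℕ) (P : (Fin (n + 1) → ℤ) → Prop) (H : ℕ) (hH : 1 ≤ H) (i j : Fin (n + 1))
    (hij : i ≠ j) (A B : Finset ℤ) (α β : ℝ) (hA : (A.card : ℝ) ≤ 3 * H * α)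
    (hB : (B.card : ℝ) ≤ 3 * H * β)
    (h : ∀ a : Fin (n + 1) → ℤ, (∀ k, |a k| ≤ H) → P a → a i ∈ A ∧ a j ∈ B) :
    (cnt n P H : ℝ) ≤ α * β * (3 * (H : ℝ)) ^ (n + 1) := by
  classical
  have hH' : (1 : ℝ) ≤ H := by exact_mod_cast hH
  have h1 := Redu0.cnt_le_pi n P H
    (fun k => if k = i then A else if k = j then B else Icc (-(H : ℤ)) H) (by
      intro a ha hP k
      obtain ⟨h2, h3⟩ := h a ha hP
      by_cases hk : k = i
      · simp only [hk, if_true]; exact h2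
      · by_cases hk' : k = j
        · simp only [hk', if_true, if_neg (Ne.symm hij)]; exact h3
        · simp only [hk, hk', if_false]
          exact Finset.mem_Icc.2 (abs_le.1 (ha k)))
  have h2 : ((∏ k : Fin (n + 1), (if k = i then A else if k = j then B else
      Icc (-(H : ℤ)) (H : ℤ)).card : ℕ) : ℝ) ≤
      ∏ k : Fin (n + 1), (3 * (H : ℝ)) * ((if k = i then α else 1) * (if k = j then β else 1)) := by
    rw [Nat.cast_prod]
    refine Finset.prod_le_prod (fun k _ => Nat.cast_nonneg _) fun k _ => ?_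
    by_cases hk : k = i
    · have hk' : k ≠ j := by rw [hk]; exact hij
      simp only [hk, if_true]
      rw [if_neg hij]
      simpa using hA
    · by_cases hk' : k = j
      · simp only [hk', if_true, if_neg (Ne.symm hij)]
        simpa using hB
      · simp only [hk, hk', if_false]
        rw [Int.card_Icc]
        have e1 : ((H : ℤ) + 1 - -(H : ℤ)).toNat = 2 * H + 1 := by omega
        rw [e1]
        push_cast
        linarith
  have h3 : ∏ k : Fin (n + 1), (3 * (H : ℝ)) * ((if k = i then α else 1) *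
      (if k = j then β else 1)) = α * β * (3 * (H : ℝ)) ^ (n + 1) := by
    have e1 : ∏ k : Fin (n + 1), (if k = i then α else 1) = α := by
      rw [Finset.prod_ite_eq' Finset.univ i (fun _ => α), if_pos (Finset.mem_univ _)]
    have e2 : ∏ k : Fin (n + 1), (if k = j then β else 1) = β := by
      rw [Finset.prod_ite_eq' Finset.univ j (fun _ => β), if_pos (Finset.mem_univ _)]
    have e3 : ∏ k : Fin (n + 1), ((if k = i then α else 1) * (if k = j then β else 1)) = α * β := by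
      rw [Finset.prod_mul_distrib, e1, e2]
    have e4 : ∏ _k : Fin (n + 1), (3 * (H : ℝ)) = (3 * (H : ℝ)) ^ (n + 1) := by
      rw [Finset.prod_const, Finset.card_univ, Fintype.card_fin]
    rw [← e3, ← e4, ← Finset.prod_mul_distrib]
    exact Finset.prod_congr rfl fun k _ => mul_comm _ _
  calc (cnt n P H : ℝ) ≤ _ := by exact_mod_cast h1
    _ ≤ _ := h2
    _ = _ := h3

/-- The number of multiples of `p`. -/
lemma card_mult (p H : ℕ) (hp : 1 ≤ p) (hpH : p ≤ H) :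
    (((Icc (-(H : ℤ)) (H : ℤ)).filter fun x => (p : ℤ) ∣ x).card : ℝ) ≤ 3 * H * (p : ℝ)⁻¹ := by
  have hp0 : (0 : ℤ) < p := by exact_mod_cast hp
  have h1 : ((Icc (-(H : ℤ)) (H : ℤ)).filter fun x => (p : ℤ) ∣ x) ⊆
      (Icc (-((H / p : ℕ) : ℤ)) ((H / p : ℕ) : ℤ)).image fun k => (p : ℤ) * k := by
    intro x hx
    obtain ⟨h2, k, rfl⟩ := Finset.mem_filter.1 hx
    rw [Finset.mem_Icc] at h2
    refine Finset.mem_image.2 ⟨k, ?_, rfl⟩
    rw [Finset.mem_Icc]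
    push_cast
    constructor
    · have : -k ≤ (H : ℤ) / p := by
        rw [Int.le_ediv_iff_mul_le hp0]
        linarith
      linarith
    · rw [Int.le_ediv_iff_mul_le hp0]
      linarith
  have h2 := (Finset.card_le_card h1).trans Finset.card_image_le
  rw [Int.card_Icc] at h2
  have e1 : (((H / p : ℕ) : ℤ) + 1 - -((H / p : ℕ) : ℤ)).toNat = 2 * (H / p) + 1 := by
    omega
  rw [e1] at h2
  have h3 : ((H / p : ℕ) : ℝ) ≤ H / p := Nat.cast_div_le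
  have h4 : (1 : ℝ) ≤ (H : ℝ) / p := by
    rw [le_div_iff₀ (by exact_mod_cast hp)]
    rw [one_mul]
    exact_mod_cast hpH
  calc (((Icc (-(H : ℤ)) (H : ℤ)).filter fun x => (p : ℤ) ∣ x).card : ℝ)
      ≤ ((2 * (H / p) + 1 : ℕ) : ℝ) := by exact_mod_cast h2
    _ = 2 * ((H / p : ℕ) : ℝ) + 1 := by push_cast; ring
    _ ≤ 3 * ((H : ℝ) / p) := by linarith
    _ = 3 * H * (p : ℝ)⁻¹ := by rw [div_eq_mul_inv]; ring

theorem excl_small (n : ℕ) (i : Fin (n + 1)) (hi : i ≠ 0) (ε : ℝ) (hε : 0 < ε) :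
    ∃ P₀ : ℕ, ∀ P : ℕ, P₀ ≤ P → ∀ H : ℕ,
      (cnt n (fun a => a 0 ≠ 0 ∧ ∃ p : ℕ, p.Prime ∧ P < p ∧ (p : ℤ) ∣ a 0 ∧ (p : ℤ) ∣ a i) H : ℝ) ≤
        ε * H ^ (n + 1) := by
  classical
  refine ⟨max 1 ⌈3 ^ (n + 1) / ε⌉₊, fun P hP H => ?_⟩
  have hP1 : 1 ≤ P := (le_max_left _ _).trans hP
  have hP2 : 3 ^ (n + 1) / ε ≤ P :=
    (Nat.le_ceil _).trans (by exact_mod_cast (le_max_right _ _).trans hP)
  have h1 : cnt n (fun a => a 0 ≠ 0 ∧ ∃ p : ℕ, p.Prime ∧ P < p ∧ (p : ℤ) ∣ a 0 ∧ (p : ℤ) ∣ a i) H ≤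
      cnt n (fun a => ∃ p ∈ Finset.Ioc P H, (p : ℤ) ∣ a 0 ∧ (p : ℤ) ∣ a i) H := by
    refine cnt_mono H fun a ha hP => ?_
    obtain ⟨h0, p, hp, hPp, h2, h3⟩ := hP
    refine ⟨p, Finset.mem_Ioc.2 ⟨hPp, ?_⟩, h2, h3⟩
    have h4 := Int.le_of_dvd (abs_pos.2 h0) ((dvd_abs _ _).2 h2)
    have h5 := h4.trans (ha 0)
    exact_mod_cast h5
  have h2 := Singular.cnt_le_add n
    (fun a => ∃ p ∈ Finset.Ioc P H, (p : ℤ) ∣ a 0 ∧ (p : ℤ) ∣ a i) (fun _ => False)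
    (Finset.Ioc P H) (fun p a => (p : ℤ) ∣ a 0 ∧ (p : ℤ) ∣ a i) H (fun a ha => Or.inr ha)
  have h3 : BF.cnt n (fun _ => False) H = 0 := by
    unfold BF.cnt
    simp
  rw [h3, zero_add] at h2
  have h4 : ∀ p ∈ Finset.Ioc P H, (cnt n (fun a => (p : ℤ) ∣ a 0 ∧ (p : ℤ) ∣ a i) H : ℝ) ≤
      ((p : ℝ) ^ 2)⁻¹ * (3 * (H : ℝ)) ^ (n + 1) := by
    intro p hp
    rw [Finset.mem_Ioc] at hp
    have hp1 : 1 ≤ p := by omega
    have hc := card_mult p H hp1 hp.2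
    refine (cnt_two n _ H (by omega) 0 i hi.symm _ _ _ _ hc hc ?_).trans (le_of_eq ?_)
    · intro a ha hd
      exact ⟨Finset.mem_filter.2 ⟨Finset.mem_Icc.2 (abs_le.1 (ha 0)), hd.1⟩,
        Finset.mem_filter.2 ⟨Finset.mem_Icc.2 (abs_le.1 (ha i)), hd.2⟩⟩
    · rw [sq, mul_inv]
  have h5 : (cnt n (fun a => a 0 ≠ 0 ∧ ∃ p : ℕ, p.Prime ∧ P < p ∧ (p : ℤ) ∣ a 0 ∧
      (p : ℤ) ∣ a i) H : ℝ) ≤ ∑ p ∈ Finset.Ioc P H, ((p : ℝ) ^ 2)⁻¹ * (3 * (H : ℝ)) ^ (n + 1) := by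
    refine (Nat.cast_le.2 (h1.trans h2)).trans ?_
    rw [Nat.cast_sum]
    exact Finset.sum_le_sum h4
  refine h5.trans ?_
  rw [← Finset.sum_mul]
  rcases le_total P H with hPH | hPH
  · have h6 : ∑ p ∈ Finset.Ioc P H, ((p : ℝ) ^ 2)⁻¹ ≤ (P : ℝ)⁻¹ := by
      refine (sum_Ioc_inv_sq_le_sub (by omega) hPH).trans ?_
      have : (0 : ℝ) ≤ (H : ℝ)⁻¹ := by positivity
      linarith
    have hP0 : (0 : ℝ) < P := by exact_mod_cast hP1
    calc (∑ p ∈ Finset.Ioc P H, ((p : ℝ) ^ 2)⁻¹) * (3 * (H : ℝ)) ^ (n + 1)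
        ≤ (P : ℝ)⁻¹ * (3 * (H : ℝ)) ^ (n + 1) :=
          mul_le_mul_of_nonneg_right h6 (by positivity)
      _ = (3 ^ (n + 1) * (P : ℝ)⁻¹) * H ^ (n + 1) := by rw [mul_pow]; ring
      _ ≤ ε * H ^ (n + 1) := by
        refine mul_le_mul_of_nonneg_right ?_ (by positivity)
        rw [div_le_iff₀ hε] at hP2
        rw [← div_eq_mul_inv, div_le_iff₀ hP0]
        linarith
  · rw [Finset.Ioc_eq_empty (by omega), Finset.sum_empty, zero_mul]
    positivity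

end Stoll308.SC
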