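import Pool.Agent.Work.MP_308fa9_nt.SC.Basic
import Pool.Agent.Work.MP_308fa9_nt.OF.Basic

set_option autoImplicit false

/-!
The powers of the small primes in the leading coefficient are bounded.
-/

namespace Stoll308.SC

open Polynomial Finset Matrix BG BF

/-- `a₀ = sfp(a₀) r` with `0 < |r| ≤ P`. -/
lemma exists_quot (κ : ℤ) (hκ : κ ≠ 0) (S : ℝ) (P : ℕ) (hSP : S ≤ P)
    (hS : |(κ : ℝ)| ≤ S * OF.sfp κ) :
    ∃ r : ℤ, r ≠ 0 ∧ r.natAbs ≤ P ∧ κ = (OF.sfp κ : ℤ) * r := by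
  obtain ⟨r, hr⟩ := OF.sfp_dvd (κ := κ)
  have hs : 0 < OF.sfp κ := OF.sfp_pos κ
  have hr0 : r ≠ 0 := by
    rintro rfl
    rw [mul_zero] at hr
    exact hκ hr
  refine ⟨r, hr0, ?_, hr⟩
  have h1 : |(κ : ℝ)| = (OF.sfp κ : ℝ) * (r.natAbs : ℝ) := by
    have h2 : (κ : ℝ) = (OF.sfp κ : ℝ) * (r : ℝ) := by
      exact_mod_cast congrArg (Int.cast : ℤ → ℝ) hr
    rw [h2, abs_mul, Nat.abs_cast, Nat.cast_natAbs, Int.cast_abs]
  have hs' : (0 : ℝ) < OF.sfp κ := by exact_mod_cast hs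
  have h3 : (r.natAbs : ℝ) ≤ S := by
    rw [h1, mul_comm] at hS
    exact le_of_mul_le_mul_right hS hs'
  exact_mod_cast h3.trans hSP

lemma norm_sfp (κ : ℤ) (p : ℕ) [Fact p.Prime] : ‖(p : ℚ_[p])‖ ≤ ‖((OF.sfp κ : ℕ) : ℚ_[p])‖ := by
  have hp : p.Prime := Fact.out
  have hsq := OF.sfp_squarefree κ
  by_cases h : p ∣ OF.sfp κ
  · obtain ⟨m, hm⟩ := h
    have h1 : ¬ p ∣ m := by
      rintro ⟨l, rfl⟩
      have h2 : p * p ∣ OF.sfp κ := ⟨l, by rw [hm, mul_assoc]⟩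
      exact hp.one_lt.ne' (Nat.isUnit_iff.1 (hsq p h2))
    have h3 : ‖((m : ℕ) : ℚ_[p])‖ = 1 := by
      rw [← Int.cast_natCast]
      exact (Padic.norm_intCast_eq_one_iff).2
        (Nat.isCoprime_iff_coprime.2 ((Nat.Prime.coprime_iff_not_dvd hp).2 h1).symm)
    rw [hm, Nat.cast_mul, norm_mul, h3, mul_one]
  · have h3 : ‖((OF.sfp κ : ℕ) : ℚ_[p])‖ = 1 := by
      rw [← Int.cast_natCast]
      exact (Padic.norm_intCast_eq_one_iff).2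
        (Nat.isCoprime_iff_coprime.2 ((Nat.Prime.coprime_iff_not_dvd hp).2 h).symm)
    rw [h3]
    exact (Padic.norm_p_lt_one (p := p)).le

/-- If `|a₀| ≤ S · sfp(a₀)` and `S ≤ P` then `(P!)² / a₀` is integral at the primes `p ≤ P`. -/
theorem fac_le (κ : ℤ) (hκ : κ ≠ 0) (S : ℝ) (P : ℕ) (hSP : S ≤ P)
    (hS : |(κ : ℝ)| ≤ S * OF.sfp κ) (p : ℕ) [Fact p.Prime] (hp : p ≤ P) :
    ‖((P.factorial : ℚ_[p]) ^ 2)‖ ≤ ‖(κ : ℚ_[p])‖ := by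
  obtain ⟨r, hr0, hrP, hr⟩ := exists_quot κ hκ S P hSP hS
  have hpp : p.Prime := Fact.out
  have hmul : ∀ m : ℕ, m ∣ P.factorial → ‖(P.factorial : ℚ_[p])‖ ≤ ‖(m : ℚ_[p])‖ := by
    rintro m ⟨l, hl⟩
    rw [hl, Nat.cast_mul, norm_mul]
    have h1 : ‖((l : ℕ) : ℚ_[p])‖ ≤ 1 := by
      rw [← Int.cast_natCast]
      exact Padic.norm_int_le_one _
    exact mul_le_of_le_one_right (norm_nonneg _) h1
  have h1 := hmul p (Nat.dvd_factorial hpp.pos hp)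
  have h2 := hmul r.natAbs (Nat.dvd_factorial (Int.natAbs_pos.2 hr0) hrP)
  have h3 : ‖((r.natAbs : ℕ) : ℚ_[p])‖ = ‖((r : ℤ) : ℚ_[p])‖ := by
    rcases Int.natAbs_eq r with h | h
    · conv_rhs => rw [h]
      rw [Int.cast_natCast]
    · conv_rhs => rw [h]
      rw [Int.cast_neg, norm_neg, Int.cast_natCast]
  have h4 : ‖(κ : ℚ_[p])‖ = ‖((OF.sfp κ : ℕ) : ℚ_[p])‖ * ‖((r : ℤ) : ℚ_[p])‖ := by
    conv_lhs => rw [hr]
    rw [Int.cast_mul, norm_mul, Int.cast_natCast]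
  rw [h4, norm_pow, pow_two]
  exact mul_le_mul (h1.trans (norm_sfp κ p)) (h2.trans_eq h3) (norm_nonneg _) (norm_nonneg _)

/-- If `|a₀| ≤ S · sfp(a₀)` and `S ≤ P` then the square of a prime `p > P` does not divide
`a₀`. -/
theorem sq_not_dvd (κ : ℤ) (hκ : κ ≠ 0) (S : ℝ) (P : ℕ) (hSP : S ≤ P)
    (hS : |(κ : ℝ)| ≤ S * OF.sfp κ) (p : ℕ) (hp : p.Prime) (hpP : P < p) :
    ¬ (p : ℤ) ^ 2 ∣ κ := by
  intro h
  obtain ⟨r, hr0, hrP, hr⟩ := exists_quot κ hκ S P hSP hS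
  have h1 : ¬ p ∣ OF.sfp κ := fun h2 => ((OF.prime_dvd_sfp hκ hp).1 h2).2 h
  have h2 : IsCoprime ((p : ℤ) ^ 2) (OF.sfp κ : ℤ) :=
    (Nat.isCoprime_iff_coprime.2 ((Nat.Prime.coprime_iff_not_dvd hp).2 h1)).pow_left
  rw [hr] at h
  have h3 : (p : ℤ) ^ 2 ∣ r := h2.dvd_of_dvd_mul_left h
  have h4 : p ^ 2 ∣ r.natAbs := by
    rw [← Nat.cast_pow] at h3
    exact Int.natCast_dvd.1 h3
  have h5 : p ^ 2 ≤ r.natAbs := Nat.le_of_dvd (Int.natAbs_pos.2 hr0) h4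
  have h6 : p ≤ p ^ 2 := Nat.le_self_pow two_ne_zero p
  omega

end Stoll308.SC
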