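import Pool.Agent.Work.MP_308fa9_nt.SC.Congr

set_option autoImplicit false

/-!
Irreducible polynomials over `ℚ_p` are integral or have an integral reversal.
-/

namespace Stoll308.SC

open Polynomial Finset

/-- The spectral value of a monic irreducible polynomial over `ℚ_p`. -/
theorem spectralValue_irr (p : ℕ) [Fact p.Prime] (π : ℚ_[p][X]) (hm : π.Monic)
    (hirr : Irreducible π) :
    spectralValue π = ‖π.coeff 0‖ ^ (1 / π.natDegree : ℝ) := by
  have hfact : Fact (Irreducible π) := ⟨hirr⟩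
  have hfin : FiniteDimensional ℚ_[p] (AdjoinRoot π) :=
    (AdjoinRoot.powerBasis hirr.ne_zero).finite
  have hmin : minpoly ℚ_[p] (AdjoinRoot.root π) = π := by
    rw [AdjoinRoot.minpoly_root hirr.ne_zero, hm.leadingCoeff, inv_one, C_1, mul_one]
  have h := spectralNorm.spectralNorm_eq_norm_coeff_zero_rpow ℚ_[p] (AdjoinRoot π)
    (AdjoinRoot.root π)
  rw [spectralNorm, hmin] at h
  exact h

theorem slope (p : ℕ) [Fact p.Prime] (π : ℚ_[p][X]) (hm : π.Monic) (hirr : Irreducible π) :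
    (∀ i, ‖π.coeff i‖ ≤ 1) ∨ ∀ i, 0 < i → ‖π.coeff i‖ < ‖π.coeff 0‖ := by
  have hsv := spectralValue_irr p π hm hirr
  have hdeg : 0 < π.natDegree := hirr.natDegree_pos
  rcases le_or_gt ‖π.coeff 0‖ 1 with hc | hc
  · left
    rw [← spectralValue_le_one_iff hm, hsv]
    exact Real.rpow_le_one (norm_nonneg _) hc (by positivity)
  · right
    intro i hi
    rcases lt_trichotomy i π.natDegree with h | h | h
    · have h1 : spectralValueTerms π i ≤ spectralValue π :=
        le_ciSup (spectralValueTerms_bddAbove π) i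
      rw [spectralValueTerms_of_lt_natDegree _ h, hsv] at h1
      have hpos : (0 : ℝ) < (π.natDegree : ℝ) - i := by
        rw [sub_pos]; exact_mod_cast h
      have h2 : ‖π.coeff i‖ ≤ ‖π.coeff 0‖ ^ ((π.natDegree - i : ℝ) / π.natDegree) := by
        have h3 := Real.rpow_le_rpow (Real.rpow_nonneg (norm_nonneg _) _) h1 hpos.le
        rw [← Real.rpow_mul (norm_nonneg _), ← Real.rpow_mul (norm_nonneg _),
          one_div_mul_cancel hpos.ne', Real.rpow_one] at h3
        rwa [show (1 / (π.natDegree : ℝ)) * ((π.natDegree : ℝ) - i) =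
          ((π.natDegree : ℝ) - i) / π.natDegree by ring] at h3
      refine h2.trans_lt ?_
      calc ‖π.coeff 0‖ ^ ((π.natDegree - i : ℝ) / π.natDegree) < ‖π.coeff 0‖ ^ (1 : ℝ) := by
            apply Real.rpow_lt_rpow_of_exponent_lt hc
            have hd : (0 : ℝ) < π.natDegree := by exact_mod_cast hdeg
            rw [div_lt_one hd]
            have : (0 : ℝ) < i := by exact_mod_cast hi
            linarith
        _ = ‖π.coeff 0‖ := Real.rpow_one _
    · rw [h, hm.coeff_natDegree, norm_one]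
      exact hc
    · rw [coeff_eq_zero_of_natDegree_lt h, norm_zero]
      linarith

theorem slope_toQ_mul {p : ℕ} [Fact p.Prime] (f g : ℤ_[p][X]) : toQ (f * g) = toQ f * toQ g :=
  Polynomial.map_mul _

theorem slope_toQ_one {p : ℕ} [Fact p.Prime] (G : ℤ_[p][X]) :
    toQ (1 + C (p : ℤ_[p]) * G) = 1 + C (p : ℚ_[p]) * toQ G := by
  simp only [toQ, Polynomial.map_add, Polynomial.map_mul, Polynomial.map_one, map_natCast,
    Polynomial.map_natCast]

theorem norm_div_p_le {p : ℕ} [Fact p.Prime] {y : ℚ_[p]} (hy : ‖y‖ < 1) : ‖y / p‖ ≤ 1 := by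
  have h1 : (p : ℤ_[p]) ∣ (⟨y, hy.le⟩ : ℤ_[p]) := by
    rw [← PadicInt.norm_lt_one_iff_dvd]
    exact hy
  obtain ⟨w, hw⟩ := h1
  have h2 : y = (p : ℚ_[p]) * (w : ℚ_[p]) := by
    have := congrArg (fun z : ℤ_[p] => (z : ℚ_[p])) hw
    simpa using this
  have hp0 : (p : ℚ_[p]) ≠ 0 := by exact_mod_cast (Fact.out : p.Prime).ne_zero
  rw [h2, mul_div_cancel_left₀ _ hp0]
  exact w.2

theorem split_irr (p : ℕ) [Fact p.Prime] (π : ℚ_[p][X]) (hm : π.Monic) (hirr : Irreducible π) :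
    ∃ (v : ℚ_[p]) (H G : ℤ_[p][X]), v ≠ 0 ∧ H.Monic ∧
      π = C v * toQ H * toQ (1 + C (p : ℤ_[p]) * G) := by
  have hp0 : (p : ℚ_[p]) ≠ 0 := by exact_mod_cast (Fact.out : p.Prime).ne_zero
  rcases slope p π hm hirr with h | h
  · obtain ⟨H, hH, -, hHm⟩ := exists_toQ π h
    exact ⟨1, H, 0, one_ne_zero, hHm hm, by rw [hH]; simp⟩
  · have h0 : π.coeff 0 ≠ 0 := by
      intro h1
      have h2 := h π.natDegree hirr.natDegree_pos
      rw [h1, norm_zero] at h2
      exact absurd h2 (not_lt.2 (norm_nonneg _))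
    obtain ⟨G, hG, -, -⟩ := exists_toQ (C ((π.coeff 0 * p)⁻¹) * (π - C (π.coeff 0))) (by
      intro i
      rw [coeff_C_mul, coeff_sub, coeff_C]
      split_ifs with hi
      · rw [hi, sub_self, mul_zero, norm_zero]
        exact zero_le_one
      · rw [sub_zero]
        have h3 : (π.coeff 0 * p)⁻¹ * π.coeff i = (π.coeff i / π.coeff 0) / p := by
          field_simp
        rw [h3]
        apply norm_div_p_le
        rw [norm_div, div_lt_one (norm_pos_iff.2 h0)]
        exact h i (Nat.pos_of_ne_zero hi))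
    refine ⟨π.coeff 0, 1, G, h0, monic_one, ?_⟩
    have h1 : toQ (1 : ℤ_[p][X]) = 1 := Polynomial.map_one _
    rw [slope_toQ_one, hG, h1, mul_one, mul_add, mul_one, ← mul_assoc, ← mul_assoc, ← C_mul,
      ← C_mul, mul_inv_cancel₀ (mul_ne_zero h0 hp0), C_1, one_mul]
    ring

theorem split_poly (p : ℕ) [Fact p.Prime] (f : ℚ_[p][X]) (hf : f ≠ 0) :
    ∃ (v : ℚ_[p]) (H G : ℤ_[p][X]), v ≠ 0 ∧ H.Monic ∧
      f = C v * toQ H * toQ (1 + C (p : ℤ_[p]) * G) := by
  induction f using WfDvdMonoid.induction_on_irreducible with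
  | zero => exact absurd rfl hf
  | unit u hu =>
    obtain ⟨v, hv, rfl⟩ := Polynomial.isUnit_iff.1 hu
    exact ⟨v, 1, 0, hv.ne_zero, monic_one, by simp⟩
  | mul a i ha hi ih =>
    obtain ⟨v, H, G, hv, hH, e⟩ := ih ha
    have hlc : i.leadingCoeff ≠ 0 := leadingCoeff_ne_zero.2 hi.ne_zero
    have hm : (i * C (i.leadingCoeff)⁻¹).Monic := monic_mul_leadingCoeff_inv hi.ne_zero
    have hirr : Irreducible (i * C (i.leadingCoeff)⁻¹) := by
      rw [irreducible_mul_isUnit (isUnit_C.2 (isUnit_iff_ne_zero.2 (inv_ne_zero hlc)))]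
      exact hi
    obtain ⟨v', H', G', hv', hH', e'⟩ := split_irr p _ hm hirr
    have hi' : i = C i.leadingCoeff * (C v' * toQ H' * toQ (1 + C (p : ℤ_[p]) * G')) := by
      rw [← e', mul_comm i, ← mul_assoc, ← C_mul, mul_inv_cancel₀ hlc, C_1, one_mul]
    refine ⟨i.leadingCoeff * v' * v, H' * H, G + G' + C (p : ℤ_[p]) * (G * G'),
      mul_ne_zero (mul_ne_zero hlc hv') hv, hH'.mul hH, ?_⟩
    have h1 : (1 + C (p : ℤ_[p]) * (G + G' + C (p : ℤ_[p]) * (G * G'))) =
        (1 + C (p : ℤ_[p]) * G) * (1 + C (p : ℤ_[p]) * G') := by ring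
    rw [h1, slope_toQ_mul, slope_toQ_mul, C_mul, C_mul]
    nth_rw 1 [hi']
    rw [e]
    ring

end Stoll308.SC
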