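import Pool.Agent.Work.MP_308fa9_nt.SC.Basic

set_option autoImplicit false

/-!
Square roots of elements congruent to `1` modulo `p`.
-/

namespace Stoll308.SC

open Polynomial Finset

namespace SqRoot

variable {p : ℕ} [Fact p.Prime] {n : ℕ} {R : Type*} [CommRing R] [Algebra ℤ_[p] R]

theorem repr_mul (b : Module.Basis (Fin n) ℤ_[p] R) (x y : R) :
    b.equivFun (x * y) =
      ∑ i, ∑ j, (b.equivFun x i * b.equivFun y j) • b.equivFun (b i * b j) := by
  conv_lhs => rw [← b.sum_equivFun x, ← b.sum_equivFun y]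
  rw [Finset.sum_mul_sum, map_sum]
  refine Finset.sum_congr rfl fun i _ => ?_
  rw [map_sum]
  refine Finset.sum_congr rfl fun j _ => ?_
  rw [smul_mul_smul_comm, map_smul]

theorem cont_mul (b : Module.Basis (Fin n) ℤ_[p] R) {f g : (Fin n → ℤ_[p]) → R}
    (hf : Continuous fun v => b.equivFun (f v)) (hg : Continuous fun v => b.equivFun (g v)) :
    Continuous fun v => b.equivFun (f v * g v) := by
  have e : (fun v => b.equivFun (f v * g v)) = fun v =>
      ∑ i, ∑ j, (b.equivFun (f v) i * b.equivFun (g v) j) • b.equivFun (b i * b j) :=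
    funext fun v => repr_mul b _ _
  rw [e]
  refine continuous_finsetSum _ fun i _ => continuous_finsetSum _ fun j _ => ?_
  exact (((continuous_apply i).comp hf).mul ((continuous_apply j).comp hg)).smul
    continuous_const

/-- A zero by compactness. -/
theorem exists_zero (b : Module.Basis (Fin n) ℤ_[p] R) (F : R → R)
    (hF : Continuous fun v : Fin n → ℤ_[p] => b.equivFun (F (b.equivFun.symm v)))
    (h : ∀ k : ℕ, ∃ s c : R, F s = algebraMap ℤ_[p] R ((p : ℤ_[p]) ^ k) * c) :
    ∃ s, F s = 0 := by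
  obtain ⟨v, -, hv⟩ := IsCompact.exists_isMinOn (isCompact_univ (X := Fin n → ℤ_[p]))
    Set.univ_nonempty (hF.norm.continuousOn)
  refine ⟨b.equivFun.symm v, ?_⟩
  by_contra hne
  have hpos : 0 < ‖b.equivFun (F (b.equivFun.symm v))‖ := by
    rw [norm_pos_iff]
    intro h0
    exact hne ((LinearEquiv.map_eq_zero_iff _).1 h0)
  have hp1 : (1 : ℝ) < p := by exact_mod_cast (Fact.out : p.Prime).one_lt
  obtain ⟨k, hk⟩ := exists_pow_lt_of_lt_one hpos (inv_lt_one_of_one_lt₀ hp1)
  obtain ⟨s, c, hs⟩ := h k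
  have h1 := hv (Set.mem_univ (b.equivFun s))
  simp only [Set.mem_ofPred_eq, LinearEquiv.symm_apply_apply] at h1
  rw [hs, ← Algebra.smul_def, map_smul] at h1
  have h2 : ‖((p : ℤ_[p]) ^ k) • b.equivFun c‖ ≤ ((p : ℝ)⁻¹) ^ k := by
    refine (pi_norm_le_iff_of_nonneg (by positivity)).2 fun i => ?_
    rw [Pi.smul_apply, smul_eq_mul, norm_mul, norm_pow, PadicInt.norm_p]
    exact mul_le_of_le_one_right (by positivity) (PadicInt.norm_le_one _)
  linarith

end SqRoot

open SqRoot in
theorem sq_root (p : ℕ) [Fact p.Prime] (hp : p ≠ 2) (g G : ℤ_[p][X]) (hg : g.Monic) :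
    ∃ s t : ℤ_[p][X], g ∣ (1 + C (p : ℤ_[p]) * G) - s ^ 2 ∧ g ∣ s * t - 1 := by
  set b := (AdjoinRoot.powerBasis' hg).basis with hb
  set a : AdjoinRoot g := AdjoinRoot.mk g (1 + C (p : ℤ_[p]) * G) with ha
  set G' : AdjoinRoot g := AdjoinRoot.mk g G with hG'
  have hC : ∀ z : ℤ_[p], AdjoinRoot.mk g (C z) = algebraMap ℤ_[p] (AdjoinRoot g) z := by
    intro z
    rw [AdjoinRoot.mk_C]
    rfl
  have ha1 : a = 1 + algebraMap ℤ_[p] (AdjoinRoot g) p * G' := by
    rw [ha, map_add, map_mul, map_one, hC]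
  have hid : Continuous fun v : Fin (AdjoinRoot.powerBasis' hg).dim → ℤ_[p] =>
      b.equivFun (b.equivFun.symm v) := by
    simp only [LinearEquiv.apply_symm_apply]
    exact continuous_id
  have hconst : ∀ c : AdjoinRoot g,
      Continuous fun _ : Fin (AdjoinRoot.powerBasis' hg).dim → ℤ_[p] => b.equivFun c :=
    fun c => continuous_const
  -- two is invertible
  obtain ⟨c2, hc2⟩ : ∃ c : ℤ_[p], 2 * c = 1 := by
    have hu : IsUnit (2 : ℤ_[p]) := by
      by_contra hu
      have h1 := PadicInt.not_isUnit_iff.1 hu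
      have e2 : ((2 : ℤ) : ℤ_[p]) = 2 := by norm_num
      rw [← e2, PadicInt.norm_int_lt_one_iff_dvd] at h1
      have h3 : p ∣ 2 := by exact_mod_cast h1
      exact hp ((Nat.prime_dvd_prime_iff_eq Fact.out Nat.prime_two).1 h3)
    obtain ⟨u, hu⟩ := hu
    exact ⟨(u⁻¹ : ℤ_[p]ˣ), by rw [← hu]; exact u.mul_inv⟩
  -- the square root
  obtain ⟨s, hs⟩ : ∃ s : AdjoinRoot g, s ^ 2 - a = 0 := by
    refine exists_zero b (fun s => s ^ 2 - a) ?_ ?_
    · simp only [map_sub, sq]
      exact (cont_mul b hid hid).sub (hconst a)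
    · intro k
      have key : ∀ k : ℕ, ∃ s c : AdjoinRoot g,
          s ^ 2 - a = algebraMap ℤ_[p] (AdjoinRoot g) ((p : ℤ_[p]) ^ (k + 1)) * c := by
        intro k
        induction k with
        | zero => exact ⟨1, -G', by rw [ha1]; ring_nf⟩
        | succ k ih =>
          obtain ⟨s, c, hsc⟩ := ih
          set P := algebraMap ℤ_[p] (AdjoinRoot g) p with hP
          set D := algebraMap ℤ_[p] (AdjoinRoot g) c2 with hD
          have hD2 : 2 * D = 1 := by
            have := congrArg (algebraMap ℤ_[p] (AdjoinRoot g)) hc2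
            rw [map_mul, map_one, map_ofNat] at this
            exact this
          have e1 : ∀ m : ℕ, algebraMap ℤ_[p] (AdjoinRoot g) ((p : ℤ_[p]) ^ m) = P ^ m := by
            intro m
            rw [map_pow]
          rw [e1] at hsc ⊢
          have hs2 : s ^ 2 = 1 + P * (G' + P ^ k * c) := by
            have : s ^ 2 = a + P ^ (k + 1) * c := by rw [← hsc]; ring
            rw [this, ha1]; ring
          refine ⟨s - P ^ (k + 1) * c * D * s,
            -(G' + P ^ k * c) * c + P ^ k * c ^ 2 * D ^ 2 * s ^ 2, ?_⟩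
          have e2 : (s - P ^ (k + 1) * c * D * s) ^ 2 - a =
              (s ^ 2 - a) - P ^ (k + 1) * c * (2 * D) * s ^ 2 +
                P ^ (k + 1) * P ^ (k + 1) * c ^ 2 * D ^ 2 * s ^ 2 := by ring
          rw [e2, hD2, hsc]
          have e3 : P ^ (k + 1) * c - P ^ (k + 1) * c * 1 * s ^ 2 =
              - P ^ (k + 1) * c * (P * (G' + P ^ k * c)) := by
            rw [hs2]; ring
          rw [e3]
          ring
      obtain ⟨s, c, h⟩ := key k
      refine ⟨s, algebraMap ℤ_[p] (AdjoinRoot g) p * c, ?_⟩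
      rw [h, pow_succ, map_mul, mul_assoc]
  -- the inverse
  obtain ⟨t, ht⟩ : ∃ t : AdjoinRoot g, a * t - 1 = 0 := by
    refine exists_zero b (fun t => a * t - 1) ?_ ?_
    · simp only [map_sub]
      exact (cont_mul b (hconst a) hid).sub (hconst 1)
    · intro k
      refine ⟨∑ i ∈ Finset.range k, (-(algebraMap ℤ_[p] (AdjoinRoot g) p * G')) ^ i,
        -(-G') ^ k, ?_⟩
      have h1 := mul_neg_geom_sum (-(algebraMap ℤ_[p] (AdjoinRoot g) p * G')) k
      have h2 : a = 1 - -(algebraMap ℤ_[p] (AdjoinRoot g) p * G') := by rw [ha1]; ring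
      rw [h2, h1, map_pow, neg_mul_eq_mul_neg, mul_pow]
      ring
  obtain ⟨s', rfl⟩ := AdjoinRoot.mk_surjective s
  obtain ⟨t', rfl⟩ := AdjoinRoot.mk_surjective t
  refine ⟨s', s' * t', ?_, ?_⟩
  · rw [← AdjoinRoot.mk_eq_mk, map_pow]
    exact (sub_eq_zero.1 hs).symm
  · rw [← AdjoinRoot.mk_eq_zero, map_sub, map_one, map_mul, map_mul, ← mul_assoc, ← sq]
    rw [sub_eq_zero.1 hs]
    exact ht

end Stoll308.SC
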