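import Pool.Agent.Work.MP_308fa9_nt.SC.Basic

set_option autoImplicit false

/-!
Irreducible factors of odd multiplicity of a characteristic polynomial.
-/

namespace Stoll308.SC

open Polynomial Finset

namespace OddSq

/-- The determinant of a scalar plus a nilpotent endomorphism. -/
theorem det_scalar_add_nilpotent {L V : Type*} [Field L] [AddCommGroup V] [Module L V]
    [Module.Finite L V] (c : L) (N : Module.End L V) (hN : IsNilpotent N) :
    LinearMap.det (algebraMap L (Module.End L V) c + N) = c ^ Module.finrank L V := by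
  have h := LinearMap.eval_charpoly (-N) c
  rw [IsNilpotent.charpoly_eq_X_pow_finrank hN.neg] at h
  rw [sub_neg_eq_add, eval_pow, eval_X] at h
  exact h.symm

/-- If `Y² = F(Φ)` and the generalized eigenspace of `Φ` at `α` has odd dimension, then `F(α)`
is a square. -/
theorem sq_of_odd_eigenspace {L V : Type*} [Field L] [AddCommGroup V] [Module L V]
    [Module.Finite L V] (Φ Y : Module.End L V) (hc : Commute Φ Y) (F : L[X])
    (e : Y * Y = aeval Φ F) (α : L) (ho : Odd (Module.finrank L (Φ.maxGenEigenspace α))) :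
    ∃ c : L, F.eval α = c ^ 2 := by
  by_cases h0 : F.eval α = 0
  · exact ⟨0, by simp [h0]⟩
  obtain ⟨G, hG⟩ := X_sub_C_dvd_sub_C_eval (a := α) (p := F)
  have hcG : Commute Φ (aeval Φ G) := by
    have : Commute (aeval Φ (X : L[X])) (aeval Φ G) := by
      rw [Commute, SemiconjBy, ← map_mul, ← map_mul, mul_comm]
    simpa using this
  have hΦ : Commute Φ (Φ - algebraMap L (Module.End L V) α) :=
    Algebra.mul_sub_algebraMap_commutes Φ α
  have m1 := Module.End.mapsTo_maxGenEigenspace_of_comm hc α
  have m2 := Module.End.mapsTo_maxGenEigenspace_of_comm hcG α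
  have m3 := Module.End.mapsTo_maxGenEigenspace_of_comm hΦ α
  have hN := Φ.isNilpotent_restrict_maxGenEigenspace_sub_algebraMap α
  set W := Φ.maxGenEigenspace α with hW
  set N : Module.End L W := (Φ - algebraMap L (Module.End L V) α).restrict m3 with hNdef
  set G' : Module.End L W := (aeval Φ G).restrict m2
  set Y' : Module.End L W := Y.restrict m1
  have hcom : Commute N G' := by
    have : Commute (Φ - algebraMap L (Module.End L V) α) (aeval Φ G) :=
      hcG.sub_left (Algebra.commutes α (aeval Φ G))
    exact LinearMap.restrict_commute this m3 m2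
  have hnil : IsNilpotent (N * G') := hcom.isNilpotent_mul_right hN
  have key : Y' * Y' = algebraMap L (Module.End L W) (F.eval α) + N * G' := by
    apply LinearMap.ext
    intro x
    apply Subtype.ext
    have h1 := LinearMap.congr_fun e (x : V)
    have h2 : aeval Φ F = algebraMap L (Module.End L V) (F.eval α) +
        (Φ - algebraMap L (Module.End L V) α) * aeval Φ G := by
      have : F = C (F.eval α) + (X - C α) * G := by rw [← hG]; ring
      conv_lhs => rw [this]
      simp
    rw [h2] at h1
    exact h1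
  have hd := congrArg LinearMap.det key
  rw [map_mul, det_scalar_add_nilpotent _ _ hnil] at hd
  obtain ⟨k, hk⟩ := ho
  refine ⟨LinearMap.det Y' / (F.eval α) ^ k, ?_⟩
  rw [hk] at hd
  rw [div_pow, eq_div_iff (pow_ne_zero 2 (pow_ne_zero k h0)), sq (LinearMap.det Y'), hd]
  ring

/-- The multiplicity of a root of a power. -/
theorem rootMultiplicity_pow' {L : Type*} [Field L] (q : L[X]) (hq : q ≠ 0) (α : L) (m : ℕ) :
    (q ^ m).rootMultiplicity α = m * q.rootMultiplicity α := by
  induction m with
  | zero => simp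
  | succ m ih =>
    rw [pow_succ, rootMultiplicity_mul (mul_ne_zero (pow_ne_zero m hq) hq), ih]
    ring

/-- The multiplicity of a root of an irreducible polynomial is the multiplicity of the
polynomial. -/
theorem rootMultiplicity_adjoinRoot {K : Type*} [Field K] [CharZero K] (π χ : K[X])
    [Fact (Irreducible π)] (hχ0 : χ ≠ 0) :
    (χ.map (AdjoinRoot.of π)).rootMultiplicity (AdjoinRoot.root π) = multiplicity π χ := by
  have hπ : Irreducible π := Fact.out
  have hfin : FiniteMultiplicity π χ :=
    FiniteMultiplicity.of_not_isUnit hπ.not_isUnit hχ0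
  obtain ⟨g, hg, hg'⟩ := hfin.exists_eq_pow_mul_and_not_dvd
  set m := multiplicity π χ with hm
  have hsep : π.Separable := hπ.separable
  have hr : (π.map (AdjoinRoot.of π)).IsRoot (AdjoinRoot.root π) := AdjoinRoot.isRoot_root π
  have hπ1 : (π.map (AdjoinRoot.of π)).rootMultiplicity (AdjoinRoot.root π) = 1 := by
    have h1 : 0 < (π.map (AdjoinRoot.of π)).rootMultiplicity (AdjoinRoot.root π) := by
      rw [rootMultiplicity_pos (map_ne_zero hπ.ne_zero)]
      exact hr
    have h2 := rootMultiplicity_le_one_of_separable (hsep.map (f := AdjoinRoot.of π))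
      (AdjoinRoot.root π)
    omega
  have hg1 : (g.map (AdjoinRoot.of π)).rootMultiplicity (AdjoinRoot.root π) = 0 := by
    apply rootMultiplicity_eq_zero
    intro h
    apply hg'
    have h2 : (g.map (AdjoinRoot.of π)).eval (AdjoinRoot.root π) = 0 := h
    rw [← AdjoinRoot.algebraMap_eq, eval_map_algebraMap, AdjoinRoot.aeval_eq,
      AdjoinRoot.mk_eq_zero] at h2
    exact h2
  have hg0 : g ≠ 0 := by
    rintro rfl
    simp at hg'
  rw [hg, Polynomial.map_mul, Polynomial.map_pow, rootMultiplicity_mul, hg1, add_zero,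
    rootMultiplicity_pow' _ (map_ne_zero hπ.ne_zero), hπ1, mul_one]
  exact mul_ne_zero (pow_ne_zero _ (map_ne_zero hπ.ne_zero)) (map_ne_zero hg0)

end OddSq

open OddSq

/-- If `y² = F(t)` in a finite commutative algebra, then `F` is a square modulo every irreducible
factor of odd multiplicity of the characteristic polynomial of the multiplication by `t`. -/
theorem sq_mod_odd {K : Type*} [Field K] [CharZero K] {E : Type*} [CommRing E] [Algebra K E]
    [Module.Finite K E] (t y : E) (F : K[X]) (e : y ^ 2 = aeval t F) (π : K[X])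
    (hπ : Irreducible π) (hodd : Odd (multiplicity π (LinearMap.mulLeft K t).charpoly)) :
    ∃ r : K[X], π ∣ F - r ^ 2 := by
  have : Fact (Irreducible π) := ⟨hπ⟩
  have hχ0 : (LinearMap.mulLeft K t).charpoly ≠ 0 := (LinearMap.charpoly_monic _).ne_zero
  have hmult := rootMultiplicity_adjoinRoot π (LinearMap.mulLeft K t).charpoly hχ0
  set L := AdjoinRoot π with hL
  set β := Module.End.baseChangeHom K L E with hβ
  set lm := Algebra.lmul K E with hlm
  have h1 : (β (lm t)).charpoly = (LinearMap.mulLeft K t).charpoly.map (AdjoinRoot.of π) :=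
    LinearMap.charpoly_baseChange (A := L) (LinearMap.mulLeft K t)
  have hc : Commute (β (lm t)) (β (lm y)) := by
    rw [Commute, SemiconjBy, ← map_mul, ← map_mul, ← map_mul, ← map_mul, mul_comm]
  have h2 : β (lm y) * β (lm y) = aeval (β (lm t)) (F.map (AdjoinRoot.of π)) := by
    rw [← map_mul, ← map_mul, ← sq, e, ← AdjoinRoot.algebraMap_eq, aeval_map_algebraMap,
      ← aeval_algHom_apply, ← aeval_algHom_apply]
  obtain ⟨c, hc'⟩ := sq_of_odd_eigenspace (β (lm t)) (β (lm y)) hc _ h2 (AdjoinRoot.root π)
    (by rw [LinearMap.finrank_maxGenEigenspace_eq, h1, hmult]; exact hodd)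
  obtain ⟨r, rfl⟩ := AdjoinRoot.mk_surjective c
  refine ⟨r, ?_⟩
  rw [← AdjoinRoot.mk_eq_zero, map_sub, map_pow, ← hc', ← AdjoinRoot.algebraMap_eq,
    eval_map_algebraMap, AdjoinRoot.aeval_eq, sub_self]

/-- If `F(t)` is invertible then `F` is prime to the characteristic polynomial of `t`. -/
theorem charpoly_coprime {K : Type*} [Field K] {E : Type*} [CommRing E] [Algebra K E]
    [Module.Finite K E] (t : E) (F : K[X]) (h : IsUnit (aeval t F)) :
    IsCoprime (LinearMap.mulLeft K t).charpoly F := by
  apply isCoprime_of_irreducible_dvd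
  · rintro ⟨h0, -⟩
    exact (LinearMap.charpoly_monic (LinearMap.mulLeft K t)).ne_zero h0
  intro π hπ h1 h2
  have : Fact (Irreducible π) := ⟨hπ⟩
  set L := AdjoinRoot π with hL
  set β := Module.End.baseChangeHom K L E with hβ
  set lm := Algebra.lmul K E with hlm
  have h3 : (β (lm t)).charpoly = (LinearMap.mulLeft K t).charpoly.map (AdjoinRoot.of π) :=
    LinearMap.charpoly_baseChange (A := L) (LinearMap.mulLeft K t)
  have h4 : (β (lm t)).charpoly.IsRoot (AdjoinRoot.root π) := by
    rw [h3, IsRoot, ← AdjoinRoot.algebraMap_eq, eval_map_algebraMap, AdjoinRoot.aeval_eq,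
      AdjoinRoot.mk_eq_zero]
    exact h1
  rw [← Module.End.hasEigenvalue_iff_isRoot_charpoly] at h4
  obtain ⟨v, hv⟩ := h4.exists_hasEigenvector
  have h5 : aeval (β (lm t)) (F.map (AdjoinRoot.of π)) v =
      (F.map (AdjoinRoot.of π)).eval (AdjoinRoot.root π) • v := by
    exact Module.End.aeval_apply_of_hasEigenvector hv
  have h6 : (F.map (AdjoinRoot.of π)).eval (AdjoinRoot.root π) = 0 := by
    rw [← AdjoinRoot.algebraMap_eq, eval_map_algebraMap, AdjoinRoot.aeval_eq,
      AdjoinRoot.mk_eq_zero]
    exact h2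
  rw [h6, zero_smul, ← AdjoinRoot.algebraMap_eq, aeval_map_algebraMap, aeval_algHom_apply,
    aeval_algHom_apply] at h5
  have h7 : IsUnit (β (lm (aeval t F))) := (h.map lm).map β
  obtain ⟨u, hu⟩ := h7
  apply hv.2
  have h8 : (↑u⁻¹ * ↑u : Module.End L _) v = v := by
    rw [Units.inv_mul]; rfl
  rw [hu, Module.End.mul_apply, h5, map_zero] at h8
  exact h8.symm

namespace OddSq

/-- The image of the characteristic matrix under a substitution. -/
theorem map_charmatrix {K : Type*} [Field K] {m : ℕ} (M : Matrix (Fin m) (Fin m) K)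
    (φ : K[X] →+* K[X]) (hφ : ∀ c, φ (C c) = C c) :
    φ.mapMatrix M.charmatrix = Matrix.scalar (Fin m) (φ X) - (C : K →+* K[X]).mapMatrix M := by
  ext1 i j
  by_cases h : i = j
  · subst h
    simp [Matrix.charmatrix_apply_eq, hφ]
  · simp [hφ, h]

/-- The characteristic polynomial of the square of a matrix. -/
theorem expand_charpoly_sq {K : Type*} [Field K] {m : ℕ} (M : Matrix (Fin m) (Fin m) K) :
    expand K 2 (M * M).charpoly = (-1) ^ m * (M.charpoly * M.charpoly.comp (-X)) := by
  have h1 : expand K 2 (M * M).charpoly =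
      (Matrix.scalar (Fin m) (X : K[X]) - (C : K →+* K[X]).mapMatrix M).det *
      (Matrix.scalar (Fin m) (X : K[X]) + (C : K →+* K[X]).mapMatrix M).det := by
    rw [Matrix.charpoly, ← Matrix.det_mul]
    change (expand K 2).toRingHom _ = _
    rw [RingHom.map_det, map_charmatrix _ _ (fun c => expand_C 2 c)]
    congr 1
    have e1 : (expand K 2).toRingHom (X : K[X]) = X * X := by
      change expand K 2 X = _
      rw [expand_X, sq]
    rw [e1, map_mul, map_mul]
    have hcomm : Commute (Matrix.scalar (Fin m) (X : K[X])) ((C : K →+* K[X]).mapMatrix M) :=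
      Matrix.scalar_commute _ (fun _ => Commute.all _ _) _
    rw [sub_mul, mul_add, mul_add, hcomm.eq]
    abel
  have h2 : M.charpoly.comp (-X) =
      (-1) ^ m * (Matrix.scalar (Fin m) (X : K[X]) + (C : K →+* K[X]).mapMatrix M).det := by
    rw [Matrix.charpoly]
    change (compRingHom (-X)) _ = _
    rw [RingHom.map_det, map_charmatrix _ _ (fun c => by simp)]
    have e1 : compRingHom (-X) (X : K[X]) = -X := by simp
    have e2 : Matrix.scalar (Fin m) (-X : K[X]) - (C : K →+* K[X]).mapMatrix M =
        -(Matrix.scalar (Fin m) (X : K[X]) + (C : K →+* K[X]).mapMatrix M) := by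
      rw [map_neg]; abel
    rw [e1, e2, Matrix.det_neg, Fintype.card_fin]
  have h3 : ((-1 : K[X]) ^ m) * (-1) ^ m = 1 := by
    rw [← mul_pow]; simp
  rw [h1, h2]
  change (Matrix.charmatrix M).det * _ = _
  rw [← Matrix.charpoly]
  calc _ = (((-1 : K[X]) ^ m) * (-1) ^ m) * (M.charpoly *
      (Matrix.scalar (Fin m) (X : K[X]) + (C : K →+* K[X]).mapMatrix M).det) := by
        rw [h3, one_mul]
    _ = _ := by ring

/-- The even and the odd part of a polynomial. -/
theorem even_odd_parts {K : Type*} [Field K] (f : K[X]) :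
    ∃ u v : K[X], f = expand K 2 u + X * expand K 2 v := by
  induction f using Polynomial.induction_on' with
  | add p q hp hq =>
    obtain ⟨u, v, h⟩ := hp
    obtain ⟨u', v', h'⟩ := hq
    refine ⟨u + u', v + v', ?_⟩
    rw [h, h', map_add, map_add]
    ring
  | monomial n c =>
    obtain ⟨k, hk⟩ := Nat.even_or_odd' n
    rcases hk with hk | hk
    · refine ⟨monomial k c, 0, ?_⟩
      rw [hk, expand_monomial, map_zero, mul_zero, add_zero, mul_comm]
    · refine ⟨0, monomial k c, ?_⟩
      rw [hk, expand_monomial, map_zero, zero_add, X_mul_monomial, mul_comm]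

end OddSq

/-- The characteristic polynomial of `z²` is a norm form. -/
theorem charpoly_sq {K : Type*} [Field K] [CharZero K] {E : Type*} [CommRing E] [Algebra K E]
    [Module.Finite K E] (z : E) (ho : Odd (Module.finrank K E)) :
    ∃ u v : K[X], -(LinearMap.mulLeft K (z ^ 2)).charpoly = u ^ 2 - X * v ^ 2 := by
  set b := Module.finBasis K E
  set M := LinearMap.toMatrix b b (LinearMap.mulLeft K z) with hM
  have h1 : LinearMap.toMatrix b b (LinearMap.mulLeft K (z ^ 2)) = M * M := by
    rw [hM, ← LinearMap.toMatrix_mul, sq]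
    congr 1
    ext x
    simp
  have h2 := expand_charpoly_sq M
  rw [← h1, LinearMap.charpoly_toMatrix, ho.neg_one_pow] at h2
  obtain ⟨u, v, huv⟩ := even_odd_parts M.charpoly
  have h3 : M.charpoly.comp (-X) = expand K 2 u - X * expand K 2 v := by
    have e : ∀ w : K[X], (expand K 2 w).comp (-X) = expand K 2 w := by
      intro w
      rw [expand_eq_comp_X_pow, comp_assoc]
      congr 1
      simp
    rw [huv, add_comp, mul_comp, X_comp, e, e]
    ring
  refine ⟨u, v, ?_⟩
  apply expand_injective (R := K) (n := 2) (by norm_num)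
  rw [map_neg, h2, h3, huv, map_sub, map_mul, map_pow, map_pow, expand_X]
  ring

end Stoll308.SC
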