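import Pool.Agent.Work.MP_308fa9_nt.SC.Core
import Pool.Agent.Work.MP_308fa9_nt.BF.LocLat

set_option autoImplicit false

/-!
The self-dual lattice at a prime which does not divide `2 a₀`.
-/

namespace Stoll308.SC

open Polynomial Finset Matrix BG BF

lemma norm_int_eq_one {p : ℕ} [Fact p.Prime] {z : ℤ} (h : ¬ (p : ℤ) ∣ z) :
    ‖(z : ℚ_[p])‖ = 1 := by
  refine le_antisymm (Padic.norm_int_le_one z) ?_
  by_contra h1
  exact h (Padic.norm_intCast_lt_one_iff.1 (not_le.1 h1))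

/-- If `p` does not divide the leading coefficient, then the monic multiple is integral. -/
lemma exists_mon {n : ℕ} (p : ℕ) [Fact p.Prime] (a : Fin (n + 1) → ℤ) (h0 : ¬ (p : ℤ) ∣ a 0) :
    ∃ (g : ℤ_[p][X]) (c : ℤ_[p]), IsUnit c ∧ g.Monic ∧ g.natDegree = n ∧
      toQ g = mon ℚ_[p] a ∧ toQ (C c * g) = GZ ℚ_[p] a := by
  have h1 := norm_int_eq_one h0
  have h2 : ((a 0 : ℤ) : ℚ_[p]) ≠ 0 := by
    intro h
    rw [h, norm_zero] at h1
    exact zero_ne_one h1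
  have hm : (mon ℚ_[p] a).Monic := BF.LocLat.mon_monic a h2
  have hn : (mon ℚ_[p] a).natDegree = n := BF.LocLat.mon_natDegree a h2
  obtain ⟨g, hg, hgn, hgm⟩ := exists_toQ (mon ℚ_[p] a) (by
    intro i
    unfold mon
    rw [coeff_C_mul, norm_mul, norm_inv, h1, inv_one, one_mul]
    have h3 : GZ ℚ_[p] a = (GZ ℤ a).map (Int.castRingHom ℚ_[p]) := (BF.LocLat.GZ_map _ a).symm
    rw [h3, coeff_map]
    exact Padic.norm_int_le_one _)
  refine ⟨g, ((a 0 : ℤ) : ℤ_[p]), ?_, hgm hm, by rw [hgn, hn], hg, ?_⟩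
  · rw [PadicInt.isUnit_iff, PadicInt.norm_def]
    exact_mod_cast h1
  · rw [BF.LocLat.GZ_eq a h2, ← hg]
    unfold toQ
    rw [Polynomial.map_mul, map_C, map_intCast]

theorem good_unit {n : ℕ} (hn : 2 ≤ n) (p : ℕ) [Fact p.Prime] (hp : p ≠ 2) (a : Fin (n + 1) → ℤ)
    (h0 : ¬ (p : ℤ) ∣ a 0) (δ : ℚ_[p][X]) (hloc : OLoc (GZ ℚ_[p] a) δ) :
    Good p n (mon ℚ_[p] a) δ := by
  obtain ⟨⟨h, r, w, s, hh, -, hco, hsco, h1, h2, h3⟩, -⟩ := hloc
  obtain ⟨g, c, hc, hg, hgn, hgm, hgf⟩ := exists_mon p a h0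
  have hz : ((a 0 : ℤ) : ℚ_[p]) ≠ 0 := by
    intro h
    have h1 := norm_int_eq_one h0
    rw [h, norm_zero] at h1
    exact zero_ne_one h1
  have hdvd : mon ℚ_[p] a ∣ GZ ℚ_[p] a := Dvd.intro_left _ (BF.LocLat.GZ_eq a hz).symm
  have hco' : IsCoprime h (mon ℚ_[p] a) := hco.of_isCoprime_of_dvd_right hdvd
  have hsco' : IsCoprime s (mon ℚ_[p] a) := hsco.of_isCoprime_of_dvd_right hdvd
  rw [← hgf] at h1
  have hG : Good p n (mon ℚ_[p] a) h := by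
    rw [← hgm] at hco' ⊢
    exact core (by omega) p hp g c hc hg hgn h r w hh hco' h1 h2
  refine hG.congr (BF.LocLat.mon_monic a hz) (BF.LocLat.mon_natDegree a hz) (-1) (by simp) 1 s
    isCoprime_one_left hsco' ?_
  have e : C (-1) * h * 1 ^ 2 - δ * s ^ 2 = -(h + δ * s ^ 2) := by
    rw [C_neg, C_1]
    ring
  rw [e]
  exact (hdvd.trans h3).neg_right

end Stoll308.SC
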