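import Pool.Agent.Work.MP_308fa9_nt.SC.Basic
import Pool.Agent.Work.MP_308fa9_nt.BF.LocLat

set_option autoImplicit false

/-!
The Hankel forms of the reversed polynomial.
-/

namespace Stoll308.SC

open Polynomial Finset Matrix BG BF BF.LocLat

section
variable {K : Type*} [Field K] {n : ℕ}

/-- the reversed polynomial -/
lemma gz_reflect (a : Fin (n + 1) → ℤ) : (GZ K a).reflect n = GZ K (a ∘ Fin.rev) := by
  unfold GZ gpol
  have h : ∀ s : Finset (Fin (n + 1)), (∑ i ∈ s, C (a i : K) * X ^ (n - (i : ℕ))).reflect n =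
      ∑ i ∈ s, C (a i : K) * X ^ (i : ℕ) := by
    intro s
    induction s using Finset.cons_induction with
    | empty => simp
    | cons i s hi ih =>
      rw [Finset.sum_cons, Finset.sum_cons, reflect_add, ih, reflect_C_mul_X_pow,
        revAt_le (Nat.sub_le _ _), show n - (n - (i : ℕ)) = i by omega]
  rw [h, ← Equiv.sum_comp Fin.revPerm]
  refine Finset.sum_congr rfl fun i _ => ?_
  rw [Fin.revPerm_apply]
  show C (a i.rev : K) * X ^ (i.rev : ℕ) = C (a i.rev : K) * X ^ (n - (i : ℕ))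
  rw [Fin.val_rev]
  congr 2
  omega

lemma gz_coeff_zero (a : Fin (n + 1) → ℤ) : (GZ K (a ∘ Fin.rev)).coeff 0 = a 0 := by
  rw [← gz_reflect, coeff_reflect, revAt_le (Nat.zero_le _), Nat.sub_zero, GZ_coeff_top]

lemma gz_coeff_n (a : Fin (n + 1) → ℤ) : (GZ K (a ∘ Fin.rev)).coeff n = a (Fin.last n) := by
  rw [GZ_coeff_top, Function.comp_apply, Fin.rev_zero]

end

/-- `θ*` is invertible modulo `f*`. -/
theorem rev_coprime {K : Type*} [Field K] {n : ℕ} (a : Fin (n + 1) → ℤ) (h0 : (a 0 : K) ≠ 0) :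
    IsCoprime (X : K[X]) (GZ K (a ∘ Fin.rev)) := by
  have h := divX_mul_X_add (GZ K (a ∘ Fin.rev))
  rw [gz_coeff_zero] at h
  have hc : C ((a 0 : K)⁻¹) * C (a 0 : K) = 1 := by rw [← C_mul, inv_mul_cancel₀ h0, C_1]
  refine ⟨-(C ((a 0 : K)⁻¹) * divX (GZ K (a ∘ Fin.rev))), C ((a 0 : K)⁻¹), ?_⟩
  conv_lhs => rw [← h]
  rw [h]
  linear_combination hc - C ((a 0 : K)⁻¹) * h

/-- The class `θ*^(-m) δ(θ)` as a polynomial. -/
theorem exists_rev {K : Type*} [Field K] {n : ℕ} (a : Fin (n + 1) → ℤ) (h0 : (a 0 : K) ≠ 0)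
    (δ : K[X]) (m D : ℕ) : ∃ δ' : K[X],
    GZ K (a ∘ Fin.rev) ∣ δ' * X ^ (m + D) - δ.reflect D := by
  obtain ⟨u, v, huv⟩ := (rev_coprime a h0).pow_left (m := m + D)
  refine ⟨δ.reflect D * u, -(δ.reflect D * v), ?_⟩
  linear_combination δ.reflect D * huv

/-- The Hankel matrices of `f` and of the reversed polynomial `f*` (roots `θ* = 1/θ`):
`δ'(θ*) = θ*^(-n) δ(θ)`. -/
theorem rev_hank {K : Type*} [Field K] {n : ℕ} (hn : 2 ≤ n) (a : Fin (n + 1) → ℤ)
    (h0 : (a 0 : K) ≠ 0) (hl : (a (Fin.last n) : K) ≠ 0) (δ δ' : K[X]) (D : ℕ)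
    (hD : δ.natDegree ≤ D)
    (e : GZ K (a ∘ Fin.rev) ∣ δ' * X ^ (n + D) - δ.reflect D) (i j : Fin n) :
    (a 0 : K)⁻¹ * Hank n (mon K a) δ i j =
      -((a (Fin.last n) : K)⁻¹ * Hank n (mon K (a ∘ Fin.rev)) δ' i.rev j.rev) := by
  have hl' : ((a ∘ Fin.rev) 0 : K) ≠ 0 := by
    rw [Function.comp_apply, Fin.rev_zero]
    exact hl
  set m : ℕ := (i : ℕ) + j with hm
  set f := GZ K a with hf
  set g := GZ K (a ∘ Fin.rev) with hg
  set F := mon K a with hF
  set G := mon K (a ∘ Fin.rev) with hG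
  have hFm : F.Monic := mon_monic a h0
  have hFn : F.natDegree = n := mon_natDegree a h0
  have hGm : G.Monic := mon_monic _ hl'
  have hGn : G.natDegree = n := mon_natDegree _ hl'
  have hgG : g = C (a (Fin.last n) : K) * G := by
    have := GZ_eq (K := K) _ hl'
    rw [Function.comp_apply, Fin.rev_zero] at this
    exact this
  -- division with remainder
  set P := δ * X ^ m with hP
  set R := P %ₘ F with hR
  set Q := P /ₘ F with hQ
  have hPQ : R + F * Q = P := modByMonic_add_div P F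
  have hRd : R.natDegree ≤ n - 1 := by
    have h1 : R.natDegree < F.natDegree := natDegree_modByMonic_lt P hFm (by rintro h; rw [h] at hFn; simp at hFn; omega)
    rw [hFn] at h1
    omega
  have hPd : P.natDegree ≤ D + m := by
    refine natDegree_mul_le.trans ?_
    rw [natDegree_X_pow]
    omega
  have hQd : Q.natDegree ≤ D + m := by
    rw [hQ, natDegree_divByMonic P hFm]
    omega
  -- the reflected identity
  have r1 : P.reflect (D + (m + n)) = δ.reflect D * X ^ n := by
    rw [hP, reflect_mul _ _ hD ((natDegree_X_pow_le m).trans (by omega)), reflect_monomial, revAt_le (by omega), show m + n - m = n by omega]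
  have r2 : (F * Q).reflect (n + (D + m)) = C ((a 0 : K)⁻¹) * g * Q.reflect (D + m) := by
    rw [reflect_mul _ _ hFn.le hQd, hF, mon, reflect_C_mul, gz_reflect]
  have r3 : R.reflect ((n - 1) + (D + m + 1)) = R.reflect (n - 1) * X ^ (D + m + 1) := by
    have h1 := reflect_mul R (1 : K[X]) hRd (G := D + m + 1) (by simp)
    rw [mul_one] at h1
    rw [h1, ← C_1, reflect_C, C_1, one_mul]
  have r4 : R.reflect (n - 1) * X ^ (D + m + 1) + C ((a 0 : K)⁻¹) * g * Q.reflect (D + m) =
      δ.reflect D * X ^ n := by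
    rw [← r1, ← hPQ, reflect_add, ← r2, ← r3]
    congr 2 <;> omega
  -- the other side
  set T := δ' * X ^ ((i.rev : ℕ) + j.rev) with hT
  set S := T %ₘ G with hS
  have hTS : S + G * (T /ₘ G) = T := modByMonic_add_div T G
  have hSd : S.natDegree ≤ n - 1 := by
    have h1 : S.natDegree < G.natDegree := natDegree_modByMonic_lt T hGm (by rintro h; rw [h] at hGn; simp at hGn; omega)
    rw [hGn] at h1
    omega
  have hgS : g ∣ T - S := by
    refine ⟨C ((a (Fin.last n) : K)⁻¹) * (T /ₘ G), ?_⟩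
    have hc : C (a (Fin.last n) : K) * C ((a (Fin.last n) : K)⁻¹) = 1 := by
      rw [← C_mul, mul_inv_cancel₀ hl, C_1]
    rw [hgG]
    linear_combination -hTS - G * (T /ₘ G) * hc
  have hexp : (D + m + 1) + (1 + ((i.rev : ℕ) + j.rev)) = n + (n + D) := by
    rw [Fin.val_rev, Fin.val_rev]
    omega
  have hdiv : g ∣ X ^ (D + m + 1) * (X * S - R.reflect (n - 1)) := by
    obtain ⟨c, hc⟩ := e
    obtain ⟨d, hd⟩ := hgS
    refine ⟨X ^ n * c + C ((a 0 : K)⁻¹) * Q.reflect (D + m) - X ^ (D + m + 1) * X * d, ?_⟩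
    have h1 : X ^ (D + m + 1) * X * T = X ^ n * (δ' * X ^ (n + D)) := by
      rw [hT]
      calc X ^ (D + m + 1) * X * (δ' * X ^ ((i.rev : ℕ) + j.rev))
          = δ' * X ^ ((D + m + 1) + (1 + ((i.rev : ℕ) + j.rev))) := by ring
        _ = X ^ n * (δ' * X ^ (n + D)) := by rw [hexp]; ring
    linear_combination -r4 + h1 - X ^ (D + m + 1) * X * hd + X ^ n * hc
  have hcop : IsCoprime g (X ^ (D + m + 1)) := (rev_coprime a h0).symm.pow_right
  obtain ⟨c, hc⟩ := hcop.dvd_of_dvd_mul_left hdiv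
  -- degrees
  have hgd : g.natDegree = n := by
    rw [hgG, natDegree_C_mul hl, hGn]
  have hg0 : g ≠ 0 := by
    intro h
    rw [h, natDegree_zero] at hgd
    omega
  have hcd : c.natDegree = 0 := by
    by_cases hc0 : c = 0
    · rw [hc0, natDegree_zero]
    · have h1 : (X * S - R.reflect (n - 1)).natDegree ≤ n := by
        refine (natDegree_sub_le _ _).trans (max_le ?_ ?_)
        · refine natDegree_mul_le.trans ?_
          rw [natDegree_X]
          omega
        · refine natDegree_le_iff_coeff_eq_zero.2 fun k hk => ?_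
          rw [coeff_reflect, revAt_eq_self_of_lt (by omega)]
          exact coeff_eq_zero_of_natDegree_lt (by omega)
      rw [hc, natDegree_mul hg0 hc0, hgd] at h1
      omega
  obtain ⟨c', rfl⟩ := natDegree_eq_zero.1 hcd
  have k1 := congrArg (fun q : K[X] => q.coeff n) hc
  have k0 := congrArg (fun q : K[X] => q.coeff 0) hc
  simp only [coeff_sub, coeff_mul_C] at k1 k0
  rw [hg, gz_coeff_n, coeff_reflect, revAt_eq_self_of_lt (by omega),
    coeff_eq_zero_of_natDegree_lt (show R.natDegree < n by omega), sub_zero] at k1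
  rw [hg, gz_coeff_zero, coeff_reflect, revAt_le (Nat.zero_le _), Nat.sub_zero,
    mul_coeff_zero, coeff_X_zero, zero_mul, zero_sub] at k0
  have k2 : (X * S).coeff n = S.coeff (n - 1) := by
    conv_lhs => rw [show n = (n - 1) + 1 by omega]
    rw [coeff_X_mul]
  rw [k2] at k1
  have t1 : Hank n F δ i j = R.coeff (n - 1) := rfl
  have t2 : Hank n G δ' i.rev j.rev = S.coeff (n - 1) := rfl
  rw [t1, t2, k1]
  have k3 : R.coeff (n - 1) = -((a 0 : K) * c') := by linear_combination -k0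
  rw [k3]
  field_simp

end Stoll308.SC
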