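import Pool.Agent.Work.MP_308fa9_nt.SC.Core
import Pool.Agent.Work.MP_308fa9_nt.SC.Rev

set_option autoImplicit false

/-!
The class at the primes which divide the leading coefficient.
-/

namespace Stoll308.SC

open Polynomial Finset Matrix BG BF BF.LocLat

section
variable {K : Type*} [Field K]

lemma reflect_one' (N : ℕ) : (1 : K[X]).reflect N = X ^ N := by
  rw [← C_1, reflect_C, C_1, one_mul]

/-- reflected divisibility -/
lemma reflect_dvd {h P : K[X]} {N : ℕ} (h0 : h ≠ 0) (hd : h ∣ P) (hP : P.natDegree ≤ N) :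
    h.reflect h.natDegree ∣ P.reflect N := by
  by_cases hP0 : P = 0
  · rw [hP0, reflect_zero]
    exact dvd_zero _
  · obtain ⟨Q, rfl⟩ := hd
    have hQ0 : Q ≠ 0 := right_ne_zero_of_mul hP0
    rw [natDegree_mul h0 hQ0] at hP
    have e : N = h.natDegree + (N - h.natDegree) := by omega
    rw [e, reflect_mul _ _ le_rfl (by omega : Q.natDegree ≤ N - h.natDegree)]
    exact dvd_mul_right _ _

/-- reflected coprimality -/
lemma reflect_coprime {s F : K[X]} {E n : ℕ} (hc : IsCoprime s F) (hs : s.natDegree ≤ E)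
    (hF : F.natDegree ≤ n) (hX : IsCoprime X (F.reflect n)) :
    IsCoprime (s.reflect E) (F.reflect n) := by
  obtain ⟨a, b, hab⟩ := hc
  set M := a.natDegree + b.natDegree with hM
  have h1 : (a * s).reflect (M + n + E) = a.reflect (M + n) * s.reflect E :=
    reflect_mul _ _ (by omega) hs
  have h2 : (b * F).reflect (M + E + n) = b.reflect (M + E) * F.reflect n :=
    reflect_mul _ _ (by omega) hF
  have h3 : a.reflect (M + n) * s.reflect E + b.reflect (M + E) * F.reflect n =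
      X ^ (M + n + E) := by
    rw [← h1, ← h2, ← reflect_one', ← hab, reflect_add, show M + E + n = M + n + E by ring]
  obtain ⟨u, v, huv⟩ := hX.pow_left (m := M + n + E)
  exact ⟨u * a.reflect (M + n), u * b.reflect (M + E) + v, by linear_combination huv + u * h3⟩

lemma reflect_sq {s : K[X]} {E : ℕ} (hs : s.natDegree ≤ E) :
    (s ^ 2).reflect (2 * E) = (s.reflect E) ^ 2 := by
  rw [sq, sq, two_mul, reflect_mul _ _ hs hs]

lemma natDegree_sq_le {s : K[X]} {E : ℕ} (hs : s.natDegree ≤ E) : (s ^ 2).natDegree ≤ 2 * E :=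
  natDegree_pow_le.trans (by omega)

/-- the reflected polynomial of a larger size -/
lemma reflect_up {P : K[X]} {N : ℕ} (hP : P.natDegree ≤ N) (k : ℕ) :
    P.reflect (N + k) = P.reflect N * X ^ k := by
  have := reflect_mul P (1 : K[X]) hP (G := k) (by simp)
  rwa [mul_one, reflect_one'] at this

lemma reflect_X_one : (X : K[X]).reflect 1 = 1 := by
  have h := reflect_monomial (R := K) 1 1
  rw [pow_one, revAt_le le_rfl, Nat.sub_self, pow_zero] at h
  exact h

/-- If `θ` is a square modulo the monic polynomial `h`, so is `1/θ` modulo the reversed one. -/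
lemma sqX_rev {h w : K[X]} (hh : h.Monic) (hw : h ∣ X - w ^ 2) :
    ∃ w₁ t₁ : K[X], h.reflect h.natDegree ∣ X - w₁ ^ 2 ∧ h.reflect h.natDegree ∣ w₁ * t₁ - 1 := by
  set g := h.reflect h.natDegree with hg
  have hg0 : g.coeff 0 = 1 := by
    rw [hg, coeff_reflect, revAt_le (Nat.zero_le _), Nat.sub_zero]
    exact hh
  have hdx := divX_mul_X_add g
  rw [hg0, C_1] at hdx
  set t : K[X] := -divX g with ht
  have h1 : g ∣ X * t - 1 := ⟨-1, by rw [ht]; linear_combination -hdx⟩
  set W := w.natDegree + 1 with hW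
  have h2 : g ∣ X ^ (2 * W - 1) - (w.reflect W) ^ 2 := by
    have h3 := reflect_dvd (N := 2 * W) hh.ne_zero hw ?_
    · rw [reflect_sub, reflect_sq (by omega), show 2 * W = 1 + (2 * W - 1) by omega,
        reflect_up (by rw [natDegree_X]), reflect_X_one, one_mul] at h3
      exact h3
    · refine (natDegree_sub_le _ _).trans (max_le ?_ (natDegree_sq_le (by omega)))
      rw [natDegree_X]
      omega
  rw [← AdjoinRoot.mk_eq_zero, map_sub, sub_eq_zero, map_mul, map_one] at h1
  rw [← AdjoinRoot.mk_eq_zero, map_sub, sub_eq_zero, map_pow, map_pow] at h2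
  refine ⟨w.reflect W * t ^ (W - 1), w.reflect W * t ^ (W - 1) * t, ?_, ?_⟩
  · rw [← AdjoinRoot.mk_eq_zero, map_sub, sub_eq_zero, map_pow, map_mul, map_pow, mul_pow, ← h2]
    generalize AdjoinRoot.mk g X = x at h1
    generalize AdjoinRoot.mk g t = y at h1
    rw [← pow_mul, show (W - 1) * 2 = 2 * W - 2 by omega]
    have e : 2 * W - 1 = (2 * W - 2) + 1 := by omega
    calc x = x * (x * y) ^ (2 * W - 2) := by rw [h1, one_pow, mul_one]
      _ = x ^ (2 * W - 1) * y ^ (2 * W - 2) := by rw [e, mul_pow]; ring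
  · rw [← AdjoinRoot.mk_eq_zero, map_sub, sub_eq_zero, map_one]
    simp only [map_mul, map_pow]
    generalize AdjoinRoot.mk g X = x at h1 h2
    generalize AdjoinRoot.mk g t = y at h1
    generalize AdjoinRoot.mk g (w.reflect W) = z at h2
    have e : 2 * W - 1 = (2 * W - 2) + 1 := by omega
    calc z * y ^ (W - 1) * (z * y ^ (W - 1) * y) = z ^ 2 * (y ^ (W - 1) * y ^ (W - 1) * y) := by ring
      _ = x ^ (2 * W - 1) * y ^ (2 * W - 1) := by
        rw [← h2, ← pow_add, ← pow_succ, show W - 1 + (W - 1) + 1 = 2 * W - 1 by omega]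
      _ = 1 := by rw [← mul_pow, h1, one_pow]

/-- The square root of `f` modulo `h`, reversed. -/
lemma sqF_rev {h f r w₁ t₁ : K[X]} {n : ℕ} (hh : h.Monic) (hf : f.natDegree ≤ n)
    (hr : h ∣ f - r ^ 2) (hw : h.reflect h.natDegree ∣ X - w₁ ^ 2)
    (ht : h.reflect h.natDegree ∣ w₁ * t₁ - 1) :
    ∃ r₁ : K[X], h.reflect h.natDegree ∣ f.reflect n - r₁ ^ 2 := by
  set g := h.reflect h.natDegree with hg
  set R := r.natDegree + n with hR
  have h2 : g ∣ f.reflect n * X ^ (2 * R - n) - (r.reflect R) ^ 2 := by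
    have h3 := reflect_dvd (N := 2 * R) hh.ne_zero hr ?_
    · rw [reflect_sub, reflect_sq (by omega), show 2 * R = n + (2 * R - n) by omega,
        reflect_up hf] at h3
      exact h3
    · exact (natDegree_sub_le _ _).trans (max_le (by omega) (natDegree_sq_le (by omega)))
  refine ⟨r.reflect R * t₁ ^ (2 * R - n), ?_⟩
  rw [← AdjoinRoot.mk_eq_zero, map_sub, sub_eq_zero, map_pow] at hw
  rw [← AdjoinRoot.mk_eq_zero, map_sub, sub_eq_zero, map_mul, map_one] at ht
  rw [← AdjoinRoot.mk_eq_zero, map_sub, sub_eq_zero, map_mul, map_pow, map_pow] at h2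
  rw [← AdjoinRoot.mk_eq_zero, map_sub, sub_eq_zero, map_pow, map_mul, map_pow, mul_pow, ← h2, hw]
  generalize AdjoinRoot.mk g w₁ = x at ht
  generalize AdjoinRoot.mk g t₁ = y at ht
  generalize AdjoinRoot.mk g (f.reflect n) = F
  rw [← pow_mul, ← pow_mul, mul_comm (2 * R - n) 2, mul_assoc, ← mul_pow, ht, one_pow, mul_one]

/-- the constant coefficient is a square up to the sign -/
lemma coeff_zero_sq {F w : K[X]} (hF : F.Monic) (hw : F ∣ X - w ^ 2) :
    ∃ ε l : K, (ε = 1 ∨ ε = -1) ∧ F.coeff 0 = ε * l ^ 2 := by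
  set n := F.natDegree with hn
  have h1 := HankL.mulMat_lin_det (n := n) F hF rfl (0 : K)
  have h2 : mulMat n F (C 0 - X) = mulMat n F (-1) * (mulMat n F w * mulMat n F w) := by
    rw [← HankL.mulMat_mul F w w hF rfl, ← HankL.mulMat_mul F (-1) _ hF rfl]
    apply HankL.mulMat_congr F _ _ hF
    obtain ⟨c, hc⟩ := hw
    exact ⟨-c, by rw [C_0]; linear_combination -hc⟩
  have h3 : mulMat n F (-1) * mulMat n F (-1) = 1 := by
    rw [← HankL.mulMat_mul F (-1) (-1) hF rfl, neg_one_mul, neg_neg, HankL.mulMat_one F hF rfl]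
  have h4 := congrArg Matrix.det h3
  rw [Matrix.det_mul, Matrix.det_one] at h4
  refine ⟨(mulMat n F (-1)).det, (mulMat n F w).det, mul_self_eq_one_iff.1 h4, ?_⟩
  rw [coeff_zero_eq_eval_zero, ← h1, h2, Matrix.det_mul, Matrix.det_mul, sq]

lemma lead_reflect {F : K[X]} (h0 : F.coeff 0 ≠ 0) :
    (F.reflect F.natDegree).leadingCoeff = F.coeff 0 := by
  have h1 : (F.reflect F.natDegree).leadingCoeff = F.trailingCoeff := reverse_leadingCoeff F
  have h2 : F.natTrailingDegree = 0 := natTrailingDegree_eq_zero.2 (Or.inr h0)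
  rw [h1, trailingCoeff, h2]

/-- the leading coefficient of the reversed polynomial -/
lemma lead_sq {h w : K[X]} (hh : h.Monic) (hw : h ∣ X - w ^ 2) :
    ∃ ε l : K, (ε = 1 ∨ ε = -1) ∧ l ≠ 0 ∧ (h.reflect h.natDegree).leadingCoeff = ε * l ^ 2 := by
  have key : ∀ F : K[X], F.Monic → F ∣ X - w ^ 2 → F.coeff 0 ≠ 0 →
      ∃ ε l : K, (ε = 1 ∨ ε = -1) ∧ l ≠ 0 ∧ (F.reflect F.natDegree).leadingCoeff = ε * l ^ 2 := by
    intro F hF hFw h0
    obtain ⟨ε, l, h1, h2⟩ := coeff_zero_sq hF hFw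
    refine ⟨ε, l, h1, ?_, by rw [lead_reflect h0, h2]⟩
    rintro rfl
    exact h0 (by rw [h2]; ring)
  by_cases h0 : h.coeff 0 = 0
  · obtain ⟨h₁, rfl⟩ := X_dvd_iff.2 h0
    have hm : h₁.Monic := by
      have h3 := hh
      unfold Monic at h3 ⊢
      rwa [leadingCoeff_mul, leadingCoeff_X, one_mul] at h3
    have h1 : h₁.coeff 0 ≠ 0 := by
      intro h4
      obtain ⟨h₂, rfl⟩ := X_dvd_iff.2 h4
      obtain ⟨c, hc⟩ := hw
      have hXw : (X : K[X]) ∣ w := by
        apply (Prime.dvd_of_dvd_pow (n := 2) prime_X)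
        exact ⟨1 - X * h₂ * c, by linear_combination -hc⟩
      obtain ⟨w', rfl⟩ := hXw
      have h5 : (X : K[X]) * (1 - X * w' ^ 2 - X * h₂ * c) = 0 := by linear_combination hc
      rcases mul_eq_zero.1 h5 with h6 | h6
      · exact X_ne_zero h6
      · have := congrArg (fun q : K[X] => q.eval 0) h6
        simp at this
    obtain ⟨ε, l, e1, e2, e3⟩ := key h₁ hm ((dvd_mul_left _ _).trans hw) h1
    refine ⟨ε, l, e1, e2, ?_⟩
    rw [← e3, natDegree_mul X_ne_zero hm.ne_zero, natDegree_X, reflect_mul _ _ (by rw [natDegree_X])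
      le_rfl, reflect_X_one, one_mul]
  · exact key h hh hw h0

end

/-- The class `θ*^(-ν) δ(θ)`, `ν` odd, has a self-dual lattice if `p` does not divide the constant
coefficient. -/
theorem good_rev {n : ℕ} (hn : 2 ≤ n) (p : ℕ) [Fact p.Prime] (hp : p ≠ 2) (a : Fin (n + 1) → ℤ)
    (h0 : a 0 ≠ 0) (hl : ¬ (p : ℤ) ∣ a (Fin.last n)) (δ : ℚ_[p][X])
    (hloc : OLoc (GZ ℚ_[p] a) δ) (ν D : ℕ) (hν : Odd ν) (hD : δ.natDegree ≤ D) (D₁ : ℚ_[p][X])
    (e : GZ ℚ_[p] (a ∘ Fin.rev) ∣ D₁ * X ^ (ν + D) - δ.reflect D) :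
    Good p n (mon ℚ_[p] (a ∘ Fin.rev)) D₁ := by
  obtain ⟨⟨h, r, w, s, hh, hodd, hcop, hscop, hr, hw, hf⟩, -⟩ := hloc
  have h0' : (a 0 : ℚ_[p]) ≠ 0 := by exact_mod_cast h0
  have hrl : (a ∘ Fin.rev) 0 = a (Fin.last n) := by rw [Function.comp_apply, Fin.rev_zero]
  have hln : ‖(a (Fin.last n) : ℚ_[p])‖ = 1 := by
    refine le_antisymm (Padic.norm_int_le_one _) ?_
    by_contra hcon
    exact hl ((Padic.norm_intCast_lt_one_iff).1 (not_le.1 hcon))
  have hl0 : (a (Fin.last n) : ℚ_[p]) ≠ 0 := by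
    intro h1
    rw [h1, norm_zero] at hln
    exact zero_ne_one hln
  set f := GZ ℚ_[p] a with hfdef
  set g := GZ ℚ_[p] (a ∘ Fin.rev) with hg
  set G := mon ℚ_[p] (a ∘ Fin.rev) with hG
  have hfn : f.natDegree ≤ n := GZ_natDegree_le a
  have hfg : f.reflect n = g := gz_reflect a
  have hX : IsCoprime (X : ℚ_[p][X]) g := rev_coprime a h0'
  have hgG : g = C (a (Fin.last n) : ℚ_[p]) * G := by
    have := GZ_eq (K := ℚ_[p]) (a ∘ Fin.rev) (by rw [hrl]; exact hl0)
    rwa [hrl] at this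
  have hGm : G.Monic := mon_monic _ (by rw [hrl]; exact hl0)
  have hGn : G.natDegree = n := mon_natDegree _ (by rw [hrl]; exact hl0)
  -- the reversed identities
  obtain ⟨w₁, t₁, hw₁, ht₁⟩ := sqX_rev hh hw
  obtain ⟨r₁, hr₁⟩ := sqF_rev hh hfn hr hw₁ ht₁
  rw [hfg] at hr₁
  obtain ⟨ε, l, hε, hl1, hlead⟩ := lead_sq hh hw
  set m := h.natDegree with hm
  set H := h.reflect m with hH
  have hH0 : H ≠ 0 := by
    intro h1
    rw [h1, leadingCoeff_zero] at hlead
    rcases hε with rfl | rfl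
    · exact hl1 (pow_eq_zero_iff (two_ne_zero) |>.1 (by linear_combination -hlead))
    · exact hl1 (pow_eq_zero_iff (two_ne_zero) |>.1 (by linear_combination hlead))
  have hHl : H.leadingCoeff ≠ 0 := leadingCoeff_ne_zero.2 hH0
  set hs : ℚ_[p][X] := C (H.leadingCoeff⁻¹) * H with hhs
  have hsm : hs.Monic := by
    rw [hhs, mul_comm]
    exact monic_mul_leadingCoeff_inv hH0
  have hHs : H = C H.leadingCoeff * hs := by
    rw [hhs, ← mul_assoc, ← C_mul, mul_inv_cancel₀ hHl, C_1, one_mul]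
  have hsH : hs ∣ H := ⟨C H.leadingCoeff, by rw [mul_comm]; exact hHs⟩
  have hHg : IsCoprime H g := by
    have := reflect_coprime hcop (E := m) (n := n) le_rfl hfn (by rw [hfg]; exact hX)
    rwa [hfg] at this
  have hsg : IsCoprime hs g := by
    rw [hHs] at hHg
    exact hHg.of_mul_left_right
  have hsG : IsCoprime hs G := by
    rw [hgG] at hsg
    exact hsg.of_mul_right_right
  -- integral coefficients
  have hint : ∀ i, ‖G.coeff i‖ ≤ 1 := by
    intro i
    have h1 : G.coeff i = (a (Fin.last n) : ℚ_[p])⁻¹ * g.coeff i := by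
      rw [hgG, coeff_C_mul, ← mul_assoc, inv_mul_cancel₀ hl0, one_mul]
    have h2 : ∃ z : ℤ, g.coeff i = z := by
      refine ⟨(GZ ℤ (a ∘ Fin.rev)).coeff i, ?_⟩
      rw [hg, ← GZ_map (Int.castRingHom ℚ_[p]), coeff_map]
      rfl
    obtain ⟨z, hz⟩ := h2
    rw [h1, norm_mul, norm_inv, hln, inv_one, one_mul, hz]
    exact Padic.norm_int_le_one z
  obtain ⟨g₀, hg₀, hg₀n, hg₀m⟩ := exists_toQ G hint
  have hc : IsUnit ((a (Fin.last n) : ℤ_[p])) := by
    rw [PadicInt.isUnit_iff, PadicInt.norm_intCast_eq_padic_norm]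
    exact hln
  have hcg : toQ (C (a (Fin.last n) : ℤ_[p]) * g₀) = g := by
    rw [hgG, ← hg₀, toQ, Polynomial.map_mul, map_C]
    simp
  have hgood : Good p n G hs := by
    have := core (by omega : 1 ≤ n) p hp g₀ _ hc (hg₀m hGm) (hg₀n.trans hGn) hs r₁ w₁ hsm
      (by rw [hg₀]; exact hsG) (by rw [hcg]; exact hsH.trans hr₁) (hsH.trans hw₁)
    rwa [hg₀] at this
  -- the class of `D₁`
  set E := s.natDegree + m with hE
  set sr := s.reflect E with hsr
  have hsrg : IsCoprime sr g := by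
    have := reflect_coprime hscop (E := E) (n := n) (by omega) hfn (by rw [hfg]; exact hX)
    rwa [hfg] at this
  have hmain : g ∣ H * X ^ (D + 2 * E - m) + D₁ * X ^ (ν + D) * sr ^ 2 := by
    have hfnn : f.natDegree = n := by
      refine le_antisymm hfn (le_natDegree_of_ne_zero ?_)
      rw [hfdef, GZ_coeff_top]
      exact h0'
    have hf0 : f ≠ 0 := by
      intro h1
      rw [h1, natDegree_zero] at hfnn
      omega
    have h3 := reflect_dvd (N := D + 2 * E) hf0 hf ?_
    · rw [hfnn, hfg, reflect_add, reflect_mul _ _ hD (natDegree_sq_le (by omega)),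
        reflect_sq (by omega)] at h3
      have h4 : h.reflect (D + 2 * E) = H * X ^ (D + 2 * E - m) := by
        conv_lhs => rw [show D + 2 * E = m + (D + 2 * E - m) by omega]
        exact reflect_up le_rfl _
      rw [h4] at h3
      obtain ⟨c, hc⟩ := h3
      obtain ⟨d, hd⟩ := e
      exact ⟨c + d * sr ^ 2, by linear_combination hc + sr ^ 2 * hd⟩
    · refine (natDegree_add_le _ _).trans (max_le (by omega) ?_)
      exact natDegree_mul_le.trans (Nat.add_le_add hD (natDegree_sq_le (by omega)))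
  obtain ⟨i, j, hij⟩ : ∃ i j : ℕ, g ∣ H * (X ^ i) ^ 2 + D₁ * (X ^ j * sr) ^ 2 := by
    obtain ⟨k, hk⟩ := hν
    obtain ⟨k', hk'⟩ := hodd
    rcases Nat.even_or_odd' (D + 2 * E - m) with ⟨i, hi | hi⟩
    · refine ⟨i, (ν + D) / 2, ?_⟩
      have h5 : ν + D = 2 * ((ν + D) / 2) := by omega
      have h6 : H * (X ^ i) ^ 2 + D₁ * (X ^ ((ν + D) / 2) * sr) ^ 2 =
          H * X ^ (D + 2 * E - m) + D₁ * X ^ (ν + D) * sr ^ 2 := by
        rw [hi]
        conv_rhs => rw [h5]
        ring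
      rw [h6]
      exact hmain
    · refine ⟨i + 1, (ν + D + 1) / 2, ?_⟩
      have h5 : ν + D + 1 = 2 * ((ν + D + 1) / 2) := by omega
      have h6 : H * (X ^ (i + 1)) ^ 2 + D₁ * (X ^ ((ν + D + 1) / 2) * sr) ^ 2 =
          X * (H * X ^ (D + 2 * E - m) + D₁ * X ^ (ν + D) * sr ^ 2) := by
        have h7 : (X : ℚ_[p][X]) * X ^ (ν + D) = (X ^ ((ν + D + 1) / 2)) ^ 2 := by
          rw [← pow_succ', ← pow_mul]
          congr 1
          omega
        rw [hi]
        linear_combination -(D₁ * sr ^ 2) * h7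
      rw [h6]
      exact Dvd.dvd.mul_left hmain _
  refine Good.congr hGm hGn hgood (-ε) ?_ (C l * X ^ i) (X ^ j * sr) ?_ ?_ ?_
  · rcases hε with rfl | rfl <;> simp
  · have h1 : IsCoprime (C l) G := ⟨C l⁻¹, 0, by rw [zero_mul, add_zero, ← C_mul, inv_mul_cancel₀ hl1, C_1]⟩
    have h2 : IsCoprime (X ^ i) G := by
      rw [hgG] at hX
      exact hX.of_mul_right_right.pow_left
    exact h1.mul_left h2
  · have h2 : IsCoprime (X ^ j) G := by
      rw [hgG] at hX
      exact hX.of_mul_right_right.pow_left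
    rw [hgG] at hsrg
    exact h2.mul_left hsrg.of_mul_right_right
  · have h1 : G ∣ g := ⟨C (a (Fin.last n) : ℚ_[p]), by rw [mul_comm]; exact hgG⟩
    refine h1.trans ?_
    obtain ⟨c, hc⟩ := hij
    refine ⟨-c, ?_⟩
    have h2 : H = C ε * C l ^ 2 * hs := by
      conv_lhs => rw [hHs, hlead]
      rw [C_mul, C_pow]
    rw [C_neg]
    linear_combination (X ^ i) ^ 2 * h2 - hc

/-- The norm form for the reversed polynomial. -/
theorem norm_rev {K : Type*} [Field K] {n : ℕ} (a : Fin (n + 1) → ℤ)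
    (h0 : (a 0 : K) ≠ 0) (δ : K[X]) (hloc : OLoc (GZ K a) δ) (ν D : ℕ) (hν : Odd ν)
    (hD : δ.natDegree ≤ D) (D₁ : K[X])
    (e : GZ K (a ∘ Fin.rev) ∣ D₁ * X ^ (ν + D) - δ.reflect D) :
    ∃ u v s : K[X], IsCoprime s (GZ K (a ∘ Fin.rev)) ∧
      GZ K (a ∘ Fin.rev) ∣ (u ^ 2 - X * v ^ 2) - X * D₁ * s ^ 2 := by
  obtain ⟨-, u, v, s, hs, hf⟩ := hloc
  set f := GZ K a with hfdef
  set g := GZ K (a ∘ Fin.rev) with hg
  have hfn : f.natDegree ≤ n := GZ_natDegree_le a
  have hfg : f.reflect n = g := gz_reflect a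
  have hX : IsCoprime (X : K[X]) g := rev_coprime a h0
  have hf0 : f ≠ 0 := by
    intro h1
    have := GZ_coeff_top (R := K) a
    rw [← hfdef, h1, coeff_zero] at this
    exact h0 this.symm
  have hfnn : f.natDegree = n := by
    refine le_antisymm hfn (le_natDegree_of_ne_zero ?_)
    rw [hfdef, GZ_coeff_top]
    exact h0
  set E := u.natDegree + v.natDegree + s.natDegree with hE
  have h3 := reflect_dvd (N := D + 2 * (E + 1)) hf0 hf ?_
  · rw [hfnn, hfg, reflect_sub, reflect_sub, reflect_mul _ _ hD (natDegree_sq_le (by omega)),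
      reflect_sq (by omega)] at h3
    have h4 : (u ^ 2).reflect (D + 2 * (E + 1)) = (u.reflect (E + 1)) ^ 2 * X ^ D := by
      rw [add_comm D, reflect_up (natDegree_sq_le (by omega)), reflect_sq (by omega)]
    have h5 : (X * v ^ 2).reflect (D + 2 * (E + 1)) = X * (v.reflect E) ^ 2 * X ^ D := by
      have h6 : (X * v ^ 2).reflect (1 + 2 * E) = (v.reflect E) ^ 2 := by
        rw [reflect_mul _ _ (by rw [natDegree_X]) (natDegree_sq_le (by omega)), reflect_X_one,
          one_mul, reflect_sq (by omega)]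
      rw [show D + 2 * (E + 1) = (1 + 2 * E) + (D + 1) by ring, reflect_up ?_, h6, pow_succ]
      · ring
      · refine natDegree_mul_le.trans ?_
        rw [natDegree_X]
        have := natDegree_sq_le (show v.natDegree ≤ E by omega)
        omega
    rw [h4, h5] at h3
    obtain ⟨k, hk⟩ := hν
    refine ⟨u.reflect (E + 1), v.reflect E, X ^ k * s.reflect (E + 1), ?_, ?_⟩
    · refine IsCoprime.mul_left hX.pow_left ?_
      have := reflect_coprime hs (E := E + 1) (n := n) (by omega) hfn (by rw [hfg]; exact hX)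
      rwa [hfg] at this
    · have hcop : IsCoprime g (X ^ D) := hX.symm.pow_right
      apply hcop.dvd_of_dvd_mul_left
      obtain ⟨c, hc⟩ := h3
      obtain ⟨d, hd⟩ := e
      refine ⟨c - d * (s.reflect (E + 1)) ^ 2, ?_⟩
      have h7 : X ^ D * (X * D₁ * (X ^ k * s.reflect (E + 1)) ^ 2) =
          D₁ * X ^ (ν + D) * (s.reflect (E + 1)) ^ 2 := by
        rw [hk]
        ring
      linear_combination hc - (s.reflect (E + 1)) ^ 2 * hd - h7
  · refine (natDegree_sub_le _ _).trans (max_le ((natDegree_sub_le _ _).trans (max_le ?_ ?_)) ?_)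
    · have := natDegree_sq_le (show u.natDegree ≤ E by omega)
      omega
    · refine natDegree_mul_le.trans ?_
      rw [natDegree_X]
      have := natDegree_sq_le (show v.natDegree ≤ E by omega)
      omega
    · exact natDegree_mul_le.trans (Nat.add_le_add hD (natDegree_sq_le (by omega)))

end Stoll308.SC
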