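import Pool.Agent.Work.MP_308fa9_nt.SC.LocUnit
import Pool.Agent.Work.MP_308fa9_nt.SC.RevLoc

set_option autoImplicit false

/-!
The local lattice, `n` even.
-/

namespace Stoll308.SC

open Polynomial Finset Matrix BG BF

namespace LocE

/-- The determinant of the multiplication by `X`. -/
lemma mulMat_X_det {K : Type*} [Field K] {n : ℕ} (F : K[X]) (hF : F.Monic)
    (hn : F.natDegree = n) : (mulMat n F X).det = (-1) ^ n * F.coeff 0 := by
  have h1 : mulMat n F (C 0 - X) = -mulMat n F X := by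
    ext i j
    rw [Matrix.neg_apply]
    change (((C 0 - X) * X ^ (i : ℕ)) %ₘ F).coeff j = -((X * X ^ (i : ℕ)) %ₘ F).coeff j
    rw [C_0, zero_sub, neg_mul, ← coeff_neg]
    congr 1
    have := sub_modByMonic (0 : K[X]) (X * X ^ (i : ℕ)) F
    rw [zero_sub, zero_modByMonic, zero_sub] at this
    exact this
  have h2 := HankL.mulMat_lin_det F hF hn (0 : K)
  rw [h1, Matrix.det_neg, Fintype.card_fin, ← coeff_zero_eq_eval_zero] at h2
  rw [← h2, ← mul_assoc, ← mul_pow]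
  simp

/-- Reversal of the basis. -/
lemma rev_conj {K : Type*} [Field K] {n : ℕ} (G H H' : Matrix (Fin n) (Fin n) K)
    (h : ∀ i j, H i j = H' i.rev j.rev) :
    G.submatrix id Fin.rev * H * (G.submatrix id Fin.rev)ᵀ = G * H' * Gᵀ := by
  ext i j
  simp only [Matrix.mul_apply, Matrix.submatrix_apply, Matrix.transpose_apply, id, h]
  rw [← Equiv.sum_comp Fin.revPerm]
  refine Finset.sum_congr rfl fun l _ => ?_
  rw [← Equiv.sum_comp Fin.revPerm]
  simp only [Fin.revPerm_apply, Fin.rev_rev]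

end LocE

open LocE

theorem loc_even {n : ℕ} (hn : 4 ≤ n) (he : Even n) (p : ℕ) [Fact p.Prime] (hp : p ≠ 2)
    (a : Fin (n + 1) → ℤ) (h0 : a 0 ≠ 0) (hl : a (Fin.last n) ≠ 0)
    (hcase : ¬ (p : ℤ) ∣ a 0 ∨ ¬ (p : ℤ) ∣ a (Fin.last n))
    (δ : ℚ_[p][X]) (hloc : OLoc (GZ ℚ_[p] a) δ) :
    ∃ G : Matrix (Fin n) (Fin n) ℚ_[p], G.det ≠ 0 ∧
      (∀ i j, ‖(G * ((a 0 : ℚ_[p])⁻¹ • Hank n (mon ℚ_[p] a) δ) * Gᵀ) i j‖ ≤ 1) ∧
      (∀ i j, ‖(G * ((a 0 : ℚ_[p])⁻¹ • Hank n (mon ℚ_[p] a) (X * δ)) * Gᵀ) i j‖ ≤ 1) ∧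
      ‖(G * ((a 0 : ℚ_[p])⁻¹ • Hank n (mon ℚ_[p] a) δ) * Gᵀ).det‖ = ‖(a 0 : ℚ_[p])‖ := by
  have h0' : ((a 0 : ℤ) : ℚ_[p]) ≠ 0 := by exact_mod_cast h0
  have hl' : ((a (Fin.last n) : ℤ) : ℚ_[p]) ≠ 0 := by exact_mod_cast hl
  rcases hcase with hc | hc
  · obtain ⟨G, hG, h1, h2⟩ := good_unit (by omega) p hp a hc δ hloc
    have hn1 := norm_int_eq_one hc
    have key : ∀ M : Matrix (Fin n) (Fin n) ℚ_[p],
        G * ((a 0 : ℚ_[p])⁻¹ • M) * Gᵀ = (a 0 : ℚ_[p])⁻¹ • (G * M * Gᵀ) := by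
      intro M
      rw [Matrix.mul_smul, Matrix.smul_mul]
    refine ⟨G, hG, ?_, ?_, ?_⟩
    · intro i j
      rw [key, Matrix.smul_apply, norm_smul, norm_inv, hn1, inv_one, one_mul]
      have := h1 0 i j
      rwa [pow_zero, one_mul] at this
    · intro i j
      rw [key, Matrix.smul_apply, norm_smul, norm_inv, hn1, inv_one, one_mul]
      have := h1 1 i j
      rwa [pow_one] at this
    · rw [key, Matrix.det_smul, norm_mul, norm_pow, norm_inv, hn1, inv_one, one_pow, one_mul, h2]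
  · obtain ⟨D, hD⟩ : ∃ D, D = δ.natDegree := ⟨_, rfl⟩
    obtain ⟨D₁, hD₁⟩ := exists_rev a h0' δ (n + 1) D
    have hν : Odd (n + 1) := he.add_one
    obtain ⟨G, hG, h1, h2⟩ := good_rev (by omega) p hp a h0 hc δ hloc (n + 1) D hν hD.ge D₁ hD₁
    have hn1 := norm_int_eq_one hc
    obtain ⟨F, hF⟩ : ∃ F, F = mon ℚ_[p] (a ∘ Fin.rev) := ⟨_, rfl⟩
    rw [← hF] at h1 h2
    have hm0 : (((a ∘ Fin.rev) 0 : ℤ) : ℚ_[p]) ≠ 0 := by
      rw [Function.comp_apply, Fin.rev_zero]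
      exact hl'
    have hFm : F.Monic := by rw [hF]; exact BF.LocLat.mon_monic _ hm0
    have hFn : F.natDegree = n := by rw [hF]; exact BF.LocLat.mon_natDegree _ hm0
    -- the two Hankel matrices
    have r1 : ∀ i j, (a 0 : ℚ_[p])⁻¹ * Hank n (mon ℚ_[p] a) (X * δ) i j =
        -((a (Fin.last n) : ℚ_[p])⁻¹ * Hank n F D₁ i.rev j.rev) := by
      intro i j
      rw [hF]
      refine rev_hank (by omega) a h0' hl' (X * δ) D₁ (D + 1) ?_ ?_ i j
      · refine natDegree_mul_le.trans ?_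
        rw [natDegree_X]
        omega
      · have e1 : (X * δ).reflect (D + 1) = δ.reflect D := by
          rw [add_comm D 1, reflect_mul _ _ (by rw [natDegree_X]) hD.ge]
          have : (X : ℚ_[p][X]).reflect 1 = 1 := by
            have := reflect_monomial 1 1 (R := ℚ_[p])
            rw [pow_one] at this
            rw [this, revAt_le le_rfl, Nat.sub_self, pow_zero]
          rw [this, one_mul]
        rw [e1, show n + (D + 1) = n + 1 + D by ring]
        exact hD₁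
    have r0 : ∀ i j, (a 0 : ℚ_[p])⁻¹ * Hank n (mon ℚ_[p] a) δ i j =
        -((a (Fin.last n) : ℚ_[p])⁻¹ * Hank n F (X * D₁) i.rev j.rev) := by
      intro i j
      rw [hF]
      refine rev_hank (by omega) a h0' hl' δ (X * D₁) D hD.ge ?_ i j
      have e1 : X * D₁ * X ^ (n + D) = D₁ * X ^ (n + 1 + D) := by ring
      rw [e1]
      exact hD₁
    have k1 := rev_conj G ((a 0 : ℚ_[p])⁻¹ • Hank n (mon ℚ_[p] a) (X * δ))
      (-((a (Fin.last n) : ℚ_[p])⁻¹ • Hank n F D₁)) (fun i j => by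
        rw [Matrix.smul_apply, smul_eq_mul, r1, Matrix.neg_apply, Matrix.smul_apply, smul_eq_mul])
    have k0 := rev_conj G ((a 0 : ℚ_[p])⁻¹ • Hank n (mon ℚ_[p] a) δ)
      (-((a (Fin.last n) : ℚ_[p])⁻¹ • Hank n F (X * D₁))) (fun i j => by
        rw [Matrix.smul_apply, smul_eq_mul, r0, Matrix.neg_apply, Matrix.smul_apply, smul_eq_mul])
    have key : ∀ M : Matrix (Fin n) (Fin n) ℚ_[p],
        G * (-((a (Fin.last n) : ℚ_[p])⁻¹ • M)) * Gᵀ =
          (-(a (Fin.last n) : ℚ_[p])⁻¹) • (G * M * Gᵀ) := by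
      intro M
      rw [← neg_smul, Matrix.mul_smul, Matrix.smul_mul]
    have hnn : ‖(-(a (Fin.last n) : ℚ_[p])⁻¹)‖ = 1 := by
      rw [norm_neg, norm_inv, hn1, inv_one]
    refine ⟨G.submatrix id Fin.rev, ?_, ?_, ?_, ?_⟩
    · have : G.submatrix id Fin.rev = G.submatrix id Fin.revPerm := rfl
      rw [this, Matrix.det_permute']
      refine mul_ne_zero ?_ hG
      exact_mod_cast (Units.ne_zero _)
    · intro i j
      rw [k0, key, Matrix.smul_apply, norm_smul, hnn, one_mul]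
      have := h1 1 i j
      rwa [pow_one] at this
    · intro i j
      rw [k1, key, Matrix.smul_apply, norm_smul, hnn, one_mul]
      have := h1 0 i j
      rwa [pow_zero, one_mul] at this
    · rw [k0, key, Matrix.det_smul, norm_mul, norm_pow, hnn, one_pow, one_mul]
      have e1 : Hank n F (X * D₁) = mulMat n F X * Hank n F D₁ := by
        rw [mul_comm X D₁]
        exact HankL.hank_mul F D₁ X hFm hFn
      have e2 : (G * Hank n F (X * D₁) * Gᵀ).det =
          (mulMat n F X).det * (G * Hank n F D₁ * Gᵀ).det := by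
        rw [e1]
        simp only [det_mul]
        ring
      rw [e2, norm_mul, h2, mul_one, mulMat_X_det F hFm hFn, norm_mul, norm_pow, norm_neg,
        norm_one, one_pow, one_mul, hF]
      unfold mon
      rw [coeff_C_mul, gz_coeff_zero, norm_mul, norm_inv, Function.comp_apply, Fin.rev_zero, hn1,
        inv_one, one_mul]

end Stoll308.SC
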