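import Pool.Agent.Work.MP_308fa9_nt.SC.Basic

set_option autoImplicit false

/-!
The Selmer set over a number field of odd degree.
-/

namespace Stoll308.SC

open Polynomial Finset Matrix BG BF

namespace OddNorm

section

variable {K : Type*} [Field K] {E : Type*} [CommRing E] [Algebra K E] {ι : Type*} [Fintype ι]
  [DecidableEq ι] (b : Module.Basis ι K E)

/-- The matrix over `K[X]` of the multiplication by an element of `E[X]`. -/
noncomputable def Phi : E[X] →+* Matrix ι ι K[X] :=
  (matPolyEquiv (R := K) (n := ι)).symm.toRingEquiv.toRingHom.comp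
    (mapRingHom (Algebra.leftMulMatrix b : E →+* Matrix ι ι K))

/-- The norm from `E[X]` to `K[X]`. -/
noncomputable def nm (u : E[X]) : K[X] := (Phi b u).det

lemma matPolyEquiv_Phi (u : E[X]) :
    matPolyEquiv (Phi b u) = u.map (Algebra.leftMulMatrix b : E →+* Matrix ι ι K) := by
  change matPolyEquiv (matPolyEquiv.symm _) = _
  rw [AlgEquiv.apply_symm_apply]
  rfl

lemma Phi_coeff (u : E[X]) (i j : ι) (m : ℕ) :
    (Phi b u i j).coeff m = Algebra.leftMulMatrix b (u.coeff m) i j := by
  rw [← matPolyEquiv_coeff_apply, matPolyEquiv_Phi, coeff_map]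
  rfl

lemma nm_one : nm b 1 = 1 := by
  unfold nm
  rw [map_one, Matrix.det_one]

lemma nm_mul (u v : E[X]) : nm b (u * v) = nm b u * nm b v := by
  unfold nm
  rw [map_mul, Matrix.det_mul]

lemma nm_sq (u : E[X]) : nm b (u ^ 2) = nm b u ^ 2 := by
  rw [sq, sq, nm_mul]

/-- The image of a polynomial with coefficients in `K`. -/
lemma Phi_map (f : K[X]) : Phi b (f.map (algebraMap K E)) = Matrix.scalar ι f := by
  apply matPolyEquiv.injective
  rw [matPolyEquiv_Phi]
  have h : Matrix.scalar ι f = f • (1 : Matrix ι ι K[X]) := by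
    rw [Matrix.smul_one_eq_diagonal]; rfl
  rw [h, matPolyEquiv_smul_one, Polynomial.map_map]
  congr 1
  ext c : 1
  exact (Algebra.leftMulMatrix b).commutes c

lemma nm_congr (f : K[X]) (u q : E[X]) :
    f ∣ nm b (u + f.map (algebraMap K E) * q) - nm b u := by
  unfold nm
  rw [← Ideal.mem_span_singleton, ← Ideal.Quotient.mk_eq_mk_iff_sub_mem, RingHom.map_det,
    RingHom.map_det]
  congr 1
  rw [map_add, map_mul, Phi_map, map_add, map_mul]
  have : (Ideal.Quotient.mk (Ideal.span {f})).mapMatrix (Matrix.scalar ι f) = 0 := by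
    ext i j
    by_cases h : i = j
    · subst h
      simp
    · simp [h]
  rw [this, zero_mul, add_zero]

lemma nm_lin [Module.Finite K E] (z : E) : nm b (C z - X) =
    (-1) ^ Fintype.card ι * (LinearMap.mulLeft K z).charpoly := by
  have h1 : Phi b (C z - X) = -(Algebra.leftMulMatrix b z).charmatrix := by
    apply matPolyEquiv.injective
    rw [matPolyEquiv_Phi, map_neg, matPolyEquiv_charmatrix, Polynomial.map_sub, map_C, map_X,
      neg_sub]
    rfl
  unfold nm
  rw [h1, Matrix.det_neg]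
  congr 1
  change (Algebra.leftMulMatrix b z).charpoly = _
  rw [Algebra.leftMulMatrix_apply, ← LinearMap.charpoly_toMatrix (LinearMap.mulLeft K z) b]
  rfl

end

section

variable {K L : Type*} [Field K] [Field L] [Algebra K L] {E : Type*} [CommRing E] [Algebra K E]
  {ι : Type*} [Fintype ι] [DecidableEq ι] (b : Module.Basis ι K E)

open TensorProduct

lemma leftMulMatrix_baseChange (x : E) :
    Algebra.leftMulMatrix (b.baseChange L) ((1 : L) ⊗ₜ[K] x) =
      (Algebra.leftMulMatrix b x).map (algebraMap K L) := by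
  ext i j
  rw [Algebra.leftMulMatrix_eq_repr_mul, Matrix.map_apply, Algebra.leftMulMatrix_eq_repr_mul,
    Module.Basis.baseChange_apply, Algebra.TensorProduct.tmul_mul_tmul, one_mul,
    Module.Basis.baseChange_repr_tmul, Algebra.smul_def, mul_one]

lemma nm_baseChange (u : E[X]) :
    nm (b.baseChange L)
      (u.map (Algebra.TensorProduct.includeRight : E →ₐ[K] L ⊗[K] E).toRingHom) =
      (nm b u).map (algebraMap K L) := by
  unfold nm
  change _ = mapRingHom (algebraMap K L) (Phi b u).det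
  rw [RingHom.map_det]
  congr 1
  ext i j m
  rw [Phi_coeff, RingHom.mapMatrix_apply, Matrix.map_apply, coe_mapRingHom, coeff_map, coeff_map,
    Phi_coeff]
  exact congrFun (congrFun (leftMulMatrix_baseChange (L := L) b (u.coeff m)) i) j

end

end OddNorm

open OddNorm TensorProduct in
/-- The norm of the class from `k` to `ℚ`. -/
theorem oddSel_of_selOver {n : ℕ} (ψ : ℤ[X]) (a : Fin (n + 1) → ℤ) (k : Type) [Field k]
    [Algebra ℚ k] (ho : Odd (Module.finrank ℚ k)) (h : SelOver ψ a k) : OddSel ψ a := by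
  have hfin : Module.Finite ℚ k := Module.finite_of_finrank_pos ho.pos
  have GZ_map : ∀ {R S : Type} [CommRing R] [CommRing S] (f : R →+* S),
      (GZ R a).map f = GZ S a := by
    intro R S _ _ f
    unfold GZ gpol
    rw [Polynomial.map_sum]
    refine Finset.sum_congr rfl fun i _ => ?_
    rw [Polynomial.map_mul, Polynomial.map_pow, map_X, map_C, map_intCast]
  obtain ⟨δ, hδ, hloc⟩ := h
  set b := Module.finBasis ℚ k with hb
  refine ⟨nm b δ, ?_, ?_⟩
  · obtain ⟨u, v, huv⟩ := hδ
    have h1 : u * δ = 1 + (GZ ℚ a).map (algebraMap ℚ k) * (-v) := by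
      rw [GZ_map]
      linear_combination huv
    obtain ⟨q, hq⟩ := nm_congr b (GZ ℚ a) 1 (-v)
    rw [← h1, nm_mul, nm_one] at hq
    exact ⟨nm b u, -q, by linear_combination hq⟩
  · intro p _ hp
    obtain ⟨x, y, s, hy, he, q, hq⟩ := hloc p hp
    have hfe : GZ (ℚ_[p] ⊗[ℚ] k) a = (GZ ℚ_[p] a).map (algebraMap ℚ_[p] (ℚ_[p] ⊗[ℚ] k)) :=
      (GZ_map _).symm
    have hrank : Module.finrank ℚ_[p] (ℚ_[p] ⊗[ℚ] k) = Module.finrank ℚ k :=
      Module.finrank_baseChange
    refine ⟨ℚ_[p] ⊗[ℚ] k, inferInstance, inferInstance, inferInstance, x, y,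
      nm (b.baseChange ℚ_[p]) s, ?_, hy, ?_, ?_⟩
    · rw [hrank]; exact ho
    · rw [he, hfe, eval_map_algebraMap]
      rfl
    · rw [sub_eq_iff_eq_add, hfe] at hq
      obtain ⟨r, hr⟩ := nm_congr (b.baseChange ℚ_[p]) (GZ ℚ_[p] a)
        (δ.map (Algebra.TensorProduct.includeRight : k →ₐ[ℚ] ℚ_[p] ⊗[ℚ] k).toRingHom * s ^ 2) q
      rw [add_comm, ← hq, nm_lin, nm_mul, nm_baseChange, nm_sq, Fintype.card_fin,
        ho.neg_one_pow, neg_one_mul] at hr
      exact ⟨r, hr⟩

end Stoll308.SC
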