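import Pool.Agent.Work.MP_308fa9_nt.SC.OddSq

set_option autoImplicit false

/-!
Points over number fields of odd degree.
-/

namespace Stoll308.SC

open Polynomial Finset Matrix BG BF

lemma op_GZ_map {R S : Type*} [CommRing R] [CommRing S] (φ : R →+* S) {n : ℕ}
    (a : Fin (n + 1) → ℤ) : (GZ R a).map φ = GZ S a := by
  simp [GZ, gpol, Polynomial.map_sum]

lemma op_GZ_eval {n : ℕ} (a : Fin (n + 1) → ℤ) (k : Type*) [Field k] [Algebra ℚ k] (t : k) :
    (GZ k a).eval t = aeval t (GZ ℚ a) := by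
  rw [← op_GZ_map (algebraMap ℚ k) a, eval_map_algebraMap]

/-- The leading coefficient of `f`. -/
lemma op_coeff_n {R : Type*} [CommRing R] {n : ℕ} (a : Fin (n + 1) → ℤ) :
    (GZ R a).coeff n = a 0 := by
  simp only [GZ, gpol, finsetSum_coeff, coeff_C_mul_X_pow]
  rw [Finset.sum_eq_single (0 : Fin (n + 1))]
  · simp
  · intro i _ hi
    have : (i : ℕ) ≠ 0 := fun h => hi (Fin.ext h)
    have h2 := i.isLt
    rw [if_neg (by omega)]
  · simp

/-- The constant coefficient of `f`. -/
lemma op_coeff_zero {R : Type*} [CommRing R] {n : ℕ} (a : Fin (n + 1) → ℤ) :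
    (GZ R a).coeff 0 = a (Fin.last n) := by
  simp only [GZ, gpol, finsetSum_coeff, coeff_C_mul_X_pow]
  rw [Finset.sum_eq_single (Fin.last n)]
  · simp
  · intro i _ hi
    have : (i : ℕ) ≠ n := fun h => hi (Fin.ext h)
    have h2 := i.isLt
    rw [if_neg (by omega)]
  · simp

lemma op_natDegree_le {R : Type*} [CommRing R] {n : ℕ} (a : Fin (n + 1) → ℤ) :
    (GZ R a).natDegree ≤ n := by
  refine natDegree_sum_le_of_forall_le _ _ fun i _ => ?_
  exact (natDegree_C_mul_X_pow_le _ _).trans (Nat.sub_le _ _)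

lemma op_natDegree {n : ℕ} (a : Fin (n + 1) → ℤ) (h0 : a 0 ≠ 0) :
    (GZ ℚ a).natDegree = n := by
  refine natDegree_eq_of_le_of_coeff_ne_zero (op_natDegree_le a) ?_
  rw [op_coeff_n]
  exact_mod_cast h0

/-- An element of `ℚ` with an odd power which is a square is a square. -/
lemma op_sq_of_pow {K : Type*} [Field K] (q c : K) (m : ℕ) (hm : Odd m) (h : q ^ m = c ^ 2) :
    IsSquare q := by
  obtain ⟨j, rfl⟩ := hm
  by_cases hq : q = 0
  · exact ⟨0, by simp [hq]⟩
  refine ⟨c / q ^ j, ?_⟩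
  rw [← sq, div_pow, ← h, eq_div_iff (pow_ne_zero _ (pow_ne_zero _ hq))]
  ring

/-- The points at infinity. -/
lemma op_inf (c : ℤ) (k : Type*) [Field k] [Algebra ℚ k] (ho : Odd (Module.finrank ℚ k))
    (h : IsSquare (c : k)) : IsSquare c := by
  obtain ⟨b, hb⟩ := h
  have h1 : Algebra.norm ℚ (algebraMap ℚ k (c : ℚ)) = (c : ℚ) ^ Module.finrank ℚ k :=
    Algebra.norm_algebraMap _
  have h2 : algebraMap ℚ k (c : ℚ) = b * b := by rw [map_intCast, hb]
  rw [h2, map_mul, ← sq] at h1
  have := op_sq_of_pow _ _ _ ho h1.symm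
  exact Rat.isSquare_intCast_iff.mp this

/-- The norm of an element and its minimal polynomial. -/
lemma op_norm {K k : Type*} [Field K] [Field k] [Algebra K k] [Module.Finite K k]
    [Algebra.IsSeparable K k] (t : k) :
    Algebra.norm K t = ((-1) ^ (minpoly K t).natDegree * (minpoly K t).coeff 0) ^
      Module.finrank (IntermediateField.adjoin K {t}) k := by
  have hint : IsIntegral K t := Algebra.IsIntegral.isIntegral t
  rw [Algebra.norm_eq_norm_adjoin K t]
  congr 1
  have h3 := Algebra.PowerBasis.norm_gen_eq_coeff_zero_minpoly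
    (IntermediateField.adjoin.powerBasis hint)
  rw [IntermediateField.adjoin.powerBasis_gen, IntermediateField.adjoin.powerBasis_dim,
    IntermediateField.minpoly_gen] at h3
  exact h3

/-- The degree of an element divides. -/
lemma op_deg {K k : Type*} [Field K] [Field k] [Algebra K k] [Module.Finite K k] (t : k) :
    (minpoly K t).natDegree * Module.finrank (IntermediateField.adjoin K {t}) k =
      Module.finrank K k := by
  have hint : IsIntegral K t := Algebra.IsIntegral.isIntegral t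
  rw [← IntermediateField.adjoin.finrank hint]
  exact Module.finrank_mul_finrank K (IntermediateField.adjoin K {t}) k

lemma op_aeval {k E : Type*} [CommRing k] [CommRing E] (ι : k →+* E) (x : k) (ψ : ℤ[X]) :
    aeval (ι x) ψ = ι (aeval x ψ) := by
  rw [aeval_def, aeval_def, hom_eval₂]
  congr 1
  exact Subsingleton.elim _ _

/-- The ramification points of the curve over the line. -/
lemma op_ram {n : ℕ} (a : Fin (n + 1) → ℤ) (h0 : a 0 ≠ 0) (hF : Irreducible (GZ ℚ a))
    (k : Type*) [Field k] [Algebra ℚ k] (ho : Odd (Module.finrank ℚ k)) (z : k)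
    (h : aeval (z ^ 2) (GZ ℚ a) = 0) : Odd n ∧ IsSquare (-(a 0 * a (Fin.last n))) := by
  have hfin : Module.Finite ℚ k := Module.finite_of_finrank_pos ho.pos
  have h0' : (a 0 : ℚ) ≠ 0 := by exact_mod_cast h0
  set t := z ^ 2 with ht
  have hint : IsIntegral ℚ t := Algebra.IsIntegral.isIntegral t
  have hlc : (GZ ℚ a).leadingCoeff = a 0 := by
    rw [leadingCoeff, op_natDegree a h0, op_coeff_n]
  have hmin : minpoly ℚ t = GZ ℚ a * C (a 0 : ℚ)⁻¹ := by
    have := minpoly.eq_of_irreducible hF h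
    rw [hlc] at this
    exact this.symm
  have hdeg : (minpoly ℚ t).natDegree = n := by
    rw [hmin, natDegree_mul_C (inv_ne_zero h0'), op_natDegree a h0]
  have hmul := op_deg (K := ℚ) t
  rw [hdeg] at hmul
  rw [← hmul, Nat.odd_mul] at ho
  obtain ⟨hn, hm⟩ := ho
  refine ⟨hn, ?_⟩
  have h1 := op_norm (K := ℚ) t
  rw [hdeg, hn.neg_one_pow, hmin, coeff_mul_C, op_coeff_zero] at h1
  rw [ht, map_pow] at h1
  have h2 := op_sq_of_pow _ _ _ hm h1.symm
  obtain ⟨c, hc⟩ := h2
  rw [← Rat.isSquare_intCast_iff]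
  refine ⟨a 0 * c, ?_⟩
  have h5 : ((-(a 0 * a (Fin.last n)) : ℤ) : ℚ) =
      (a 0 : ℚ) * (a 0 : ℚ) * (-1 * ((a (Fin.last n) : ℚ) * (a 0 : ℚ)⁻¹)) := by
    push_cast
    field_simp
  rw [h5, hc]
  ring

/-- A point over a number field of odd degree which is not a ramification point of the curve over
the line (so `y ≠ 0`) gives an element of the odd Selmer set. -/
theorem oddSel_of_point {n : ℕ} (hn : 2 ≤ n) (ψ : ℤ[X]) (a : Fin (n + 1) → ℤ) (h0 : a 0 ≠ 0)
    (hsq : ¬ IsSquare (a 0)) (hF : Irreducible (GZ ℚ a))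
    (hn' : Odd n → ¬ IsSquare (-(a 0 * a (Fin.last n)))) (k : Type) [Field k] [Algebra ℚ k]
    (ho : Odd (Module.finrank ℚ k)) (h : HasPoint ψ a k) : OddSel ψ a := by
  rcases h with ⟨x, y, hxy⟩ | h
  · have hfin : Module.Finite ℚ k := Module.finite_of_finrank_pos ho.pos
    rw [op_GZ_eval] at hxy
    have hy : y ≠ 0 := by
      rintro rfl
      rw [zero_pow two_ne_zero] at hxy
      obtain ⟨h1, h2⟩ := op_ram a h0 hF k ho (aeval x ψ) hxy.symm
      exact hn' h1 h2
    refine ⟨-(LinearMap.mulLeft ℚ ((aeval x ψ) ^ 2)).charpoly, ?_, ?_⟩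
    · refine IsCoprime.neg_left (charpoly_coprime _ _ ?_)
      rw [← hxy]
      exact (isUnit_iff_ne_zero.mpr hy).pow 2
    · intro p _ hp
      let ι : k →ₐ[ℚ] TensorProduct ℚ ℚ_[p] k := Algebra.TensorProduct.includeRight
      have hx := op_aeval ι.toRingHom x ψ
      have hx' : ∀ u, ι.toRingHom u = ι u := fun u => rfl
      rw [hx', hx'] at hx
      refine ⟨TensorProduct ℚ ℚ_[p] k, inferInstance, inferInstance, inferInstance, ι x, ι y, 1,
        ?_, ?_, ?_, ?_⟩
      · rw [Module.finrank_baseChange]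
        exact ho
      · exact (isUnit_iff_ne_zero.mpr hy).map ι
      · rw [hx, ← map_pow, ← map_pow, hxy, ← op_GZ_map (algebraMap ℚ ℚ_[p]) a,
          aeval_map_algebraMap, aeval_algHom_apply]
      · rw [hx, ← map_pow]
        have h3 : (LinearMap.mulLeft ℚ_[p] (ι ((aeval x ψ) ^ 2))).charpoly =
            (LinearMap.mulLeft ℚ ((aeval x ψ) ^ 2)).charpoly.map (algebraMap ℚ ℚ_[p]) := by
          rw [← LinearMap.charpoly_baseChange]
          congr 1
          ext u
          simp [ι]
        rw [h3, Polynomial.map_neg, one_pow, mul_one, sub_self]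
        exact dvd_zero _
  · exact absurd (op_inf _ k ho h) hsq

end Stoll308.SC
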