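import Pool.Agent.Work.MP_308fa9_nt.SC.Basic
import Pool.Agent.Work.MP_308fa9_nt.BG.LCond2
import Pool.Agent.Work.MP_308fa9_nt.BF.LocLat
import Pool.Agent.Work.MP_308fa9_nt.BF.LCond

set_option autoImplicit false

/-!
The second form at a prime which divides the leading coefficient exactly once.
-/

namespace Stoll308.SC

open Polynomial Finset Matrix BG BF

namespace LocInf

lemma coeff_GZ {R : Type*} [CommRing R] {n : ℕ} (b : Fin (n + 1) → ℤ) {j : ℕ} (hj : j ≤ n) :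
    (GZ R b).coeff j = (b ⟨n - j, by omega⟩ : R) := by
  unfold GZ gpol
  rw [finsetSum_coeff, Finset.sum_eq_single ⟨n - j, by omega⟩]
  · have e : n - (n - j) = j := by omega
    rw [coeff_C_mul, coeff_X_pow]
    simp only
    rw [e, if_pos rfl, mul_one]
  · intro i _ hi
    rw [coeff_C_mul, coeff_X_pow, if_neg, mul_zero]
    intro h
    apply hi
    apply Fin.ext
    have := i.isLt
    show (i : ℕ) = n - j
    omega
  · intro h
    exact absurd (Finset.mem_univ _) h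

variable {p : ℕ} [hpf : Fact p.Prime]

lemma toZMod_zero (x : ℤ_[p]) : PadicInt.toZMod x = 0 ↔ ‖x‖ < 1 := by
  rw [← RingHom.mem_ker, PadicInt.ker_toZMod, IsLocalRing.mem_maximalIdeal, PadicInt.mem_nonunits]

lemma norm_sq_ne (x : ℚ_[p]) : ‖x‖ ^ 2 ≠ (p : ℝ)⁻¹ := by
  intro h
  have hp1 : (1 : ℝ) < p := by exact_mod_cast (Fact.out : p.Prime).one_lt
  have hx : x ≠ 0 := by
    rintro rfl
    rw [norm_zero, zero_pow two_ne_zero] at h
    have : (0 : ℝ) < (p : ℝ)⁻¹ := by positivity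
    linarith
  rw [Padic.norm_eq_zpow_neg_valuation hx, ← zpow_natCast, ← _root_.zpow_mul, ← _root_.zpow_neg_one] at h
  have := zpow_right_injective₀ (by linarith) (by linarith) h
  push_cast at this
  omega

lemma one_sub_sq (hp : p ≠ 2) (q : ℚ_[p]) (hq : ‖q‖ < 1) : ∃ z : ℚ_[p], z ^ 2 = 1 - q ∧ z ≠ 0 := by
  have h1 : ‖(1 : ℚ_[p]) - q‖ ≤ 1 := by
    rw [sub_eq_add_neg]
    refine (Padic.nonarchimedean _ _).trans ?_
    rw [norm_one, norm_neg]
    exact max_le le_rfl hq.le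
  have h2 : ‖(1 : ℚ_[p]) - q - 1‖ < 1 := by
    rw [show (1 : ℚ_[p]) - q - 1 = -q by ring, norm_neg]
    exact hq
  obtain ⟨z, hz⟩ := LCond.one_unit_sq p hp ⟨1 - q, h1⟩ h2
  have hz' : (z : ℚ_[p]) ^ 2 = 1 - q := by
    have h5 := congrArg (fun q : ℤ_[p] => (q : ℚ_[p])) hz
    simpa using h5
  refine ⟨z, hz', fun h0 => ?_⟩
  rw [h0, zero_pow two_ne_zero] at hz'
  have : q = 1 := by linear_combination hz'
  rw [this, norm_one] at hq
  exact lt_irrefl _ hq

/-- The value at the root of odd valuation is minus a square. -/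
lemma neg_sq (hp : p ≠ 2) {θ c d u v s : ℚ_[p]} (hθ : ‖θ‖ = (p : ℝ)⁻¹) (hc : ‖c‖ = 1) (hd : d ≠ 0)
    (hs : s ≠ 0) (h1 : IsSquare (c * d)) (h2 : u ^ 2 - θ * v ^ 2 = θ * d * s ^ 2) :
    IsSquare (-c) := by
  have hp0 : (0 : ℝ) < (p : ℝ)⁻¹ := by
    have : (0 : ℝ) < p := by exact_mod_cast (Fact.out : p.Prime).pos
    positivity
  have hθ0 : θ ≠ 0 := by
    rintro rfl
    rw [norm_zero] at hθ
    linarith
  have hc0 : c ≠ 0 := by
    rintro rfl
    rw [norm_zero] at hc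
    linarith
  obtain ⟨r, hr⟩ := h1
  have hr0 : r ≠ 0 := by
    rintro rfl
    rw [mul_zero] at hr
    rcases mul_eq_zero.mp hr with h | h
    · exact hc0 h
    · exact hd h
  rcases lt_trichotomy (‖u‖ ^ 2) (‖θ‖ * ‖v‖ ^ 2) with h | h | h
  · have hv0 : v ≠ 0 := by
      rintro rfl
      rw [norm_zero, zero_pow two_ne_zero, mul_zero] at h
      have := sq_nonneg ‖u‖
      linarith
    obtain ⟨z, hz, hz0⟩ := one_sub_sq hp (u ^ 2 / (θ * v ^ 2)) (by
      rw [norm_div, norm_mul, norm_pow, norm_pow]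
      rw [div_lt_one]
      · exact h
      · have := norm_pos_iff.mpr hv0
        have := norm_pos_iff.mpr hθ0
        positivity)
    have e1 : θ * d * s ^ 2 = -(θ * v ^ 2 * z ^ 2) := by
      rw [hz, ← h2]
      field_simp
      ring
    have e2 : d * s ^ 2 = -(v ^ 2 * z ^ 2) := by
      apply mul_left_cancel₀ hθ0
      linear_combination e1
    refine ⟨r * s / (v * z), ?_⟩
    have e3 : -c * (v * z) ^ 2 = (r * s) ^ 2 := by
      linear_combination (-c) * e2 + s ^ 2 * hr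
    rw [div_mul_div_comm, eq_div_iff (mul_ne_zero (mul_ne_zero hv0 hz0) (mul_ne_zero hv0 hz0))]
    linear_combination e3
  · exfalso
    by_cases hv0 : v = 0
    · subst hv0
      rw [norm_zero, zero_pow two_ne_zero, mul_zero] at h
      have hu0 : u = 0 := by
        rw [← norm_eq_zero]
        exact pow_eq_zero_iff two_ne_zero |>.mp h
      subst hu0
      have h3 : θ * d * s ^ 2 = 0 := by
        rw [← h2]
        ring
      exact mul_ne_zero (mul_ne_zero hθ0 hd) (pow_ne_zero 2 hs) h3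
    · apply norm_sq_ne (u / v)
      have := norm_pos_iff.mpr hv0
      rw [norm_div, div_pow, h, ← hθ]
      field_simp
  · exfalso
    have hu0 : u ≠ 0 := by
      rintro rfl
      rw [norm_zero, zero_pow two_ne_zero] at h
      have := norm_nonneg θ
      have := sq_nonneg ‖v‖
      nlinarith
    obtain ⟨z, hz, hz0⟩ := one_sub_sq hp (θ * v ^ 2 / u ^ 2) (by
      rw [norm_div, norm_mul, norm_pow, norm_pow]
      rw [div_lt_one]
      · exact h
      · have := norm_pos_iff.mpr hu0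
        positivity)
    have e1 : θ * d * s ^ 2 = u ^ 2 * z ^ 2 := by
      rw [hz, ← h2]
      field_simp
    have e2 : θ * (r * s) ^ 2 = c * (u * z) ^ 2 := by
      linear_combination c * e1 - θ * s ^ 2 * hr
    apply norm_sq_ne (u * z / (r * s))
    have e3 := congrArg norm e2
    rw [norm_mul, norm_mul, hc, hθ, one_mul, norm_pow, norm_pow] at e3
    have := norm_pos_iff.mpr (mul_ne_zero hr0 hs)
    rw [norm_div, div_pow, ← e3]
    field_simp

/-- rank one over a field -/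
lemma rank_one {k : Type*} [Field k] {n : ℕ} (A D : Matrix (Fin n) (Fin n) k) (hA : A.IsSymm)
    (hD : D.IsSymm) (hd : D.det = 0) (e : k)
    (hsq : ∀ i, (e • (A * D.adjugate * A)) i i ≠ 0 → IsSquare (-(e • (A * D.adjugate * A)) i i)) :
    ∃ w : Fin n → k, ∀ i j, (e • (A * D.adjugate * A)) i j + w i * w j = 0 := by
  obtain ⟨v, hv0, hv⟩ := Matrix.exists_mulVec_eq_zero_iff.mpr hd
  obtain ⟨ρ, hρ⟩ := LCond.adjugate_rank_one D hD v hv0 hv
  set x := A *ᵥ v with hx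
  have hadj : D.adjugate = ρ • Matrix.vecMulVec v v := by
    ext i j
    rw [hρ, Matrix.smul_apply, Matrix.vecMulVec_apply, smul_eq_mul, mul_assoc]
  have hB : ∀ i j, (e • (A * D.adjugate * A)) i j = e * ρ * x i * x j := by
    intro i j
    have h1 : v ᵥ* A = x := by
      conv_lhs => rw [← hA.eq]
      rw [Matrix.vecMul_transpose]
    rw [hadj, Matrix.mul_smul, Matrix.smul_mul, Matrix.mul_vecMulVec, Matrix.vecMulVec_mul, h1,
      Matrix.smul_apply, Matrix.smul_apply, Matrix.vecMulVec_apply, smul_eq_mul, smul_eq_mul]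
    ring
  by_cases hk : ∃ k, (e • (A * D.adjugate * A)) k k ≠ 0
  · obtain ⟨k, hk⟩ := hk
    obtain ⟨c, hc⟩ := hsq k hk
    rw [hB] at hk hc
    have hxk : x k ≠ 0 := by
      intro h0
      apply hk
      rw [h0]
      ring
    refine ⟨fun j => c / x k * x j, fun i j => ?_⟩
    rw [hB]
    field_simp
    linear_combination (-(x i * x j)) * hc
  · push Not at hk
    refine ⟨fun _ => 0, fun i j => ?_⟩
    rw [hB, mul_zero, add_zero]
    by_cases hi : x i = 0
    · rw [hi]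
      ring
    · have h1 := hk i
      rw [hB] at h1
      have h2 : e * ρ = 0 := by
        have h3 : e * ρ * (x i * x i) = 0 := by linear_combination h1
        exact (mul_eq_zero.mp h3).resolve_right (mul_ne_zero hi hi)
      rw [h2]
      ring

lemma map_form {R S : Type*} [CommRing R] [CommRing S] {n : ℕ} (f : R →+* S) (e : R)
    (A D : Matrix (Fin n) (Fin n) R) : (e • (A * D.adjugate * A)).map f =
      f e • (A.map f * (D.map f).adjugate * A.map f) := by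
  have h : D.adjugate.map f = (D.map f).adjugate := RingHom.map_adjugate f D
  rw [← h, ← Matrix.map_mul, ← Matrix.map_mul]
  ext i j
  simp only [Matrix.map_apply, Matrix.smul_apply, smul_eq_mul, map_mul]

lemma adj_inv {k : Type*} [Field k] {n : ℕ} (A : Matrix (Fin n) (Fin n) k) (h : IsUnit A.det) :
    (A⁻¹).adjugate = (A⁻¹).det • A := by
  calc (A⁻¹).adjugate = (A⁻¹).adjugate * (A⁻¹ * A) := by
        rw [Matrix.nonsing_inv_mul _ h, Matrix.mul_one]
    _ = ((A⁻¹).adjugate * A⁻¹) * A := by rw [Matrix.mul_assoc]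
    _ = (A⁻¹).det • A := by rw [Matrix.adjugate_mul, Matrix.smul_mul, Matrix.one_mul]

/-- the values at the root -/
lemma sq_at {k : Type*} [Field k] {n : ℕ} (F δ : k[X]) (hF : F.Monic) (hn : F.natDegree = n) (θ : k)
    (hθ : F.eval θ = 0) (hd : (derivative F).eval θ ≠ 0) (G : Matrix (Fin n) (Fin n) k)
    (hG : G.det ≠ 0) (A D : Matrix (Fin n) (Fin n) k) (hA : A = G * Hank n F δ * Gᵀ)
    (hD : D = G * Hank n F (X * δ) * Gᵀ) (hAd : A.det ≠ 0) (i : Fin n) :
    IsSquare ((A.det⁻¹ • (A * (θ • A - D).adjugate * A)) i i * δ.eval θ) := by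
  have hu : IsUnit A.det := isUnit_iff_ne_zero.mpr hAd
  have hsA : Aᵀ = A := by
    rw [hA]
    exact (HankL.conj_symm (hank_isSymm _ _)).eq
  have hdi : (A⁻¹).det = A.det⁻¹ := by
    rw [Matrix.det_nonsing_inv, Ring.inverse_eq_inv']
  have hGt : (A⁻¹ * G)ᵀ = Gᵀ * A⁻¹ := by
    rw [Matrix.transpose_mul, Matrix.transpose_nonsing_inv, hsA]
  have h1 : A⁻¹ = (A⁻¹ * G) * Hank n F δ * (A⁻¹ * G)ᵀ := by
    rw [hGt]
    calc A⁻¹ = A⁻¹ * A * A⁻¹ := by rw [Matrix.nonsing_inv_mul _ hu, Matrix.one_mul]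
      _ = A⁻¹ * (G * Hank n F δ * Gᵀ) * A⁻¹ := by rw [← hA]
      _ = _ := by simp only [Matrix.mul_assoc]
  have h2 : A⁻¹ * D * A⁻¹ = (A⁻¹ * G) * Hank n F (X * δ) * (A⁻¹ * G)ᵀ := by
    rw [hGt, hD]
    simp only [Matrix.mul_assoc]
  have h3 := LCond.adj_square F δ hF hn θ hθ hd (A⁻¹ * G) (by
    rw [Matrix.det_mul, hdi]
    exact mul_ne_zero (inv_ne_zero hAd) hG) A⁻¹ (A⁻¹ * D * A⁻¹) h1 h2 i
  have h4 : θ • A⁻¹ - A⁻¹ * D * A⁻¹ = A⁻¹ * (θ • A - D) * A⁻¹ := by
    rw [Matrix.mul_sub, Matrix.sub_mul, Matrix.mul_smul, Matrix.smul_mul,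
      Matrix.nonsing_inv_mul _ hu, Matrix.one_mul]
  rw [h4, Matrix.adjugate_mul_distrib, Matrix.adjugate_mul_distrib, adj_inv A hu, hdi] at h3
  have h5 : ((A.det⁻¹ • A) * ((θ • A - D).adjugate * (A.det⁻¹ • A))) i i =
      A.det⁻¹ * (A.det⁻¹ • (A * (θ • A - D).adjugate * A)) i i := by
    rw [Matrix.mul_smul, Matrix.mul_smul, Matrix.smul_mul, Matrix.smul_apply, Matrix.smul_apply,
      Matrix.smul_apply, smul_eq_mul, smul_eq_mul, smul_eq_mul, Matrix.mul_assoc]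
  rw [h5] at h3
  have h6 := h3.mul (IsSquare.mul_self A.det)
  have h7 : A.det⁻¹ * (A.det⁻¹ • (A * (θ • A - D).adjugate * A)) i i * A.det⁻¹ * eval θ δ *
      (A.det * A.det) = (A.det⁻¹ • (A * (θ • A - D).adjugate * A)) i i * eval θ δ := by
    field_simp
  rwa [h7] at h6

end LocInf

open LocInf

/-- `f*` has a simple root modulo `p` at `0`; `A`, `D` are the forms of the classes `D₁`, `θ* D₁`;
then `B = (det A)⁻¹ A adj(D) A` is `- w wᵀ` modulo `p`. -/
theorem loc_inf {n : ℕ} (hn : 3 ≤ n) (ho : Odd n) (p : ℕ) [Fact p.Prime] (hp : p ≠ 2)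
    (a : Fin (n + 1) → ℤ) (h1 : (p : ℤ) ∣ a 0) (h2 : ¬ (p : ℤ) ^ 2 ∣ a 0)
    (h3 : ¬ (p : ℤ) ∣ a 1) (h4 : ¬ (p : ℤ) ∣ a (Fin.last n)) (D₁ : ℚ_[p][X])
    (hN : ∃ u v s : ℚ_[p][X], IsCoprime s (GZ ℚ_[p] (a ∘ Fin.rev)) ∧
      GZ ℚ_[p] (a ∘ Fin.rev) ∣ (u ^ 2 - X * v ^ 2) - X * D₁ * s ^ 2)
    (G A D : Matrix (Fin n) (Fin n) ℚ_[p]) (hG : G.det ≠ 0)
    (hA : A = G * Hank n (mon ℚ_[p] (a ∘ Fin.rev)) D₁ * Gᵀ)
    (hD : D = G * Hank n (mon ℚ_[p] (a ∘ Fin.rev)) (X * D₁) * Gᵀ)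
    (hAi : ∀ i j, ‖A i j‖ ≤ 1) (hDi : ∀ i j, ‖D i j‖ ≤ 1) (hAd : ‖A.det‖ = 1) :
    ∃ w : Fin n → ℚ_[p], (∀ i, ‖w i‖ ≤ 1) ∧
      ∀ i j, ‖(A.det⁻¹ • (A * D.adjugate * A)) i j + w i * w j‖ < 1 := by
  have hp0 : (0 : ℝ) < p := by exact_mod_cast (Fact.out : p.Prime).pos
  have hp1 : (1 : ℝ) < p := by exact_mod_cast (Fact.out : p.Prime).one_lt
  set b : Fin (n + 1) → ℤ := a ∘ Fin.rev with hb
  have hb0 : b 0 = a (Fin.last n) := by
    rw [hb]
    exact congrArg a (Fin.rev_zero _)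
  have c0 : (GZ ℤ_[p] b).eval 0 = (a 0 : ℤ_[p]) := by
    rw [← coeff_zero_eq_eval_zero, coeff_GZ b (Nat.zero_le n)]
    have : b ⟨n - 0, by omega⟩ = a 0 := congrArg a (Fin.ext (by simp [Fin.val_rev]))
    rw [this]
  have c1 : (derivative (GZ ℤ_[p] b)).eval 0 = (a 1 : ℤ_[p]) := by
    rw [← coeff_zero_eq_eval_zero, coeff_derivative, zero_add, coeff_GZ b (by omega : 1 ≤ n)]
    have : b ⟨n - 1, by omega⟩ = a 1 := by
      refine congrArg a (Fin.ext ?_)
      rw [Fin.val_rev]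
      show n + 1 - (n - 1 + 1) = 1 % (n + 1)
      rw [Nat.mod_eq_of_lt (by omega)]
      omega
    rw [this]
    simp
  have unit_of : ∀ m : ℤ, ¬ (p : ℤ) ∣ m → ‖(m : ℤ_[p])‖ = 1 := by
    intro m hm
    have h5 : ¬ ‖(m : ℤ_[p])‖ < 1 := fun h => hm ((PadicInt.norm_int_lt_one_iff_dvd _).mp h)
    have h7 := (m : ℤ_[p]).norm_le_one
    linarith [not_lt.mp h5]
  have n1 := unit_of _ h3
  have nn := unit_of _ h4
  have n0 : ‖((a 0 : ℤ) : ℤ_[p])‖ = (p : ℝ)⁻¹ := by
    have e1 : ‖((a 0 : ℤ) : ℤ_[p])‖ ≤ (p : ℝ) ^ (-(1 : ℕ) : ℤ) :=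
      PadicInt.norm_int_le_pow_iff_dvd.mpr (by simpa using h1)
    have e2 : ¬ ‖((a 0 : ℤ) : ℤ_[p])‖ ≤ (p : ℝ) ^ (-(2 : ℕ) : ℤ) := fun h =>
      h2 (PadicInt.norm_int_le_pow_iff_dvd.mp h)
    have hne : ((a 0 : ℤ) : ℤ_[p]) ≠ 0 := by
      intro h
      rw [h, norm_zero] at e2
      exact e2 (by positivity)
    rw [PadicInt.norm_eq_zpow_neg_valuation hne] at e1 e2 ⊢
    rw [zpow_le_zpow_iff_right₀ hp1] at e1 e2
    have : ((a 0 : ℤ) : ℤ_[p]).valuation = 1 := by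
      push_cast at e1 e2
      omega
    rw [this]
    simp
  obtain ⟨θ, hθ, hθn, hθd, -⟩ := hensels_lemma (F := GZ ℤ_[p] b) (a := (0 : ℤ_[p])) (by
    simp only [coe_aeval_eq_eval]
    rw [c0, c1, n1, n0, one_pow]
    exact inv_lt_one_of_one_lt₀ hp1)
  simp only [coe_aeval_eq_eval] at hθ hθn hθd
  rw [c1, n1, sub_zero] at hθn
  rw [c1, n1] at hθd
  have nθ : ‖θ‖ = (p : ℝ)⁻¹ := by
    obtain ⟨k, hk⟩ := binomExpansion (GZ ℤ_[p] b) 0 θ
    rw [zero_add, hθ, c0, c1] at hk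
    have e1 : ((a 0 : ℤ) : ℤ_[p]) = -((((a 1 : ℤ) : ℤ_[p]) + k * θ) * θ) := by
      linear_combination -hk
    have e2 : ‖k * θ‖ < 1 := by
      rw [norm_mul]
      have := k.norm_le_one
      have := norm_nonneg k
      nlinarith [norm_nonneg θ]
    have e3 : ‖((a 1 : ℤ) : ℤ_[p]) + k * θ‖ = 1 := by
      rw [PadicInt.norm_add_eq_max_of_ne (by rw [n1]; exact e2.ne'), n1]
      exact max_eq_left e2.le
    rw [← n0, e1, norm_neg, norm_mul, e3, one_mul]
  have hcoe : ∀ (P : ℤ_[p][X]) (a : ℤ_[p]), (P.map (PadicInt.Coe.ringHom (p := p))).eval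
      (a : ℚ_[p]) = ((P.eval a : ℤ_[p]) : ℚ_[p]) := by
    intro P a
    have h5 : (a : ℚ_[p]) = PadicInt.Coe.ringHom (p := p) a := rfl
    rw [h5, eval_map, eval₂_at_apply]
    rfl
  have hFq : GZ ℚ_[p] b = (GZ ℤ_[p] b).map (PadicInt.Coe.ringHom (p := p)) := (BF.LocLat.GZ_map _ b).symm
  have hroot : (GZ ℚ_[p] b).eval (θ : ℚ_[p]) = 0 := by
    rw [hFq, hcoe, hθ]
    rfl
  have hder : (derivative (GZ ℚ_[p] b)).eval (θ : ℚ_[p]) ≠ 0 := by
    rw [hFq, derivative_map, hcoe]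
    intro h0
    have h5 : (derivative (GZ ℤ_[p] b)).eval θ = 0 := by
      apply Subtype.ext
      exact h0
    rw [h5, norm_zero] at hθd
    exact zero_ne_one hθd
  have nb : ‖((b 0 : ℤ) : ℚ_[p])‖ = 1 := by
    rw [hb0, ← PadicInt.norm_intCast_eq_padic_norm]
    exact nn
  have hb00 : ((b 0 : ℤ) : ℚ_[p]) ≠ 0 := by
    intro h
    rw [h, norm_zero] at nb
    exact zero_ne_one nb
  set F := mon ℚ_[p] b with hF
  have hFm : F.Monic := BF.LocLat.mon_monic b hb00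
  have hFn : F.natDegree = n := BF.LocLat.mon_natDegree b hb00
  have hFθ : F.eval (θ : ℚ_[p]) = 0 := by
    rw [hF]
    unfold mon
    rw [eval_mul, hroot, mul_zero]
  have hFd : (derivative F).eval (θ : ℚ_[p]) ≠ 0 := by
    rw [hF]
    unfold mon
    rw [derivative_C_mul, eval_mul, eval_C]
    exact mul_ne_zero (inv_ne_zero hb00) hder
  have hAd0 : A.det ≠ 0 := by
    intro h
    rw [h, norm_zero] at hAd
    exact zero_ne_one hAd
  -- the value of `D₁`
  have hH0 : (Hank n F D₁).det ≠ 0 := by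
    intro h
    apply hAd0
    rw [hA, Matrix.det_mul, Matrix.det_mul, h]
    ring
  have hDθ : D₁.eval (θ : ℚ_[p]) ≠ 0 := by
    intro h
    apply hH0
    obtain ⟨q, hq⟩ := dvd_iff_isRoot.mpr h
    have e : D₁ = -q * (C (θ : ℚ_[p]) - X) := by
      rw [hq]
      ring
    rw [e, HankL.hank_mul F _ _ hFm hFn, Matrix.det_mul, HankL.mulMat_lin_det F hFm hFn, hFθ,
      zero_mul]
  obtain ⟨u, v, s, hs, hN⟩ := hN
  have hsθ : s.eval (θ : ℚ_[p]) ≠ 0 := by
    obtain ⟨x, y, hxy⟩ := hs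
    intro h
    have := congrArg (Polynomial.eval (θ : ℚ_[p])) hxy
    rw [eval_add, eval_mul, eval_mul, h, hroot] at this
    simp at this
  have hNθ : (u.eval (θ : ℚ_[p])) ^ 2 - θ * (v.eval (θ : ℚ_[p])) ^ 2 =
      θ * D₁.eval (θ : ℚ_[p]) * (s.eval (θ : ℚ_[p])) ^ 2 := by
    obtain ⟨r, hr⟩ := hN
    have h5 := congrArg (Polynomial.eval (θ : ℚ_[p])) hr
    rw [eval_mul, hroot, zero_mul] at h5
    simp only [eval_sub, eval_X, eval_mul, eval_pow] at h5
    linear_combination h5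
  -- the determinant of `D`
  have hDd : ‖D.det‖ < 1 := by
    have e1 := HankL.hank_mul F D₁ (C 0 - X) hFm hFn
    have e2 : D₁ * (C 0 - X) = C (-1) * (X * D₁) := by
      rw [C_0, C_neg, C_1]
      ring
    rw [e2, BF.LCond.lc_hank_C_mul] at e1
    have e3 := congrArg Matrix.det e1
    rw [Matrix.det_mul, HankL.mulMat_lin_det F hFm hFn, Matrix.det_smul] at e3
    have e4 : D.det = G.det * (Hank n F (X * D₁)).det * G.det := by
      rw [hD, Matrix.det_mul, Matrix.det_mul, Matrix.det_transpose]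
    have e5 : A.det = G.det * (Hank n F D₁).det * G.det := by
      rw [hA, Matrix.det_mul, Matrix.det_mul, Matrix.det_transpose]
    have e6 : (-1) ^ Fintype.card (Fin n) * D.det = F.eval 0 * A.det := by
      rw [e4, e5]
      linear_combination G.det ^ 2 * e3
    have e7 : F.eval 0 = ((b 0 : ℤ) : ℚ_[p])⁻¹ * ((a 0 : ℤ) : ℚ_[p]) := by
      rw [hF]
      unfold mon
      rw [eval_mul, eval_C, hFq]
      have := hcoe (GZ ℤ_[p] b) 0
      rw [PadicInt.coe_zero] at this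
      rw [this, c0]
      simp
    have e8 := congrArg norm e6
    rw [norm_mul, norm_mul, norm_pow, norm_neg, norm_one, one_pow, one_mul, hAd, mul_one, e7,
      norm_mul, norm_inv, nb, inv_one, one_mul, ← PadicInt.norm_intCast_eq_padic_norm, n0] at e8
    rw [e8]
    exact inv_lt_one_of_one_lt₀ hp1
  -- the integral matrices
  set ι := PadicInt.Coe.ringHom (p := p) with hι
  set φ := PadicInt.toZMod (p := p) with hφ
  set A₀ : Matrix (Fin n) (Fin n) ℤ_[p] := fun i j => ⟨A i j, hAi i j⟩ with hA₀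
  set D₀ : Matrix (Fin n) (Fin n) ℤ_[p] := fun i j => ⟨D i j, hDi i j⟩ with hD₀
  have mA : A₀.map ι = A := by
    ext i j
    rfl
  have mD : D₀.map ι = D := by
    ext i j
    rfl
  have dA : ι A₀.det = A.det := by
    rw [RingHom.map_det]
    exact congrArg Matrix.det mA
  have dD : ι D₀.det = D.det := by
    rw [RingHom.map_det]
    exact congrArg Matrix.det mD
  have uA : ‖A₀.det‖ = 1 := by
    have : ‖A₀.det‖ = ‖ι A₀.det‖ := rfl
    rw [this, dA, hAd]
  have uD : ‖D₀.det‖ < 1 := by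
    have : ‖D₀.det‖ = ‖ι D₀.det‖ := rfl
    rw [this, dD]
    exact hDd
  obtain ⟨e, he⟩ := (PadicInt.isUnit_iff.mpr uA).exists_right_inv
  have hιe : ι e = A.det⁻¹ := by
    have := congrArg ι he
    rw [map_mul, map_one, dA] at this
    exact eq_inv_of_mul_eq_one_right this
  have sA : A.IsSymm := by
    rw [hA]
    exact HankL.conj_symm (hank_isSymm _ _)
  have sD : D.IsSymm := by
    rw [hD]
    exact HankL.conj_symm (hank_isSymm _ _)
  have sA0 : (A₀.map φ).IsSymm := by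
    ext i j
    rw [Matrix.transpose_apply, Matrix.map_apply, Matrix.map_apply]
    congr 1
    apply Subtype.ext
    exact congrFun (congrFun sA.eq i) j
  have sD0 : (D₀.map φ).IsSymm := by
    ext i j
    rw [Matrix.transpose_apply, Matrix.map_apply, Matrix.map_apply]
    congr 1
    apply Subtype.ext
    exact congrFun (congrFun sD.eq i) j
  have dD0 : (D₀.map φ).det = 0 := by
    have : (D₀.map φ).det = φ D₀.det := (RingHom.map_det φ D₀).symm
    rw [this, hφ, toZMod_zero]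
    exact uD
  have hB := map_form φ e A₀ D₀
  have hBi := map_form ι e A₀ D₀
  rw [mA, mD, hιe] at hBi
  have hC := map_form φ e A₀ (θ • A₀ - D₀)
  have hCi := map_form ι e A₀ (θ • A₀ - D₀)
  have mN : (θ • A₀ - D₀).map ι = (θ : ℚ_[p]) • A - D := by
    rw [← mA, ← mD]
    ext i j
    simp only [Matrix.map_apply, Matrix.sub_apply, Matrix.smul_apply, smul_eq_mul, map_sub, map_mul]
    rfl
  have φθ : φ θ = 0 := by
    rw [hφ, toZMod_zero]
    exact hθn
  have mN' : (θ • A₀ - D₀).map φ = (-1 : ZMod p) • D₀.map φ := by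
    ext i j
    simp only [Matrix.map_apply, Matrix.sub_apply, Matrix.smul_apply, smul_eq_mul, map_sub, map_mul,
      φθ]
    ring
  rw [mN, mA, hιe] at hCi
  rw [mN', Matrix.adjugate_smul, Fintype.card_fin, (show Even (n - 1) by
    obtain ⟨k, hk⟩ := ho
    exact ⟨k, by omega⟩).neg_one_pow, one_smul, ← hB] at hC
  obtain ⟨w, hw⟩ := rank_one (A₀.map φ) (D₀.map φ) sA0 sD0 dD0 (φ e) (by
    intro i hi
    rw [← hB, ← hC] at hi ⊢
    rw [Matrix.map_apply] at hi ⊢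
    set c := (e • (A₀ * (θ • A₀ - D₀).adjugate * A₀)) i i with hc
    have nc : ‖c‖ = 1 := by
      have h5 : ¬ ‖c‖ < 1 := fun h => hi ((toZMod_zero c).mpr h)
      have h7 := c.norm_le_one
      linarith [not_lt.mp h5]
    have hsq := sq_at F D₁ hFm hFn (θ : ℚ_[p]) hFθ hFd G hG A D hA hD hAd0 i
    rw [← hCi, Matrix.map_apply, ← hc] at hsq
    have h6 : IsSquare (-(ι c)) := neg_sq hp (θ := (θ : ℚ_[p])) nθ nc hDθ hsθ hsq hNθ
    have h7 : IsSquare ((-c : ℤ_[p]) : ℚ_[p]) := by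
      rw [PadicInt.coe_neg]
      exact h6
    obtain ⟨r, hr⟩ := LCond.int_root p (-c) h7
    refine ⟨φ r, ?_⟩
    rw [← map_mul, ← hr, map_neg])
  choose w₀ hw₀ using fun i => ZMod.ringHom_surjective φ (w i)
  refine ⟨fun i => (w₀ i : ℚ_[p]), fun i => (w₀ i).norm_le_one, fun i j => ?_⟩
  rw [← hBi]
  have h8 : ‖(e • (A₀ * D₀.adjugate * A₀)) i j + w₀ i * w₀ j‖ < 1 := by
    rw [← toZMod_zero, map_add, map_mul, ← hφ, hw₀, hw₀]
    have := hw i j
    rw [← hB, Matrix.map_apply] at this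
    exact this
  exact h8

end Stoll308.SC
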