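import Pool.Agent.Work.MP_308fa9_nt.SC.Basic
import Pool.Agent.Work.MP_308fa9_nt.BG.HankL

set_option autoImplicit false

/-!
The norm of the class of an odd degree point.
-/

namespace Stoll308.SC

open Polynomial Finset Matrix BG BF

section swap

variable {L : Type*} [Field L] {n : ℕ}

private lemma mulMat_lin' (F : L[X]) (hF : F.Monic) (hn : F.natDegree = n) (η : L) :
    (mulMat n F (X - C η)).det = (-1) ^ n * F.eval η := by
  have h1 : mulMat n F (X - C η) = -mulMat n F (C η - X) := by
    have h2 : (X - C η : L[X]) = (C η - X) * (-1) := by ring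
    have h3 : mulMat n F (-1 : L[X]) = -1 := by
      ext i j
      have h4 := congrFun (congrFun (HankL.mulMat_one F hF hn) i) j
      have h5 : mulMat n F (-1) i j = ((-1 * X ^ (i : ℕ)) %ₘ F).coeff (j : ℕ) := rfl
      have h6 : mulMat n F 1 i j = ((1 * X ^ (i : ℕ)) %ₘ F).coeff (j : ℕ) := rfl
      have h7 : (-1 * X ^ (i : ℕ) : L[X]) = -(1 * X ^ (i : ℕ)) := by ring
      rw [h5, h7, neg_modByMonic, coeff_neg, ← h6, h4, Matrix.neg_apply]
    rw [h2, HankL.mulMat_mul F _ _ hF hn, h3, Matrix.mul_neg, Matrix.mul_one]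
  rw [h1, Matrix.det_neg, HankL.mulMat_lin_det F hF hn, Fintype.card_fin]

private lemma mulMat_prod (F : L[X]) (hF : F.Monic) (hn : F.natDegree = n) (s : Multiset L) :
    (mulMat n F (s.map fun η => X - C η).prod).det =
      (s.map fun η => (-1) ^ n * F.eval η).prod := by
  induction s using Multiset.induction with
  | empty => simp [HankL.mulMat_one F hF hn]
  | cons η s ih =>
    rw [Multiset.map_cons, Multiset.prod_cons, HankL.mulMat_mul F _ _ hF hn, Matrix.det_mul, ih,
      mulMat_lin' F hF hn, Multiset.map_cons, Multiset.prod_cons]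

private lemma eval_roots (F : L[X]) (hF : F.Monic) (hs : F.Splits) (η : L) :
    (-1) ^ F.natDegree * F.eval η = (F.roots.map fun ξ => ξ - η).prod := by
  have h1 : F = (F.roots.map fun ξ => X - C ξ).prod := by
    have := hs.eq_prod_roots
    rwa [hF.leadingCoeff, C_1, one_mul] at this
  have h2 : F.natDegree = Multiset.card F.roots := hs.natDegree_eq_card_roots
  have h4 : F.eval η = (F.roots.map (eval η ∘ fun ξ => X - C ξ)).prod := by
    have h5 := congrArg (eval η) h1
    rw [eval_multiset_prod, Multiset.map_map] at h5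
    exact h5
  have h3 : ∀ s : Multiset L, (-1 : L) ^ (Multiset.card s) *
      (s.map (eval η ∘ fun ξ => X - C ξ)).prod = (s.map fun ξ => ξ - η).prod := by
    intro s
    induction s using Multiset.induction with
    | empty => simp
    | cons ξ s ih =>
      simp only [Multiset.card_cons, Multiset.map_cons, Multiset.prod_cons, Function.comp_apply,
        eval_sub, eval_X, eval_C] at ih ⊢
      rw [← ih]
      ring
  rw [h2, h4, h3]

private lemma swap_splits {m : ℕ} (F h : L[X]) (hF : F.Monic) (hh : h.Monic)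
    (hn : F.natDegree = n) (hm : h.natDegree = m) (hFs : F.Splits) (hhs : h.Splits) :
    (mulMat n F h).det = (-1) ^ (n * m) * (mulMat m h F).det := by
  have e1 : F = (F.roots.map fun ξ => X - C ξ).prod := by
    have := hFs.eq_prod_roots
    rwa [hF.leadingCoeff, C_1, one_mul] at this
  have e2 : h = (h.roots.map fun ξ => X - C ξ).prod := by
    have := hhs.eq_prod_roots
    rwa [hh.leadingCoeff, C_1, one_mul] at this
  have c1 : Multiset.card F.roots = n := by rw [← hn]; exact hFs.natDegree_eq_card_roots.symm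
  have c2 : Multiset.card h.roots = m := by rw [← hm]; exact hhs.natDegree_eq_card_roots.symm
  have d1 : (mulMat n F h).det =
      (h.roots.map fun η => (F.roots.map fun ξ => ξ - η).prod).prod := by
    have := mulMat_prod F hF hn h.roots
    rw [← e2] at this
    rw [this]
    refine congrArg Multiset.prod (Multiset.map_congr rfl fun η _ => ?_)
    rw [← hn]
    exact eval_roots F hF hFs η
  have d2 : (mulMat m h F).det =
      (F.roots.map fun ξ => (h.roots.map fun η => η - ξ).prod).prod := by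
    have := mulMat_prod h hh hm F.roots
    rw [← e1] at this
    rw [this]
    refine congrArg Multiset.prod (Multiset.map_congr rfl fun ξ _ => ?_)
    rw [← hm]
    exact eval_roots h hh hhs ξ
  rw [d1, d2, Multiset.prod_map_prod_map]
  have d3 : ∀ ξ : L, (h.roots.map fun η => η - ξ).prod =
      (-1) ^ m * (h.roots.map fun η => ξ - η).prod := by
    intro ξ
    rw [← c2]
    have h3 : ∀ s : Multiset L, (s.map fun η => η - ξ).prod =
        (-1) ^ (Multiset.card s) * (s.map fun η => ξ - η).prod := by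
      intro s
      induction s using Multiset.induction with
      | empty => simp
      | cons η s ih =>
        simp only [Multiset.card_cons, Multiset.map_cons, Multiset.prod_cons]
        rw [ih]
        ring
    exact h3 _
  have d4 : (F.roots.map fun ξ => (h.roots.map fun η => η - ξ).prod).prod =
      (-1) ^ (n * m) * (F.roots.map fun ξ => (h.roots.map fun η => ξ - η).prod).prod := by
    rw [Multiset.map_congr rfl (fun ξ _ => d3 ξ), Multiset.prod_map_mul, Multiset.map_const',
      Multiset.prod_replicate, c1, ← pow_mul, mul_comm m n]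
  rw [d4, ← mul_assoc, ← pow_add]
  have h5 : (-1 : L) ^ (n * m + n * m) = 1 := Even.neg_one_pow ⟨_, rfl⟩
  rw [h5, one_mul]

end swap

/-- Reciprocity of the determinants of multiplication. -/
theorem det_mulMat_swap {K : Type*} [Field K] {n m : ℕ} (F h : K[X]) (hF : F.Monic)
    (hh : h.Monic) (hn : F.natDegree = n) (hm : h.natDegree = m) :
    (mulMat n F h).det = (-1) ^ (n * m) * (mulMat m h F).det := by
  let φ : K →+* AlgebraicClosure K := algebraMap K (AlgebraicClosure K)
  have h1 := swap_splits (F.map φ) (h.map φ) (hF.map φ) (hh.map φ) (n := n) (m := m)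
    (by rw [hF.natDegree_map, hn]) (by rw [hh.natDegree_map, hm])
    (IsAlgClosed.splits _) (IsAlgClosed.splits _)
  rw [HankL.mulMat_map φ F h hF, HankL.mulMat_map φ h F hh] at h1
  apply φ.injective
  have h2 : φ (mulMat n F h).det = ((mulMat n F h).map φ).det := by
    rw [RingHom.map_det]; rfl
  have h3 : φ (mulMat m h F).det = ((mulMat m h F).map φ).det := by
    rw [RingHom.map_det]; rfl
  rw [map_mul, map_pow, map_neg, map_one, h2, h3, h1]

private lemma gz_natDegree_le {R : Type*} [CommRing R] {n : ℕ} (a : Fin (n + 1) → ℤ) :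
    (GZ R a).natDegree ≤ n := by
  refine natDegree_sum_le_of_forall_le _ _ fun i _ => ?_
  exact (natDegree_C_mul_X_pow_le _ _).trans (Nat.sub_le _ _)

private lemma gz_coeff_top {R : Type*} [CommRing R] {n : ℕ} (a : Fin (n + 1) → ℤ) :
    (GZ R a).coeff n = a 0 := by
  unfold GZ gpol
  rw [finsetSum_coeff, Finset.sum_eq_single 0]
  · simp
  · intro b _ hb
    have h1 : (b : ℕ) ≠ 0 := fun h => hb (Fin.ext h)
    have h2 := b.isLt
    rw [coeff_C_mul_X_pow, if_neg (by omega)]
  · intro h
    exact absurd (Finset.mem_univ _) h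

private lemma mon_monic' {K : Type*} [Field K] {n : ℕ} (a : Fin (n + 1) → ℤ)
    (h : (a 0 : K) ≠ 0) : (mon K a).Monic := by
  refine monic_of_natDegree_le_of_coeff_eq_one n ?_ ?_
  · exact (natDegree_C_mul_le _ _).trans (gz_natDegree_le a)
  · unfold mon
    rw [coeff_C_mul, gz_coeff_top, inv_mul_cancel₀ h]

private lemma mon_natDegree' {K : Type*} [Field K] {n : ℕ} (a : Fin (n + 1) → ℤ)
    (h : (a 0 : K) ≠ 0) : (mon K a).natDegree = n := by
  refine le_antisymm ((natDegree_C_mul_le _ _).trans (gz_natDegree_le a)) ?_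
  apply le_natDegree_of_ne_zero
  unfold mon
  rw [coeff_C_mul, gz_coeff_top, inv_mul_cancel₀ h]
  exact one_ne_zero

private lemma mulMat_smul {K : Type*} [Field K] {n : ℕ} (F s : K[X]) (c : K) :
    mulMat n F (C c * s) = c • mulMat n F s := by
  ext i j
  have h5 : mulMat n F (C c * s) i j = ((C c * s * X ^ (i : ℕ)) %ₘ F).coeff (j : ℕ) := rfl
  have h6 : mulMat n F s i j = ((s * X ^ (i : ℕ)) %ₘ F).coeff (j : ℕ) := rfl
  rw [h5, Matrix.smul_apply, h6, mul_assoc, ← smul_eq_C_mul, smul_modByMonic, coeff_smul]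

/-- `a₀ N(δ)` is a square. -/
theorem norm_sq {K : Type*} [Field K] {n : ℕ} (he : Even n) (a : Fin (n + 1) → ℤ)
    (h0 : (a 0 : K) ≠ 0) (δ : K[X]) (hloc : OLoc (GZ K a) δ) :
    IsSquare ((a 0 : K) * (mulMat n (mon K a) δ).det) := by
  obtain ⟨⟨h, r, w, s, hmon, hodd, hcop, hs, hr, -, hdvd⟩, -⟩ := hloc
  set F : K[X] := mon K a with hF
  have hFm : F.Monic := mon_monic' a h0
  have hFn : F.natDegree = n := mon_natDegree' a h0
  have hFdef : F = C ((a 0 : K)⁻¹) * GZ K a := rfl
  have hC : IsUnit (C ((a 0 : K)⁻¹) : K[X]) := by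
    rw [isUnit_C]
    exact (isUnit_iff_ne_zero).2 (inv_ne_zero h0)
  have hFdvd : F ∣ GZ K a := by
    refine ⟨C (a 0 : K), ?_⟩
    rw [hFdef, mul_right_comm, ← C_mul, inv_mul_cancel₀ h0, C_1, one_mul]
  obtain ⟨m, hm⟩ : ∃ m, h.natDegree = m := ⟨_, rfl⟩
  rw [hm] at hodd
  -- the determinant of `δ s ^ 2`
  have e1 : mulMat n F (δ * s ^ 2) = mulMat n F (C (-1 : K) * h) := by
    apply HankL.mulMat_congr F _ _ hFm
    refine (hFdvd.trans hdvd).trans ⟨1, ?_⟩
    rw [C_neg, C_1]
    ring
  have e2 : (mulMat n F δ).det * (mulMat n F s).det ^ 2 = (mulMat n F h).det := by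
    have h1 := congrArg Matrix.det e1
    rw [HankL.mulMat_mul F _ _ hFm hFn, pow_two, HankL.mulMat_mul F _ _ hFm hFn, Matrix.det_mul,
      Matrix.det_mul, mulMat_smul, Matrix.det_smul, Fintype.card_fin, he.neg_one_pow,
      one_mul] at h1
    rw [pow_two]
    exact h1
  have e3 : (mulMat n F h).det = (mulMat m h F).det := by
    rw [det_mulMat_swap F h hFm hmon hFn hm, Even.neg_one_pow (he.mul_right m), one_mul]
  have e4 : (mulMat m h F).det = ((a 0 : K)⁻¹) ^ m * (mulMat m h r).det ^ 2 := by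
    rw [hFdef, mulMat_smul, Matrix.det_smul, Fintype.card_fin,
      HankL.mulMat_congr h (GZ K a) (r ^ 2) hmon hr, pow_two r,
      HankL.mulMat_mul h _ _ hmon hm, Matrix.det_mul, pow_two]
  have hscop : IsCoprime s F := by
    rw [hFdef]
    exact (isCoprime_mul_unit_left_right hC _ _).2 hs
  have hsne : (mulMat n F s).det ≠ 0 := mulMat_det_ne_zero F s hFm hFn hscop
  obtain ⟨k, hk⟩ := hodd
  refine ⟨((a 0 : K)⁻¹) ^ k * (mulMat m h r).det / (mulMat n F s).det, ?_⟩
  have e5 : (mulMat n F δ).det = ((a 0 : K)⁻¹) ^ m * (mulMat m h r).det ^ 2 /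
      (mulMat n F s).det ^ 2 := by
    rw [eq_div_iff (pow_ne_zero 2 hsne), e2, e3, e4]
  have hu : (a 0 : K) * (a 0 : K)⁻¹ = 1 := mul_inv_cancel₀ h0
  have e6 : ((a 0 : K)⁻¹) ^ m = (((a 0 : K)⁻¹) ^ k) ^ 2 * (a 0 : K)⁻¹ := by
    rw [hk, pow_succ, pow_mul', ]
  rw [e5, e6]
  have e7 : (a 0 : K) * ((((a 0 : K)⁻¹) ^ k) ^ 2 * (a 0 : K)⁻¹ * (mulMat m h r).det ^ 2 /
      (mulMat n F s).det ^ 2) = ((a 0 : K) * (a 0 : K)⁻¹) * ((((a 0 : K)⁻¹) ^ k) ^ 2 *
        (mulMat m h r).det ^ 2 / (mulMat n F s).det ^ 2) := by ring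
  rw [e7, hu]
  ring

end Stoll308.SC
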