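import Pool.Agent.Work.MP_308fa9_nt.SC.MaxLat
import Pool.Agent.Work.MP_308fa9_nt.OF.HankConv

set_option autoImplicit false

/-!
The local lattice at the small primes.
-/

namespace Stoll308.SC

open Polynomial Finset Matrix BG BF

namespace Loc2

/-- The scaling constants: `e² a^(n-2) = c`. -/
lemma exists_scale {K : Type*} [Field K] {n : ℕ} (hn : 3 ≤ n) {a : K} (ha : a ≠ 0) :
    ∃ e c : K, e ≠ 0 ∧ c ≠ 0 ∧ e ^ 2 * a ^ (n - 2) = c := by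
  rcases Nat.even_or_odd n with ⟨m, hm⟩ | ⟨m, hm⟩
  · refine ⟨(a ^ (m - 1))⁻¹, 1, inv_ne_zero (pow_ne_zero _ ha), one_ne_zero, ?_⟩
    have h : n - 2 = (m - 1) * 2 := by omega
    rw [h, pow_mul, ← mul_pow, inv_mul_cancel₀ (pow_ne_zero _ ha), one_pow]
  · refine ⟨(a ^ (m - 1))⁻¹, a, inv_ne_zero (pow_ne_zero _ ha), ha, ?_⟩
    have h : n - 2 = (m - 1) * 2 + 1 := by omega
    rw [h, pow_succ a, pow_mul, ← mul_assoc, ← mul_pow, inv_mul_cancel₀ (pow_ne_zero _ ha),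
      one_pow, one_mul]

lemma hank_C_mul {K : Type*} [Field K] (n : ℕ) (F δ : K[X]) (c : K) :
    Hank n F (C c * δ) = c • Hank n F δ := by
  ext i j
  unfold Hank
  rw [Matrix.smul_apply, mul_assoc, ← smul_eq_C_mul, smul_modByMonic, coeff_smul]

/-- The change of the variable in the Hankel matrices. -/
lemma hank_eq {K : Type*} [Field K] {n : ℕ} (hn : 1 ≤ n) (a : Fin (n + 1) → ℤ)
    (h : (a 0 : K) ≠ 0) (δ δ' : K[X]) (c : K) (hc : δ'.comp (C (a 0 : K) * X) = C c * δ) :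
    Hank n (FZ K (OF.mcf a)) δ' = (((a 0 : K) ^ (n - 1))⁻¹ * c) •
      (diagonal (fun i : Fin n => (a 0 : K) ^ (i : ℕ)) * Hank n (mon K a) δ *
        diagonal (fun i : Fin n => (a 0 : K) ^ (i : ℕ))) := by
  ext i j
  rw [OF.Hank_conv hn a h, hc, hank_C_mul, Matrix.smul_apply, Matrix.smul_apply, smul_eq_mul,
    smul_eq_mul, mul_diagonal, diagonal_mul]
  ring

lemma conj_eq {K : Type*} [Field K] {n : ℕ} (e : K) (v : Fin n → K)
    (G H : Matrix (Fin n) (Fin n) K) :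
    (e • (G * diagonal v)) * H * (e • (G * diagonal v))ᵀ =
      (e ^ 2) • (G * (diagonal v * H * diagonal v) * Gᵀ) := by
  rw [transpose_smul, transpose_mul, diagonal_transpose, smul_mul_assoc, smul_mul_assoc,
    mul_smul_comm, smul_smul, sq]
  congr 1
  simp only [Matrix.mul_assoc]

end Loc2

open Loc2 in
theorem loc_two {n : ℕ} (hn : 3 ≤ n) (p : ℕ) [Fact p.Prime] (a : Fin (n + 1) → ℤ)
    (h0 : a 0 ≠ 0) (δ : ℚ_[p][X]) (hδ : IsCoprime δ (GZ ℚ_[p] a)) :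
    ∃ G : Matrix (Fin n) (Fin n) ℚ_[p], G.det ≠ 0 ∧
      (∀ i j, ‖(G * ((a 0 : ℚ_[p])⁻¹ • Hank n (mon ℚ_[p] a) δ) * Gᵀ) i j‖ ≤ 1) ∧
      (∀ i j, ‖(G * Hank n (mon ℚ_[p] a) (X * δ) * Gᵀ) i j‖ ≤ 1) ∧
      ((p : ℝ) ^ n)⁻¹ ≤
        ‖(G * ((a 0 : ℚ_[p])⁻¹ • Hank n (mon ℚ_[p] a) δ) * Gᵀ).det‖ := by
  have ha : (a 0 : ℚ_[p]) ≠ 0 := by exact_mod_cast h0
  obtain ⟨e, c, he, hc, hec⟩ := exists_scale hn ha
  set α : ℚ_[p] := (a 0 : ℚ_[p]) with hα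
  -- the polynomial `δ'`
  set δ' : ℚ_[p][X] := C c * δ.comp (C α⁻¹ * X) with hδ'
  have hcomp : δ'.comp (C α * X) = C c * δ := by
    rw [hδ', mul_comp, C_comp, comp_assoc]
    congr 1
    rw [mul_comp, C_comp, X_comp, ← mul_assoc, ← C_mul, inv_mul_cancel₀ ha, C_1, one_mul, comp_X]
  have hF : toQ (FZ ℤ_[p] (OF.mcf a)) = FZ ℚ_[p] (OF.mcf a) := FZ_map _ _
  have hcop : IsCoprime δ' (toQ (FZ ℤ_[p] (OF.mcf a))) := by
    rw [hF]
    have h1 : FZ ℚ_[p] (OF.mcf a) =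
        (C (α ^ n) * mon ℚ_[p] a).comp (C α⁻¹ * X) := by
      rw [← OF.FZ_mcf_comp (by omega) a ha, comp_assoc]
      have : (C (a 0 : ℚ_[p]) * X).comp (C α⁻¹ * X) = X := by
        rw [mul_comp, C_comp, X_comp, ← mul_assoc, ← C_mul, ← hα, mul_inv_cancel₀ ha, C_1, one_mul]
      rw [this, comp_X]
    obtain ⟨u, v, huv⟩ := hδ
    refine ⟨C c⁻¹ * u.comp (C α⁻¹ * X), C (α * (α ^ n)⁻¹) * v.comp (C α⁻¹ * X), ?_⟩
    have h2 := congrArg (fun q : ℚ_[p][X] => q.comp (C α⁻¹ * X)) huv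
    simp only [add_comp, mul_comp, one_comp] at h2
    have h3 : (mon ℚ_[p] a) = C α⁻¹ * GZ ℚ_[p] a := rfl
    rw [h1, hδ', h3, mul_comp, mul_comp, C_comp, C_comp, ← h2]
    have h4 : (C c⁻¹ : ℚ_[p][X]) * C c = 1 := by
      rw [← C_mul, inv_mul_cancel₀ hc, C_1]
    have h5 : (C (α * (α ^ n)⁻¹) : ℚ_[p][X]) * (C (α ^ n) * C α⁻¹) = 1 := by
      rw [← C_mul, ← C_mul]
      have : α * (α ^ n)⁻¹ * (α ^ n * α⁻¹) = 1 := by
        field_simp
      rw [this, C_1]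
    linear_combination (u.comp (C α⁻¹ * X) * δ.comp (C α⁻¹ * X)) * h4 +
      (v.comp (C α⁻¹ * X) * (GZ ℚ_[p] a).comp (C α⁻¹ * X)) * h5
  obtain ⟨G', hG', hint, hdet⟩ := max_lattice (by omega) p (FZ ℤ_[p] (OF.mcf a))
    (FZ_monic _) (FZ_natDegree _) δ' hcop
  rw [hF] at hint hdet
  set v : Fin n → ℚ_[p] := fun i => α ^ (i : ℕ) with hv
  have hn1 : n - 1 = (n - 2) + 1 := by omega
  have k0 : (e • (G' * diagonal v)) * ((a 0 : ℚ_[p])⁻¹ • Hank n (mon ℚ_[p] a) δ) *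
      (e • (G' * diagonal v))ᵀ = G' * Hank n (FZ ℚ_[p] (OF.mcf a)) δ' * G'ᵀ := by
    rw [conj_eq, hank_eq (by omega) a ha δ δ' c hcomp, mul_smul_comm, smul_mul_assoc,
      mul_smul_comm, smul_mul_assoc, mul_smul_comm, smul_mul_assoc, smul_smul]
    congr 1
    rw [← hα, hn1, pow_succ, ← hec]
    field_simp
    ring
  have k1 : (e • (G' * diagonal v)) * Hank n (mon ℚ_[p] a) (X * δ) *
      (e • (G' * diagonal v))ᵀ = G' * Hank n (FZ ℚ_[p] (OF.mcf a)) (X * δ') * G'ᵀ := by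
    have hcomp' : (X * δ').comp (C (a 0 : ℚ_[p]) * X) = C (α * c) * (X * δ) := by
      rw [mul_comp, X_comp, ← hα, hcomp, C_mul]
      ring
    rw [conj_eq, hank_eq (by omega) a ha (X * δ) (X * δ') (α * c) hcomp', mul_smul_comm,
      smul_mul_assoc]
    congr 1
    rw [← hα, hn1, pow_succ, ← hec]
    field_simp
    ring
  refine ⟨e • (G' * diagonal v), ?_, ?_, ?_, ?_⟩
  · rw [det_smul, det_mul, det_diagonal]
    exact mul_ne_zero (pow_ne_zero _ he)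
      (mul_ne_zero hG' (Finset.prod_ne_zero_iff.2 fun i _ => pow_ne_zero _ ha))
  · intro i j
    rw [k0]
    have := hint 0 i j
    rwa [pow_zero, one_mul] at this
  · intro i j
    rw [k1]
    have := hint 1 i j
    rwa [pow_one] at this
  · rw [k0]
    exact hdet

end Stoll308.SC
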