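import Pool.Agent.Work.MP_308fa9_nt.SC.Basic

set_option autoImplicit false

/-!
Rational squares.
-/

namespace Stoll308.SC

open Polynomial Finset Matrix BG BF

private theorem zmod_sq (c : ℤ) (p : ℕ) [Fact p.Prime] (h : IsSquare (c : ℚ_[p])) :
    IsSquare (c : ZMod p) := by
  obtain ⟨x, hx⟩ := h
  have h1 : ‖x‖ ≤ 1 := by
    have h2 : ‖x‖ * ‖x‖ ≤ 1 := by
      rw [← norm_mul, ← hx]
      exact Padic.norm_int_le_one c
    nlinarith [norm_nonneg x]
  set z : ℤ_[p] := ⟨x, h1⟩ with hz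
  have h3 : z * z = (c : ℤ_[p]) := by
    apply Subtype.ext
    push_cast
    exact hx.symm
  refine ⟨PadicInt.toZMod z, ?_⟩
  rw [← map_mul, h3, map_intCast]

private theorem k1 : ∀ r : ZMod 3, r * r ≠ ((-1 : ℤ) : ZMod 3) := by decide

private theorem k2 : ∀ r : ZMod 3, r * r ≠ ((2 : ℤ) : ZMod 3) := by decide

private theorem k3 : ∀ r : ZMod 5, r * r ≠ ((-2 : ℤ) : ZMod 5) := by decide

private theorem val_even (p : ℕ) [Fact p.Prime] (x : ℚ_[p]) (c : ℤ) (hc : c ≠ 0)
    (h : (c : ℚ_[p]) = x * x) : Even (padicValInt p c) := by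
  have hx : x ≠ 0 := by
    rintro rfl
    apply hc
    have : (c : ℚ_[p]) = 0 := by simpa using h
    exact_mod_cast this
  have h1 : Padic.valuation (c : ℚ_[p]) = padicValInt p c := Padic.valuation_intCast c
  rw [h, Padic.valuation_mul hx hx] at h1
  have h2 : Even (padicValInt p c : ℤ) := ⟨x.valuation, h1.symm⟩
  exact_mod_cast h2

/-- A rational number which is a square in `ℚ_p` for all odd `p` is a square. -/
theorem rat_sq (q : ℚ) (h : ∀ (p : ℕ) [Fact p.Prime], p ≠ 2 → IsSquare (q : ℚ_[p])) :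
    IsSquare q := by
  by_cases hq : q = 0
  · subst hq
    exact ⟨0, by simp⟩
  set n : ℤ := q.num * q.den with hn
  have hden : (q.den : ℚ) ≠ 0 := by exact_mod_cast q.den_nz
  have hnum : q.num ≠ 0 := by simpa using hq
  have hn0 : n ≠ 0 := mul_ne_zero hnum (by exact_mod_cast q.den_nz)
  have hnq : (n : ℚ) = q * (q.den : ℚ) ^ 2 := by
    have h1 : (q.num : ℚ) = q * q.den := by
      rw [mul_comm, Rat.den_mul_eq_num]
    rw [hn]
    push_cast
    rw [h1]
    ring
  -- the integer `n` is a square in `ℚ_p`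
  have hsq : ∀ (p : ℕ) [Fact p.Prime], p ≠ 2 → IsSquare (n : ℚ_[p]) := by
    intro p _ hp
    obtain ⟨x, hx⟩ := h p hp
    refine ⟨x * (q.den : ℚ_[p]), ?_⟩
    have h2 : ((n : ℚ) : ℚ_[p]) = ((q * (q.den : ℚ) ^ 2 : ℚ) : ℚ_[p]) := by rw [hnq]
    push_cast at h2
    rw [h2, hx]
    ring
  obtain ⟨s, m, hsm, hs⟩ := Nat.sq_mul_squarefree n.natAbs
  have hm0 : m ≠ 0 := by
    rintro rfl
    apply hn0
    rw [← Int.natAbs_eq_zero, ← hsm]
    simp
  have hs0 : s ≠ 0 := by
    rintro rfl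
    apply hn0
    rw [← Int.natAbs_eq_zero, ← hsm]
    simp
  -- the squarefree part divides 2
  have hs2 : ∀ p : ℕ, p.Prime → p ∣ s → p = 2 := by
    intro p hp hps
    by_contra hp2
    have : Fact p.Prime := ⟨hp⟩
    obtain ⟨x, hx⟩ := hsq p hp2
    have h1 : Even (padicValInt p n) := val_even p x n hn0 hx
    rw [padicValInt, ← hsm, padicValNat.mul (pow_ne_zero 2 hm0) hs0, padicValNat.pow] at h1
    have h3 : padicValNat p s = 1 := by
      apply le_antisymm
      · rw [← Nat.factorization_def s hp]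
        exact (Nat.squarefree_iff_factorization_le_one hs0).1 hs p
      · exact one_le_padicValNat_of_dvd hs0 hps
    rw [h3] at h1
    rcases h1 with ⟨r, hr⟩
    omega
  have hs12 : s = 1 ∨ s = 2 := by
    have h1 : s ∣ 2 := by
      rw [← Nat.prod_primeFactors_of_squarefree hs]
      have h3 : s.primeFactors ⊆ {2} := by
        intro p hp
        rw [Finset.mem_singleton]
        exact hs2 p (Nat.prime_of_mem_primeFactors hp) (Nat.dvd_of_mem_primeFactors hp)
      have h4 := Finset.prod_dvd_prod_of_subset _ _ (fun p : ℕ => p) h3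
      simpa using h4
    exact (Nat.dvd_prime Nat.prime_two).1 h1
  -- it suffices to treat `c = n / m^2`
  obtain ⟨c, hc, hnc⟩ : ∃ c : ℤ, (c = 1 ∨ c = -1 ∨ c = 2 ∨ c = -2) ∧ n = (m : ℤ) ^ 2 * c := by
    have h5 : n.natAbs = m ^ 2 * s := hsm.symm
    rcases Int.natAbs_eq n with h6 | h6
    · refine ⟨(s : ℤ), ?_, ?_⟩
      · rcases hs12 with rfl | rfl <;> simp
      · rw [h6, h5]; push_cast; ring
    · refine ⟨-(s : ℤ), ?_, ?_⟩
      · rcases hs12 with rfl | rfl <;> simp
      · rw [h6, h5]; push_cast; ring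
  have hcsq : ∀ (p : ℕ) [Fact p.Prime], p ≠ 2 → IsSquare (c : ZMod p) := by
    intro p _ hp
    apply zmod_sq
    obtain ⟨x, hx⟩ := hsq p hp
    refine ⟨x / m, ?_⟩
    have h7 : (m : ℚ_[p]) ≠ 0 := by exact_mod_cast hm0
    rw [hnc] at hx
    push_cast at hx
    field_simp
    linear_combination hx
  have : Fact (Nat.Prime 3) := ⟨Nat.prime_three⟩
  have : Fact (Nat.Prime 5) := ⟨Nat.prime_five⟩
  have h3 := hcsq 3 (by norm_num)
  have h5 := hcsq 5 (by norm_num)
  have hc1 : c = 1 := by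
    rcases hc with rfl | rfl | rfl | rfl
    · rfl
    · obtain ⟨r, hr⟩ := h3
      exact absurd hr.symm (k1 r)
    · obtain ⟨r, hr⟩ := h3
      exact absurd hr.symm (k2 r)
    · obtain ⟨r, hr⟩ := h5
      exact absurd hr.symm (k3 r)
  refine ⟨(m : ℚ) / q.den, ?_⟩
  have h8 : (m : ℚ) ^ 2 = q * (q.den : ℚ) ^ 2 := by
    rw [← hnq, hnc, hc1]
    push_cast
    ring
  field_simp
  linear_combination -h8

end Stoll308.SC
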