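import Pool.Agent.Work.MP_308fa9_nt.SC.LocE
import Pool.Agent.Work.MP_308fa9_nt.SC.Loc2
import Pool.Agent.Work.MP_308fa9_nt.SC.NormSq
import Pool.Agent.Work.MP_308fa9_nt.SC.RatSq
import Pool.Agent.Work.MP_308fa9_nt.BF.PairEx
import Pool.Agent.Work.MP_308fa9_nt.OF.HankConv

set_option autoImplicit false

/-!
The integral pair, `n` even.
-/

namespace Stoll308.SC

open Polynomial Finset Matrix BG BF BF.PairEx

namespace PairE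

/-- The sign. -/
lemma triangle_even' {K : Type*} [CommRing K] {n : ℕ} (he : Even n) :
    ((-1 : K)) ^ (n * (n - 1) / 2) = (-1) ^ (n / 2) := by
  obtain ⟨m, rfl⟩ := he
  have h1 : (m + m) * (m + m - 1) / 2 = m * (m + m - 1) := by
    rw [show (m + m) * (m + m - 1) = 2 * (m * (m + m - 1)) by ring, Nat.mul_div_cancel_left _
      (by norm_num)]
  have h2 : (m + m) / 2 = m := by omega
  rw [h1, h2]
  obtain _ | k := m
  · simp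
  · have h3 : (k + 1) * (k + 1 + (k + 1) - 1) = 2 * (k * (k + 1)) + (k + 1) := by
      have : k + 1 + (k + 1) - 1 = 2 * k + 1 := by omega
      rw [this]; ring
    rw [h3, pow_add, pow_mul, neg_one_sq, one_pow, one_mul]

/-- A factorial is a unit at the larger primes. -/
lemma norm_factorial_eq_one {p P : ℕ} [Fact p.Prime] (h : P < p) :
    ‖((P.factorial : ℕ) : ℚ_[p])‖ = 1 := by
  refine le_antisymm ?_ ?_
  · exact_mod_cast Padic.norm_int_le_one (p := p) (P.factorial : ℤ)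
  · by_contra h1
    rw [not_le, Padic.norm_natCast_lt_one_iff, (Fact.out : p.Prime).dvd_factorial] at h1
    omega

lemma norm_factorial_le_inv {p P : ℕ} [Fact p.Prime] (h : p ≤ P) :
    ‖((P.factorial : ℕ) : ℚ_[p])‖ ≤ (p : ℝ)⁻¹ := by
  obtain ⟨k, hk⟩ := (Fact.out : p.Prime).dvd_factorial.2 h
  rw [hk, Nat.cast_mul, norm_mul, Padic.norm_p]
  exact mul_le_of_le_one_right (by positivity)
    (by exact_mod_cast Padic.norm_int_le_one (p := p) (k : ℤ))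

lemma norm_nat_le_one {p : ℕ} [Fact p.Prime] (k : ℕ) : ‖(k : ℚ_[p])‖ ≤ 1 := by
  exact_mod_cast Padic.norm_int_le_one (p := p) (k : ℤ)

/-- The determinant of an integral matrix. -/
lemma det_norm_le_one {n p : ℕ} [Fact p.Prime] (M : Matrix (Fin n) (Fin n) ℚ_[p])
    (h : ∀ i j, ‖M i j‖ ≤ 1) : ‖M.det‖ ≤ 1 := by
  obtain ⟨M', hM'⟩ : ∃ M' : Matrix (Fin n) (Fin n) ℤ_[p],
      M = (algebraMap ℤ_[p] ℚ_[p]).mapMatrix M' :=
    ⟨Matrix.of fun i j => (⟨M i j, h i j⟩ : ℤ_[p]), by ext i j; rfl⟩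
  rw [hM', ← RingHom.map_det]
  exact PadicInt.norm_le_one _

/-- The local lattice at all primes, `n` even. -/
theorem local_even {n : ℕ} (hn : 4 ≤ n) (he : Even n) (P : ℕ) (hP : 2 ≤ P)
    (a : Fin (n + 1) → ℤ) (h0 : a 0 ≠ 0) (hl : a (Fin.last n) ≠ 0)
    (p : ℕ) [hp : Fact p.Prime]
    (h2 : p ≤ P → ‖((P.factorial : ℚ_[p]) ^ 2)‖ ≤ ‖(a 0 : ℚ_[p])‖)
    (h3 : P < p → (p : ℤ) ∣ a 0 → ¬ (p : ℤ) ∣ a (Fin.last n))
    (δ : ℚ_[p][X]) (hδ : IsCoprime δ (GZ ℚ_[p] a)) (hloc : p ≠ 2 → OLoc (GZ ℚ_[p] a) δ) :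
    ∃ G : Matrix (Fin n) (Fin n) ℚ_[p], G.det ≠ 0 ∧
      (∀ i j, ‖(G * ((a 0 : ℚ_[p])⁻¹ • Hank n (mon ℚ_[p] a) δ) * Gᵀ) i j‖ ≤ 1) ∧
      (∀ i j, ‖(G * ((a 0 : ℚ_[p])⁻¹ • Hank n (mon ℚ_[p] a) (X * δ)) * Gᵀ) i j‖ ≤ 1) ∧
      ‖(G * ((a 0 : ℚ_[p])⁻¹ • Hank n (mon ℚ_[p] a) δ) * Gᵀ).det‖ ≤ ‖(a 0 : ℚ_[p])‖ ∧
      ‖((P.factorial : ℕ) : ℚ_[p])‖ ^ (4 * n) * ‖(a 0 : ℚ_[p])‖ ≤
        ‖(G * ((a 0 : ℚ_[p])⁻¹ • Hank n (mon ℚ_[p] a) δ) * Gᵀ).det‖ := by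
  have h0' : ((a 0 : ℤ) : ℚ_[p]) ≠ 0 := by exact_mod_cast h0
  rcases le_or_gt p P with hpP | hpP
  · obtain ⟨G, hG, e1, e2, e3⟩ := loc_two (by omega) p a h0 δ hδ
    obtain ⟨f, hf⟩ : ∃ f : ℚ_[p], f = ((P.factorial : ℕ) : ℚ_[p]) := ⟨_, rfl⟩
    have hf0 : f ≠ 0 := by
      rw [hf]; exact_mod_cast (Nat.factorial_pos P).ne'
    have hf1 : ‖f‖ ≤ (p : ℝ)⁻¹ := by rw [hf]; exact norm_factorial_le_inv hpP
    have hf2 : ‖f‖ ≤ 1 := by rw [hf]; exact norm_nat_le_one _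
    have hfa : ‖f‖ ^ 2 ≤ ‖(a 0 : ℚ_[p])‖ := by
      have := h2 hpP
      rwa [norm_pow, ← hf] at this
    have key : ∀ M : Matrix (Fin n) (Fin n) ℚ_[p],
        (f • G) * M * (f • G)ᵀ = (f ^ 2) • (G * M * Gᵀ) := by
      intro M
      rw [Matrix.transpose_smul, Matrix.smul_mul, Matrix.smul_mul, Matrix.mul_smul, smul_smul, sq]
    have hdet : ‖((f • G) * ((a 0 : ℚ_[p])⁻¹ • Hank n (mon ℚ_[p] a) δ) * (f • G)ᵀ).det‖ =
        ‖f‖ ^ (2 * n) *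
          ‖(G * ((a 0 : ℚ_[p])⁻¹ • Hank n (mon ℚ_[p] a) δ) * Gᵀ).det‖ := by
      rw [key, Matrix.det_smul, Fintype.card_fin, norm_mul, norm_pow, norm_pow, pow_mul]
    have hd1 : ‖(G * ((a 0 : ℚ_[p])⁻¹ • Hank n (mon ℚ_[p] a) δ) * Gᵀ).det‖ ≤ 1 :=
      det_norm_le_one _ e1
    refine ⟨f • G, ?_, ?_, ?_, ?_, ?_⟩
    · rw [Matrix.det_smul]
      exact mul_ne_zero (pow_ne_zero _ hf0) hG
    · intro i j
      rw [key, Matrix.smul_apply, smul_eq_mul, norm_mul, norm_pow]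
      exact mul_le_one₀ (pow_le_one₀ (norm_nonneg _) hf2) (norm_nonneg _) (e1 i j)
    · intro i j
      have e4 : (f • G) * ((a 0 : ℚ_[p])⁻¹ • Hank n (mon ℚ_[p] a) (X * δ)) * (f • G)ᵀ =
          (f ^ 2 * (a 0 : ℚ_[p])⁻¹) • (G * Hank n (mon ℚ_[p] a) (X * δ) * Gᵀ) := by
        rw [key, Matrix.mul_smul, Matrix.smul_mul, smul_smul]
      rw [e4, Matrix.smul_apply, smul_eq_mul, norm_mul, norm_mul, norm_pow, norm_inv]
      refine mul_le_one₀ ?_ (norm_nonneg _) (e2 i j)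
      rw [← div_eq_mul_inv]
      exact div_le_one_of_le₀ hfa (norm_nonneg _)
    · rw [hdet]
      calc _ ≤ ‖f‖ ^ (2 * n) * 1 := by gcongr
        _ = ‖f‖ ^ (2 * n) := mul_one _
        _ ≤ ‖f‖ ^ 2 := pow_le_pow_of_le_one (norm_nonneg _) hf2 (by omega)
        _ ≤ _ := hfa
    · rw [hdet, ← hf]
      have ha1 : ‖(a 0 : ℚ_[p])‖ ≤ 1 := Padic.norm_int_le_one _
      calc ‖f‖ ^ (4 * n) * ‖(a 0 : ℚ_[p])‖ ≤ ‖f‖ ^ (4 * n) * 1 := by gcongr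
        _ = ‖f‖ ^ (4 * n) := mul_one _
        _ ≤ ‖f‖ ^ (2 * n + n) := pow_le_pow_of_le_one (norm_nonneg _) hf2 (by omega)
        _ = ‖f‖ ^ (2 * n) * ‖f‖ ^ n := pow_add _ _ _
        _ ≤ ‖f‖ ^ (2 * n) * ((p : ℝ)⁻¹) ^ n := by gcongr
        _ = ‖f‖ ^ (2 * n) * ((p : ℝ) ^ n)⁻¹ := by rw [inv_pow]
        _ ≤ _ := by gcongr
  · have hp2 : p ≠ 2 := by omega
    obtain ⟨G, hG, e1, e2, e3⟩ := loc_even hn he p hp2 a h0 hl (by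
      by_cases h : (p : ℤ) ∣ a 0
      · exact Or.inr (h3 hpP h)
      · exact Or.inl h) δ (hloc hp2)
    refine ⟨G, hG, e1, e2, e3.le, ?_⟩
    rw [e3, norm_factorial_eq_one hpP, one_pow, one_mul]

end PairE

open PairE

theorem exists_pair_even {n : ℕ} (hn : 4 ≤ n) (he : Even n) (P : ℕ) (hP : 2 ≤ P)
    (a : Fin (n + 1) → ℤ) (h0 : a 0 ≠ 0) (hl : a (Fin.last n) ≠ 0)
    (h2 : ∀ (p : ℕ) [Fact p.Prime], p ≤ P → ‖((P.factorial : ℚ_[p]) ^ 2)‖ ≤ ‖(a 0 : ℚ_[p])‖)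
    (h3 : ∀ p : ℕ, p.Prime → P < p → (p : ℤ) ∣ a 0 → ¬ (p : ℤ) ∣ a (Fin.last n))
    (δ : ℚ[X]) (hδ : IsCoprime δ (GZ ℚ a))
    (hloc : ∀ (p : ℕ) [Fact p.Prime], p ≠ 2 →
      OLoc (GZ ℚ_[p] a) (δ.map (algebraMap ℚ ℚ_[p]))) :
    ∃ (A B : Matrix (Fin n) (Fin n) ℤ) (N : ℕ), 0 < N ∧ N ≤ P.factorial ^ (2 * n) ∧
      BF.IsPair a δ A B ∧ A.det = (-1) ^ (n / 2) * ((N : ℤ) ^ 2 * a 0) := by
  have h0' : ((a 0 : ℤ) : ℚ) ≠ 0 := by exact_mod_cast h0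
  have hFm : (mon ℚ a).Monic := mon_monic a h0'
  have hFn : (mon ℚ a).natDegree = n := mon_natDegree a h0'
  have hδF : IsCoprime δ (mon ℚ a) := by
    refine hδ.of_isCoprime_of_dvd_right (mon_dvd a h0' dvd_rfl)
  have hcp : ∀ (p : ℕ) [Fact p.Prime],
      IsCoprime (δ.map (algebraMap ℚ ℚ_[p])) (GZ ℚ_[p] a) := by
    intro p _
    have := hδ.map (mapRingHom (algebraMap ℚ ℚ_[p]))
    rwa [coe_mapRingHom, GZ_map] at this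
  obtain ⟨c, hc⟩ : ∃ c : ℚ, c = ((a 0 : ℤ) : ℚ)⁻¹ := ⟨_, rfl⟩
  have hc0 : c ≠ 0 := by rw [hc]; exact inv_ne_zero h0'
  obtain ⟨H, hHdef⟩ : ∃ H, H = c • Hank n (mon ℚ a) δ := ⟨_, rfl⟩
  obtain ⟨H1, hH1def⟩ : ∃ H, H = c • Hank n (mon ℚ a) (X * δ) := ⟨_, rfl⟩
  have hHk : (Hank n (mon ℚ a) δ).det ≠ 0 := hank_det_ne_zero _ _ hFm hFn hδF
  have hH : H.det ≠ 0 := by
    rw [hHdef, Matrix.det_smul]
    exact mul_ne_zero (pow_ne_zero _ hc0) hHk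
  have hmapsmul : ∀ (p : ℕ) [Fact p.Prime] (M : Matrix (Fin n) (Fin n) ℚ),
      (c • M).map (algebraMap ℚ ℚ_[p]) = ((a 0 : ℤ) : ℚ_[p])⁻¹ • M.map (algebraMap ℚ ℚ_[p]) := by
    intro p hp M
    ext i j
    rw [Matrix.map_apply, Matrix.smul_apply, Matrix.smul_apply, Matrix.map_apply, smul_eq_mul,
      smul_eq_mul, map_mul, hc, map_inv₀, map_intCast]
  have hHp : ∀ (p : ℕ) [Fact p.Prime], H.map (algebraMap ℚ ℚ_[p]) =
      ((a 0 : ℤ) : ℚ_[p])⁻¹ • Hank n (mon ℚ_[p] a) (δ.map (algebraMap ℚ ℚ_[p])) := by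
    intro p hp
    rw [hHdef, hmapsmul, ← hank_map _ _ _ hFm, mon_map]
  have hH1p : ∀ (p : ℕ) [Fact p.Prime], H1.map (algebraMap ℚ ℚ_[p]) =
      ((a 0 : ℤ) : ℚ_[p])⁻¹ • Hank n (mon ℚ_[p] a) (X * δ.map (algebraMap ℚ ℚ_[p])) := by
    intro p hp
    rw [hH1def, hmapsmul, ← hank_map _ _ _ hFm, mon_map, Polynomial.map_mul, Polynomial.map_X]
  obtain ⟨S, hS⟩ := exists_finset ((a 0 : ℤ) : ℚ) h0' H H1 hH
  obtain ⟨f, hf⟩ : ∃ f : ℕ, f = P.factorial := ⟨_, rfl⟩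
  have hf0 : 0 < f := by rw [hf]; exact Nat.factorial_pos P
  have hl' : ∀ (p : ℕ) [Fact p.Prime], ∃ g : Matrix (Fin n) (Fin n) ℚ_[p], g.det ≠ 0 ∧
      (∀ i j, ‖(g * H.map (algebraMap ℚ ℚ_[p]) * gᵀ) i j‖ ≤ 1) ∧
      (∀ i j, ‖(g * H1.map (algebraMap ℚ ℚ_[p]) * gᵀ) i j‖ ≤ 1) ∧
      ‖(g * H.map (algebraMap ℚ ℚ_[p]) * gᵀ).det‖ ≤ ‖((a 0 : ℤ) : ℚ_[p])‖ ∧
      ‖((f : ℕ) : ℚ_[p])‖ ^ (4 * n) * ‖((a 0 : ℤ) : ℚ_[p])‖ ≤
        ‖(g * H.map (algebraMap ℚ ℚ_[p]) * gᵀ).det‖ := by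
    intro p hp
    obtain ⟨g, e1, e2, e3, e4, e5⟩ := local_even hn he P hP a h0 hl p (h2 p) (h3 p hp.out)
      (δ.map (algebraMap ℚ ℚ_[p])) (hcp p) (hloc p)
    rw [← hHp p] at e2 e4 e5
    rw [← hH1p p] at e3
    rw [← hf] at e5
    exact ⟨g, e1, e2, e3, e4, e5⟩
  choose g hg1 hg2 hg3 hg4 hg5 using hl'
  obtain ⟨G, hG, hGS, hGN⟩ := glue S (fun p _ => g p) (fun p _ _ => hg1 p)
  -- the transformed matrices at each prime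
  have key : ∀ (p : ℕ) [Fact p.Prime],
      (∀ i j, ‖((G * H * Gᵀ).map (algebraMap ℚ ℚ_[p])) i j‖ ≤ 1) ∧
      (∀ i j, ‖((G * H1 * Gᵀ).map (algebraMap ℚ ℚ_[p])) i j‖ ≤ 1) ∧
      ‖((G * H * Gᵀ).map (algebraMap ℚ ℚ_[p])).det‖ ≤ ‖((a 0 : ℤ) : ℚ_[p])‖ ∧
      ‖((f : ℕ) : ℚ_[p])‖ ^ (4 * n) * ‖((a 0 : ℤ) : ℚ_[p])‖ ≤
        ‖((G * H * Gᵀ).map (algebraMap ℚ ℚ_[p])).det‖ := by
    intro p hp
    have hm : ∀ H : Matrix (Fin n) (Fin n) ℚ, (G * H * Gᵀ).map (algebraMap ℚ ℚ_[p]) =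
        G.map (algebraMap ℚ ℚ_[p]) * H.map (algebraMap ℚ ℚ_[p]) *
          (G.map (algebraMap ℚ ℚ_[p]))ᵀ := by
      intro H
      rw [Matrix.map_mul, Matrix.map_mul, Matrix.transpose_map]
    rw [hm, hm]
    by_cases hpS : p ∈ S
    · obtain ⟨hU1, hU2⟩ := hGS p hpS
      obtain ⟨U, hU⟩ : ∃ U, U = G.map (algebraMap ℚ ℚ_[p]) * (g p)⁻¹ := ⟨_, rfl⟩
      rw [← hU] at hU1 hU2
      have hUg : G.map (algebraMap ℚ ℚ_[p]) = U * g p := by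
        rw [hU, Matrix.mul_assoc, nonsing_inv_mul _ (isUnit_iff_ne_zero.2 (hg1 p)),
          Matrix.mul_one]
      have he : ∀ V : Matrix (Fin n) (Fin n) ℚ_[p], (U * g p) * V * (U * g p)ᵀ =
          U * (g p * V * (g p)ᵀ) * Uᵀ := by
        intro V
        rw [transpose_mul]
        simp only [Matrix.mul_assoc]
      rw [hUg, he, he]
      refine ⟨norm_congr_le_one hU1 (hg2 p), norm_congr_le_one hU1 (hg3 p), ?_, ?_⟩
      · rw [norm_congr_det hU2]; exact hg4 p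
      · rw [norm_congr_det hU2]; exact hg5 p
    · obtain ⟨hU1, hU2⟩ := hGN p hpS
      obtain ⟨h1, h2, h3⟩ := hS p hpS
      rw [map_intCast] at h3
      refine ⟨norm_congr_le_one hU1 h1, norm_congr_le_one hU1 h2, ?_, ?_⟩
      · rw [norm_congr_det hU2]; exact h3.le
      · rw [norm_congr_det hU2, h3]
        exact mul_le_of_le_one_left (norm_nonneg _)
          (pow_le_one₀ (norm_nonneg _) (norm_nat_le_one _))
  have hA : ∀ i j, ∃ z : ℤ, (z : ℚ) = (G * H * Gᵀ) i j := fun i j =>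
    int_of_norm_le_one _ fun p _ => (key p).1 i j
  have hB : ∀ i j, ∃ z : ℤ, (z : ℚ) = (G * H1 * Gᵀ) i j := fun i j =>
    int_of_norm_le_one _ fun p _ => (key p).2.1 i j
  choose A hA using hA
  choose B hB using hB
  have hAm : (Matrix.of A).map (Int.cast : ℤ → ℚ) = G * H * Gᵀ := by
    ext i j; exact hA i j
  have hBm : (Matrix.of B).map (Int.cast : ℤ → ℚ) = G * H1 * Gᵀ := by
    ext i j; exact hB i j
  have hdet : (((Matrix.of A).det : ℤ) : ℚ) = (G * H * Gᵀ).det := by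
    rw [← hAm]
    exact (Int.castRingHom ℚ).map_det (Matrix.of A)
  -- the norm of the class
  have hsq : IsSquare (((a 0 : ℤ) : ℚ) * (mulMat n (mon ℚ a) δ).det) := by
    apply rat_sq
    intro p _ hp2
    have hp0 : ((a 0 : ℤ) : ℚ_[p]) ≠ 0 := by exact_mod_cast h0
    have h := norm_sq he a hp0 (δ.map (algebraMap ℚ ℚ_[p])) (hloc p hp2)
    have e1 : (mulMat n (mon ℚ_[p] a) (δ.map (algebraMap ℚ ℚ_[p]))).det =
        algebraMap ℚ ℚ_[p] (mulMat n (mon ℚ a) δ).det := by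
      rw [← mon_map (algebraMap ℚ ℚ_[p]) a, HankL.mulMat_map _ _ _ hFm,
        ← RingHom.mapMatrix_apply, ← RingHom.map_det]
    rw [e1] at h
    have e2 : ((((a 0 : ℤ) : ℚ) * (mulMat n (mon ℚ a) δ).det : ℚ) : ℚ_[p]) =
        ((a 0 : ℤ) : ℚ_[p]) * algebraMap ℚ ℚ_[p] (mulMat n (mon ℚ a) δ).det := by
      rw [eq_ratCast]; push_cast; ring
    rw [e2]
    exact h
  obtain ⟨ρ, hρ⟩ := hsq
  obtain ⟨q, hq⟩ : ∃ q : ℚ, q = c ^ (n / 2 + 1) * G.det * ρ := ⟨_, rfl⟩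
  have hdq : (((Matrix.of A).det : ℤ) : ℚ) = (-1) ^ (n / 2) * (q ^ 2 * ((a 0 : ℤ) : ℚ)) := by
    have e1 := HankL.hank_mul (mon ℚ a) 1 δ hFm hFn
    rw [one_mul] at e1
    rw [hdet, hHdef, ← smul_congr, det_smul_congr, e1, det_mul, HankL.hank_one_det _ hFm hFn,
      triangle_even' he]
    have e2 : (mulMat n (mon ℚ a) δ).det = c * (ρ * ρ) := by
      rw [← hρ, hc, ← mul_assoc, inv_mul_cancel₀ h0', one_mul]
    have e3 : ((a 0 : ℤ) : ℚ) * c = 1 := by rw [hc, mul_inv_cancel₀ h0']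
    have e4 : c ^ n * c ^ 2 = (c ^ (n / 2 + 1)) ^ 2 := by
      rw [← pow_add, ← pow_mul]
      congr 1
      obtain ⟨m, rfl⟩ := he
      omega
    rw [e2, hq]
    calc c ^ n * (G.det ^ 2 * (c * (ρ * ρ) * (-1) ^ (n / 2))) =
        (((a 0 : ℤ) : ℚ) * c) * (c ^ n * c) * (G.det ^ 2 * (ρ * ρ) * (-1) ^ (n / 2)) := by
          rw [e3]; ring
      _ = (c ^ n * c ^ 2) * ((a 0 : ℤ) : ℚ) * (G.det ^ 2 * (ρ * ρ) * (-1) ^ (n / 2)) := by ring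
      _ = _ := by rw [e4]; ring
  have hdet0 : (((Matrix.of A).det : ℤ) : ℚ) ≠ 0 := by
    rw [hdet, det_mul, det_mul, det_transpose]
    exact mul_ne_zero (mul_ne_zero hG hH) hG
  have hq0 : q ≠ 0 := by
    rintro rfl
    apply hdet0
    rw [hdq]; ring
  have hnorm : ∀ (p : ℕ) [Fact p.Prime],
      ‖((G * H * Gᵀ).map (algebraMap ℚ ℚ_[p])).det‖ =
        ‖algebraMap ℚ ℚ_[p] q‖ ^ 2 * ‖((a 0 : ℤ) : ℚ_[p])‖ := by
    intro p hp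
    have e : ((G * H * Gᵀ).map (algebraMap ℚ ℚ_[p])).det =
        algebraMap ℚ ℚ_[p] (((Matrix.of A).det : ℤ) : ℚ) := by
      rw [hdet, ← RingHom.mapMatrix_apply, ← RingHom.map_det]
    rw [e, hdq, map_mul, map_mul, map_pow, map_pow, map_neg, map_one, map_intCast, norm_mul,
      norm_mul, norm_pow, norm_pow, norm_neg, norm_one, one_pow, one_mul]
  have hapos : ∀ (p : ℕ) [Fact p.Prime], 0 < ‖((a 0 : ℤ) : ℚ_[p])‖ := by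
    intro p _
    rw [norm_pos_iff]
    exact_mod_cast h0
  obtain ⟨z, hz⟩ := int_of_norm_le_one q (by
    intro p hp
    have h := (key p).2.2.1
    rw [hnorm p] at h
    have h5 : ‖algebraMap ℚ ℚ_[p] q‖ ^ 2 ≤ 1 := by
      by_contra h6
      rw [not_le] at h6
      nlinarith [hapos p]
    exact (sq_le_one_iff₀ (norm_nonneg _)).1 h5)
  obtain ⟨w, hw⟩ := int_of_norm_le_one (((f ^ (2 * n) : ℕ) : ℚ) / q) (by
    intro p hp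
    have h := (key p).2.2.2
    rw [hnorm p] at h
    have h5 : (‖((f : ℕ) : ℚ_[p])‖ ^ (2 * n)) ^ 2 ≤ ‖algebraMap ℚ ℚ_[p] q‖ ^ 2 := by
      rw [← pow_mul, show 2 * n * 2 = 4 * n by ring]
      exact le_of_mul_le_mul_right h (hapos p)
    have h6 : ‖((f : ℕ) : ℚ_[p])‖ ^ (2 * n) ≤ ‖algebraMap ℚ ℚ_[p] q‖ :=
      (sq_le_sq₀ (by positivity) (norm_nonneg _)).1 h5
    rw [map_div₀, norm_div, map_natCast, Nat.cast_pow, norm_pow]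
    exact div_le_one_of_le₀ h6 (norm_nonneg _))
  have hz0 : z ≠ 0 := by
    rintro rfl
    apply hq0
    rw [← hz, Int.cast_zero]
  rw [eq_div_iff hq0, ← hz] at hw
  have hw' : w * z = ((f ^ (2 * n) : ℕ) : ℤ) := by exact_mod_cast hw
  refine ⟨Matrix.of A, Matrix.of B, z.natAbs, Int.natAbs_pos.2 hz0, ?_,
    ⟨G, hG, by rw [hAm, hHdef, smul_congr, hc], by rw [hBm, hH1def, smul_congr, hc]⟩, ?_⟩
  · rw [← hf]
    apply Nat.le_of_dvd (pow_pos hf0 _)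
    have : z ∣ ((f ^ (2 * n) : ℕ) : ℤ) := ⟨w, by rw [← hw']; ring⟩
    exact Int.natAbs_dvd_natAbs.2 this
  · rw [Int.natAbs_sq]
    rw [← hz] at hdq
    exact_mod_cast hdq

end Stoll308.SC
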