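import Pool.Agent.Work.MP_308fa9_nt.SC.OddSq

set_option autoImplicit false

/-!
The local condition in terms of polynomials.
-/

namespace Stoll308.SC

open Polynomial Finset BF

/-- Separation of the irreducible factors of odd multiplicity; a property `Q i` which holds modulo
the irreducible factors of odd multiplicity in the form `F i` is a square. -/
theorem exists_sqfree {K : Type*} [Field K] (χ : K[X]) (hχ : χ.Monic) (F₁ F₂ : K[X])
    (h : ∀ π : K[X], Irreducible π → Odd (multiplicity π χ) →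
      (∃ r : K[X], π ∣ F₁ - r ^ 2) ∧ ∃ w : K[X], π ∣ F₂ - w ^ 2) :
    ∃ h V r w : K[X], h.Monic ∧ V.Monic ∧ χ = h * V ^ 2 ∧ h ∣ F₁ - r ^ 2 ∧ h ∣ F₂ - w ^ 2 := by
  induction hd : χ.natDegree using Nat.strong_induction_on generalizing χ with
  | _ d ih =>
  by_cases hdeg : χ.natDegree = 0
  · have h1 : χ = 1 := hχ.natDegree_eq_zero.1 hdeg
    exact ⟨1, 1, 0, 0, monic_one, monic_one, by rw [h1]; ring, one_dvd _, one_dvd _⟩
  obtain ⟨π, hπm, hπi, hπd⟩ := exists_monic_irreducible_factor χ (fun hu =>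
    hdeg (natDegree_eq_zero_of_isUnit hu))
  have hπp : Prime π := hπi.prime
  have hπ0 : 0 < π.natDegree := hπi.natDegree_pos
  obtain ⟨χ₁, rfl⟩ := hπd
  have hχ₁ : χ₁.Monic := hπm.of_mul_monic_left hχ
  have hmul : ∀ (σ : K[X]), Irreducible σ → ∀ A B : K[X], A.Monic → B.Monic →
      multiplicity σ (A * B) = multiplicity σ A + multiplicity σ B := by
    intro σ hσ A B hA hB
    exact multiplicity_mul hσ.prime
      (FiniteMultiplicity.of_not_isUnit hσ.not_isUnit (hA.mul hB).ne_zero)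
  have hnd : (π * χ₁).natDegree = π.natDegree + χ₁.natDegree := hπm.natDegree_mul hχ₁
  by_cases h2 : π ∣ χ₁
  · obtain ⟨χ₂, rfl⟩ := h2
    have hχ₂ : χ₂.Monic := hπm.of_mul_monic_left hχ₁
    have hnd₂ : (π * χ₂).natDegree = π.natDegree + χ₂.natDegree := hπm.natDegree_mul hχ₂
    obtain ⟨h', V, r, w, e1, e2, e3, e4, e5⟩ := ih χ₂.natDegree (by omega) χ₂ hχ₂ (by
      intro σ hσ ho
      apply h σ hσ
      rw [hmul σ hσ _ _ hπm hχ₁, hmul σ hσ _ _ hπm hχ₂]
      obtain ⟨k, hk⟩ := ho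
      exact ⟨multiplicity σ π + k, by omega⟩) rfl
    refine ⟨h', π * V, r, w, e1, hπm.mul e2, ?_, e4, e5⟩
    rw [e3]; ring
  · obtain ⟨h', V, r, w, e1, e2, e3, e4, e5⟩ := ih χ₁.natDegree (by omega) χ₁ hχ₁ (by
      intro σ hσ ho
      apply h σ hσ
      rw [hmul σ hσ _ _ hπm hχ₁]
      have h3 : multiplicity σ π = 0 := by
        rw [multiplicity_eq_zero]
        intro h4
        have h5 : Associated σ π := hσ.associated_of_dvd hπi h4
        apply h2
        have h6 : σ ∣ χ₁ := by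
          by_contra h7
          rw [multiplicity_eq_zero.2 h7] at ho
          exact absurd ho (by decide)
        exact h5.dvd_iff_dvd_left.1 h6
      rw [h3, zero_add]
      exact ho) rfl
    have hcop : IsCoprime h' π := by
      rw [isCoprime_comm]
      apply (hπi.coprime_iff_not_dvd).2
      intro h4
      exact h2 (e3 ▸ Dvd.dvd.mul_right h4 _)
    have hπ1 : multiplicity π (π * χ₁) = 1 := by
      rw [hmul π hπi _ _ hπm hχ₁, multiplicity_self, multiplicity_eq_zero.2 h2]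
    obtain ⟨⟨r₀, hr₀⟩, w₀, hw₀⟩ := h π hπi (by rw [hπ1]; decide)
    have crt : ∀ (F r r₀ : K[X]), h' ∣ F - r ^ 2 → π ∣ F - r₀ ^ 2 → ∃ R, π * h' ∣ F - R ^ 2 := by
      intro F r r₀ h3 h4
      obtain ⟨u, v, huv⟩ := hcop
      refine ⟨r₀ * (u * h') + r * (v * π), ?_⟩
      have h5 : IsCoprime π h' := ⟨v, u, by rw [add_comm]; exact huv⟩
      apply h5.mul_dvd
      · have : F - (r₀ * (u * h') + r * (v * π)) ^ 2 =
            (F - r₀ ^ 2) + π * (v * (r₀ + (r₀ * (u * h') + r * (v * π))) * (r₀ - r)) := by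
          linear_combination (-(r₀ * (r₀ + (r₀ * (u * h') + r * (v * π))))) * huv
        rw [this]
        exact dvd_add h4 (Dvd.intro _ rfl)
      · have : F - (r₀ * (u * h') + r * (v * π)) ^ 2 =
            (F - r ^ 2) + h' * (u * (r + (r₀ * (u * h') + r * (v * π))) * (r - r₀)) := by
          linear_combination (-(r * (r + (r₀ * (u * h') + r * (v * π))))) * huv
        rw [this]
        exact dvd_add h3 (Dvd.intro _ rfl)
    obtain ⟨R, hR⟩ := crt F₁ r r₀ e4 hr₀
    obtain ⟨W, hW⟩ := crt F₂ w w₀ e5 hw₀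
    refine ⟨π * h', V, R, W, hπm.mul e1, e2, ?_, hR, hW⟩
    rw [e3]; ring

theorem oloc_of_image {n : ℕ} (ψ : ℤ[X]) (a : Fin (n + 1) → ℤ) (δ : ℚ[X]) (K : Type) [Field K]
    [Algebra ℚ K] (h : OddImage ψ a δ K) :
    OLoc (GZ K a) (δ.map (algebraMap ℚ K)) := by
  have hc : CharZero K := algebraRat.charZero K
  obtain ⟨E, _, _, _, x, y, s, ho, hy, he, hs⟩ := h
  obtain ⟨z, hz⟩ : ∃ z : E, z = aeval x ψ := ⟨_, rfl⟩
  obtain ⟨f, hf⟩ : ∃ f : K[X], f = GZ K a := ⟨_, rfl⟩
  obtain ⟨D, hD⟩ : ∃ D : K[X], D = δ.map (algebraMap ℚ K) := ⟨_, rfl⟩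
  obtain ⟨χ, hχ⟩ : ∃ χ : K[X], χ = (LinearMap.mulLeft K (z ^ 2)).charpoly := ⟨_, rfl⟩
  rw [← hz, ← hf] at he
  rw [← hz, ← hf, ← hD, ← hχ] at hs
  rw [← hf, ← hD]
  have hχm : χ.Monic := by rw [hχ]; exact LinearMap.charpoly_monic _
  have hcop : IsCoprime χ f := by
    rw [hχ]
    apply charpoly_coprime
    rw [← he]
    exact hy.pow 2
  have hDs : IsCoprime (D * s ^ 2) f := by
    obtain ⟨q, hq⟩ := hs
    have h1 : IsCoprime (-χ) f := hcop.neg_left
    have h2 : -χ = D * s ^ 2 + f * q := by rw [← hq]; ring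
    rw [h2] at h1
    exact IsCoprime.of_add_mul_left_left h1
  have hsf : IsCoprime s f := by
    have h1 : IsCoprime (s ^ 2) f := hDs.of_mul_left_right
    rw [sq] at h1
    exact h1.of_mul_left_left
  refine ⟨?_, ?_⟩
  · obtain ⟨h', V, r, w, e1, e2, e3, e4, e5⟩ := exists_sqfree χ hχm f X (by
      intro π hπ hodd
      rw [hχ] at hodd
      exact ⟨sq_mod_odd (z ^ 2) y f he π hπ hodd,
        sq_mod_odd (z ^ 2) z X (by rw [aeval_X]) π hπ hodd⟩)
    have hh : IsCoprime h' f := by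
      rw [e3] at hcop
      exact hcop.of_mul_left_left
    have hV : IsCoprime V f := by
      rw [e3, sq, ← mul_assoc] at hcop
      exact hcop.of_mul_left_right
    obtain ⟨V', b, hb⟩ := hV
    refine ⟨h', r, w, s * V', e1, ?_, hh, ?_, e4, e5, ?_⟩
    · have h1 : χ.natDegree = Module.finrank K E := by
        rw [hχ, LinearMap.charpoly_natDegree]
      have h2 : χ.natDegree = h'.natDegree + 2 * V.natDegree := by
        rw [e3, e1.natDegree_mul (e2.pow 2), e2.natDegree_pow]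
      rw [← h1, h2] at ho
      obtain ⟨k, hk⟩ := ho
      rw [Nat.odd_iff]
      omega
    · exact hsf.mul_left ⟨V, b, by rw [mul_comm]; exact hb⟩
    · have h1 : h' + D * (s * V') ^ 2 =
          -(V' ^ 2 * (-χ - D * s ^ 2)) + h' * (1 - V' * V) * (1 + V' * V) := by
        rw [e3]; ring
      have h2 : 1 - V' * V = b * f := by linear_combination (-1 : K[X]) * hb
      rw [h1, h2]
      refine dvd_add (dvd_neg.2 (Dvd.dvd.mul_left hs _)) ?_
      exact ⟨h' * b * (1 + V' * V), by ring⟩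
  · obtain ⟨u, v, huv⟩ := charpoly_sq z ho
    refine ⟨u, v, s, hsf, ?_⟩
    rw [← huv, ← hχ]
    exact hs

end Stoll308.SC
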