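import Pool.Agent.Work.MP_308fa9_nt.SC.Basic

set_option autoImplicit false

/-!
Change of the representative of a class.
-/

namespace Stoll308.SC

open Polynomial Finset Matrix BG BF

lemma hank_smul {K : Type*} [CommRing K] (n : ℕ) (F δ : K[X]) (u : K) :
    Hank n F (C u * δ) = u • Hank n F δ := by
  ext i j
  rw [Matrix.smul_apply, smul_eq_mul]
  change ((C u * δ * X ^ ((i : ℕ) + j)) %ₘ F).coeff (n - 1) =
    u * ((δ * X ^ ((i : ℕ) + j)) %ₘ F).coeff (n - 1)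
  rw [mul_assoc, ← smul_eq_C_mul, smul_modByMonic, coeff_smul, smul_eq_mul]

/-- Change of the representative of the class: `u δ s² = δ' s'²` modulo `g`. -/
theorem Good.congr {p : ℕ} [Fact p.Prime] {n : ℕ} {g δ δ' : ℚ_[p][X]} (hg : g.Monic)
    (hgn : g.natDegree = n) (h : Good p n g δ) (u : ℚ_[p]) (hu : ‖u‖ = 1) (s s' : ℚ_[p][X])
    (hs : IsCoprime s g) (hs' : IsCoprime s' g) (e : g ∣ C u * δ * s ^ 2 - δ' * s' ^ 2) :
    Good p n g δ' := by
  obtain ⟨G, hG, h1, h2⟩ := h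
  have hds := mulMat_det_ne_zero g s hg hgn hs
  have hds' := mulMat_det_ne_zero g s' hg hgn hs'
  obtain ⟨M, hM⟩ : ∃ M, M = mulMat n g s := ⟨_, rfl⟩
  obtain ⟨M', hM'⟩ : ∃ M', M' = mulMat n g s' := ⟨_, rfl⟩
  rw [← hM] at hds
  rw [← hM'] at hds'
  have hMi : M⁻¹ * M = 1 := nonsing_inv_mul _ (isUnit_iff_ne_zero.2 hds)
  -- the key identity
  have key : ∀ q : ℚ_[p][X], (G * M⁻¹ * M') * Hank n g (q * δ') * (G * M⁻¹ * M')ᵀ =
      u • (G * Hank n g (q * δ) * Gᵀ) := by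
    intro q
    have e1 : Hank n g (q * δ' * s' ^ 2) = Hank n g (C u * (q * δ * s ^ 2)) := by
      apply hank_congr _ _ _ hg
      obtain ⟨r, hr⟩ := e
      refine ⟨-(q * r), ?_⟩
      linear_combination (-q) * hr
    rw [hank_mul_sq g (q * δ') s' hg hgn, hank_smul, hank_mul_sq g (q * δ) s hg hgn, ← hM,
      ← hM'] at e1
    have e2 : (G * M⁻¹ * M') * Hank n g (q * δ') * (G * M⁻¹ * M')ᵀ =
        (G * M⁻¹) * (M' * Hank n g (q * δ') * M'ᵀ) * (G * M⁻¹)ᵀ := by
      rw [transpose_mul (G * M⁻¹) M']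
      simp only [Matrix.mul_assoc]
    rw [e2, e1, Matrix.mul_smul, Matrix.smul_mul]
    congr 1
    have e3 : (G * M⁻¹) * (M * Hank n g (q * δ) * Mᵀ) * (G * M⁻¹)ᵀ =
        G * (M⁻¹ * M) * Hank n g (q * δ) * (G * (M⁻¹ * M))ᵀ := by
      rw [transpose_mul, transpose_mul G (M⁻¹ * M), transpose_mul M⁻¹ M]
      simp only [Matrix.mul_assoc]
    rw [e3, hMi, Matrix.mul_one]
  refine ⟨G * M⁻¹ * M', ?_, ?_, ?_⟩
  · rw [det_mul, det_mul]
    refine mul_ne_zero (mul_ne_zero hG ?_) hds'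
    intro h0
    have h3 := congrArg Matrix.det hMi
    rw [det_mul, h0, zero_mul, det_one] at h3
    exact zero_ne_one h3
  · intro k i j
    rw [key, Matrix.smul_apply, norm_smul, hu, one_mul]
    exact h1 k i j
  · have h3 := key 1
    rw [one_mul, one_mul] at h3
    rw [h3, det_smul, norm_mul, norm_pow, hu, one_pow, one_mul]
    exact h2

/-- A polynomial with integral coefficients comes from `ℤ_p[X]`. -/
theorem exists_toQ {p : ℕ} [Fact p.Prime] (f : ℚ_[p][X]) (hf : ∀ i, ‖f.coeff i‖ ≤ 1) :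
    ∃ g : ℤ_[p][X], toQ g = f ∧ g.natDegree = f.natDegree ∧ (f.Monic → g.Monic) := by
  have hinj : Function.Injective (algebraMap ℤ_[p] ℚ_[p]) := FaithfulSMul.algebraMap_injective _ _
  have h1 : f ∈ Polynomial.lifts (algebraMap ℤ_[p] ℚ_[p]) := by
    rw [lifts_iff_coeff_lifts]
    intro i
    exact ⟨⟨f.coeff i, hf i⟩, rfl⟩
  obtain ⟨g, hg⟩ := (mem_lifts _).1 h1
  have h2 : g.natDegree = f.natDegree := by
    rw [← hg, natDegree_map_eq_of_injective hinj]
  refine ⟨g, hg, h2, fun hm => ?_⟩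
  rw [← hg] at hm
  exact Polynomial.monic_of_injective hinj hm

/-- Divisibility by a monic integral polynomial. -/
theorem toQ_dvd {p : ℕ} [Fact p.Prime] {h f : ℤ_[p][X]} (hh : h.Monic) (e : toQ h ∣ toQ f) :
    h ∣ f := by
  have hinj : Function.Injective (algebraMap ℤ_[p] ℚ_[p]) := FaithfulSMul.algebraMap_injective _ _
  exact (Polynomial.map_dvd_map _ hinj hh).1 e

end Stoll308.SC
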