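import Pool.Agent.Work.MP_308fa9_nt.SC.Lat
import Pool.Agent.Work.MP_308fa9_nt.SC.Congr

set_option autoImplicit false

/-!
The self-dual lattice of an integral factorisation.
-/

namespace Stoll308.SC

open Polynomial Finset Matrix BG BF

namespace SelfDual

section ring

variable {K : Type*} [CommRing K] {n : ℕ}

/-- the polynomial of a vector of coefficients -/
noncomputable def P (v : Fin n → K) : K[X] := ∑ i : Fin n, C (v i) * X ^ (i : ℕ)

lemma P_coeff (v : Fin n → K) (i : Fin n) : (P v).coeff (i : ℕ) = v i := by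
  rw [P, finsetSum_coeff, Finset.sum_eq_single i]
  · simp
  · intro b _ hb
    rw [coeff_C_mul, coeff_X_pow, if_neg, mul_zero]
    intro h
    exact hb (Fin.ext h.symm)
  · intro h
    exact absurd (Finset.mem_univ _) h

lemma P_degree (v : Fin n → K) : (P v).degree < n := by
  rcases Nat.eq_zero_or_pos n with h0 | hpos
  · subst h0
    rw [P, Finset.univ_eq_empty, Finset.sum_empty, degree_zero]
    exact WithBot.bot_lt_coe _
  · refine (degree_sum_le _ _).trans_lt ?_
    rw [Finset.sup_lt_iff (WithBot.bot_lt_coe _)]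
    intro i _
    refine (degree_C_mul_X_pow_le _ _).trans_lt ?_
    exact_mod_cast i.2

lemma tau_congr (F a b : K[X]) (hF : F.Monic) (h : F ∣ a - b) :
    HankL.tau n F a = HankL.tau n F b := by
  rw [HankL.tau_apply, HankL.tau_apply, modByMonic_eq_of_dvd_sub hF h]

lemma P_mod [Nontrivial K] (F : K[X]) (hF : F.Monic) (hn : F.natDegree = n) (v : Fin n → K)
    (q : K[X]) (h : F ∣ P v - q) : P v = q %ₘ F := by
  rw [← modByMonic_eq_of_dvd_sub hF h]
  symm
  apply (modByMonic_eq_self_iff hF).2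
  rw [degree_eq_natDegree hF.ne_zero, hn]
  exact P_degree v

/-- a vector representing a class -/
lemma exists_vec [Nontrivial K] (F : K[X]) (hF : F.Monic) (hn : F.natDegree = n) (q : K[X]) :
    ∃ v : Fin n → K, F ∣ P v - q := by
  refine ⟨fun i => (q %ₘ F).coeff i, ?_⟩
  have h : P (fun i : Fin n => (q %ₘ F).coeff i) = q %ₘ F := (HankL.mod_eq_sum F q hF hn).symm
  rw [h]
  refine ⟨-(q /ₘ F), ?_⟩
  linear_combination modByMonic_add_div q F

lemma dot (F δ : K[X]) (v u : Fin n → K) :
    v ⬝ᵥ (Hank n F δ *ᵥ u) = HankL.tau n F (δ * P v * P u) := by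
  have h1 : δ * P v * P u = ∑ i : Fin n, ∑ j : Fin n,
      (v i * u j) • (δ * X ^ ((i : ℕ) + j)) := by
    have e0 : δ * P v = ∑ i : Fin n, δ * (C (v i) * X ^ (i : ℕ)) := by rw [P, Finset.mul_sum]
    rw [e0, Finset.sum_mul]
    refine Finset.sum_congr rfl fun i _ => ?_
    rw [P, Finset.mul_sum]
    refine Finset.sum_congr rfl fun j _ => ?_
    rw [smul_eq_C_mul, C_mul]
    ring
  rw [h1, map_sum, dotProduct]
  refine Finset.sum_congr rfl fun i _ => ?_
  rw [map_sum, mulVec, dotProduct, Finset.mul_sum]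
  refine Finset.sum_congr rfl fun j _ => ?_
  rw [map_smul, HankL.hank_apply, smul_eq_mul]
  ring

lemma conj_apply (G H : Matrix (Fin n) (Fin n) K) (i j : Fin n) :
    (G * H * Gᵀ) i j = G i ⬝ᵥ (H *ᵥ G j) := by
  rw [Matrix.mul_assoc, Matrix.mul_apply, dotProduct]
  refine Finset.sum_congr rfl fun k _ => ?_
  rw [Matrix.mul_apply, mulVec, dotProduct]
  rfl

lemma row_eq (G : Matrix (Fin n) (Fin n) K) (i : Fin n) :
    G i = (Pi.single i 1 : Fin n → K) ᵥ* G := by
  rw [Matrix.single_one_vecMul]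
  rfl

/-- the computation of the form -/
lemma alg_id (Y A B g h h' r c a b a' b' s t : K) (hAB : A * h + B * g = 1)
    (e : c * g = r ^ 2 + h * h') :
    g ∣ Y * A * (a * h + b * r + g * s) * (a' * h + b' * r + g * t) -
      Y * (a * a' * h + (a * b' + a' * b) * r - b * b' * h') := by
  refine ⟨Y * A * ((a * h + b * r) * t + s * (a' * h + b' * r) + g * s * t)
    - Y * B * (a * a' * h + (a * b' + a' * b) * r - b * b' * h') + Y * A * b * b' * c, ?_⟩
  linear_combination (Y * (a * a' * h + (a * b' + a' * b) * r - b * b' * h')) * hAB -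
    (Y * A * b * b') * e

end ring

section padic

variable {p : ℕ} [Fact p.Prime] {n : ℕ}

lemma tau_int (g q : ℤ_[p][X]) (hg : g.Monic) : ‖HankL.tau n (toQ g) (toQ q)‖ ≤ 1 := by
  rw [HankL.tau_apply, toQ, toQ, ← map_modByMonic _ hg, coeff_map]
  exact PadicInt.norm_le_one _

/-- an integral residue -/
lemma coeff_int (g q : ℤ_[p][X]) (hg : g.Monic) (i : ℕ) : ‖((toQ q) %ₘ (toQ g)).coeff i‖ ≤ 1 := by
  rw [toQ, toQ, ← map_modByMonic _ hg, coeff_map]
  exact PadicInt.norm_le_one _

/-- the powers of `θ` form a self-dual lattice -/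
lemma int_of_tau (g : ℤ_[p][X]) (hg : g.Monic) (hgn : g.natDegree = n) (v : Fin n → ℚ_[p])
    (h : ∀ i : Fin n, ‖HankL.tau n (toQ g) (P v * X ^ (i : ℕ))‖ ≤ 1) (i : Fin n) : ‖v i‖ ≤ 1 := by
  have hG : (toQ g).Monic := hg.map _
  have hGn : (toQ g).natDegree = n := by rw [hg.natDegree_map, hgn]
  set H : Matrix (Fin n) (Fin n) ℤ_[p] := Hank n g 1 with hH
  have hdet : H.det = (-1) ^ (n * (n - 1) / 2) := HankL.hank_one_det g hg hgn
  have hu : IsUnit H.det := by
    rw [hdet]
    exact (isUnit_one.neg).pow _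
  have hmap : Hank n (toQ g) 1 = H.map (algebraMap ℤ_[p] ℚ_[p]) := by
    have := hank_map (n := n) (algebraMap ℤ_[p] ℚ_[p]) g 1 hg
    rw [Polynomial.map_one] at this
    exact this
  -- the values
  have h1 : ∀ i : Fin n, (Hank n (toQ g) 1 *ᵥ v) i = HankL.tau n (toQ g) (P v * X ^ (i : ℕ)) := by
    intro i
    have e := dot (toQ g) 1 (Pi.single i 1 : Fin n → ℚ_[p]) v
    rw [single_one_dotProduct] at e
    rw [e]
    congr 1
    have e2 : P (Pi.single i 1 : Fin n → ℚ_[p]) = X ^ (i : ℕ) := by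
      rw [P, Finset.sum_eq_single i]
      · rw [Pi.single_eq_same, C_1, one_mul]
      · intro b _ hb
        rw [Pi.single_eq_of_ne hb, C_0, zero_mul]
      · intro h
        exact absurd (Finset.mem_univ _) h
    rw [e2]
    ring
  have hinv : H⁻¹.map (algebraMap ℤ_[p] ℚ_[p]) * Hank n (toQ g) 1 = 1 := by
    rw [hmap, ← Matrix.map_mul, Matrix.nonsing_inv_mul _ hu, Matrix.map_one _ (map_zero _) (map_one _)]
  have h2 : v = H⁻¹.map (algebraMap ℤ_[p] ℚ_[p]) *ᵥ (Hank n (toQ g) 1 *ᵥ v) := by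
    rw [Matrix.mulVec_mulVec, hinv, Matrix.one_mulVec]
  have h3 : ∀ i : Fin n, ∃ z : ℤ_[p], (Hank n (toQ g) 1 *ᵥ v) i = algebraMap ℤ_[p] ℚ_[p] z := by
    intro i
    refine ⟨⟨(Hank n (toQ g) 1 *ᵥ v) i, ?_⟩, rfl⟩
    rw [h1 i]
    exact h i
  choose z hz using h3
  have h4 : v i = algebraMap ℤ_[p] ℚ_[p] ((H⁻¹ *ᵥ z) i) := by
    have e := congrFun h2 i
    rw [e, mulVec, dotProduct, mulVec, dotProduct, map_sum]
    refine Finset.sum_congr rfl fun j _ => ?_
    rw [hz j, map_mul, Matrix.map_apply]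
  rw [h4]
  exact PadicInt.norm_le_one _

/-- clearing denominators of a polynomial -/
lemma clear (A : ℚ_[p][X]) : ∃ c : ℤ_[p], c ≠ 0 ∧ ∃ B : ℤ_[p][X],
    C (algebraMap ℤ_[p] ℚ_[p] c) * A = toQ B := by
  obtain ⟨c, hcm, hc⟩ := IsLocalization.integerNormalization_spec (nonZeroDivisors ℤ_[p]) A
  refine ⟨c, nonZeroDivisors.ne_zero hcm,
    IsLocalization.integerNormalization (nonZeroDivisors ℤ_[p]) A, ?_⟩
  rw [toQ, hc]
  ext i
  rw [coeff_C_mul, coeff_smul, Algebra.smul_def]

end padic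

end SelfDual

open SelfDual

/-- If `c g = r² + h h'` with integral polynomials, `c` a unit and `g`, `h` monic, then the ideal
generated by `h(θ)` and `r(θ)` in `ℤ_p[θ]` is self-dual for the form `[θ^(n-1)](λ μ / h(θ))`. -/
theorem self_dual {n : ℕ} (hn : 1 ≤ n) (p : ℕ) [Fact p.Prime] (g h r h' : ℤ_[p][X]) (c : ℤ_[p])
    (hc : IsUnit c) (hg : g.Monic) (hgn : g.natDegree = n) (hh : h.Monic)
    (e : C c * g = r ^ 2 + h * h') (hco : IsCoprime (toQ h) (toQ g)) :
    Good p n (toQ g) (toQ h) := by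
  have hG : (toQ g).Monic := hg.map _
  have hGn : (toQ g).natDegree = n := by rw [hg.natDegree_map, hgn]
  obtain ⟨A, B, hAB⟩ := id hco
  -- `A` is the inverse of `h`
  have eQ : C (algebraMap ℤ_[p] ℚ_[p] c) * toQ g = toQ r ^ 2 + toQ h * toQ h' := by
    have := congrArg toQ e
    simpa only [toQ, Polynomial.map_mul, Polynomial.map_add, Polynomial.map_pow, map_C] using this
  have hAg : IsCoprime A (toQ g) := ⟨toQ h, B, by linear_combination hAB⟩
  have hSdet : (Hank n (toQ g) A).det ≠ 0 := hank_det_ne_zero _ _ hG hGn hAg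
  set N : Submodule ℤ_[p] (Fin n → ℚ_[p]) :=
    { carrier := {v | ∃ a b : ℤ_[p][X], toQ g ∣ P v - toQ (a * h + b * r)}
      add_mem' := by
        rintro v u ⟨a, b, hab⟩ ⟨a', b', hab'⟩
        refine ⟨a + a', b + b', ?_⟩
        have h1 : P (v + u) = P v + P u := by
          simp only [P, Pi.add_apply, C_add, add_mul, Finset.sum_add_distrib]
        have h2 := dvd_add hab hab'
        rw [h1]
        convert h2 using 1
        simp only [toQ, Polynomial.map_mul, Polynomial.map_add]
        ring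
      zero_mem' := by
        refine ⟨0, 0, ?_⟩
        have h1 : P (0 : Fin n → ℚ_[p]) = 0 := by
          simp only [P, Pi.zero_apply, C_0, zero_mul, Finset.sum_const_zero]
        rw [h1]
        simp [toQ]
      smul_mem' := by
        rintro z v ⟨a, b, hab⟩
        refine ⟨C z * a, C z * b, ?_⟩
        have h1 : P (z • v) = C (algebraMap ℤ_[p] ℚ_[p] z) * P v := by
          rw [P, P, Finset.mul_sum]
          refine Finset.sum_congr rfl fun i _ => ?_
          rw [Pi.smul_apply, Algebra.smul_def, C_mul, mul_assoc]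
        have h2 := Dvd.dvd.mul_left hab (C (algebraMap ℤ_[p] ℚ_[p] z))
        rw [h1]
        convert h2 using 1
        simp only [toQ, Polynomial.map_mul, Polynomial.map_add, map_C]
        ring } with hNdef
  have memN : ∀ v, v ∈ N ↔ ∃ a b : ℤ_[p][X], toQ g ∣ P v - toQ (a * h + b * r) := fun v => Iff.rfl
  -- the lattice
  obtain ⟨G, hGdet, hGN⟩ := exists_basis p N (by
    obtain ⟨c1, hc1, A1, hA1⟩ := clear A
    obtain ⟨c2, hc2, B1, hB1⟩ := clear B
    refine ⟨algebraMap ℤ_[p] ℚ_[p] c1 , ?_, ?_⟩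
    · intro h0
      exact hc1 ((IsFractionRing.injective ℤ_[p] ℚ_[p]) (h0.trans (map_zero _).symm))
    · intro v hv
      have : ∀ i, ∃ z : ℤ_[p], v i = algebraMap ℤ_[p] ℚ_[p] z := fun i => ⟨⟨v i, hv i⟩, rfl⟩
      choose z hz using this
      rw [memN]
      refine ⟨P z * A1, 0, ?_⟩
      have h1 : P v = toQ (P z) := by
        rw [P, P, toQ, Polynomial.map_sum]
        refine Finset.sum_congr rfl fun i _ => ?_
        rw [Polynomial.map_mul, Polynomial.map_pow, map_X, map_C, ← hz i]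
      have h2 : P (algebraMap ℤ_[p] ℚ_[p] c1 • v) = C (algebraMap ℤ_[p] ℚ_[p] c1) * P v := by
        rw [P, P, Finset.mul_sum]
        refine Finset.sum_congr rfl fun i _ => ?_
        rw [Pi.smul_apply, smul_eq_mul, C_mul, mul_assoc]
      have h3 : toQ (P z * A1 * h + 0 * r) = P v * (C (algebraMap ℤ_[p] ℚ_[p] c1) * A) * toQ h := by
        rw [hA1, h1]
        simp only [toQ, Polynomial.map_mul, zero_mul, add_zero]
      rw [h2, h3]
      refine ⟨P v * C (algebraMap ℤ_[p] ℚ_[p] c1) * B, ?_⟩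
      linear_combination -(P v * C (algebraMap ℤ_[p] ℚ_[p] c1)) * hAB) (by
    refine ⟨1, ?_⟩
    rintro v ⟨a, b, hab⟩ i
    rw [← P_coeff v i, P_mod (toQ g) hG hGn v _ hab]
    exact coeff_int g _ hg _)
  -- values of the form on the lattice
  have hval : ∀ (k : ℕ), ∀ v ∈ N, ∀ u ∈ N, ‖v ⬝ᵥ (Hank n (toQ g) (X ^ k * A) *ᵥ u)‖ ≤ 1 := by
    rintro k v ⟨a, b, hab⟩ u ⟨a', b', hab'⟩
    rw [dot]
    have h1 : HankL.tau n (toQ g) (X ^ k * A * P v * P u) =
        HankL.tau n (toQ g) (toQ (X ^ k * (a * a' * h + (a * b' + a' * b) * r - b * b' * h'))) := by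
      apply tau_congr _ _ _ hG
      obtain ⟨s, hs⟩ := hab
      obtain ⟨t, ht⟩ := hab'
      have e1 : P v = toQ (a * h + b * r) + toQ g * s := by linear_combination hs
      have e2 : P u = toQ (a' * h + b' * r) + toQ g * t := by linear_combination ht
      have e3 : toQ (X ^ k * (a * a' * h + (a * b' + a' * b) * r - b * b' * h')) =
          X ^ k * (toQ a * toQ a' * toQ h + (toQ a * toQ b' + toQ a' * toQ b) * toQ r -
            toQ b * toQ b' * toQ h') := by
        simp only [toQ, Polynomial.map_mul, Polynomial.map_add, Polynomial.map_sub,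
          Polynomial.map_pow, map_X]
      have e4 : toQ (a * h + b * r) = toQ a * toQ h + toQ b * toQ r := by
        simp only [toQ, Polynomial.map_mul, Polynomial.map_add]
      have e5 : toQ (a' * h + b' * r) = toQ a' * toQ h + toQ b' * toQ r := by
        simp only [toQ, Polynomial.map_mul, Polynomial.map_add]
      rw [e1, e2, e3, e4, e5]
      exact alg_id _ _ _ _ _ _ _ _ _ _ _ _ _ _ hAB eQ
    rw [h1]
    exact tau_int g _ hg
  have hrow : ∀ i, G i ∈ N := by
    intro i
    rw [hGN]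
    refine ⟨Pi.single i 1, ?_, row_eq G i⟩
    intro j
    by_cases hij : j = i
    · rw [hij, Pi.single_eq_same, norm_one]
    · rw [Pi.single_eq_of_ne hij, norm_zero]
      exact zero_le_one
  -- the dual lattice
  have hdual := gram_det p N G (Hank n (toQ g) A) hGdet hSdet hGN 1 (by
    intro v hv
    rw [one_smul]
    -- `v` is integral
    have hint : ∀ i, ‖v i‖ ≤ 1 := by
      apply int_of_tau g hg hgn v
      intro i
      obtain ⟨u, hu⟩ := exists_vec (n := n) (toQ g) hG hGn (toQ (X ^ (i : ℕ) * h))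
      have h1 := hv u ⟨X ^ (i : ℕ), 0, by simpa only [zero_mul, add_zero] using hu⟩
      rw [dot] at h1
      have h2 : HankL.tau n (toQ g) (A * P v * P u) =
          HankL.tau n (toQ g) (P v * X ^ (i : ℕ)) := by
        apply tau_congr _ _ _ hG
        obtain ⟨s, hs⟩ := hu
        have e1 : P u = X ^ (i : ℕ) * toQ h + toQ g * s := by
          have e2 : toQ (X ^ (i : ℕ) * h) = X ^ (i : ℕ) * toQ h := by
            simp only [toQ, Polynomial.map_mul, Polynomial.map_pow, map_X]
          rw [← e2]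
          linear_combination hs
        rw [e1]
        refine ⟨A * P v * s - B * P v * X ^ (i : ℕ), ?_⟩
        linear_combination (P v * X ^ (i : ℕ)) * hAB
      rw [h2] at h1
      exact h1
    have : ∀ i, ∃ z : ℤ_[p], v i = algebraMap ℤ_[p] ℚ_[p] z := fun i => ⟨⟨v i, hint i⟩, rfl⟩
    choose z hz using this
    set lam : ℤ_[p][X] := P z with hlam
    have hPv : P v = toQ lam := by
      rw [hlam, P, P, toQ, Polynomial.map_sum]
      refine Finset.sum_congr rfl fun i _ => ?_
      rw [Polynomial.map_mul, Polynomial.map_pow, map_X, map_C, ← hz i]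
    -- `λ r / h` is integral
    obtain ⟨w, hw⟩ := exists_vec (n := n) (toQ g) hG hGn (A * toQ lam * toQ r)
    have hwint : ∀ i, ‖w i‖ ≤ 1 := by
      apply int_of_tau g hg hgn w
      intro i
      obtain ⟨u, hu⟩ := exists_vec (n := n) (toQ g) hG hGn (toQ (X ^ (i : ℕ) * r))
      have h1 := hv u ⟨0, X ^ (i : ℕ), by simpa only [zero_mul, zero_add] using hu⟩
      rw [dot] at h1
      have h2 : HankL.tau n (toQ g) (A * P v * P u) =
          HankL.tau n (toQ g) (P w * X ^ (i : ℕ)) := by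
        apply tau_congr _ _ _ hG
        obtain ⟨s, hs⟩ := hu
        obtain ⟨t, ht⟩ := hw
        have e1 : P u = X ^ (i : ℕ) * toQ r + toQ g * s := by
          have e2 : toQ (X ^ (i : ℕ) * r) = X ^ (i : ℕ) * toQ r := by
            simp only [toQ, Polynomial.map_mul, Polynomial.map_pow, map_X]
          rw [← e2]
          linear_combination hs
        have e3 : P w = A * toQ lam * toQ r + toQ g * t := by linear_combination ht
        rw [e1, e3, hPv]
        refine ⟨A * toQ lam * s - t * X ^ (i : ℕ), ?_⟩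
        ring
      rw [h2] at h1
      exact h1
    have : ∀ i, ∃ z : ℤ_[p], w i = algebraMap ℤ_[p] ℚ_[p] z := fun i => ⟨⟨w i, hwint i⟩, rfl⟩
    choose z' hz' using this
    set mu : ℤ_[p][X] := P z' with hmu
    have hPw : P w = toQ mu := by
      rw [hmu, P, P, toQ, Polynomial.map_sum]
      refine Finset.sum_congr rfl fun i _ => ?_
      rw [Polynomial.map_mul, Polynomial.map_pow, map_X, map_C, ← hz' i]
    have hdiv : g ∣ lam * r - h * mu := by
      apply toQ_dvd hg
      obtain ⟨t, ht⟩ := hw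
      rw [hPw] at ht
      refine ⟨B * toQ lam * toQ r - toQ h * t, ?_⟩
      simp only [toQ, Polynomial.map_mul, Polynomial.map_sub] at ht hAB ⊢
      linear_combination (-(map (algebraMap ℤ_[p] ℚ_[p]) lam * map (algebraMap ℤ_[p] ℚ_[p]) r)) *
        hAB - (map (algebraMap ℤ_[p] ℚ_[p]) h) * ht
    obtain ⟨nu, hnu⟩ := hdiv
    have hkey : r * (C c * lam - r * nu) = h * (C c * mu + h' * nu) := by
      linear_combination (C c) * hnu + nu * e
    have hcoQ : IsCoprime (toQ h) (toQ r) := by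
      have hcQ : IsUnit (C (algebraMap ℤ_[p] ℚ_[p] c)) := by
        apply IsUnit.map C
        exact hc.map (algebraMap ℤ_[p] ℚ_[p])
      have h1 : IsCoprime (toQ h) (C (algebraMap ℤ_[p] ℚ_[p] c) * toQ g) :=
        (isCoprime_mul_unit_left_right hcQ _ _).2 hco
      rw [eQ] at h1
      have h2 : IsCoprime (toQ h) (toQ r ^ 2) := by
        have := IsCoprime.of_add_mul_left_right h1
        exact this
      exact (IsCoprime.pow_right_iff (by norm_num)).1 h2
    have hdiv2 : h ∣ C c * lam - r * nu := by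
      apply toQ_dvd hh
      apply hcoQ.dvd_of_dvd_mul_left
      refine ⟨toQ (C c * mu + h' * nu), ?_⟩
      rw [toQ, toQ, toQ, toQ, ← Polynomial.map_mul, ← Polynomial.map_mul, hkey]
    obtain ⟨rho, hrho⟩ := hdiv2
    obtain ⟨c', hc'⟩ := hc.exists_left_inv
    have hlam2 : lam = (C c' * rho) * h + (C c' * nu) * r := by
      have h1 : (C c' : ℤ_[p][X]) * C c = 1 := by rw [← C_mul, hc', C_1]
      linear_combination (C c') * hrho - lam * h1
    refine ⟨C c' * rho, C c' * nu, ?_⟩
    rw [hPv, ← hlam2, sub_self]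
    exact dvd_zero _)
  rw [norm_one, one_pow] at hdual
  -- integrality of the determinant
  have hent : ∀ (k : ℕ) (i j : Fin n), ‖(G * Hank n (toQ g) (X ^ k * A) * Gᵀ) i j‖ ≤ 1 := by
    intro k i j
    rw [conj_apply]
    exact hval k _ (hrow i) _ (hrow j)
  have hdet1 : ‖(G * Hank n (toQ g) A * Gᵀ).det‖ ≤ 1 := by
    have h0 : ∀ i j, ∃ z : ℤ_[p], (G * Hank n (toQ g) A * Gᵀ) i j = algebraMap ℤ_[p] ℚ_[p] z := by
      intro i j
      refine ⟨⟨(G * Hank n (toQ g) A * Gᵀ) i j, ?_⟩, rfl⟩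
      have := hent 0 i j
      rwa [pow_zero, one_mul] at this
    choose Z hZ using h0
    have h1 : G * Hank n (toQ g) A * Gᵀ = (Matrix.of Z).map (algebraMap ℤ_[p] ℚ_[p]) := by
      ext i j
      rw [hZ i j]
      rfl
    have h2 := (algebraMap ℤ_[p] ℚ_[p]).map_det (Matrix.of Z)
    rw [h1]
    rw [RingHom.mapMatrix_apply] at h2
    rw [← h2]
    exact PadicInt.norm_le_one _
  have hgood : Good p n (toQ g) A := ⟨G, hGdet, hent, le_antisymm hdet1 hdual⟩
  refine Good.congr hG hGn hgood 1 norm_one (toQ h) 1 hco isCoprime_one_left ?_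
  refine ⟨-(B * toQ h), ?_⟩
  rw [C_1]
  linear_combination (toQ h) * hAB

end Stoll308.SC
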