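import Pool.Agent.Work.MP_308fa9_nt.SC.Lat
import Pool.Agent.Work.MP_308fa9_nt.SC.Basic
import Pool.Agent.Work.MP_308fa9_nt.SC.SelfDual

set_option autoImplicit false

/-!
A lattice which is integral for all forms, of bounded determinant.
-/

namespace Stoll308.SC

open Polynomial Finset Matrix BG BF

namespace MaxLat

open SelfDual

variable {p : ℕ} [Fact p.Prime] {n : ℕ}

/-- stability under the multiplication by `θ` -/
def Stab (g : ℚ_[p][X]) (N : Submodule ℤ_[p] (Fin n → ℚ_[p])) : Prop :=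
  ∀ v ∈ N, ∀ w : Fin n → ℚ_[p], g ∣ P w - X * P v → w ∈ N

/-- integrality for the form -/
def Integ (S : Matrix (Fin n) (Fin n) ℚ_[p]) (N : Submodule ℤ_[p] (Fin n → ℚ_[p])) : Prop :=
  ∀ v ∈ N, ∀ u ∈ N, ‖v ⬝ᵥ (S *ᵥ u)‖ ≤ 1

lemma norm_add_le_of {a b : ℚ_[p]} {c : ℝ} (ha : ‖a‖ ≤ c) (hb : ‖b‖ ≤ c) : ‖a + b‖ ≤ c :=
  (Padic.nonarchimedean a b).trans (max_le ha hb)

lemma norm_smul_le_of (z : ℤ_[p]) {a : ℚ_[p]} {c : ℝ} (ha : ‖a‖ ≤ c) :
    ‖(algebraMap ℤ_[p] ℚ_[p] z) * a‖ ≤ c := by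
  rw [norm_mul]
  have h1 : ‖(algebraMap ℤ_[p] ℚ_[p] z)‖ ≤ 1 := PadicInt.norm_le_one z
  calc ‖(algebraMap ℤ_[p] ℚ_[p] z)‖ * ‖a‖ ≤ 1 * ‖a‖ := by gcongr
    _ ≤ c := by rw [one_mul]; exact ha

/-- the dual lattice -/
def dual (S : Matrix (Fin n) (Fin n) ℚ_[p]) (N : Submodule ℤ_[p] (Fin n → ℚ_[p])) :
    Submodule ℤ_[p] (Fin n → ℚ_[p]) where
  carrier := {v | ∀ u ∈ N, ‖v ⬝ᵥ (S *ᵥ u)‖ ≤ 1}
  add_mem' := by
    intro v w hv hw u hu
    rw [add_dotProduct]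
    exact norm_add_le_of (hv u hu) (hw u hu)
  zero_mem' := by
    intro u _
    rw [zero_dotProduct, norm_zero]
    exact zero_le_one
  smul_mem' := by
    intro z v hv u hu
    have h1 : (z • v) ⬝ᵥ (S *ᵥ u) = (algebraMap ℤ_[p] ℚ_[p] z) * (v ⬝ᵥ (S *ᵥ u)) := by
      rw [smul_dotProduct, Algebra.smul_def]
    rw [h1]
    exact norm_smul_le_of z (hv u hu)

lemma mem_dual (S : Matrix (Fin n) (Fin n) ℚ_[p]) (N : Submodule ℤ_[p] (Fin n → ℚ_[p]))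
    (v : Fin n → ℚ_[p]) : v ∈ dual S N ↔ ∀ u ∈ N, ‖v ⬝ᵥ (S *ᵥ u)‖ ≤ 1 := Iff.rfl

/-- the ball of radius `r` -/
def ball (p : ℕ) [Fact p.Prime] (n : ℕ) (r : ℝ) (hr : 0 ≤ r) :
    Submodule ℤ_[p] (Fin n → ℚ_[p]) where
  carrier := {v | ∀ i, ‖v i‖ ≤ r}
  add_mem' := by
    intro v w hv hw i
    exact norm_add_le_of (hv i) (hw i)
  zero_mem' := by
    intro i
    rw [Pi.zero_apply, norm_zero]
    exact hr
  smul_mem' := by
    intro z v hv i
    rw [Pi.smul_apply, Algebra.smul_def]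
    exact norm_smul_le_of z (hv i)

lemma P_smul (c : ℚ_[p]) (v : Fin n → ℚ_[p]) : P (c • v) = C c * P v := by
  rw [P, P, Finset.mul_sum]
  refine Finset.sum_congr rfl fun i _ => ?_
  rw [Pi.smul_apply, smul_eq_mul, C_mul, mul_assoc]

lemma P_add (v u : Fin n → ℚ_[p]) : P (v + u) = P v + P u := by
  simp only [P, Pi.add_apply, C_add, add_mul, Finset.sum_add_distrib]

lemma exists_int (v : Fin n → ℚ_[p]) (hv : ∀ i, ‖v i‖ ≤ 1) :
    ∃ z : Fin n → ℤ_[p], P v = toQ (P z) := by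
  have : ∀ i, ∃ z : ℤ_[p], v i = algebraMap ℤ_[p] ℚ_[p] z := fun i => ⟨⟨v i, hv i⟩, rfl⟩
  choose z hz using this
  refine ⟨z, ?_⟩
  rw [P, P, toQ, Polynomial.map_sum]
  refine Finset.sum_congr rfl fun i _ => ?_
  rw [Polynomial.map_mul, Polynomial.map_pow, map_X, map_C, ← hz i]

lemma ball_stab (g : ℤ_[p][X]) (hg : g.Monic) (hgn : g.natDegree = n) (c : ℚ_[p]) (hc : c ≠ 0) :
    Stab (toQ g) (ball p n ‖c‖ (norm_nonneg c)) := by
  have hG : (toQ g).Monic := hg.map _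
  have hGn : (toQ g).natDegree = n := by rw [hg.natDegree_map, hgn]
  intro v hv w hw
  have hc0 : 0 < ‖c‖ := norm_pos_iff.2 hc
  obtain ⟨z, hz⟩ := exists_int (c⁻¹ • v) (fun i => by
    rw [Pi.smul_apply, smul_eq_mul, norm_mul, norm_inv]
    rw [inv_mul_le_iff₀ hc0, mul_one]
    exact hv i)
  have hPv : P v = C c * toQ (P z) := by
    rw [← hz, P_smul, ← mul_assoc, ← C_mul, mul_inv_cancel₀ hc, C_1, one_mul]
  intro i
  rw [← P_coeff w i, P_mod (toQ g) hG hGn w _ hw, hPv]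
  have e1 : X * (C c * toQ (P z)) = c • toQ (X * P z) := by
    rw [smul_eq_C_mul, toQ, toQ, Polynomial.map_mul, map_X]
    ring
  rw [e1, smul_modByMonic, coeff_smul, smul_eq_mul, norm_mul]
  have h2 := coeff_int g (X * P z) hg (i : ℕ)
  calc ‖c‖ * ‖((toQ (X * P z)) %ₘ (toQ g)).coeff i‖ ≤ ‖c‖ * 1 := by gcongr
    _ = ‖c‖ := mul_one _

lemma stab_pow {g : ℚ_[p][X]} (hg : g.Monic) (hgn : g.natDegree = n)
    {N : Submodule ℤ_[p] (Fin n → ℚ_[p])} (h : Stab g N) (k : ℕ) :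
    ∀ v ∈ N, ∃ w ∈ N, g ∣ P w - X ^ k * P v := by
  induction k with
  | zero =>
    intro v hv
    exact ⟨v, hv, by rw [pow_zero, one_mul, sub_self]; exact dvd_zero _⟩
  | succ k ih =>
    intro v hv
    obtain ⟨w, hw, h1⟩ := ih v hv
    obtain ⟨w', hw'⟩ := exists_vec (n := n) g hg hgn (X * P w)
    refine ⟨w', h w hw w' hw', ?_⟩
    have h2 := dvd_add hw' (Dvd.dvd.mul_left h1 X)
    convert h2 using 1
    ring

lemma dual_stab {g δ : ℚ_[p][X]} (hg : g.Monic) (hgn : g.natDegree = n)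
    {N : Submodule ℤ_[p] (Fin n → ℚ_[p])} (h : Stab g N) : Stab g (dual (Hank n g δ) N) := by
  intro v hv w hw u hu
  obtain ⟨u', hu'⟩ := exists_vec (n := n) g hg hgn (X * P u)
  have h1 := hv u' (h u hu u' hu')
  rw [dot] at h1 ⊢
  have h2 : HankL.tau n g (δ * P w * P u) = HankL.tau n g (δ * P v * P u') := by
    apply tau_congr _ _ _ hg
    obtain ⟨s, hs⟩ := hw
    obtain ⟨t, ht⟩ := hu'
    refine ⟨δ * (s * P u) - δ * P v * t, ?_⟩
    linear_combination δ * P u * hs - δ * P v * ht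
  rw [h2]
  exact h1

lemma sup_stab {g : ℚ_[p][X]} (hg : g.Monic) (hgn : g.natDegree = n)
    {N N' : Submodule ℤ_[p] (Fin n → ℚ_[p])} (h : Stab g N) (h' : Stab g N') :
    Stab g (N ⊔ N') := by
  intro v hv w hw
  obtain ⟨a, ha, b, hb, rfl⟩ := Submodule.mem_sup.1 hv
  obtain ⟨a', ha'⟩ := exists_vec (n := n) g hg hgn (X * P a)
  have h1 : g ∣ P (w - a') - X * P b := by
    have e : P (w - a') = P w - P a' := by
      simp only [P, Pi.sub_apply, C_sub, sub_mul, Finset.sum_sub_distrib]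
    rw [P_add] at hw
    have := dvd_sub hw ha'
    rw [e]
    convert this using 1
    ring
  rw [show w = a' + (w - a') by abel]
  exact Submodule.add_mem_sup (h a ha a' ha') (h' b hb _ h1)

/-- the multiples by a constant -/
lemma smul_stab {g : ℚ_[p][X]} (hg : g.Monic) (hgn : g.natDegree = n)
    {N : Submodule ℤ_[p] (Fin n → ℚ_[p])} (h : Stab g N) (z : ℤ_[p]) :
    Stab g (N.map (LinearMap.lsmul ℤ_[p] (Fin n → ℚ_[p]) z)) := by
  intro v hv w hw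
  obtain ⟨a, ha, rfl⟩ := Submodule.mem_map.1 hv
  obtain ⟨a', ha'⟩ := exists_vec (n := n) g hg hgn (X * P a)
  refine Submodule.mem_map.2 ⟨a', h a ha a' ha', ?_⟩
  have e0 : ∀ u : Fin n → ℚ_[p], (LinearMap.lsmul ℤ_[p] (Fin n → ℚ_[p]) z) u =
      (algebraMap ℤ_[p] ℚ_[p] z) • u := by
    intro u
    rw [LinearMap.lsmul_apply]
    ext i
    rw [Pi.smul_apply, Pi.smul_apply, Algebra.smul_def, smul_eq_mul]
  rw [e0] at hw ⊢
  rw [P_smul] at hw
  -- both have the same residue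
  have h1 : g ∣ P w - C (algebraMap ℤ_[p] ℚ_[p] z) * P a' := by
    have := dvd_sub hw (Dvd.dvd.mul_left ha' (C (algebraMap ℤ_[p] ℚ_[p] z)))
    convert this using 1
    ring
  rw [← P_smul] at h1
  have h2 : P w = P ((algebraMap ℤ_[p] ℚ_[p] z) • a') := by
    rw [P_mod g hg hgn w _ h1, modByMonic_eq_self_iff hg]
    rw [degree_eq_natDegree hg.ne_zero, hgn]
    exact P_degree _
  ext i
  rw [← P_coeff w i, h2, P_coeff]

/-- the dual of a ball is bounded -/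
lemma dual_bdd (S : Matrix (Fin n) (Fin n) ℚ_[p]) (hS : S.det ≠ 0) (c : ℚ_[p]) (hc : c ≠ 0) :
    ∃ M : ℝ, 0 ≤ M ∧ ∀ v ∈ dual S (ball p n ‖c‖ (norm_nonneg c)), ∀ i, ‖v i‖ ≤ M := by
  have hc0 : 0 < ‖c‖ := norm_pos_iff.2 hc
  refine ⟨∑ i, ∑ j, ‖c‖⁻¹ * ‖S⁻¹ j i‖, by positivity, ?_⟩
  intro v hv i
  have h1 : ∀ j, ‖(v ᵥ* S) j‖ ≤ ‖c‖⁻¹ := by
    intro j
    have h2 := hv (c • Pi.single j 1) (by
      intro i'
      rw [Pi.smul_apply, smul_eq_mul, norm_mul]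
      by_cases h : i' = j
      · rw [h, Pi.single_eq_same, norm_one, mul_one]
      · rw [Pi.single_eq_of_ne h, norm_zero, mul_zero]
        exact norm_nonneg _)
    rw [mulVec_smul, dotProduct_smul, dotProduct_mulVec, dotProduct_single_one, smul_eq_mul,
      norm_mul] at h2
    rw [inv_eq_one_div, le_div_iff₀ hc0]
    linarith
  have h3 : v = (v ᵥ* S) ᵥ* S⁻¹ := by
    rw [vecMul_vecMul, mul_nonsing_inv _ (isUnit_iff_ne_zero.2 hS), vecMul_one]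
  have h4 : ‖v i‖ ≤ ∑ j, ‖c‖⁻¹ * ‖S⁻¹ j i‖ := by
    rw [h3, vecMul, dotProduct]
    refine (norm_sum_le _ _).trans (Finset.sum_le_sum fun j _ => ?_)
    rw [norm_mul]
    exact mul_le_mul_of_nonneg_right (h1 j) (norm_nonneg _)
  exact h4.trans (Finset.single_le_sum (f := fun i => ∑ j, ‖c‖⁻¹ * ‖S⁻¹ j i‖)
    (fun i _ => by positivity) (Finset.mem_univ i))

/-- a small power of `p` -/
lemma exists_pow_small (p : ℕ) [hp : Fact p.Prime] (M r : ℝ) (hM : 0 ≤ M) (hr : 0 < r) :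
    ∃ K : ℕ, ‖(p : ℚ_[p]) ^ K‖ * M ≤ r := by
  have hlt : ‖(p : ℚ_[p])‖ < 1 := Padic.norm_p_lt_one
  obtain ⟨K, hK⟩ := exists_pow_lt_of_lt_one (show 0 < r / (M + 1) by positivity) hlt
  refine ⟨K, ?_⟩
  rw [norm_pow]
  rw [lt_div_iff₀ (by positivity)] at hK
  have : ‖(p : ℚ_[p])‖ ^ K * M ≤ ‖(p : ℚ_[p])‖ ^ K * (M + 1) := by gcongr; linarith
  linarith

/-- a ball on which the form is integral -/
lemma ball_integ (S : Matrix (Fin n) (Fin n) ℚ_[p]) :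
    ∃ c : ℚ_[p], c ≠ 0 ∧ Integ S (ball p n ‖c‖ (norm_nonneg c)) := by
  have hp0 : (p : ℚ_[p]) ≠ 0 := by
    exact_mod_cast (Fact.out : p.Prime).ne_zero
  obtain ⟨K, hK⟩ := exists_pow_small p (∑ i, ∑ j, ‖S i j‖) 1 (by positivity) one_pos
  refine ⟨(p : ℚ_[p]) ^ K, pow_ne_zero _ hp0, ?_⟩
  intro v hv u hu
  set c : ℚ_[p] := (p : ℚ_[p]) ^ K with hc
  have hc1 : ‖c‖ ≤ 1 := by
    rw [hc, norm_pow]
    exact pow_le_one₀ (norm_nonneg _) Padic.norm_p_lt_one.le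
  rw [dotProduct]
  refine (norm_sum_le _ _).trans ?_
  have h1 : ∀ i, ‖v i * (S *ᵥ u) i‖ ≤ ‖c‖ * ∑ j, ‖S i j‖ := by
    intro i
    rw [norm_mul, mulVec, dotProduct]
    have h2 : ‖∑ j, S i j * u j‖ ≤ ∑ j, ‖S i j‖ := by
      refine (norm_sum_le _ _).trans (Finset.sum_le_sum fun j _ => ?_)
      rw [norm_mul]
      calc ‖S i j‖ * ‖u j‖ ≤ ‖S i j‖ * 1 := by
            gcongr
            exact (hu j).trans hc1
        _ = _ := mul_one _
    exact mul_le_mul (hv i) h2 (norm_nonneg _) (norm_nonneg _)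
  calc ∑ i, ‖v i * (S *ᵥ u) i‖ ≤ ∑ i, ‖c‖ * ∑ j, ‖S i j‖ := Finset.sum_le_sum fun i _ => h1 i
    _ = ‖c‖ * ∑ i, ∑ j, ‖S i j‖ := by rw [Finset.mul_sum]
    _ ≤ 1 := hK

lemma integ_symm (S : Matrix (Fin n) (Fin n) ℚ_[p]) (hS : S.IsSymm) (v u : Fin n → ℚ_[p]) :
    v ⬝ᵥ (S *ᵥ u) = u ⬝ᵥ (S *ᵥ v) := by
  rw [dotProduct_mulVec, ← mulVec_transpose, hS.eq, dotProduct_comm]

/-- the main argument -/
lemma exists_max (g : ℤ_[p][X]) (hg : g.Monic) (hgn : g.natDegree = n) (δ : ℚ_[p][X])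
    (hδ : IsCoprime δ (toQ g)) :
    ∃ (N : Submodule ℤ_[p] (Fin n → ℚ_[p])) (c : ℚ_[p]), c ≠ 0 ∧
      ball p n ‖c‖ (norm_nonneg c) ≤ N ∧ Stab (toQ g) N ∧ Integ (Hank n (toQ g) δ) N ∧
      ∀ v ∈ dual (Hank n (toQ g) δ) N, (p : ℚ_[p]) • v ∈ N := by
  have hG : (toQ g).Monic := hg.map _
  have hGn : (toQ g).natDegree = n := by rw [hg.natDegree_map, hgn]
  set S := Hank n (toQ g) δ with hS
  have hSdet : S.det ≠ 0 := hank_det_ne_zero _ _ hG hGn hδ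
  have hsymm : S.IsSymm := hank_isSymm _ _
  obtain ⟨c, hc, hcI⟩ := ball_integ S
  set B := ball p n ‖c‖ (norm_nonneg c) with hB
  have hc0 : 0 < ‖c‖ := norm_pos_iff.2 hc
  obtain ⟨N, hBN, hmax⟩ := zorn_le_nonempty₀
    {N : Submodule ℤ_[p] (Fin n → ℚ_[p]) | B ≤ N ∧ Stab (toQ g) N ∧ Integ S N} (by
      intro ch hch hchain y hy
      have hne : ch.Nonempty := ⟨y, hy⟩
      have hdir : DirectedOn (· ≤ ·) ch := hchain.directedOn
      refine ⟨sSup ch, ⟨?_, ?_, ?_⟩, fun z hz => le_sSup hz⟩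
      · exact (hch hy).1.trans (le_sSup hy)
      · intro v hv w hw
        obtain ⟨N, hN, hvN⟩ := (Submodule.mem_sSup_of_directed hne hdir).1 hv
        exact (Submodule.mem_sSup_of_directed hne hdir).2 ⟨N, hN, (hch hN).2.1 v hvN w hw⟩
      · intro v hv u hu
        obtain ⟨N, hN, hvN⟩ := (Submodule.mem_sSup_of_directed hne hdir).1 hv
        obtain ⟨N', hN', huN⟩ := (Submodule.mem_sSup_of_directed hne hdir).1 hu
        obtain ⟨N'', hN'', h1, h2⟩ := hdir N hN N' hN'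
        exact (hch hN'').2.2 v (h1 hvN) u (h2 huN)) B
      ⟨le_rfl, ball_stab g hg hgn c hc, hcI⟩
  obtain ⟨hN1, hN2⟩ := hmax
  obtain ⟨-, hstab, hint⟩ := hN1
  refine ⟨N, c, hc, hBN, hstab, hint, ?_⟩
  -- a power of `p` maps the dual into `N`
  obtain ⟨M, hM0, hM⟩ := dual_bdd S hSdet c hc
  obtain ⟨K, hK⟩ := exists_pow_small p M ‖c‖ hM0 hc0
  have hdualB : ∀ v ∈ dual S N, v ∈ dual S B := fun v hv u hu => hv u (hBN hu)
  have hex : ∃ k : ℕ, ∀ v ∈ dual S N, (p : ℚ_[p]) ^ k • v ∈ N := by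
    refine ⟨K, fun v hv => hBN ?_⟩
    intro i
    rw [Pi.smul_apply, smul_eq_mul, norm_mul]
    calc ‖(p : ℚ_[p]) ^ K‖ * ‖v i‖ ≤ ‖(p : ℚ_[p]) ^ K‖ * M := by
          gcongr
          exact hM v (hdualB v hv) i
      _ ≤ ‖c‖ := hK
  classical
  set k := Nat.find hex with hk
  have hkspec : ∀ v ∈ dual S N, (p : ℚ_[p]) ^ k • v ∈ N := Nat.find_spec hex
  have hcoe : ∀ (j : ℕ) (v : Fin n → ℚ_[p]), (p : ℚ_[p]) ^ j • v = ((p : ℤ_[p]) ^ j) • v := by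
    intro j v
    ext i
    rw [Pi.smul_apply, Pi.smul_apply, smul_eq_mul, Algebra.smul_def, map_pow, map_natCast]
  have hk1 : k ≤ 1 := by
    by_contra hcon
    push Not at hcon
    -- the bigger lattice
    set N' := N ⊔ (dual S N).map (LinearMap.lsmul ℤ_[p] (Fin n → ℚ_[p]) ((p : ℤ_[p]) ^ (k - 1)))
      with hN'
    have hst : Stab (toQ g) N' :=
      sup_stab hG hGn hstab (smul_stab hG hGn (dual_stab hG hGn hstab) _)
    have hin : Integ S N' := by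
      intro v hv u hu
      obtain ⟨a, ha, b, hb, rfl⟩ := Submodule.mem_sup.1 hv
      obtain ⟨a', ha', b', hb', rfl⟩ := Submodule.mem_sup.1 hu
      obtain ⟨x, hx, rfl⟩ := Submodule.mem_map.1 hb
      obtain ⟨x', hx', rfl⟩ := Submodule.mem_map.1 hb'
      rw [LinearMap.lsmul_apply, LinearMap.lsmul_apply, ← hcoe, ← hcoe]
      set P1 : ℚ_[p] := (p : ℚ_[p]) ^ (k - 1) with hP1
      have hP1n : ‖P1‖ ≤ 1 := by
        rw [hP1, norm_pow]
        exact pow_le_one₀ (norm_nonneg _) Padic.norm_p_lt_one.le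
      have e1 : (a + P1 • x) ⬝ᵥ (S *ᵥ (a' + P1 • x')) =
          a ⬝ᵥ (S *ᵥ a') + P1 * (x' ⬝ᵥ (S *ᵥ a)) + (P1 * (x ⬝ᵥ (S *ᵥ a')) +
            P1 * (P1 * (x ⬝ᵥ (S *ᵥ x')))) := by
        rw [mulVec_add, mulVec_smul, add_dotProduct, dotProduct_add, dotProduct_add,
          dotProduct_smul, smul_dotProduct, smul_dotProduct, dotProduct_smul,
          integ_symm S hsymm a x']
        simp only [smul_eq_mul]
      rw [e1]
      have t1 : ‖P1 * (x' ⬝ᵥ (S *ᵥ a))‖ ≤ 1 := by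
        rw [norm_mul]
        exact mul_le_one₀ hP1n (norm_nonneg _) (hx' a ha)
      have t2 : ‖P1 * (x ⬝ᵥ (S *ᵥ a'))‖ ≤ 1 := by
        rw [norm_mul]
        exact mul_le_one₀ hP1n (norm_nonneg _) (hx a' ha')
      have t3 : ‖P1 * (P1 * (x ⬝ᵥ (S *ᵥ x')))‖ ≤ 1 := by
        -- `p^(k-1) p^(k-1) = p^(k-2) p^k`
        have h1 : P1 * (P1 * (x ⬝ᵥ (S *ᵥ x'))) =
            (p : ℚ_[p]) ^ (k - 2) * (x ⬝ᵥ (S *ᵥ ((p : ℚ_[p]) ^ k • x'))) := by
          rw [mulVec_smul, dotProduct_smul, smul_eq_mul, hP1, ← mul_assoc, ← mul_assoc,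
            ← pow_add, ← pow_add]
          congr 2
          omega
        rw [h1, norm_mul, norm_pow]
        exact mul_le_one₀ (pow_le_one₀ (norm_nonneg _) Padic.norm_p_lt_one.le)
          (norm_nonneg _) (hx _ (hkspec x' hx'))
      exact norm_add_le_of (norm_add_le_of (hint a ha a' ha') t1) (norm_add_le_of t2 t3)
    have hle : N' ≤ N := hN2 ⟨hBN.trans le_sup_left, hst, hin⟩ le_sup_left
    have hbad : ∀ v ∈ dual S N, (p : ℚ_[p]) ^ (k - 1) • v ∈ N := by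
      intro v hv
      apply hle
      refine Submodule.mem_sup_right (Submodule.mem_map.2 ⟨v, hv, ?_⟩)
      rw [LinearMap.lsmul_apply, hcoe]
    exact Nat.find_min hex (show k - 1 < k by omega) hbad
  intro v hv
  have h1 := hkspec v hv
  rcases Nat.le_one_iff_eq_zero_or_eq_one.1 hk1 with h | h
  · rw [h, pow_zero, one_smul] at h1
    have h2 := N.smul_mem (p : ℤ_[p]) h1
    have h3 := hcoe 1 v
    rw [pow_one, pow_one] at h3
    rwa [h3]
  · rw [h, pow_one] at h1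
    exact h1

end MaxLat

theorem max_lattice {n : ℕ} (hn : 1 ≤ n) (p : ℕ) [Fact p.Prime] (g : ℤ_[p][X]) (hg : g.Monic)
    (hgn : g.natDegree = n) (δ : ℚ_[p][X]) (hδ : IsCoprime δ (toQ g)) :
    ∃ G : Matrix (Fin n) (Fin n) ℚ_[p], G.det ≠ 0 ∧
      (∀ (k : ℕ) (i j : Fin n), ‖(G * Hank n (toQ g) (X ^ k * δ) * Gᵀ) i j‖ ≤ 1) ∧
      ((p : ℝ) ^ n)⁻¹ ≤ ‖(G * Hank n (toQ g) δ * Gᵀ).det‖ := by
  have hG' : (toQ g).Monic := hg.map _
  have hGn : (toQ g).natDegree = n := by rw [hg.natDegree_map, hgn]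
  have hSdet : (Hank n (toQ g) δ).det ≠ 0 := hank_det_ne_zero _ _ hG' hGn hδ
  obtain ⟨N, c, hc, hB, hstab, hint, hdual⟩ := MaxLat.exists_max g hg hgn δ hδ
  obtain ⟨M, -, hM⟩ := MaxLat.dual_bdd (Hank n (toQ g) δ) hSdet c hc
  obtain ⟨G, hG, hGN⟩ := exists_basis p N (by
    refine ⟨c, hc, fun v hv => hB ?_⟩
    intro i
    rw [Pi.smul_apply, smul_eq_mul, norm_mul]
    calc ‖c‖ * ‖v i‖ ≤ ‖c‖ * 1 := by gcongr; exact hv i
      _ = ‖c‖ := mul_one _) (by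
    refine ⟨M, fun v hv i => hM v ?_ i⟩
    intro u hu
    exact hint v hv u (hB hu))
  refine ⟨G, hG, ?_, ?_⟩
  · intro k i j
    have hrow : ∀ i, G i ∈ N := by
      intro i
      rw [hGN]
      refine ⟨Pi.single i 1, ?_, SelfDual.row_eq G i⟩
      intro j
      by_cases hij : j = i
      · rw [hij, Pi.single_eq_same, norm_one]
      · rw [Pi.single_eq_of_ne hij, norm_zero]
        exact zero_le_one
    rw [SelfDual.conj_apply, SelfDual.dot]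
    obtain ⟨w, hw, hw'⟩ := MaxLat.stab_pow hG' hGn hstab k (G i) (hrow i)
    have h1 := hint w hw (G j) (hrow j)
    rw [SelfDual.dot] at h1
    have h2 : HankL.tau n (toQ g) (X ^ k * δ * SelfDual.P (G i) * SelfDual.P (G j)) =
        HankL.tau n (toQ g) (δ * SelfDual.P w * SelfDual.P (G j)) := by
      apply SelfDual.tau_congr _ _ _ hG'
      obtain ⟨s, hs⟩ := hw'
      refine ⟨-(δ * s * SelfDual.P (G j)), ?_⟩
      linear_combination (-(δ * SelfDual.P (G j))) * hs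
    rw [h2]
    exact h1
  · have h1 := gram_det p N G (Hank n (toQ g) δ) hG hSdet hGN (p : ℚ_[p]) hdual
    refine le_trans (le_of_eq ?_) h1
    rw [Padic.norm_p, inv_pow]

end Stoll308.SC
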