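import Pool.Agent.Work.MP_308fa9_nt.SC.Excl

set_option autoImplicit false

/-!
Few polynomials have `- a₀ aₙ` a square.
-/

namespace Stoll308.SC

open Polynomial Finset Matrix BG BF

/-- The numbers `y` with `- x y` a square, `x ≠ 0` given. -/
lemma exists_cls (x : ℤ) (hx : x ≠ 0) : ∃ s : ℤ, ∀ y : ℤ, IsSquare (-(x * y)) →
    ∃ t : ℕ, (t : ℤ) ^ 2 ≤ |y| ∧ y = s * (t : ℤ) ^ 2 := by
  obtain ⟨s, b, h1, h2⟩ := Nat.sq_mul_squarefree x.natAbs
  have hb : b ≠ 0 := by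
    rintro rfl
    apply hx
    rw [← Int.natAbs_eq_zero, ← h1]
    simp
  have hs : s ≠ 0 := h2.ne_zero
  refine ⟨-(x.sign * s), fun y hy => ?_⟩
  obtain ⟨c, hc⟩ := hy
  have h3 : x = x.sign * ((b : ℤ) ^ 2 * s) := by
    conv_lhs => rw [← Int.sign_mul_natAbs x]
    rw [← h1]
    push_cast
    ring
  have hsg : x.sign * x.sign = 1 := by
    rcases lt_or_gt_of_ne hx with h | h
    · rw [Int.sign_eq_neg_one_of_neg h]; norm_num
    · rw [Int.sign_eq_one_of_pos h]; norm_num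
  -- `b ∣ c`
  have hbc : (b : ℤ) ∣ c := by
    have : (b : ℤ) ^ 2 ∣ c ^ 2 := by
      refine ⟨-(x.sign * s * y), ?_⟩
      rw [sq c, ← hc]
      conv_lhs => rw [h3]
      ring
    exact (Int.pow_dvd_pow_iff (by norm_num)).1 this
  obtain ⟨d, hd⟩ := hbc
  have hbz : (b : ℤ) ^ 2 ≠ 0 := pow_ne_zero _ (by exact_mod_cast hb)
  have h4 : -(x.sign * s * y) = d ^ 2 := by
    apply mul_left_cancel₀ hbz
    calc (b : ℤ) ^ 2 * -(x.sign * s * y) = -(x.sign * ((b : ℤ) ^ 2 * s) * y) := by ring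
      _ = -(x * y) := by rw [← h3]
      _ = c * c := hc
      _ = _ := by rw [hd]; ring
  have hsd : (s : ℤ) ∣ d := by
    have h5 : (s : ℤ) ∣ d ^ 2 := ⟨-(x.sign * y), by rw [← h4]; ring⟩
    have h6 : Squarefree (s : ℤ) := by
      rw [← Int.squarefree_natAbs]
      simpa using h2
    exact (h6.dvd_pow_iff_dvd (by norm_num)).1 h5
  obtain ⟨e, he⟩ := hsd
  have hsz : (s : ℤ) ≠ 0 := by exact_mod_cast hs
  have h7 : y = -(x.sign * s) * e ^ 2 := by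
    have h8 : (s : ℤ) * -(x.sign * y) = s * (s * e ^ 2) := by
      rw [he] at h4
      linear_combination h4
    have h9 := mul_left_cancel₀ hsz h8
    calc y = x.sign * x.sign * y := by rw [hsg, one_mul]
      _ = -(x.sign * -(x.sign * y)) := by ring
      _ = _ := by rw [h9]; ring
  refine ⟨e.natAbs, ?_, ?_⟩
  · rw [Int.natAbs_sq]
    have h10 : |y| = s * e ^ 2 := by
      rw [h7, abs_mul, abs_neg, abs_mul, abs_of_nonneg (sq_nonneg e)]
      have h11 : |x.sign| = 1 := by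
        rcases lt_or_gt_of_ne hx with h | h
        · rw [Int.sign_eq_neg_one_of_neg h]; norm_num
        · rw [Int.sign_eq_one_of_pos h]; norm_num
      rw [h11, one_mul, abs_of_nonneg (by positivity)]
    rw [h10]
    have h12 : (1 : ℤ) ≤ s := by
      have : 1 ≤ s := Nat.one_le_iff_ne_zero.2 hs
      exact_mod_cast this
    nlinarith [sq_nonneg e]
  · rw [Int.natAbs_sq]
    exact h7

theorem sq_small (n : ℕ) (hn : 1 ≤ n) (ε : ℝ) (hε : 0 < ε) :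
    ∃ H₀ : ℕ, ∀ H : ℕ, H₀ ≤ H →
      (cnt n (fun a => IsSquare (-(a 0 * a (Fin.last n)))) H : ℝ) ≤ ε * H ^ (n + 1) := by
  classical
  set c : ℝ := 3 ^ (n + 1) / ε with hc
  refine ⟨max 1 ⌈c ^ 2⌉₊, fun H hH => ?_⟩
  have hH1 : 1 ≤ H := (le_max_left _ _).trans hH
  have hH1' : (1 : ℝ) ≤ H := by exact_mod_cast hH1
  have hcH : c ≤ √(H : ℝ) := by
    apply Real.le_sqrt_of_sq_le
    exact (Nat.le_ceil _).trans (by exact_mod_cast (le_max_right _ _).trans hH)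
  have hs1 : 1 ≤ √(H : ℝ) := Real.one_le_sqrt.2 hH1'
  have hne : (0 : Fin (n + 1)) ≠ Fin.last n := by
    intro h
    have := congrArg Fin.val h
    simp at this
    omega
  have h1 := Singular.cnt_le_add n (fun a => IsSquare (-(a 0 * a (Fin.last n))))
    (fun a => a 0 = 0 ∨ ¬ |a 0| ≤ (H : ℤ)) ((Icc (-(H : ℤ)) (H : ℤ)).erase 0)
    (fun x a => a 0 = x ∧ IsSquare (-(x * a (Fin.last n)))) H (fun a ha => by
      by_cases h0 : a 0 = 0
      · exact Or.inl (Or.inl h0)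
      by_cases h2 : |a 0| ≤ (H : ℤ)
      · exact Or.inr ⟨a 0, Finset.mem_erase.2 ⟨h0, Finset.mem_Icc.2 (abs_le.1 h2)⟩, rfl, ha⟩
      · exact Or.inl (Or.inr h2))
  have hI : (((Icc (-(H : ℤ)) (H : ℤ)).card : ℕ) : ℝ) ≤ 3 * H * 1 := by
    rw [Int.card_Icc]
    have e1 : ((H : ℤ) + 1 - -(H : ℤ)).toNat = 2 * H + 1 := by omega
    rw [e1]
    push_cast
    linarith
  have h3 : (BF.cnt n (fun a => a 0 = 0 ∨ ¬ |a 0| ≤ (H : ℤ)) H : ℝ) ≤
      (3 * (H : ℝ))⁻¹ * 1 * (3 * (H : ℝ)) ^ (n + 1) := by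
    refine cnt_two n _ H hH1 0 (Fin.last n) hne {0} (Icc (-(H : ℤ)) H) _ _ ?_ hI ?_
    · rw [Finset.card_singleton, mul_inv_cancel₀ (by positivity)]
      simp
    · intro a ha hP
      refine ⟨Finset.mem_singleton.2 ?_, Finset.mem_Icc.2 (abs_le.1 (ha _))⟩
      rcases hP with h | h
      · exact h
      · exact absurd (ha 0) h
  have h4 : ∀ x ∈ (Icc (-(H : ℤ)) (H : ℤ)).erase 0,
      (BF.cnt n (fun a => a 0 = x ∧ IsSquare (-(x * a (Fin.last n)))) H : ℝ) ≤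
        (3 * (H : ℝ))⁻¹ * (2 * √(H : ℝ) * (3 * (H : ℝ))⁻¹) * (3 * (H : ℝ)) ^ (n + 1) := by
    intro x hx
    obtain ⟨s, hs⟩ := exists_cls x (Finset.mem_erase.1 hx).1
    refine cnt_two n _ H hH1 0 (Fin.last n) hne {x}
      ((range (Nat.sqrt H + 1)).image fun r : ℕ => s * (r : ℤ) ^ 2) _ _ ?_ ?_ ?_
    · rw [Finset.card_singleton, mul_inv_cancel₀ (by positivity)]
      simp
    · have e2 : ((range (Nat.sqrt H + 1)).image fun r : ℕ => s * (r : ℤ) ^ 2).card ≤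
          Nat.sqrt H + 1 := Finset.card_image_le.trans (by rw [Finset.card_range])
      have e3 : (Nat.sqrt H : ℝ) ≤ √(H : ℝ) := Real.nat_sqrt_le_real_sqrt
      have e4 : ((((range (Nat.sqrt H + 1)).image fun r : ℕ => s * (r : ℤ) ^ 2).card : ℕ) : ℝ) ≤
          (Nat.sqrt H : ℝ) + 1 := by exact_mod_cast e2
      have e5 : 3 * (H : ℝ) * (2 * √(H : ℝ) * (3 * (H : ℝ))⁻¹) = 2 * √(H : ℝ) := by
        field_simp
      rw [e5]
      linarith
    · intro a ha hP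
      refine ⟨Finset.mem_singleton.2 hP.1, ?_⟩
      obtain ⟨t, ht, h5⟩ := hs _ hP.2
      refine Finset.mem_image.2 ⟨t, ?_, h5.symm⟩
      rw [Finset.mem_range, Nat.lt_succ_iff, Nat.le_sqrt']
      have := ht.trans (ha (Fin.last n))
      exact_mod_cast this
  have h5 : (((Icc (-(H : ℤ)) (H : ℤ)).erase 0).card : ℝ) ≤ 3 * H :=
    le_trans (by exact_mod_cast Finset.card_erase_le) (hI.trans_eq (mul_one _))
  have h6 : (BF.cnt n (fun a => IsSquare (-(a 0 * a (Fin.last n)))) H : ℝ) ≤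
      (3 * (H : ℝ))⁻¹ * 1 * (3 * (H : ℝ)) ^ (n + 1) + 3 * (H : ℝ) *
        ((3 * (H : ℝ))⁻¹ * (2 * √(H : ℝ) * (3 * (H : ℝ))⁻¹) * (3 * (H : ℝ)) ^ (n + 1)) := by
    refine (Nat.cast_le.2 h1).trans ?_
    push_cast
    refine add_le_add h3 ((Finset.sum_le_sum h4).trans ?_)
    rw [Finset.sum_const, nsmul_eq_mul]
    exact mul_le_mul_of_nonneg_right h5 (by positivity)
  refine h6.trans ?_
  have hH0 : (0 : ℝ) < H := by linarith
  have h7 : (3 * (H : ℝ))⁻¹ * 1 * (3 * (H : ℝ)) ^ (n + 1) + 3 * (H : ℝ) *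
        ((3 * (H : ℝ))⁻¹ * (2 * √(H : ℝ) * (3 * (H : ℝ))⁻¹) * (3 * (H : ℝ)) ^ (n + 1)) =
      (1 + 2 * √(H : ℝ)) * (3 * (H : ℝ)) ^ n := by
    rw [pow_succ]
    field_simp
    try ring
  rw [h7]
  calc (1 + 2 * √(H : ℝ)) * (3 * (H : ℝ)) ^ n ≤ (3 * √(H : ℝ)) * (3 * (H : ℝ)) ^ n :=
        mul_le_mul_of_nonneg_right (by linarith) (by positivity)
    _ = 3 ^ (n + 1) * √(H : ℝ) * H ^ n := by rw [mul_pow]; ring
    _ = ε * c * √(H : ℝ) * H ^ n := by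
      rw [hc]
      field_simp
    _ ≤ ε * √(H : ℝ) * √(H : ℝ) * H ^ n := by gcongr
    _ = ε * (√(H : ℝ) * √(H : ℝ)) * H ^ n := by ring
    _ = ε * H ^ (n + 1) := by
      rw [Real.mul_self_sqrt (by positivity), pow_succ]
      ring

end Stoll308.SC
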