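import Pool.Agent.Work.MP_308fa9_nt.SC.SelfDual
import Pool.Agent.Work.MP_308fa9_nt.SC.Slope
import Pool.Agent.Work.MP_308fa9_nt.SC.SqRoot

set_option autoImplicit false

/-!
The self-dual lattice of the class of an odd degree point.
-/

namespace Stoll308.SC

open Polynomial Finset Matrix BG BF

namespace Core

theorem exists_coprime {K : Type*} [Field K] [CharZero K] (g r h : K[X]) (hg : g ≠ 0)
    (hco : IsCoprime h g) : ∃ t : ℕ, IsCoprime (r + C (t : K) * h) g := by
  classical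
  by_contra hcon
  push Not at hcon
  have key : ∀ t : ℕ, ∃ q ∈ UniqueFactorizationMonoid.normalizedFactors g,
      q ∣ r + C (t : K) * h := by
    intro t
    by_contra h1
    push Not at h1
    refine hcon t (isCoprime_of_irreducible_dvd (fun h => hg h.2) ?_)
    intro z hz hz1 hz2
    obtain ⟨q, hq, hzq⟩ :=
      UniqueFactorizationMonoid.exists_mem_normalizedFactors_of_dvd hg hz hz2
    exact h1 q hq (hzq.symm.dvd.trans hz1)
  choose q hq hdvd using key
  obtain ⟨t, t', hne, heq⟩ := Finite.exists_ne_map_eq_of_infinite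
    (fun t : ℕ => (⟨q t, Multiset.mem_toFinset.2 (hq t)⟩ :
      {x // x ∈ (UniqueFactorizationMonoid.normalizedFactors g).toFinset}))
  have hqq : q t = q t' := congrArg Subtype.val heq
  have h1 : q t ∣ C ((t : K) - t') * h := by
    have h2 := dvd_sub (hdvd t) (hqq ▸ hdvd t')
    have e : r + C (t : K) * h - (r + C (t' : K) * h) = C ((t : K) - t') * h := by
      rw [C_sub]; ring
    rwa [e] at h2
  have hirr := UniqueFactorizationMonoid.irreducible_of_normalized_factor _ (hq t)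
  have hc0 : (t : K) - t' ≠ 0 := sub_ne_zero.2 (fun h => hne (Nat.cast_injective h))
  have h3 : q t ∣ h := by
    have hu : IsUnit (C ((t : K) - t')) := isUnit_C.2 (isUnit_iff_ne_zero.2 hc0)
    exact (hu.dvd_mul_left).1 h1
  have h4 : q t ∣ g := UniqueFactorizationMonoid.dvd_of_mem_normalizedFactors (hq t)
  exact hirr.not_isUnit (hco.isUnit_of_dvd' h3 h4)

theorem coeff_zero_sq {K : Type*} [Field K] (V w : K[X]) (hV : V.Monic) (h : V ∣ X - w ^ 2) :
    ∃ N : K, V.coeff 0 = (-1) ^ V.natDegree * N ^ 2 := by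
  by_cases hd : V.natDegree = 0
  · have h1 : V = 1 := by
      have := eq_C_of_natDegree_eq_zero hd
      rw [this] at hV ⊢
      rw [Monic, leadingCoeff_C] at hV
      rw [hV, C_1]
    exact ⟨1, by rw [h1]; simp⟩
  · set pb := AdjoinRoot.powerBasis' hV with hpb
    have : Nontrivial (AdjoinRoot V) := by
      refine AdjoinRoot.nontrivial V ?_
      intro h0
      exact hd (natDegree_eq_of_degree_eq_some h0)
    have h1 : (AdjoinRoot.root V) = AdjoinRoot.mk V w ^ 2 := by
      rw [← map_pow, ← AdjoinRoot.mk_X, AdjoinRoot.mk_eq_mk]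
      exact h
    have h2 := Algebra.PowerBasis.norm_gen_eq_coeff_zero_minpoly pb
    have h3 : pb.gen = AdjoinRoot.root V := rfl
    rw [h3, AdjoinRoot.minpoly_root hV.ne_zero, hV.leadingCoeff, inv_one, C_1, mul_one] at h2
    have h4 : pb.dim = V.natDegree := rfl
    rw [h4, h1, map_pow] at h2
    refine ⟨Algebra.norm K (AdjoinRoot.mk V w), ?_⟩
    rw [h2, ← mul_assoc, ← pow_add, ← two_mul, pow_mul]
    simp

theorem sqrt_one_add (p : ℕ) [Fact p.Prime] (hp : p ≠ 2) (x : ℤ_[p]) :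
    ∃ s : ℤ_[p], s ^ 2 = 1 + (p : ℤ_[p]) * x := by
  obtain ⟨s, t, h1, -⟩ := sq_root p hp X (C x) monic_X
  refine ⟨s.eval 0, ?_⟩
  obtain ⟨q, hq⟩ := h1
  have h2 := congrArg (eval (0 : ℤ_[p])) hq
  simp only [eval_sub, eval_add, eval_one, eval_mul, eval_C, eval_pow, eval_X, zero_mul] at h2
  exact (sub_eq_zero.1 h2).symm

/-- The reduction modulo `p` of a polynomial with integral coefficients. -/
noncomputable abbrev red (p : ℕ) [Fact p.Prime] (f : ℤ_[p][X]) : (ZMod p)[X] :=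
  f.map PadicInt.toZMod

theorem toQ_inj {p : ℕ} [Fact p.Prime] {f g : ℤ_[p][X]} (h : toQ f = toQ g) : f = g :=
  map_injective _ (FaithfulSMul.algebraMap_injective ℤ_[p] ℚ_[p]) h

theorem red_p (p : ℕ) [Fact p.Prime] : red p (C (p : ℤ_[p])) = 0 := by
  rw [red, map_C, map_natCast, ZMod.natCast_self, C_0]

theorem toZMod_eq_zero {p : ℕ} [Fact p.Prime] {x : ℤ_[p]} (h : ‖x‖ < 1) :
    PadicInt.toZMod x = 0 := by
  have h1 : x ∈ IsLocalRing.maximalIdeal ℤ_[p] := by
    rw [IsLocalRing.mem_maximalIdeal, PadicInt.mem_nonunits]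
    exact h
  rw [← PadicInt.ker_toZMod] at h1
  exact h1

theorem isUnit_of_toZMod_ne {p : ℕ} [Fact p.Prime] {x : ℤ_[p]}
    (h : (PadicInt.toZMod x : ZMod p) ≠ 0) : IsUnit x := by
  by_contra hu
  exact h (toZMod_eq_zero (PadicInt.not_isUnit_iff.1 hu))

/-- If the reduction is not zero then the constant of `split_poly` is a unit. -/
theorem split_unit {p : ℕ} [Fact p.Prime] {F H G : ℤ_[p][X]} {v : ℚ_[p]} (hv : v ≠ 0)
    (hH : H.Monic) (e : toQ F = C v * toQ H * toQ (1 + C (p : ℤ_[p]) * G)) (hF : red p F ≠ 0) :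
    ∃ v0 : ℤ_[p], IsUnit v0 ∧ (v0 : ℚ_[p]) = v ∧ F = C v0 * H * (1 + C (p : ℤ_[p]) * G) := by
  rcases le_or_gt ‖v‖ 1 with h1 | h1
  · obtain ⟨v0, hv0⟩ : ∃ z : ℤ_[p], (algebraMap ℤ_[p] ℚ_[p]) z = v := ⟨⟨v, h1⟩, rfl⟩
    have e1 : F = C v0 * H * (1 + C (p : ℤ_[p]) * G) := by
      apply toQ_inj
      have e2 : toQ (C v0 * H * (1 + C (p : ℤ_[p]) * G)) =
          toQ (C v0) * toQ H * toQ (1 + C (p : ℤ_[p]) * G) := by
        rw [toQ, Polynomial.map_mul, Polynomial.map_mul]
      have e3 : toQ (C v0) = C v := by rw [toQ, map_C, hv0]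
      rw [e, e2, e3]
    refine ⟨v0, isUnit_of_toZMod_ne ?_, hv0, e1⟩
    intro h0
    apply hF
    rw [e1, red, Polynomial.map_mul, Polynomial.map_mul, map_C, h0, C_0, zero_mul, zero_mul]
  · exfalso
    have h2 : ‖v⁻¹‖ < 1 := by
      rw [norm_inv]
      exact inv_lt_one_of_one_lt₀ h1
    obtain ⟨z, hz, hzn⟩ : ∃ z : ℤ_[p], (algebraMap ℤ_[p] ℚ_[p]) z = v⁻¹ ∧ ‖z‖ < 1 :=
      ⟨⟨v⁻¹, h2.le⟩, rfl, h2⟩
    have e1 : C z * F = H * (1 + C (p : ℤ_[p]) * G) := by
      apply toQ_inj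
      have e3 : C v⁻¹ * C v = (1 : ℚ_[p][X]) := by
        rw [← C_mul, inv_mul_cancel₀ hv, C_1]
      have e4 : toQ (C z * F) = C v⁻¹ * toQ F := by
        rw [toQ, Polynomial.map_mul, map_C, hz]
      have e5 : toQ (H * (1 + C (p : ℤ_[p]) * G)) = toQ H * toQ (1 + C (p : ℤ_[p]) * G) :=
        Polynomial.map_mul _
      rw [e4, e5, e]
      calc C v⁻¹ * (C v * toQ H * toQ (1 + C (p : ℤ_[p]) * G))
          = (C v⁻¹ * C v) * (toQ H * toQ (1 + C (p : ℤ_[p]) * G)) := by ring
        _ = _ := by rw [e3, one_mul]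
    have e4 := congrArg (red p) e1
    rw [red, Polynomial.map_mul, map_C, toZMod_eq_zero hzn, C_0, zero_mul,
      red, Polynomial.map_mul, Polynomial.map_add, Polynomial.map_mul, Polynomial.map_one] at e4
    have e5 := red_p p
    rw [red] at e5
    rw [e5, zero_mul, add_zero, mul_one] at e4
    exact (hH.map (PadicInt.toZMod (p := p))).ne_zero e4.symm

theorem toQ_P {p : ℕ} [Fact p.Prime] (G : ℤ_[p][X]) :
    toQ (1 + C (p : ℤ_[p]) * G) = 1 + toQ (C (p : ℤ_[p])) * toQ G := by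
  rw [toQ, Polynomial.map_add, Polynomial.map_mul, Polynomial.map_one]

end Core

open Stoll308.SC.Core

/-- The case of an integral `h`: induction on the degree. -/
theorem core_int {n : ℕ} (hn : 1 ≤ n) (p : ℕ) [Fact p.Prime] (hp : p ≠ 2) (g : ℤ_[p][X])
    (c : ℤ_[p]) (hc : IsUnit c) (hg : g.Monic) (hgn : g.natDegree = n) (h : ℤ_[p][X])
    (r : ℚ_[p][X]) (hh : h.Monic) (hco : IsCoprime (toQ h) (toQ g))
    (h1 : toQ h ∣ toQ (C c * g) - r ^ 2) : Good p n (toQ g) (toQ h) := by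
  classical
  induction hd : h.natDegree using Nat.strong_induction_on generalizing h r with
  | _ d ih =>
  have hhm : (toQ h).Monic := hh.map _
  have hgm : (toQ g).Monic := hg.map _
  set r1 := r %ₘ toQ h with hr1
  have hrr : toQ h ∣ r - r1 := by
    rw [hr1]
    have := modByMonic_add_div r (toQ h)
    exact ⟨r /ₘ toQ h, by rw [eq_comm, ← sub_eq_iff_eq_add'.2 this.symm]⟩
  have hdiv1 : toQ h ∣ toQ (C c * g) - r1 ^ 2 := by
    have e : toQ (C c * g) - r1 ^ 2 = (toQ (C c * g) - r ^ 2) + (r - r1) * (r + r1) := by ring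
    rw [e]
    exact dvd_add h1 (hrr.mul_right _)
  by_cases hint : ∀ i, ‖r1.coeff i‖ ≤ 1
  · obtain ⟨R, hR, -, -⟩ := exists_toQ r1 hint
    have h2 : toQ h ∣ toQ (C c * g - R ^ 2) := by
      have e : toQ (C c * g - R ^ 2) = toQ (C c * g) - r1 ^ 2 := by
        rw [← hR]
        simp only [toQ, Polynomial.map_sub, Polynomial.map_pow]
      rw [e]
      exact hdiv1
    obtain ⟨h', hh'⟩ := toQ_dvd hh h2
    exact self_dual hn p g h R h' c hc hg hgn hh (by rw [← hh']; ring) hco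
  · push Not at hint
    obtain ⟨i1, hi1⟩ := hint
    -- a coefficient of maximal norm
    have hne : r1.support.Nonempty := by
      refine ⟨i1, mem_support_iff.2 ?_⟩
      intro h0
      rw [h0, norm_zero] at hi1
      linarith
    obtain ⟨i0, hi0, hmax⟩ := Finset.exists_max_image r1.support (fun i => ‖r1.coeff i‖) hne
    set a := r1.coeff i0 with ha
    have hmax' : ∀ i, ‖r1.coeff i‖ ≤ ‖a‖ := by
      intro i
      by_cases hi : i ∈ r1.support
      · exact hmax i hi
      · rw [notMem_support_iff.1 hi, norm_zero]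
        exact norm_nonneg _
    have ha1 : 1 < ‖a‖ := lt_of_lt_of_le hi1 (hmax' i1)
    have ha0 : a ≠ 0 := by
      intro h0
      rw [h0, norm_zero] at ha1
      linarith
    have hb1 : ‖a⁻¹‖ < 1 := by
      rw [norm_inv]
      exact inv_lt_one_of_one_lt₀ ha1
    set b : ℤ_[p] := ⟨a⁻¹, hb1.le⟩ with hb
    have hbQ : (algebraMap ℤ_[p] ℚ_[p]) b = a⁻¹ := rfl
    have hbz : PadicInt.toZMod b = (0 : ZMod p) := toZMod_eq_zero hb1
    obtain ⟨R0, hR0, hR0d, -⟩ := exists_toQ (C a⁻¹ * r1) (by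
      intro i
      rw [coeff_C_mul, norm_mul, norm_inv]
      rw [inv_mul_le_one₀ (by linarith)]
      exact hmax' i)
    obtain ⟨t, ht⟩ := exists_coprime (toQ g) r1 (toQ h) hgm.ne_zero hco
    set r2 := r1 + C (t : ℚ_[p]) * toQ h with hr2
    set R1 : ℤ_[p][X] := R0 + C (b * t) * h with hR1
    have hR1Q : toQ R1 = C a⁻¹ * r2 := by
      rw [hR1, hr2, toQ, Polynomial.map_add, ← toQ, hR0, Polynomial.map_mul, map_C, map_mul, hbQ,
        map_natCast, C_mul]
      ring
    have hdiv2 : toQ h ∣ toQ (C c * g) - r2 ^ 2 := by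
      have e : toQ (C c * g) - r2 ^ 2 = (toQ (C c * g) - r1 ^ 2) -
          toQ h * (C (t : ℚ_[p]) * (r1 + r2)) := by rw [hr2]; ring
      rw [e]
      exact dvd_sub hdiv1 (dvd_mul_right _ _)
    have hQ1 : toQ (C (b ^ 2 * c) * g - R1 ^ 2) = C (a⁻¹ ^ 2) * (toQ (C c * g) - r2 ^ 2) := by
      have e1 : toQ (C (b ^ 2 * c) * g) = C (a⁻¹ ^ 2) * toQ (C c * g) := by
        rw [toQ, toQ, Polynomial.map_mul, Polynomial.map_mul, map_C, map_C, map_mul, map_pow, hbQ,
          C_mul]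
        ring
      have e2 : toQ (C (b ^ 2 * c) * g - R1 ^ 2) = toQ (C (b ^ 2 * c) * g) - toQ R1 ^ 2 := by
        rw [toQ, Polynomial.map_sub, Polynomial.map_pow]
      rw [e2, e1, hR1Q, C_pow]
      ring
    have hdiv3 : toQ h ∣ toQ (C (b ^ 2 * c) * g - R1 ^ 2) := by
      rw [hQ1]
      exact hdiv2.mul_left _
    obtain ⟨H0, hH0⟩ := toQ_dvd hh hdiv3
    -- reductions modulo `p`
    have hR1red : red p R1 = red p R0 := by
      rw [hR1, red, Polynomial.map_add, Polynomial.map_mul, map_C, map_mul, hbz, zero_mul, C_0,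
        zero_mul, add_zero]
    have hredeq : red p h * red p H0 = - (red p R0) ^ 2 := by
      have e := congrArg (red p) hH0
      have e1 : red p (h * H0) = red p h * red p H0 := Polynomial.map_mul _
      have e2 : red p (C (b ^ 2 * c) * g) = 0 := by
        rw [red, Polynomial.map_mul, map_C, map_mul, map_pow, hbz, zero_pow two_ne_zero, zero_mul,
          C_0, zero_mul]
      have e3 : red p (C (b ^ 2 * c) * g - R1 ^ 2) = red p (C (b ^ 2 * c) * g) - red p R1 ^ 2 := by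
        rw [red, Polynomial.map_sub, Polynomial.map_pow]
      rw [e1, e3, e2, hR1red] at e
      rw [← e, zero_sub]
    have hR0ne : red p R0 ≠ 0 := by
      intro h0
      have e1 := congrArg (fun f => f.coeff i0) h0
      simp only [red, coeff_map, coeff_zero] at e1
      have e2 : R0.coeff i0 = 1 := by
        have e3 := congrArg (fun f => f.coeff i0) hR0
        simp only [toQ, coeff_map, coeff_C_mul] at e3
        rw [← ha, inv_mul_cancel₀ ha0] at e3
        exact (FaithfulSMul.algebraMap_injective ℤ_[p] ℚ_[p]) (by rw [e3, map_one])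
      rw [e2, map_one] at e1
      exact one_ne_zero e1
    have hhred : (red p h).Monic := hh.map _
    have hH0ne : red p H0 ≠ 0 := by
      intro h0
      rw [h0, mul_zero] at hredeq
      exact hR0ne (pow_eq_zero_iff (two_ne_zero)|>.1 (neg_eq_zero.1 hredeq.symm))
    have hdeg : d + (red p H0).natDegree = 2 * (red p R0).natDegree := by
      have e1 := congrArg natDegree hredeq
      rw [natDegree_mul hhred.ne_zero hH0ne, natDegree_neg, natDegree_pow,
        hh.natDegree_map, hd] at e1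
      exact e1
    have hdegR : (red p R0).natDegree < d := by
      have e1 : (red p R0).natDegree ≤ R0.natDegree := natDegree_map_le
      have e2 : (C a⁻¹ * r1).natDegree = r1.natDegree :=
        natDegree_C_mul (inv_ne_zero ha0)
      have e3 : r1.natDegree < (toQ h).natDegree := by
        refine natDegree_modByMonic_lt _ hhm ?_
        intro h1'
        have : r1 = 0 := by rw [hr1, h1', modByMonic_one]
        rw [this] at hne
        simp at hne
      rw [hh.natDegree_map, hd] at e3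
      omega
    obtain ⟨v, H, G, hv, hH, e⟩ := split_poly p (toQ H0) (by
      intro h0
      apply hH0ne
      have : H0 = 0 := toQ_inj (by rw [h0]; simp)
      rw [this]; simp)
    obtain ⟨v0, hv0, hv0Q, eH0⟩ := split_unit hv hH e hH0ne
    have hHdeg : H.natDegree < d := by
      have e1 : red p H0 = C (PadicInt.toZMod v0) * red p H := by
        rw [eH0, red, Polynomial.map_mul, Polynomial.map_mul, map_C, Polynomial.map_add,
          Polynomial.map_mul, Polynomial.map_one]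
        have e5 := red_p p
        rw [red] at e5
        rw [e5, zero_mul, add_zero, mul_one]
      have e2 : PadicInt.toZMod v0 ≠ (0 : ZMod p) := by
        intro h0
        rw [h0, C_0, zero_mul] at e1
        exact hH0ne e1
      have e3 : (red p H0).natDegree = H.natDegree := by
        rw [e1, natDegree_C_mul e2, hH.natDegree_map]
      omega
    -- the new factor
    have hHH0 : toQ H ∣ toQ H0 := ⟨C v * toQ (1 + C (p : ℤ_[p]) * G), by rw [e]; ring⟩
    have hR1co : IsCoprime (toQ R1) (toQ g) := by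
      rw [hR1Q]
      have hu : IsUnit (C a⁻¹ : ℚ_[p][X]) := isUnit_C.2 (isUnit_iff_ne_zero.2 (inv_ne_zero ha0))
      exact (isCoprime_mul_unit_left_left hu _ _).2 ht
    have hH0Q : toQ h * toQ H0 = toQ (C (b ^ 2 * c)) * toQ g - toQ R1 ^ 2 := by
      simp only [toQ, ← Polynomial.map_mul, ← hH0, Polynomial.map_sub, Polynomial.map_pow]
    have hH0co : IsCoprime (toQ H0) (toQ g) := by
      have h3 : IsCoprime (toQ h * toQ H0) (toQ g) := by
        have h4 : IsCoprime (-(toQ R1 ^ 2)) (toQ g) := (hR1co.pow_left).neg_left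
        have h5 := h4.add_mul_right_left (toQ (C (b ^ 2 * c)))
        rw [hH0Q]
        have e : toQ (C (b ^ 2 * c)) * toQ g - toQ R1 ^ 2 =
            -(toQ R1 ^ 2) + toQ (C (b ^ 2 * c)) * toQ g := by ring
        rw [e]
        exact h5
      exact h3.of_mul_left_right
    have hHco : IsCoprime (toQ H) (toQ g) := hH0co.of_isCoprime_of_dvd_left hHH0
    have hHdiv : toQ H ∣ toQ (C c * g) - r2 ^ 2 := by
      have hu : IsUnit (C (a⁻¹ ^ 2) : ℚ_[p][X]) :=
        isUnit_C.2 (isUnit_iff_ne_zero.2 (pow_ne_zero _ (inv_ne_zero ha0)))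
      rw [← hu.dvd_mul_left, ← hQ1]
      have e : toQ (C (b ^ 2 * c) * g - R1 ^ 2) = toQ h * toQ H0 := by
        simp only [toQ, ← Polynomial.map_mul, ← hH0]
      rw [e]
      exact hHH0.mul_left _
    have hGood : Good p n (toQ g) (toQ H) := ih _ hHdeg H r2 hH hHco hHdiv rfl
    obtain ⟨S, T, hS, hT⟩ := sq_root p hp g G hg
    have hSco : IsCoprime (toQ S) (toQ g) := by
      obtain ⟨q, hq⟩ := hT
      refine ⟨toQ T, -toQ q, ?_⟩
      have := congrArg toQ hq
      simp only [toQ, Polynomial.map_sub, Polynomial.map_mul, Polynomial.map_one] at this ⊢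
      linear_combination this
    have hvnorm : ‖(-v : ℚ_[p])‖ = 1 := by
      rw [norm_neg, ← hv0Q]
      exact PadicInt.isUnit_iff.1 hv0
    refine Good.congr hgm (by rw [hg.natDegree_map, hgn]) hGood (-v) hvnorm
      (toQ S * toQ R1) (toQ H0) (hSco.mul_left hR1co) hH0co ?_
    obtain ⟨q, hq⟩ := hS
    have hqQ : (1 + toQ (C (p : ℤ_[p])) * toQ G) - toQ S ^ 2 = toQ g * toQ q := by
      have := congrArg toQ hq
      simp only [toQ, Polynomial.map_sub, Polynomial.map_mul, Polynomial.map_one,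
        Polynomial.map_add, Polynomial.map_pow] at this ⊢
      exact this
    have eQ : toQ H0 = C v * toQ H * (1 + toQ (C (p : ℤ_[p])) * toQ G) := by
      rw [e, toQ_P]
    refine ⟨C v * toQ H * toQ q * toQ R1 ^ 2 - toQ (C (b ^ 2 * c)) * toQ H0, ?_⟩
    rw [C_neg]
    have k1 : toQ h * toQ H0 ^ 2 = (toQ (C (b ^ 2 * c)) * toQ g - toQ R1 ^ 2) * toQ H0 := by
      rw [← hH0Q]; ring
    have k2 : toQ H0 = C v * toQ H * (toQ S ^ 2 + toQ g * toQ q) := by
      rw [eQ, ← hqQ]; ring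
    rw [k1]
    linear_combination (-(toQ R1 ^ 2)) * (k2) * (-1)

theorem core {n : ℕ} (hn : 1 ≤ n) (p : ℕ) [Fact p.Prime] (hp : p ≠ 2) (g : ℤ_[p][X])
    (c : ℤ_[p]) (hc : IsUnit c) (hg : g.Monic) (hgn : g.natDegree = n) (h r w : ℚ_[p][X])
    (hh : h.Monic) (hco : IsCoprime h (toQ g)) (h1 : h ∣ toQ (C c * g) - r ^ 2)
    (h2 : h ∣ X - w ^ 2) : Good p n (toQ g) h := by
  obtain ⟨v, H, G, hv, hH, e⟩ := split_poly p h hh.ne_zero
  have hHh : toQ H ∣ h := ⟨C v * toQ (1 + C (p : ℤ_[p]) * G), by rw [e]; ring⟩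
  have hGood : Good p n (toQ g) (toQ H) :=
    core_int hn p hp g c hc hg hgn H r hH (hco.of_isCoprime_of_dvd_left hHh) (hHh.trans h1)
  obtain ⟨S, T, hS, hT⟩ := sq_root p hp g G hg
  have eP : toQ (1 + C (p : ℤ_[p]) * G) = 1 + C (p : ℚ_[p]) * toQ G := by
    have e1 : toQ (C (p : ℤ_[p])) = C (p : ℚ_[p]) := by
      rw [toQ, map_C]
      congr 1
    rw [toQ_P, e1]
  set V : ℚ_[p][X] := C v * toQ (1 + C (p : ℤ_[p]) * G) with hVdef
  have eV : h = toQ H * V := by rw [e, hVdef]; ring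
  have hHm : (toQ H).Monic := hH.map _
  have hVm : V.Monic := hHm.of_mul_monic_left (eV ▸ hh)
  have hVw : V ∣ X - w ^ 2 := (Dvd.intro_left _ eV.symm).trans h2
  obtain ⟨N, hN⟩ := Core.coeff_zero_sq V w hVm hVw
  obtain ⟨σ, hσ⟩ := Core.sqrt_one_add p hp (G.coeff 0)
  set τ : ℚ_[p] := (σ : ℚ_[p]) with hτ
  have hτ2 : τ ^ 2 = 1 + (p : ℚ_[p]) * (G.coeff 0 : ℚ_[p]) := by
    have := congrArg (fun z : ℤ_[p] => (z : ℚ_[p])) hσ
    simpa using this
  have hτ0 : τ ≠ 0 := by
    intro h0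
    rw [h0] at hτ2
    have hlt : ‖(p : ℚ_[p]) * (G.coeff 0 : ℚ_[p])‖ < 1 := by
      rw [norm_mul]
      have h3 : ‖(p : ℚ_[p])‖ < 1 := Padic.norm_p_lt_one
      have h4 : ‖(G.coeff 0 : ℚ_[p])‖ ≤ 1 := PadicInt.norm_le_one _
      calc ‖(p : ℚ_[p])‖ * ‖(G.coeff 0 : ℚ_[p])‖ ≤ ‖(p : ℚ_[p])‖ * 1 := by gcongr
        _ < 1 := by rw [mul_one]; exact h3
    have h5 : (p : ℚ_[p]) * (G.coeff 0 : ℚ_[p]) = -1 := by
      linear_combination -hτ2
    rw [h5, norm_neg, norm_one] at hlt
    exact lt_irrefl _ hlt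
  have hV0 : V.coeff 0 = v * τ ^ 2 := by
    rw [hVdef, coeff_C_mul, eP, coeff_add, coeff_one_zero, coeff_C_mul, hτ2]
    simp only [toQ, coeff_map]
    rfl
  have hε2 : ((-1 : ℚ_[p]) ^ V.natDegree) * ((-1 : ℚ_[p]) ^ V.natDegree) = 1 := by
    rw [← mul_pow]; simp
  have hvκ : v = (-1) ^ V.natDegree * (N / τ) ^ 2 := by
    rw [hV0] at hN
    rw [div_pow, mul_div_assoc', eq_div_iff (pow_ne_zero 2 hτ0)]
    exact hN
  have hκ0 : N / τ ≠ 0 := by
    intro h0
    rw [h0] at hvκ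
    exact hv (by rw [hvκ]; ring)
  have hgm : (toQ g).Monic := hg.map _
  have hSco : IsCoprime (toQ S) (toQ g) := by
    obtain ⟨q, hq⟩ := hT
    refine ⟨toQ T, -toQ q, ?_⟩
    have := congrArg toQ hq
    simp only [toQ, Polynomial.map_sub, Polynomial.map_mul, Polynomial.map_one] at this ⊢
    linear_combination this
  have hu : IsUnit (C (N / τ) : ℚ_[p][X]) := isUnit_C.2 (isUnit_iff_ne_zero.2 hκ0)
  refine Good.congr hgm (by rw [hg.natDegree_map, hgn]) hGood ((-1) ^ V.natDegree)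
    (by rw [norm_pow, norm_neg, norm_one, one_pow])
    (C (N / τ) * toQ S) 1 ((isCoprime_mul_unit_left_left hu _ _).2 hSco) isCoprime_one_left ?_
  obtain ⟨q, hq⟩ := hS
  have hqQ : (1 + C (p : ℚ_[p]) * toQ G) - toQ S ^ 2 = toQ g * toQ q := by
    have h3 := congrArg toQ hq
    have e1 : toQ (1 + C (p : ℤ_[p]) * G - S ^ 2) = toQ (1 + C (p : ℤ_[p]) * G) - toQ S ^ 2 := by
      rw [toQ, Polynomial.map_sub, Polynomial.map_pow]
    have e2 : toQ (g * q) = toQ g * toQ q := Polynomial.map_mul _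
    rw [e1, eP, e2] at h3
    exact h3
  have eh : h = C v * toQ H * (1 + C (p : ℚ_[p]) * toQ G) := by rw [e, eP]
  have eC : C v = C ((-1) ^ V.natDegree) * C (N / τ) ^ 2 := by
    rw [← C_pow, ← C_mul, ← hvκ]
  refine ⟨-(C v * toQ H * toQ q), ?_⟩
  have k2 : h = C v * toQ H * (toQ S ^ 2 + toQ g * toQ q) := by
    rw [eh, ← hqQ]; ring
  rw [k2, eC]
  ring

end Stoll308.SC
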