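import Pool.Agent.Work.MP_308fa9_nt.SC.Basic
import Pool.Agent.Work.MP_308fa9_nt.OF.HankConv

set_option autoImplicit false

/-!
The pair of `f` as a pair of the monic polynomial with the roots `a₀ θ`, `n` odd.
-/

namespace Stoll308.SC

open Polynomial Finset Matrix BG BF

namespace ConvO

lemma hank_C_mul {K : Type*} [Field K] (n : ℕ) (F δ : K[X]) (c : K) :
    Hank n F (C c * δ) = c • Hank n F δ := by
  ext i j
  unfold Hank
  rw [Matrix.smul_apply, mul_assoc, ← smul_eq_C_mul, smul_modByMonic, coeff_smul]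

/-- The change of the variable in the Hankel matrices. -/
lemma hank_eq {K : Type*} [Field K] {n : ℕ} (hn : 1 ≤ n) (a : Fin (n + 1) → ℤ)
    (h : (a 0 : K) ≠ 0) (δ δ' : K[X]) (c : K) (hc : δ'.comp (C (a 0 : K) * X) = C c * δ) :
    Hank n (FZ K (OF.mcf a)) δ' = (((a 0 : K) ^ (n - 1))⁻¹ * c) •
      (diagonal (fun i : Fin n => (a 0 : K) ^ (i : ℕ)) * Hank n (mon K a) δ *
        diagonal (fun i : Fin n => (a 0 : K) ^ (i : ℕ))) := by
  ext i j
  rw [OF.Hank_conv hn a h, hc, hank_C_mul, Matrix.smul_apply, Matrix.smul_apply, smul_eq_mul,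
    smul_eq_mul, mul_diagonal, diagonal_mul]
  ring

lemma conj_eq {K : Type*} [Field K] {n : ℕ} (e : K) (v w : Fin n → K) (hvw : ∀ i, v i * w i = 1)
    (G H : Matrix (Fin n) (Fin n) K) :
    (e • (G * diagonal v)) * (diagonal w * H * diagonal w) * (e • (G * diagonal v))ᵀ =
      (e ^ 2) • (G * H * Gᵀ) := by
  have h1 : diagonal v * diagonal w = (1 : Matrix (Fin n) (Fin n) K) := by
    rw [diagonal_mul_diagonal, ← diagonal_one]
    congr 1
    funext i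
    exact hvw i
  have h2 : diagonal w * diagonal v = (1 : Matrix (Fin n) (Fin n) K) := by
    rw [diagonal_mul_diagonal, ← diagonal_one]
    congr 1
    funext i
    rw [mul_comm]
    exact hvw i
  rw [transpose_smul, transpose_mul, diagonal_transpose, smul_mul_assoc, smul_mul_assoc,
    mul_smul_comm, smul_smul, sq]
  congr 1
  calc G * diagonal v * (diagonal w * H * diagonal w) * (diagonal v * Gᵀ)
      = G * (diagonal v * diagonal w) * H * (diagonal w * diagonal v) * Gᵀ := by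
        simp only [Matrix.mul_assoc]
    _ = G * H * Gᵀ := by rw [h1, h2, Matrix.mul_one, Matrix.mul_one]

end ConvO

open ConvO in
theorem isPair_conv {n : ℕ} (hn : 3 ≤ n) (ho : Odd n) (a : Fin (n + 1) → ℤ) (h0 : a 0 ≠ 0)
    (δ : ℚ[X]) (hδ : IsCoprime δ (GZ ℚ a)) (G : Matrix (Fin n) (Fin n) ℚ) (hG : G.det ≠ 0)
    (A B : Matrix (Fin n) (Fin n) ℤ)
    (hA : A.map (Int.cast : ℤ → ℚ) = G * ((a 0 : ℚ)⁻¹ • Hank n (mon ℚ a) δ) * Gᵀ)
    (hB : B.map (Int.cast : ℤ → ℚ) = G * Hank n (mon ℚ a) (X * δ) * Gᵀ) :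
    ∃ δ' : ℚ[X], IsCoprime δ' (FZ ℚ (OF.mcf a)) ∧ BG.IsPair (OF.mcf a) δ' A B := by
  have ha : (a 0 : ℚ) ≠ 0 := by exact_mod_cast h0
  obtain ⟨m, hm⟩ := ho
  set α : ℚ := (a 0 : ℚ) with hα
  obtain ⟨e, he⟩ : ∃ e : ℚ, e = α ^ (m - 1) := ⟨_, rfl⟩
  have he0 : e ≠ 0 := by rw [he]; exact pow_ne_zero _ ha
  have hec : e ^ 2 * α = α ^ (n - 2) := by
    have h : n - 2 = (m - 1) * 2 + 1 := by omega
    rw [h, pow_succ α, pow_mul, he]
  -- the polynomial `δ'`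
  set δ' : ℚ[X] := C α * δ.comp (C α⁻¹ * X) with hδ'
  have hcomp : δ'.comp (C α * X) = C α * δ := by
    rw [hδ', mul_comp, C_comp, comp_assoc]
    congr 1
    rw [mul_comp, C_comp, X_comp, ← mul_assoc, ← C_mul, inv_mul_cancel₀ ha, C_1, one_mul, comp_X]
  have hcomp' : (X * δ').comp (C α * X) = C (α * α) * (X * δ) := by
    rw [mul_comp, X_comp, hcomp, C_mul]
    ring
  have hcop : IsCoprime δ' (FZ ℚ (OF.mcf a)) := by
    have h1 : FZ ℚ (OF.mcf a) = (C (α ^ n) * mon ℚ a).comp (C α⁻¹ * X) := by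
      rw [← OF.FZ_mcf_comp (by omega) a ha, comp_assoc]
      have : (C (a 0 : ℚ) * X).comp (C α⁻¹ * X) = X := by
        rw [mul_comp, C_comp, X_comp, ← mul_assoc, ← C_mul, ← hα, mul_inv_cancel₀ ha, C_1, one_mul]
      rw [this, comp_X]
    obtain ⟨u, v, huv⟩ := hδ
    refine ⟨C α⁻¹ * u.comp (C α⁻¹ * X), C (α * (α ^ n)⁻¹) * v.comp (C α⁻¹ * X), ?_⟩
    have h2 := congrArg (fun q : ℚ[X] => q.comp (C α⁻¹ * X)) huv
    simp only [add_comp, mul_comp, one_comp] at h2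
    have h3 : (mon ℚ a) = C α⁻¹ * GZ ℚ a := rfl
    rw [h1, hδ', h3, mul_comp, mul_comp, C_comp, C_comp, ← h2]
    have h4 : (C α⁻¹ : ℚ[X]) * C α = 1 := by
      rw [← C_mul, inv_mul_cancel₀ ha, C_1]
    have h5 : (C (α * (α ^ n)⁻¹) : ℚ[X]) * (C (α ^ n) * C α⁻¹) = 1 := by
      rw [← C_mul, ← C_mul]
      have : α * (α ^ n)⁻¹ * (α ^ n * α⁻¹) = 1 := by
        field_simp
      rw [this, C_1]
    linear_combination (u.comp (C α⁻¹ * X) * δ.comp (C α⁻¹ * X)) * h4 +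
      (v.comp (C α⁻¹ * X) * (GZ ℚ a).comp (C α⁻¹ * X)) * h5
  have hn1 : n - 1 = (n - 2) + 1 := by omega
  have hvw : ∀ i : Fin n, (α ^ (i : ℕ))⁻¹ * α ^ (i : ℕ) = 1 := fun i =>
    inv_mul_cancel₀ (pow_ne_zero _ ha)
  have k0 : (e • (G * diagonal fun i : Fin n => (α ^ (i : ℕ))⁻¹)) *
      Hank n (FZ ℚ (OF.mcf a)) δ' * (e • (G * diagonal fun i : Fin n => (α ^ (i : ℕ))⁻¹))ᵀ =
      G * ((a 0 : ℚ)⁻¹ • Hank n (mon ℚ a) δ) * Gᵀ := by
    rw [hank_eq (by omega) a ha δ δ' α hcomp, mul_smul_comm, smul_mul_assoc,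
      conj_eq e _ _ hvw, mul_smul_comm, smul_mul_assoc, smul_smul]
    congr 1
    rw [← hα, hn1, pow_succ, ← hec]
    field_simp
  have k1 : (e • (G * diagonal fun i : Fin n => (α ^ (i : ℕ))⁻¹)) *
      Hank n (FZ ℚ (OF.mcf a)) (X * δ') *
      (e • (G * diagonal fun i : Fin n => (α ^ (i : ℕ))⁻¹))ᵀ =
      G * Hank n (mon ℚ a) (X * δ) * Gᵀ := by
    rw [hank_eq (by omega) a ha (X * δ) (X * δ') (α * α) hcomp', mul_smul_comm, smul_mul_assoc,
      conj_eq e _ _ hvw, smul_smul]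
    have : (α ^ (n - 1))⁻¹ * (α * α) * e ^ 2 = 1 := by
      rw [hn1, pow_succ, ← hec]
      field_simp
    rw [← hα, this, one_smul]
  refine ⟨δ', hcop, e • (G * diagonal fun i : Fin n => (α ^ (i : ℕ))⁻¹), ?_, ?_, ?_⟩
  · rw [det_smul, det_mul, det_diagonal]
    exact mul_ne_zero (pow_ne_zero _ he0)
      (mul_ne_zero hG (Finset.prod_ne_zero_iff.2 fun i _ => inv_ne_zero (pow_ne_zero _ ha)))
  · rw [k0]
    exact hA
  · rw [k1]
    exact hB

end Stoll308.SC
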