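import Pool.Agent.Work.MP_308fa9_nt.BF.Defs

set_option autoImplicit false

/-!
The curves `y² = f(ψ(x)²)` over `ℚ`, over the number fields of odd degree: definitions of the
statement.
-/

namespace Stoll308.SC

open Polynomial Stoll308.BF TensorProduct

/-- There is a point `(x, y)`, `y` invertible, of the curve over the ring `K ⊗ k` (for `K = ℚ_p`: the
product of the completions of the number field `k` at the places above `p`) such that `ψ(x)² - θ` is
`δ` times a square in `(K ⊗ k)[θ] = (K ⊗ k)[T]/(f)`. -/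
def LocImage {n : ℕ} (ψ : ℤ[X]) (a : Fin (n + 1) → ℤ) (k : Type) [Field k] [Algebra ℚ k] (δ : k[X])
    (K : Type) [Field K] [Algebra ℚ K] : Prop :=
  ∃ (x y : K ⊗[ℚ] k) (s : (K ⊗[ℚ] k)[X]), IsUnit y ∧
    y ^ 2 = (GZ (K ⊗[ℚ] k) a).eval ((aeval x ψ) ^ 2) ∧
    GZ (K ⊗[ℚ] k) a ∣ (C ((aeval x ψ) ^ 2) - X) -
      δ.map (Algebra.TensorProduct.includeRight : k →ₐ[ℚ] K ⊗[ℚ] k).toRingHom * s ^ 2

/-- The Selmer set of the curve over the number field `k` is nonempty: some `δ ∈ k[θ]ˣ`,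
`k[θ] = k[T]/(f)`, is in the image of the local points at all places of `k` over the odd primes. -/
def SelOver {n : ℕ} (ψ : ℤ[X]) (a : Fin (n + 1) → ℤ) (k : Type) [Field k] [Algebra ℚ k] : Prop :=
  ∃ δ : k[X], IsCoprime δ (GZ k a) ∧
    ∀ (p : ℕ) [Fact p.Prime], p ≠ 2 → LocImage ψ a k δ ℚ_[p]

/-- Over some number field of odd degree the curve has a point or a nonempty Selmer set. -/
def OddField {n : ℕ} (ψ : ℤ[X]) (a : Fin (n + 1) → ℤ) : Prop :=
  ∃ (k : Type) (_ : Field k) (_ : Algebra ℚ k), Odd (Module.finrank ℚ k) ∧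
    (HasPoint ψ a k ∨ SelOver ψ a k)

end Stoll308.SC
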