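import Pool.Agent.Work.MP_308fa9_nt.SC.Basic
import Pool.Agent.Work.MP_308fa9_nt.BF.LCond

set_option autoImplicit false

/-!
The local condition for the pair, `n` even.
-/

namespace Stoll308.SC

open Polynomial Finset Matrix BG BF

/-- A value of even valuation of the form `U² - θ V²`, `θ` a uniformizer, is a square. -/
lemma le_sq (l : ℕ) [hl : Fact l.Prime] (h2 : l ≠ 2) (θ D U V : ℚ_[l]) (hθ0 : θ ≠ 0)
    (hθ : θ.valuation = 1) (hD : D ≠ 0) (hDe : Even D.valuation) (h : U ^ 2 - θ * V ^ 2 = D) :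
    ∃ w : ℚ_[l], D = w ^ 2 := by
  have hp1 : (1 : ℝ) < l := by exact_mod_cast hl.out.one_lt
  by_cases hV : V = 0
  · exact ⟨U, by rw [← h, hV]; ring⟩
  have hvV : (θ * V ^ 2).valuation = 1 + 2 * V.valuation := by
    rw [Padic.valuation_mul hθ0 (pow_ne_zero 2 hV), hθ, Padic.valuation_pow]
    push_cast
    ring
  have hθV : θ * V ^ 2 ≠ 0 := mul_ne_zero hθ0 (pow_ne_zero 2 hV)
  by_cases hU : U = 0
  · exfalso
    have h3 : ‖D‖ = ‖θ * V ^ 2‖ := by
      rw [← norm_neg, ← h, hU]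
      congr 1
      ring
    rw [Padic.norm_eq_zpow_neg_valuation hD, Padic.norm_eq_zpow_neg_valuation hθV] at h3
    have := zpow_right_injective₀ (by linarith) (by linarith) h3
    rw [hvV] at this
    rw [Int.even_iff] at hDe
    omega
  have hvU : (U ^ 2).valuation = 2 * U.valuation := by
    rw [Padic.valuation_pow]
    push_cast
    ring
  have hlt : ‖θ * V ^ 2‖ < ‖U ^ 2‖ := by
    by_contra hle
    have hle := not_lt.mp hle
    have hne : ‖U ^ 2‖ ≠ ‖-(θ * V ^ 2)‖ := by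
      rw [norm_neg]
      intro he
      rw [Padic.norm_eq_zpow_neg_valuation (pow_ne_zero 2 hU),
        Padic.norm_eq_zpow_neg_valuation hθV] at he
      have := zpow_right_injective₀ (by linarith) (by linarith) he
      rw [hvU, hvV] at this
      omega
    have h3 : ‖D‖ = ‖θ * V ^ 2‖ := by
      rw [← h, sub_eq_add_neg, Padic.add_eq_max_of_ne hne, norm_neg, max_eq_right hle]
    rw [Padic.norm_eq_zpow_neg_valuation hD, Padic.norm_eq_zpow_neg_valuation hθV] at h3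
    have := zpow_right_injective₀ (by linarith) (by linarith) h3
    rw [hvV] at this
    rw [Int.even_iff] at hDe
    omega
  set c : ℚ_[l] := 1 - θ * V ^ 2 / U ^ 2 with hc
  have hc1 : ‖c - 1‖ < 1 := by
    have h5 : c - 1 = -(θ * V ^ 2 / U ^ 2) := by rw [hc]; ring
    rw [h5, norm_neg, norm_div, div_lt_one (norm_pos_iff.mpr (pow_ne_zero 2 hU))]
    exact hlt
  have hc2 : ‖c‖ ≤ 1 := by
    have h5 : c = (c - 1) + 1 := by ring
    rw [h5]
    refine le_trans (Padic.nonarchimedean _ _) ?_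
    rw [norm_one]
    exact max_le hc1.le le_rfl
  obtain ⟨z, hz⟩ := BG.LCond.one_unit_sq l h2 ⟨c, hc2⟩ hc1
  have hz' : (z : ℚ_[l]) ^ 2 = c := by
    have h5 := congrArg (fun q : ℤ_[l] => (q : ℚ_[l])) hz
    simpa using h5
  refine ⟨U * z, ?_⟩
  rw [mul_pow, hz', hc, ← h]
  field_simp

/-- The root of `f` in the maximal ideal. -/
lemma le_root {n : ℕ} (a : Fin (n + 1) → ℤ) (l : ℕ)
    [hl : Fact l.Prime] (h1 : (l : ℤ) ∣ (GZ ℤ a).eval 0) (h3 : ¬ (l : ℤ) ^ 2 ∣ (GZ ℤ a).eval 0)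
    (h4 : ¬ (l : ℤ) ∣ (derivative (GZ ℤ a)).eval 0) :
    ∃ θ : ℤ_[l], ‖θ‖ < 1 ∧ (θ : ℚ_[l]) ≠ 0 ∧ (θ : ℚ_[l]).valuation = 1 ∧
      (GZ ℚ_[l] a).eval (θ : ℚ_[l]) = 0 ∧ (derivative (GZ ℚ_[l] a)).eval (θ : ℚ_[l]) ≠ 0 := by
  have hp0 : (0 : ℝ) < l := by exact_mod_cast hl.out.pos
  have hp1 : (1 : ℝ) < l := by exact_mod_cast hl.out.one_lt
  set F := GZ ℤ_[l] a with hF
  have hFm : F = (GZ ℤ a).map (Int.castRingHom ℤ_[l]) := (LCond.lc_GZ_map _ a).symm
  have hFq : GZ ℚ_[l] a = F.map (PadicInt.Coe.ringHom (p := l)) := (LCond.lc_GZ_map _ a).symm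
  have hF0 : F.eval 0 = (((GZ ℤ a).eval 0 : ℤ) : ℤ_[l]) := by
    rw [hFm, eval_map, ← map_zero (Int.castRingHom ℤ_[l]), eval₂_at_apply]
    simp
  have hF1 : (derivative F).eval 0 = (((derivative (GZ ℤ a)).eval 0 : ℤ) : ℤ_[l]) := by
    rw [hFm, derivative_map, eval_map, ← map_zero (Int.castRingHom ℤ_[l]), eval₂_at_apply]
    simp
  have hn0 : ‖F.eval 0‖ = (l : ℝ)⁻¹ := by
    obtain ⟨c, hc⟩ := h1
    have hcl : ¬ (l : ℤ) ∣ c := by
      rintro ⟨d, rfl⟩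
      exact h3 ⟨d, by rw [hc]; ring⟩
    have hc1 : ‖(c : ℤ_[l])‖ = 1 := by
      have h5 : ¬ ‖(c : ℤ_[l])‖ < 1 := fun h => hcl ((PadicInt.norm_int_lt_one_iff_dvd _).mp h)
      have h7 := (c : ℤ_[l]).norm_le_one
      linarith [not_lt.mp h5]
    rw [hF0, hc, Int.cast_mul, norm_mul, hc1, mul_one, Int.cast_natCast, PadicInt.norm_p]
  have hn0' : ‖F.eval 0‖ < 1 := by
    rw [hn0]
    exact inv_lt_one_of_one_lt₀ hp1
  have hn1 : ‖(derivative F).eval 0‖ = 1 := by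
    rw [hF1]
    have h5 : ¬ ‖(((derivative (GZ ℤ a)).eval 0 : ℤ) : ℤ_[l])‖ < 1 := fun h =>
      h4 ((PadicInt.norm_int_lt_one_iff_dvd _).mp h)
    have h7 := (((derivative (GZ ℤ a)).eval 0 : ℤ) : ℤ_[l]).norm_le_one
    linarith [not_lt.mp h5]
  obtain ⟨θ, hθ, hθn, hθd, -⟩ := hensels_lemma (F := F) (a := (0 : ℤ_[l])) (by
    simp only [coe_aeval_eq_eval]
    rw [hn1]
    simpa using hn0')
  simp only [coe_aeval_eq_eval] at hθ hθn hθd
  rw [hn1, sub_zero] at hθn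
  rw [hn1] at hθd
  have hcoe : ∀ (P : ℤ_[l][X]) (a : ℤ_[l]), (P.map (PadicInt.Coe.ringHom (p := l))).eval
      (a : ℚ_[l]) = ((P.eval a : ℤ_[l]) : ℚ_[l]) := by
    intro P a
    have h5 : (a : ℚ_[l]) = PadicInt.Coe.ringHom (p := l) a := rfl
    rw [h5, eval_map, eval₂_at_apply]
    rfl
  have hroot : (GZ ℚ_[l] a).eval (θ : ℚ_[l]) = 0 := by
    rw [hFq, hcoe, hθ]
    rfl
  have hθv : ‖θ‖ = (l : ℝ)⁻¹ := by
    obtain ⟨k, hk⟩ := F.binomExpansion 0 θ
    rw [zero_add, hθ] at hk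
    have h5 : F.eval 0 = -(θ * ((derivative F).eval 0 + k * θ)) := by
      linear_combination hk.symm
    have h6 : ‖(derivative F).eval 0 + k * θ‖ = 1 := by
      have h7 : ‖k * θ‖ < 1 := by
        rw [norm_mul]
        have := k.norm_le_one
        have h9 := norm_nonneg θ
        nlinarith
      have h8 : ‖(derivative F).eval 0‖ ≠ ‖k * θ‖ := by
        rw [hn1]
        exact (ne_of_lt h7).symm
      rw [PadicInt.norm_add_eq_max_of_ne h8, hn1, max_eq_left h7.le]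
    rw [← hn0, h5, norm_neg, norm_mul, h6, mul_one]
  have hθ0 : (θ : ℚ_[l]) ≠ 0 := by
    intro h0
    have : ‖θ‖ = 0 := by
      rw [PadicInt.norm_def, h0, norm_zero]
    rw [hθv] at this
    exact absurd this (by positivity)
  refine ⟨θ, hθn, hθ0, ?_, hroot, ?_⟩
  · have h5 := Padic.norm_eq_zpow_neg_valuation hθ0
    rw [← PadicInt.norm_def, hθv, ← _root_.zpow_neg_one] at h5
    have := zpow_right_injective₀ (by linarith) (by linarith) h5
    omega
  · rw [hFq, derivative_map, hcoe]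
    intro h0
    have h5 : (derivative F).eval θ = 0 := by
      apply Subtype.ext
      exact h0
    rw [h5, norm_zero] at hθd
    exact zero_ne_one hθd

theorem lcond {n : ℕ} (hn : 4 ≤ n) (he : Even n) (a : Fin (n + 1) → ℤ) (h0 : a 0 ≠ 0)
    (δ : ℚ[X]) (hδ : IsCoprime δ (GZ ℚ a)) (l : ℕ) [hl : Fact l.Prime] (h2 : l ≠ 2)
    (hN : ∃ u v s : ℚ_[l][X], IsCoprime s (GZ ℚ_[l] a) ∧
      GZ ℚ_[l] a ∣ (u ^ 2 - X * v ^ 2) - δ.map (algebraMap ℚ ℚ_[l]) * s ^ 2)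
    (A B : Matrix (Fin n) (Fin n) ℤ) (h : BF.IsPair a δ A B)
    (hdet : A.det = (-1) ^ (n / 2) * a 0) : ¬ BF.Bad l A B := by
  rintro ⟨hB1, hB2, htr, hl', i, hi⟩
  obtain ⟨hc1, hc2⟩ := LCond.lc_char_coeffs _ A B (h.hasChar h0 hdet)
  rw [eval_mul, eval_C] at hc1
  rw [derivative_C_mul, eval_mul, eval_C] at hc2
  have hsg : ∀ (k m : ℕ) (b c : ℤ), (-1 : ℤ) ^ k * b = (-1) ^ m * c →
      ∀ d : ℤ, d ∣ b ↔ d ∣ c := by
    intro k m b c hbc d
    have e1 : ∀ (k : ℕ) (b : ℤ), d ∣ (-1) ^ k * b ↔ d ∣ b := by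
      intro k b
      rcases neg_one_pow_eq_or ℤ k with h | h <;> simp [h]
    rw [← e1 k b, hbc, e1]
  have h1 : (l : ℤ) ∣ (GZ ℤ a).eval 0 := (hsg _ _ _ _ hc1 _).mp hB1
  have h3 : ¬ (l : ℤ) ^ 2 ∣ (GZ ℤ a).eval 0 := fun h5 => hB2 ((hsg _ _ _ _ hc1 _).mpr h5)
  have h4 : ¬ (l : ℤ) ∣ (derivative (GZ ℤ a)).eval 0 := fun h5 =>
    htr ((hsg _ _ _ _ hc2 _).mpr h5)
  obtain ⟨θ, hθn, hθ0, hθv, hθ, hθd⟩ := le_root a l h1 h3 h4
  obtain ⟨G, hG, hA, hB⟩ := h
  -- over `ℚ_l`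
  set φ : ℚ →+* ℚ_[l] := algebraMap ℚ ℚ_[l] with hφ
  have ha0 : ((a 0 : ℤ) : ℚ_[l]) ≠ 0 := by exact_mod_cast h0
  obtain ⟨hm1, hm2⟩ := LCond.lc_mon_monic (K := ℚ_[l]) a ha0
  have ha0q : ((a 0 : ℤ) : ℚ) ≠ 0 := by exact_mod_cast h0
  obtain ⟨hq1, hq2⟩ := LCond.lc_mon_monic (K := ℚ) a ha0q
  have hmapF : (mon ℚ a).map φ = mon ℚ_[l] a := by
    unfold mon
    rw [Polynomial.map_mul, LCond.lc_GZ_map, Polynomial.map_C, map_inv₀, map_intCast]
  set δ' : ℚ_[l][X] := C ((a 0 : ℚ_[l])⁻¹) * δ.map φ with hδ'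
  have hA' : A.map (Int.cast : ℤ → ℚ_[l]) =
      G.map φ * Hank n (mon ℚ_[l] a) δ' * (G.map φ)ᵀ := by
    have h5 : A.map (Int.cast : ℤ → ℚ_[l]) = (A.map (Int.cast : ℤ → ℚ)).map φ := by
      ext a b
      simp
    have h6 : ∀ (r : ℚ) (M : Matrix (Fin n) (Fin n) ℚ), (r • M).map φ = φ r • M.map φ := by
      intro r M
      ext a b
      simp
    rw [h5, hA, h6, Matrix.map_mul, Matrix.map_mul, hδ', LCond.lc_hank_C_mul, ← hmapF,
      hank_map φ _ _ hq1, Matrix.transpose_map, Matrix.mul_smul, Matrix.smul_mul, map_inv₀,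
      map_intCast]
  have hB' : B.map (Int.cast : ℤ → ℚ_[l]) =
      G.map φ * Hank n (mon ℚ_[l] a) (X * δ') * (G.map φ)ᵀ := by
    have h5 : B.map (Int.cast : ℤ → ℚ_[l]) = (B.map (Int.cast : ℤ → ℚ)).map φ := by
      ext a b
      simp
    have h6 : ∀ (r : ℚ) (M : Matrix (Fin n) (Fin n) ℚ), (r • M).map φ = φ r • M.map φ := by
      intro r M
      ext a b
      simp
    have h7 : X * δ' = C ((a 0 : ℚ_[l])⁻¹) * (X * δ).map φ := by
      rw [hδ', Polynomial.map_mul, Polynomial.map_X]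
      ring
    rw [h5, hB, h6, Matrix.map_mul, Matrix.map_mul, h7, LCond.lc_hank_C_mul, ← hmapF,
      hank_map φ _ _ hq1, Matrix.transpose_map, Matrix.mul_smul, Matrix.smul_mul, map_inv₀,
      map_intCast]
  have hGd : (G.map φ).det ≠ 0 := by
    rw [← RingHom.mapMatrix_apply, ← RingHom.map_det]
    exact (map_ne_zero φ).mpr hG
  have hθm : (mon ℚ_[l] a).eval (θ : ℚ_[l]) = 0 := by
    unfold mon
    rw [eval_mul, hθ, mul_zero]
  have hθdm : (derivative (mon ℚ_[l] a)).eval (θ : ℚ_[l]) ≠ 0 := by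
    unfold mon
    rw [derivative_C_mul, eval_mul, eval_C]
    exact mul_ne_zero (inv_ne_zero ha0) hθd
  obtain ⟨r, hr⟩ := BG.LCond.adj_square (mon ℚ_[l] a) δ' hm1 hm2 (θ : ℚ_[l])
    hθm hθdm (G.map φ) hGd _ _ hA' hB' i
  -- the integral element
  set N : Matrix (Fin n) (Fin n) ℤ_[l] := θ • A.map (Int.cast : ℤ → ℤ_[l]) -
    B.map (Int.cast : ℤ → ℤ_[l]) with hN'
  have h6 : (A.map (Int.cast : ℤ → ℚ_[l])).det = (-1) ^ (n / 2) * (a 0 : ℚ_[l]) := by
    have h7 := RingHom.map_det (Int.castRingHom ℚ_[l]) A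
    rw [RingHom.mapMatrix_apply, hdet] at h7
    simpa using h7.symm
  have hNc : (((-1) ^ (n / 2) * N.adjugate i i : ℤ_[l]) : ℚ_[l]) =
      (-1) ^ (n / 2) * ((θ : ℚ_[l]) • A.map (Int.cast : ℤ → ℚ_[l]) -
        B.map (Int.cast : ℤ → ℚ_[l])).adjugate i i := by
    have h5 : N.map (PadicInt.Coe.ringHom (p := l)) =
        (θ : ℚ_[l]) • A.map (Int.cast : ℤ → ℚ_[l]) - B.map (Int.cast : ℤ → ℚ_[l]) := by
      ext a b
      rw [hN']
      simp only [Matrix.map_apply, Matrix.sub_apply, Matrix.smul_apply, smul_eq_mul, map_sub,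
        map_mul, map_intCast]
      rfl
    rw [← h5, ← RingHom.mapMatrix_apply, ← RingHom.map_adjugate, RingHom.mapMatrix_apply,
      Matrix.map_apply, PadicInt.coe_mul]
    congr 1
  have hθ00 : PadicInt.toZMod θ = 0 := by
    rw [← RingHom.mem_ker, PadicInt.ker_toZMod]
    rw [IsLocalRing.mem_maximalIdeal, mem_nonunits_iff, PadicInt.isUnit_iff]
    exact ne_of_lt hθn
  have h5 : N.map (PadicInt.toZMod (p := l)) = ((-1 : ℤ) • B).map (Int.castRingHom (ZMod l)) := by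
    ext a b
    rw [hN']
    simp only [Matrix.map_apply, Matrix.sub_apply, Matrix.smul_apply, smul_eq_mul, map_sub,
      map_mul, map_intCast, hθ00, zero_mul, zero_sub]
    simp
  have h7 : PadicInt.toZMod (N.adjugate i i) =
      (((-1 : ℤ) • B).adjugate i i : ℤ) := by
    have h8 : PadicInt.toZMod (N.adjugate i i) = (N.map (PadicInt.toZMod (p := l))).adjugate i i := by
      rw [← RingHom.mapMatrix_apply, ← RingHom.map_adjugate, RingHom.mapMatrix_apply,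
        Matrix.map_apply]
    rw [h8, h5, ← RingHom.mapMatrix_apply, ← RingHom.map_adjugate, RingHom.mapMatrix_apply,
      Matrix.map_apply]
    rfl
  have hred : PadicInt.toZMod ((-1) ^ (n / 2) * N.adjugate i i) =
      (((-1) ^ (n / 2 + 1) * B.adjugate i i : ℤ) : ZMod l) := by
    rw [map_mul, h7, Matrix.adjugate_smul, Fintype.card_fin, map_pow, map_neg, map_one]
    have h9 : (-1 : ℤ) ^ (n - 1) = -1 := by
      apply Odd.neg_one_pow
      obtain ⟨k, hk⟩ := he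
      exact ⟨k - 1, by omega⟩
    rw [h9]
    simp only [Matrix.smul_apply, smul_eq_mul]
    push_cast
    ring
  -- the square class
  set e : ℤ_[l] := (-1) ^ (n / 2) * N.adjugate i i with he'
  have hunit : ‖e‖ = 1 := by
    have h8 : (((-1) ^ (n / 2 + 1) * B.adjugate i i : ℤ) : ZMod l) ≠ 0 := by
      intro h9
      rw [(legendreSym.eq_zero_iff l _).mpr h9] at hi
      omega
    rw [← hred] at h8
    rw [← PadicInt.isUnit_iff]
    by_contra h9
    apply h8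
    rw [← RingHom.mem_ker, PadicInt.ker_toZMod, IsLocalRing.mem_maximalIdeal, mem_nonunits_iff]
    exact h9
  have he0 : (e : ℚ_[l]) ≠ 0 := by
    intro h9
    rw [PadicInt.norm_def, h9, norm_zero] at hunit
    exact zero_ne_one hunit
  have hev : (e : ℚ_[l]).valuation = 0 := by
    have h9 := Padic.norm_eq_zpow_neg_valuation he0
    rw [← PadicInt.norm_def, hunit] at h9
    have hp1 : (1 : ℝ) < l := by exact_mod_cast hl.out.one_lt
    have h10 : (l : ℝ) ^ (0 : ℤ) = (l : ℝ) ^ (-(e : ℚ_[l]).valuation) := by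
      rw [zpow_zero]; exact h9
    have := zpow_right_injective₀ (by linarith) (by linarith) h10
    omega
  have hr' : (e : ℚ_[l]) * (δ.map φ).eval (θ : ℚ_[l]) = r ^ 2 := by
    rw [he', hNc, sq, ← hr, h6, hδ', eval_mul, eval_C]
    field_simp
  have hδθ : (δ.map φ).eval (θ : ℚ_[l]) ≠ 0 := by
    obtain ⟨b, c, hbc⟩ := hδ
    have h9 := congrArg (fun P : ℚ[X] => (P.map φ).eval (θ : ℚ_[l])) hbc
    simp only [Polynomial.map_add, Polynomial.map_mul, eval_add, eval_mul, Polynomial.map_one,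
      eval_one] at h9
    rw [LCond.lc_GZ_map, hθ, mul_zero, add_zero] at h9
    intro h10
    rw [h10, mul_zero] at h9
    exact zero_ne_one h9
  have hveven : Even ((δ.map φ).eval (θ : ℚ_[l])).valuation := by
    have h9 := congrArg Padic.valuation hr'
    rw [Padic.valuation_mul he0 hδθ, hev, zero_add, Padic.valuation_pow] at h9
    rw [h9]
    exact ⟨r.valuation, by push_cast; ring⟩
  obtain ⟨u, v, s, hs, hdvd⟩ := hN
  have hsθ : s.eval (θ : ℚ_[l]) ≠ 0 := by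
    obtain ⟨b, c, hbc⟩ := hs
    have h9 := congrArg (fun P : ℚ_[l][X] => P.eval (θ : ℚ_[l])) hbc
    simp only [eval_add, eval_mul, eval_one] at h9
    rw [hθ, mul_zero, add_zero] at h9
    intro h10
    rw [h10, mul_zero] at h9
    exact zero_ne_one h9
  have hkey : (u.eval (θ : ℚ_[l])) ^ 2 - (θ : ℚ_[l]) * (v.eval (θ : ℚ_[l])) ^ 2 =
      (δ.map φ).eval (θ : ℚ_[l]) * (s.eval (θ : ℚ_[l])) ^ 2 := by
    obtain ⟨q, hq⟩ := hdvd
    have h9 := congrArg (Polynomial.eval (θ : ℚ_[l])) hq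
    rw [eval_mul, hθ, zero_mul] at h9
    simp only [eval_sub, eval_X, eval_mul, eval_pow] at h9
    linear_combination h9
  obtain ⟨w, hw⟩ := le_sq l h2 (θ : ℚ_[l]) _ _ _ hθ0 hθv
    (mul_ne_zero hδθ (pow_ne_zero 2 hsθ)) (by
      rw [Padic.valuation_mul hδθ (pow_ne_zero 2 hsθ), Padic.valuation_pow]
      exact hveven.add ⟨(s.eval (θ : ℚ_[l])).valuation, by push_cast; ring⟩) hkey
  have hw0 : w ≠ 0 := by
    rintro rfl
    rw [zero_pow two_ne_zero] at hw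
    exact mul_ne_zero hδθ (pow_ne_zero 2 hsθ) hw
  have hsq : IsSquare (e : ℚ_[l]) := by
    refine ⟨r * s.eval (θ : ℚ_[l]) / w, ?_⟩
    rw [div_mul_div_comm, eq_div_iff (mul_ne_zero hw0 hw0)]
    linear_combination (s.eval (θ : ℚ_[l])) ^ 2 * hr' - (e : ℚ_[l]) * hw
  exact BG.LCond.not_neg_one l ((-1) ^ (n / 2 + 1) * B.adjugate i i) e hsq hred hi

end Stoll308.SC
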