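import Pool.Agent.Work.MP_308fa9_nt.SC.Basic

set_option autoImplicit false

/-!
Lattices in `ℚ_pⁿ`.
-/

namespace Stoll308.SC

open Polynomial Finset Matrix BG BF

private theorem smulZ {n p : ℕ} [Fact p.Prime] (c : ℤ_[p]) (v : Fin n → ℚ_[p]) (j : Fin n) :
    (c • v) j = (c : ℚ_[p]) * v j := rfl

private theorem lift1 {n p : ℕ} [Fact p.Prime] (v : Fin n → ℚ_[p]) (h : ∀ i, ‖v i‖ ≤ 1) :
    ∃ c : Fin n → ℤ_[p], ∀ i, (c i : ℚ_[p]) = v i := ⟨fun i => ⟨v i, h i⟩, fun _ => rfl⟩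

theorem exists_basis {n : ℕ} (p : ℕ) [Fact p.Prime] (N : Submodule ℤ_[p] (Fin n → ℚ_[p]))
    (h1 : ∃ c : ℚ_[p], c ≠ 0 ∧ ∀ v : Fin n → ℚ_[p], (∀ i, ‖v i‖ ≤ 1) → c • v ∈ N)
    (h2 : ∃ M : ℝ, ∀ v ∈ N, ∀ i, ‖v i‖ ≤ M) :
    ∃ G : Matrix (Fin n) (Fin n) ℚ_[p], G.det ≠ 0 ∧
      ∀ v, v ∈ N ↔ ∃ c : Fin n → ℚ_[p], (∀ i, ‖c i‖ ≤ 1) ∧ v = c ᵥ* G := by
  classical
  obtain ⟨c, hc, h1⟩ := h1
  obtain ⟨M, h2⟩ := h2
  -- a scaling element
  obtain ⟨t, ht⟩ : ∃ t : ℚ_[p], max M 1 < ‖t‖ := NormedField.exists_lt_norm ℚ_[p] (max M 1)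
  have ht0 : 0 < ‖t‖ := lt_trans (by positivity) ht
  have ht1 : t ≠ 0 := norm_pos_iff.1 ht0
  have hfg : N.FG := by
    have hle : N ≤ Submodule.span ℤ_[p] (Set.range fun i : Fin n => t • (Pi.single i 1 :
        Fin n → ℚ_[p])) := by
      intro v hv
      have h3 : ∀ i, ‖v i / t‖ ≤ 1 := by
        intro i
        rw [norm_div, div_le_one ht0]
        exact (h2 v hv i).trans ((le_max_left _ _).trans ht.le)
      obtain ⟨w, hw⟩ := lift1 (fun i => v i / t) h3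
      have h4 : v = ∑ i, w i • (t • (Pi.single i 1 : Fin n → ℚ_[p])) := by
        funext j
        rw [Finset.sum_apply, Finset.sum_eq_single j]
        · rw [smulZ, Pi.smul_apply, Pi.single_eq_same, hw, smul_eq_mul]
          field_simp
        · intro i _ hij
          rw [smulZ, Pi.smul_apply, Pi.single_eq_of_ne hij.symm]
          simp
        · simp
      rw [h4]
      exact Submodule.sum_mem _ fun i _ => Submodule.smul_mem _ _
        (Submodule.subset_span ⟨i, rfl⟩)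
    have hL : (Submodule.span ℤ_[p] (Set.range fun i : Fin n => t • (Pi.single i 1 :
        Fin n → ℚ_[p]))).FG := Submodule.fg_span (Set.finite_range _)
    have := isNoetherian_of_fg_of_noetherian _ hL
    have := isNoetherian_of_le hle
    rw [← Module.Finite.iff_fg]
    infer_instance
  have hlat : Submodule.IsLattice ℚ_[p] N := by
    refine ⟨hfg, ?_⟩
    rw [eq_top_iff]
    intro v _
    have h4 : v = ∑ i, (v i / c) • (c • (Pi.single i 1 : Fin n → ℚ_[p])) := by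
      funext j
      rw [Finset.sum_apply, Finset.sum_eq_single j]
      · rw [Pi.smul_apply, Pi.smul_apply, Pi.single_eq_same, smul_eq_mul, smul_eq_mul]
        field_simp
      · intro i _ hij
        rw [Pi.smul_apply, Pi.smul_apply, Pi.single_eq_of_ne hij.symm]
        simp
      · simp
    rw [h4]
    refine Submodule.sum_mem _ fun i _ => Submodule.smul_mem _ _ (Submodule.subset_span ?_)
    refine h1 _ fun j => ?_
    by_cases hij : j = i
    · subst hij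
      simp
    · rw [Pi.single_eq_of_ne hij]
      simp
  have hr : Module.finrank ℤ_[p] N = n := by
    rw [Submodule.IsLattice.finrank_of_pi ℚ_[p] N, Fintype.card_fin]
  have : Module.Free ℤ_[p] N := Submodule.IsLattice.free ℚ_[p] N
  let b := Module.finBasisOfFinrankEq ℤ_[p] N hr
  refine ⟨Matrix.of fun i j => (b i).1 j, ?_, fun v => ⟨fun hv => ?_, ?_⟩⟩
  · have hli : LinearIndependent ℚ_[p] (fun i => (b i).1) := by
      have h5 := (b.extendOfIsLattice ℚ_[p]).linearIndependent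
      have h6 : (⇑(b.extendOfIsLattice ℚ_[p])) = fun i => (b i).1 := by
        funext i
        exact Module.Basis.extendOfIsLattice_apply ℚ_[p] b i
      rwa [h6] at h5
    have h7 : LinearIndependent ℚ_[p] (Matrix.of fun i j => (b i).1 j).row := hli
    rw [Matrix.linearIndependent_rows_iff_isUnit, Matrix.isUnit_iff_isUnit_det] at h7
    exact h7.ne_zero
  · refine ⟨fun i => ((b.repr ⟨v, hv⟩ i : ℤ_[p]) : ℚ_[p]), fun i => (b.repr ⟨v, hv⟩ i).2, ?_⟩
    have h8 := congrArg Subtype.val (b.sum_repr ⟨v, hv⟩)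
    rw [Submodule.coe_sum] at h8
    funext j
    have h9 := congrFun h8 j
    rw [Finset.sum_apply] at h9
    change _ = v j at h9
    rw [← h9, Matrix.vecMul, dotProduct]
    rfl
  · rintro ⟨c', hc', rfl⟩
    obtain ⟨w, hw⟩ := lift1 c' hc'
    have h10 : c' ᵥ* (Matrix.of fun i j => (b i).1 j) = ∑ i, w i • (b i).1 := by
      funext j
      rw [Finset.sum_apply, Matrix.vecMul, dotProduct]
      refine Finset.sum_congr rfl fun i _ => ?_
      rw [smulZ, hw]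
      rfl
    rw [h10]
    exact Submodule.sum_mem _ fun i _ => Submodule.smul_mem _ _ (b i).2

theorem det_norm_le' {n : ℕ} (p : ℕ) [Fact p.Prime] (C : Matrix (Fin n) (Fin n) ℚ_[p])
    (h : ∀ i j, ‖C i j‖ ≤ 1) : ‖C.det‖ ≤ 1 := by
  have h0 : ∃ D : Matrix (Fin n) (Fin n) ℤ_[p], ∀ i j, (D i j : ℚ_[p]) = C i j :=
    ⟨fun i j => ⟨C i j, h i j⟩, fun _ _ => rfl⟩
  obtain ⟨D, hD⟩ := h0
  have h1 : C = D.map (algebraMap ℤ_[p] ℚ_[p]) := by
    ext i j
    exact (hD i j).symm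
  rw [h1, ← RingHom.mapMatrix_apply, ← RingHom.map_det]
  exact D.det.2

/-- A lattice whose dual lattice is contained in `d⁻¹` times the lattice. -/
theorem gram_det {n : ℕ} (p : ℕ) [Fact p.Prime] (N : Submodule ℤ_[p] (Fin n → ℚ_[p]))
    (G S : Matrix (Fin n) (Fin n) ℚ_[p]) (hG : G.det ≠ 0) (hS : S.det ≠ 0)
    (hN : ∀ v, v ∈ N ↔ ∃ c : Fin n → ℚ_[p], (∀ i, ‖c i‖ ≤ 1) ∧ v = c ᵥ* G) (d : ℚ_[p])
    (h : ∀ v : Fin n → ℚ_[p], (∀ u ∈ N, ‖v ⬝ᵥ S *ᵥ u‖ ≤ 1) → d • v ∈ N) :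
    ‖d‖ ^ n ≤ ‖(G * S * Gᵀ).det‖ := by
  classical
  set A := G * S * Gᵀ with hA
  have hAd : A.det ≠ 0 := by
    rw [hA, det_mul, det_mul, det_transpose]
    exact mul_ne_zero (mul_ne_zero hG hS) hG
  have hAu : IsUnit A.det := hAd.isUnit
  have hGu : IsUnit G.det := hG.isUnit
  have hrow : ∀ i, ∃ c : Fin n → ℚ_[p], (∀ j, ‖c j‖ ≤ 1) ∧ d • (A⁻¹ * G) i = c ᵥ* G := by
    intro i
    rw [← hN]
    apply h
    intro u hu
    obtain ⟨c, hc, rfl⟩ := (hN u).1 hu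
    have h1 : (A⁻¹ * G) i ⬝ᵥ S *ᵥ (c ᵥ* G) = c i := by
      have h2 : ((A⁻¹ * G) *ᵥ (S *ᵥ (c ᵥ* G))) i = c i := by
        rw [← mulVec_transpose, mulVec_mulVec, mulVec_mulVec]
        have h3 : A⁻¹ * G * S * Gᵀ = 1 := by
          rw [Matrix.mul_assoc, Matrix.mul_assoc, ← Matrix.mul_assoc G S, ← hA,
            Matrix.nonsing_inv_mul _ hAu]
        rw [h3, one_mulVec]
      exact h2
    rw [h1]
    exact hc i
  choose C hC1 hC2 using hrow
  have h4 : d • (A⁻¹ * G) = (Matrix.of C) * G := by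
    ext i j
    have := congrFun (hC2 i) j
    simpa [Matrix.mul_apply, Matrix.vecMul, dotProduct] using this
  have h5 : d • A⁻¹ = Matrix.of C := by
    have h6 : d • (A⁻¹ * G) * G⁻¹ = (Matrix.of C) * G * G⁻¹ := by rw [h4]
    rw [Matrix.mul_nonsing_inv_cancel_right _ _ hGu, ← smul_mul_assoc,
      Matrix.mul_nonsing_inv_cancel_right _ _ hGu] at h6
    exact h6
  have h7 : ‖(Matrix.of C).det‖ ≤ 1 := det_norm_le' p _ fun i j => hC1 i j
  rw [← h5, det_smul, Fintype.card_fin, det_nonsing_inv, Ring.inverse_eq_inv', norm_mul,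
    norm_pow, norm_inv] at h7
  have h8 : 0 < ‖A.det‖ := norm_pos_iff.2 hAd
  rwa [← div_eq_mul_inv, div_le_one h8] at h7

end Stoll308.SC
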