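import Pool.Agent.Work.MP_308fa9_nt.SC.LocUnit
import Pool.Agent.Work.MP_308fa9_nt.SC.RevLoc
import Pool.Agent.Work.MP_308fa9_nt.SC.LocInf
import Pool.Agent.Work.MP_308fa9_nt.SC.LocE

set_option autoImplicit false

/-!
The local lattice, `n` odd.
-/

namespace Stoll308.SC

open Polynomial Finset Matrix BG BF

namespace LocO

/-- `A adj(D) A` for `D = P A`, `A = P E`. -/
lemma adj_conj {K : Type*} [Field K] {n : ℕ} (G M H₁ H₂ : Matrix (Fin n) (Fin n) K)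
    (hG : G.det ≠ 0) (h12 : H₁ = M * H₂) :
    (G * H₁ * Gᵀ) * (G * (M * H₁) * Gᵀ).adjugate * (G * H₁ * Gᵀ) =
      ((G * H₁ * Gᵀ).det * M.det) • (G * H₂ * Gᵀ) := by
  have hGi : G⁻¹ * G = 1 := nonsing_inv_mul _ (isUnit_iff_ne_zero.2 hG)
  obtain ⟨P, hP⟩ : ∃ P, P = G * M * G⁻¹ := ⟨_, rfl⟩
  have hPd : P.det = M.det := by
    have h3 := congrArg Matrix.det hGi
    rw [det_mul, det_one] at h3
    rw [hP, det_mul, det_mul]
    linear_combination M.det * h3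
  have key : ∀ H : Matrix (Fin n) (Fin n) K, G * (M * H) * Gᵀ = P * (G * H * Gᵀ) := by
    intro H
    rw [hP]
    calc G * (M * H) * Gᵀ = G * M * (1 * H) * Gᵀ := by
          rw [Matrix.one_mul]
          simp only [Matrix.mul_assoc]
      _ = G * M * G⁻¹ * (G * H * Gᵀ) := by
          rw [← hGi]
          simp only [Matrix.mul_assoc]
  obtain ⟨A, hA⟩ : ∃ A, A = G * H₁ * Gᵀ := ⟨_, rfl⟩
  obtain ⟨E, hE⟩ : ∃ E, E = G * H₂ * Gᵀ := ⟨_, rfl⟩
  have hAE : A = P * E := by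
    rw [hA, hE, h12, key]
  rw [key, ← hA, ← hE, adjugate_mul_distrib, ← hPd]
  calc A * (A.adjugate * P.adjugate) * A = (A * A.adjugate) * (P.adjugate * A) := by
        simp only [Matrix.mul_assoc]
    _ = (A.det • (1 : Matrix (Fin n) (Fin n) K)) * (P.adjugate * (P * E)) := by
        rw [mul_adjugate, ← hAE]
    _ = (A.det • (1 : Matrix (Fin n) (Fin n) K)) * ((P.adjugate * P) * E) := by
        rw [Matrix.mul_assoc P.adjugate]
    _ = (A.det * P.det) • E := by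
        rw [adjugate_mul, smul_mul_assoc, Matrix.one_mul, smul_mul_assoc, Matrix.one_mul, smul_smul]

lemma norm_le_of_add {p : ℕ} [Fact p.Prime] {x y : ℚ_[p]} (h : ‖x + y‖ < 1) (hy : ‖y‖ ≤ 1) :
    ‖x‖ ≤ 1 := by
  have e : x = (x + y) + (-y) := by ring
  rw [e]
  refine (Padic.nonarchimedean _ _).trans (max_le h.le ?_)
  rwa [norm_neg]

end LocO

open LocE LocO

theorem loc_odd {n : ℕ} (hn : 3 ≤ n) (ho : Odd n) (p : ℕ) [Fact p.Prime] (hp : p ≠ 2)
    (a : Fin (n + 1) → ℤ) (h0 : a 0 ≠ 0) (hl : a (Fin.last n) ≠ 0)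
    (hcase : ¬ (p : ℤ) ∣ a 0 ∨ (¬ (p : ℤ) ^ 2 ∣ a 0 ∧ ¬ (p : ℤ) ∣ a 1 ∧
      ¬ (p : ℤ) ∣ a (Fin.last n)))
    (δ : ℚ_[p][X]) (hloc : OLoc (GZ ℚ_[p] a) δ) :
    ∃ (G : Matrix (Fin n) (Fin n) ℚ_[p]) (w : Fin n → ℚ_[p]), G.det ≠ 0 ∧
      (∀ i j, ‖(G * ((a 0 : ℚ_[p])⁻¹ • Hank n (mon ℚ_[p] a) δ) * Gᵀ) i j‖ ≤ 1) ∧
      ‖(G * ((a 0 : ℚ_[p])⁻¹ • Hank n (mon ℚ_[p] a) δ) * Gᵀ).det‖ = 1 ∧
      (∀ i j, ‖(G * Hank n (mon ℚ_[p] a) (X * δ) * Gᵀ) i j‖ ≤ 1) ∧ (∀ i, ‖w i‖ ≤ 1) ∧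
      ((p : ℤ) ∣ a 0 →
        ∀ i j, ‖(G * Hank n (mon ℚ_[p] a) (X * δ) * Gᵀ) i j + w i * w j‖ < 1) := by
  have h0' : ((a 0 : ℤ) : ℚ_[p]) ≠ 0 := by exact_mod_cast h0
  have hl' : ((a (Fin.last n) : ℤ) : ℚ_[p]) ≠ 0 := by exact_mod_cast hl
  by_cases hc : (p : ℤ) ∣ a 0
  swap
  · obtain ⟨G, hG, h1, h2⟩ := good_unit (by omega) p hp a hc δ hloc
    have hn1 := norm_int_eq_one hc
    have key : ∀ M : Matrix (Fin n) (Fin n) ℚ_[p],
        G * ((a 0 : ℚ_[p])⁻¹ • M) * Gᵀ = (a 0 : ℚ_[p])⁻¹ • (G * M * Gᵀ) := by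
      intro M
      rw [Matrix.mul_smul, Matrix.smul_mul]
    refine ⟨G, fun _ => 0, hG, ?_, ?_, ?_, fun i => by simp, fun h => absurd h hc⟩
    · intro i j
      rw [key, Matrix.smul_apply, norm_smul, norm_inv, hn1, inv_one, one_mul]
      have := h1 0 i j
      rwa [pow_zero, one_mul] at this
    · rw [key, Matrix.det_smul, norm_mul, norm_pow, norm_inv, hn1, inv_one, one_pow, one_mul, h2]
    · intro i j
      have := h1 1 i j
      rwa [pow_one] at this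
  · obtain ⟨c2, c3, c4⟩ : ¬ (p : ℤ) ^ 2 ∣ a 0 ∧ ¬ (p : ℤ) ∣ a 1 ∧
        ¬ (p : ℤ) ∣ a (Fin.last n) := by
      rcases hcase with h | h
      · exact absurd hc h
      · exact h
    obtain ⟨D, hD⟩ : ∃ D, D = δ.natDegree := ⟨_, rfl⟩
    obtain ⟨D₁, hD₁⟩ := exists_rev a h0' δ n D
    obtain ⟨D₂, hD₂⟩ := exists_rev a h0' δ (n + 1) D
    obtain ⟨G, hG, h1, h2⟩ := good_rev (by omega) p hp a h0 c4 δ hloc n D ho hD.ge D₁ hD₁
    have hn1 := norm_int_eq_one c4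
    obtain ⟨F, hF⟩ : ∃ F, F = mon ℚ_[p] (a ∘ Fin.rev) := ⟨_, rfl⟩
    rw [← hF] at h1 h2
    have hm0 : (((a ∘ Fin.rev) 0 : ℤ) : ℚ_[p]) ≠ 0 := by
      rw [Function.comp_apply, Fin.rev_zero]
      exact hl'
    have hFm : F.Monic := by rw [hF]; exact BF.LocLat.mon_monic _ hm0
    have hFn : F.natDegree = n := by rw [hF]; exact BF.LocLat.mon_natDegree _ hm0
    have hFdvd : F ∣ GZ ℚ_[p] (a ∘ Fin.rev) := by
      rw [hF]
      exact Dvd.intro_left _ (BF.LocLat.GZ_eq _ hm0).symm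
    -- the two Hankel matrices
    have r0 : ∀ i j, (a 0 : ℚ_[p])⁻¹ * Hank n (mon ℚ_[p] a) δ i j =
        -((a (Fin.last n) : ℚ_[p])⁻¹ * Hank n F D₁ i.rev j.rev) := by
      intro i j
      rw [hF]
      exact rev_hank (by omega) a h0' hl' δ D₁ D hD.ge hD₁ i j
    have r1 : ∀ i j, (a 0 : ℚ_[p])⁻¹ * Hank n (mon ℚ_[p] a) (X * δ) i j =
        -((a (Fin.last n) : ℚ_[p])⁻¹ * Hank n F D₂ i.rev j.rev) := by
      intro i j
      rw [hF]
      refine rev_hank (by omega) a h0' hl' (X * δ) D₂ (D + 1) ?_ ?_ i j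
      · refine natDegree_mul_le.trans ?_
        rw [natDegree_X]
        omega
      · have e1 : (X * δ).reflect (D + 1) = δ.reflect D := by
          rw [add_comm D 1, reflect_mul _ _ (by rw [natDegree_X]) hD.ge]
          have : (X : ℚ_[p][X]).reflect 1 = 1 := by
            have := reflect_monomial 1 1 (R := ℚ_[p])
            rw [pow_one] at this
            rw [this, revAt_le le_rfl, Nat.sub_self, pow_zero]
          rw [this, one_mul]
        rw [e1, show n + (D + 1) = n + 1 + D by ring]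
        exact hD₂
    -- `X D₂ = D₁` modulo `F`
    have h12 : GZ ℚ_[p] (a ∘ Fin.rev) ∣ D₂ * X - D₁ := by
      have e1 : GZ ℚ_[p] (a ∘ Fin.rev) ∣ X ^ (n + D) * (D₂ * X - D₁) := by
        have e2 := dvd_sub hD₂ hD₁
        have e3 : X ^ (n + D) * (D₂ * X - D₁) =
            D₂ * X ^ (n + 1 + D) - δ.reflect D - (D₁ * X ^ (n + D) - δ.reflect D) := by
          ring
        rw [e3]
        exact e2
      exact (((rev_coprime a h0').pow_left (m := n + D)).symm).dvd_of_dvd_mul_left e1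
    have hH12 : Hank n F D₁ = mulMat n F X * Hank n F D₂ := by
      rw [← HankL.hank_mul F D₂ X hFm hFn]
      exact (hank_congr _ _ _ hFm (hFdvd.trans h12)).symm
    have hX1 : Hank n F (X * D₁) = mulMat n F X * Hank n F D₁ := by
      rw [mul_comm X D₁]
      exact HankL.hank_mul F D₁ X hFm hFn
    have hMd : (mulMat n F X).det = -((a 0 : ℚ_[p]) * (a (Fin.last n) : ℚ_[p])⁻¹) := by
      rw [mulMat_X_det F hFm hFn, ho.neg_one_pow, hF]
      unfold mon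
      rw [coeff_C_mul, gz_coeff_zero, Function.comp_apply, Fin.rev_zero]
      ring
    obtain ⟨A, hA⟩ : ∃ A, A = G * Hank n F D₁ * Gᵀ := ⟨_, rfl⟩
    obtain ⟨D', hD'⟩ : ∃ D', D' = G * Hank n F (X * D₁) * Gᵀ := ⟨_, rfl⟩
    have hA1 : ‖A.det‖ = 1 := by rw [hA]; exact h2
    have hA0 : A.det ≠ 0 := by
      intro h
      rw [h, norm_zero] at hA1
      exact zero_ne_one hA1
    obtain ⟨w, hw, hw1⟩ := loc_inf hn ho p hp a hc c2 c3 c4 D₁
      (norm_rev a h0' δ hloc n D ho hD.ge D₁ hD₁) G A D' hG (by rw [hA, hF]) (by rw [hD', hF])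
      (fun i j => by
        have := h1 0 i j
        rw [pow_zero, one_mul] at this
        rw [hA]
        exact this)
      (fun i j => by
        have := h1 1 i j
        rw [pow_one] at this
        rw [hD']
        exact this) hA1
    have hadj : A.det⁻¹ • (A * D'.adjugate * A) =
        (-((a 0 : ℚ_[p]) * (a (Fin.last n) : ℚ_[p])⁻¹)) • (G * Hank n F D₂ * Gᵀ) := by
      have := adj_conj G (mulMat n F X) (Hank n F D₁) (Hank n F D₂) hG hH12
      rw [← hX1, ← hA, ← hD', hMd] at this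
      rw [this, smul_smul, ← mul_assoc, inv_mul_cancel₀ hA0, one_mul]
    have k0 := rev_conj G ((a 0 : ℚ_[p])⁻¹ • Hank n (mon ℚ_[p] a) δ)
      (-((a (Fin.last n) : ℚ_[p])⁻¹ • Hank n F D₁)) (fun i j => by
        rw [Matrix.smul_apply, smul_eq_mul, r0, Matrix.neg_apply, Matrix.smul_apply, smul_eq_mul])
    have k1 := rev_conj G (Hank n (mon ℚ_[p] a) (X * δ))
      ((-((a 0 : ℚ_[p]) * (a (Fin.last n) : ℚ_[p])⁻¹)) • Hank n F D₂) (fun i j => by
        have := r1 i j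
        rw [Matrix.smul_apply, smul_eq_mul]
        have e : Hank n (mon ℚ_[p] a) (X * δ) i j =
            (a 0 : ℚ_[p]) * ((a 0 : ℚ_[p])⁻¹ * Hank n (mon ℚ_[p] a) (X * δ) i j) := by
          rw [← mul_assoc, mul_inv_cancel₀ h0', one_mul]
        rw [e, this]
        ring)
    have key : ∀ (c : ℚ_[p]) (M : Matrix (Fin n) (Fin n) ℚ_[p]),
        G * (c • M) * Gᵀ = c • (G * M * Gᵀ) := by
      intro c M
      rw [Matrix.mul_smul, Matrix.smul_mul]
    have hT1 : G.submatrix id Fin.rev * Hank n (mon ℚ_[p] a) (X * δ) *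
        (G.submatrix id Fin.rev)ᵀ = A.det⁻¹ • (A * D'.adjugate * A) := by
      rw [k1, key, hadj]
    have hT0 : G.submatrix id Fin.rev * ((a 0 : ℚ_[p])⁻¹ • Hank n (mon ℚ_[p] a) δ) *
        (G.submatrix id Fin.rev)ᵀ = (-(a (Fin.last n) : ℚ_[p])⁻¹) • A := by
      rw [k0, ← neg_smul, key, hA]
    have hnn : ‖(-(a (Fin.last n) : ℚ_[p])⁻¹)‖ = 1 := by
      rw [norm_neg, norm_inv, hn1, inv_one]
    refine ⟨G.submatrix id Fin.rev, w, ?_, ?_, ?_, ?_, hw, ?_⟩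
    · have : G.submatrix id Fin.rev = G.submatrix id Fin.revPerm := rfl
      rw [this, Matrix.det_permute']
      refine mul_ne_zero ?_ hG
      exact_mod_cast (Units.ne_zero _)
    · intro i j
      rw [hT0, Matrix.smul_apply, norm_smul, hnn, one_mul, hA]
      have := h1 0 i j
      rwa [pow_zero, one_mul] at this
    · rw [hT0, Matrix.det_smul, norm_mul, norm_pow, hnn, one_pow, one_mul, hA1]
    · intro i j
      rw [hT1]
      refine norm_le_of_add (hw1 i j) ?_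
      rw [norm_mul]
      exact mul_le_one₀ (hw i) (norm_nonneg _) (hw j)
    · intro _ i j
      rw [hT1]
      exact hw1 i j

end Stoll308.SC
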