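import Pool.Agent.Work.MP_308fa9_nt.SC.HPoly
import Pool.Agent.Work.MP_308fa9_nt.SC.PairE
import Pool.Agent.Work.MP_308fa9_nt.SC.RepE
import Pool.Agent.Work.MP_308fa9_nt.SC.LatCond
import Pool.Agent.Work.MP_308fa9_nt.SC.Excl
import Pool.Agent.Work.MP_308fa9_nt.SC.Scale
import Pool.Agent.Work.MP_308fa9_nt.OF.Main

set_option autoImplicit false

/-!
The upper bound, `n` even.
-/

namespace Stoll308.SC

open Polynomial Finset Matrix BG BF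

theorem oddSel_small_even (n : ℕ) (hn : 4 ≤ n) (he : Even n) (ψ : ℤ[X]) (ε : ℝ) (hε : 0 < ε) :
    ∃ H₀ : ℕ, ∀ H : ℕ, H₀ ≤ H → (cnt n (OddSel ψ) H : ℝ) ≤ ε * H ^ (n + 1) := by
  have hl0 : (Fin.last n : Fin (n + 1)) ≠ 0 := by
    intro h
    have h1 := congrArg Fin.val h
    rw [Fin.val_last, Fin.val_zero] at h1
    omega
  obtain ⟨S, hS, h1⟩ := OF.sqf_cnt n (ε / 6) (by positivity)
  obtain ⟨η, hη, H₁, h2⟩ := BF.height_small n (ε / 6) (by positivity)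
  obtain ⟨P₂, h7⟩ := excl_small n (Fin.last n) hl0 (ε / 6) (by positivity)
  obtain ⟨P, hP⟩ : ∃ P : ℕ, P = P₂ + ⌈S⌉₊ + 2 := ⟨_, rfl⟩
  have hP2 : 2 ≤ P := by omega
  have hSP : S ≤ P := by
    refine (Nat.le_ceil S).trans ?_
    have : ⌈S⌉₊ ≤ P := by omega
    exact_mod_cast this
  obtain ⟨M, hM⟩ : ∃ M : ℕ, M = P.factorial ^ (2 * n) := ⟨_, rfl⟩
  have hM1 : 1 ≤ M := by
    rw [hM]
    exact Nat.one_le_pow _ _ P.factorial_pos
  have hMr : (1 : ℝ) ≤ M := by exact_mod_cast hM1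
  obtain ⟨ε', hε'⟩ : ∃ ε' : ℝ, ε' = ε / 6 / (M * ((M : ℝ) ^ 2) ^ (n + 1)) := ⟨_, rfl⟩
  have hε'0 : 0 < ε' := by rw [hε']; positivity
  obtain ⟨K, hK, hred⟩ := red_of_pair_even hn he
  obtain ⟨R, H₂, hR, h3⟩ := BF.cusp n hn he K hK η hη ε' hε'0
  obtain ⟨H₃, h4⟩ := BF.large_t hn he K R hK hR ε' hε'0
  obtain ⟨H₄, h5⟩ := BF.reducible_small n (by omega) (ε / 6) (by positivity)
  refine ⟨H₁ + ⌈|H₂|⌉₊ + ⌈|H₃|⌉₊ + H₄ + 1, ?_⟩
  intro H hH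
  have hH1 : 1 ≤ H := by omega
  have hHr : (1 : ℝ) ≤ H := by exact_mod_cast hH1
  have g1 := h1 H hH1
  have g2 := h2 H (by omega)
  have g5 := h5 H (by omega)
  have g7 := h7 P (by omega) H
  have hbig : ∀ (x : ℝ) (m : ℕ), ⌈|x|⌉₊ ≤ H → ∀ N : ℕ, 0 < N → x ≤ (N : ℝ) ^ 2 * H := by
    intro x _ hx N hN
    have e1 : |x| ≤ ⌈|x|⌉₊ := Nat.le_ceil _
    have e2 : ((⌈|x|⌉₊ : ℕ) : ℝ) ≤ H := by exact_mod_cast hx
    have e3 : (1 : ℝ) ≤ (N : ℝ) ^ 2 := one_le_pow₀ (by exact_mod_cast hN)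
    have e4 : (H : ℝ) ≤ (N : ℝ) ^ 2 * H := by
      calc (H : ℝ) = 1 * H := by ring
        _ ≤ (N : ℝ) ^ 2 * H := mul_le_mul_of_nonneg_right e3 (by linarith)
    linarith [le_abs_self x]
  set P1 : (Fin (n + 1) → ℤ) → Prop := fun a => a 0 ≠ 0 ∧ S * OF.sfp (a 0) < |(a 0 : ℝ)|
    with hP1
  set P2 : (Fin (n + 1) → ℤ) → Prop := fun a => ∀ i, |(a i : ℝ)| < η * H with hP2'
  set P5 : (Fin (n + 1) → ℤ) → Prop := fun a => a 0 = 0 ∨ IsSquare (a 0) ∨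
    ¬ Irreducible (BF.GZ ℚ a) with hP5
  set P7 : (Fin (n + 1) → ℤ) → Prop := fun a => a 0 ≠ 0 ∧ ∃ p : ℕ, p.Prime ∧ P < p ∧
    (p : ℤ) ∣ a 0 ∧ (p : ℤ) ∣ a (Fin.last n) with hP7
  set Q3 : ℕ → (Fin (n + 1) → ℤ) → Prop := fun N a => a 0 ≠ 0 ∧ Irreducible (GZ ℚ a) ∧
    (∃ i, η * ((N : ℝ) ^ 2 * H) ≤ |(a i : ℝ)|) ∧
      ∃ (A B : Matrix (Fin n) (Fin n) ℤ) (t : Fin n → ℝ),
        BF.RPair K ((N : ℝ) ^ 2 * H) a A B t ∧ ∃ i j, R * t i < t j with hQ3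
  set Q4 : ℕ → (Fin (n + 1) → ℤ) → Prop := fun N a => ∃ (A B : Matrix (Fin n) (Fin n) ℤ)
    (t : Fin n → ℝ), BF.RPair K ((N : ℝ) ^ 2 * H) a A B t ∧ (∀ i j, t j ≤ R * t i) ∧
      ∀ l : ℕ, l ≠ 2 → ¬ BF.Bad l A B with hQ4
  set P3 : (Fin (n + 1) → ℤ) → Prop := fun a => ∃ N, 0 < N ∧ N ≤ M ∧ Q3 N (sc N a) with hP3
  set P4 : (Fin (n + 1) → ℤ) → Prop := fun a => ∃ N, 0 < N ∧ N ≤ M ∧ Q4 N (sc N a) with hP4
  have hsum : ∀ Q : ℕ → (Fin (n + 1) → ℤ) → Prop,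
      (∀ N : ℕ, 0 < N → ∀ T : Finset (Fin (n + 1) → ℤ), (∀ a ∈ T, Q N a) →
        (T.card : ℝ) ≤ ε' * ((N : ℝ) ^ 2 * H) ^ (n + 1)) →
      (cnt n (fun a => ∃ N, 0 < N ∧ N ≤ M ∧ Q N (sc N a)) H : ℝ) ≤
        ε / 6 * H ^ (n + 1) := by
    intro Q hQ
    have e1 := cnt_exists (fun N a => Q N (sc (n := n) N a)) M H
    have e2 : ∀ N ∈ Icc 1 M, (cnt n (fun a => Q N (sc (n := n) N a)) H : ℝ) ≤
        ε' * (((M : ℝ) ^ 2) * H) ^ (n + 1) := by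
      intro N hN
      rw [mem_Icc] at hN
      have hN0 : 0 < N := by omega
      refine (cnt_scale _ (Q N) N hN0 H _ (fun a ha => ha) (hQ N hN0)).trans ?_
      have e3 : (N : ℝ) ≤ M := by exact_mod_cast hN.2
      gcongr
    calc (cnt n (fun a => ∃ N, 0 < N ∧ N ≤ M ∧ Q N (sc N a)) H : ℝ)
        ≤ ((∑ N ∈ Icc 1 M, cnt n (fun a => Q N (sc (n := n) N a)) H : ℕ) : ℝ) := by
          exact_mod_cast e1
      _ = ∑ N ∈ Icc 1 M, (cnt n (fun a => Q N (sc (n := n) N a)) H : ℝ) := by push_cast; rfl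
      _ ≤ ∑ _N ∈ Icc 1 M, ε' * (((M : ℝ) ^ 2) * H) ^ (n + 1) := sum_le_sum e2
      _ = ε / 6 * H ^ (n + 1) := by
          rw [sum_const, Nat.card_Icc, Nat.add_sub_cancel, nsmul_eq_mul, hε', mul_pow]
          field_simp
  have g3 : (cnt n P3 H : ℝ) ≤ ε / 6 * H ^ (n + 1) :=
    hsum Q3 fun N hN T hT => h3 _ (hbig H₂ 0 (by omega) N hN) T hT
  have g4 : (cnt n P4 H : ℝ) ≤ ε / 6 * H ^ (n + 1) :=
    hsum Q4 fun N hN T hT => h4 _ (hbig H₃ 0 (by omega) N hN) T hT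
  have hle : cnt n (OddSel ψ) H ≤ cnt n P1 H + (cnt n P2 H + (cnt n P3 H + (cnt n P4 H +
      (cnt n P5 H + cnt n P7 H)))) := by
    refine le_trans (cnt_mono (Q := fun b => P1 b ∨ P2 b ∨ P3 b ∨ P4 b ∨ P5 b ∨ P7 b)
      H ?_) ?_
    · intro a ha h
      by_cases q5 : P5 a
      · exact Or.inr (Or.inr (Or.inr (Or.inr (Or.inl q5))))
      by_cases q7 : P7 a
      · exact Or.inr (Or.inr (Or.inr (Or.inr (Or.inr q7))))
      by_cases q1 : P1 a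
      · exact Or.inl q1
      by_cases q2 : P2 a
      · exact Or.inr (Or.inl q2)
      right; right
      rw [hP5] at q5
      simp only [not_or, not_not] at q5
      obtain ⟨h0, hsq, hF⟩ := q5
      have q1' : |(a 0 : ℝ)| ≤ S * OF.sfp (a 0) := by
        rw [hP1] at q1
        simp only [not_and, not_lt] at q1
        exact q1 h0
      rw [hP2'] at q2
      push Not at q2
      obtain ⟨i₀, hi₀⟩ := q2
      have har : ∀ i, |(a i : ℝ)| ≤ H := fun i => by exact_mod_cast ha i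
      have hl := BF.last_ne_zero (by omega) a h0 hF
      obtain ⟨δ, hδ, hloc⟩ := h
      have holoc : ∀ (p : ℕ) [Fact p.Prime], p ≠ 2 →
          OLoc (GZ ℚ_[p] a) (δ.map (algebraMap ℚ ℚ_[p])) :=
        fun p hp h2 => oloc_of_image ψ a δ ℚ_[p] (hloc p h2)
      obtain ⟨A₀, B₀, N, hN, hNM, hpair, hdet⟩ := exists_pair_even hn he P hP2 a h0 hl
        (fun p hp hpP => fac_le (a 0) h0 S P hSP q1' p hpP)
        (fun p hp hpP hd hd1 => q7 ⟨h0, p, hp, hpP, hd, hd1⟩) δ hδ holoc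
      have hN2 : (0 : ℝ) < (N : ℝ) ^ 2 := by positivity
      have hN1 : (0 : ℤ) < (N : ℤ) ^ 2 := by positivity
      have hcast : ∀ i, |((sc N a i : ℤ) : ℝ)| = (N : ℝ) ^ 2 * |(a i : ℝ)| := by
        intro i
        unfold sc
        push_cast
        rw [abs_mul, abs_of_pos hN2]
      have h0' : sc N a 0 ≠ 0 := by
        unfold sc
        exact mul_ne_zero hN1.ne' h0
      have hF' : Irreducible (GZ ℚ (sc N a)) := by
        rw [GZ_sc]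
        exact (irreducible_isUnit_mul (isUnit_sc hN)).2 hF
      have hδ' : IsCoprime δ (GZ ℚ (sc N a)) := by
        rw [GZ_sc]
        exact (isCoprime_mul_unit_left_right (isUnit_sc hN) _ _).2 hδ
      obtain ⟨A, B, t, hRP, hbad⟩ := hred (sc N a) h0' hF' ((N : ℝ) ^ 2 * H) (fun i => by
          rw [hcast]
          exact mul_le_mul_of_nonneg_left (har i) hN2.le) δ hδ'
        (fun l hl' h2 => by
          obtain ⟨-, u, v, s, e1, e2⟩ := holoc l h2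
          refine ⟨u, v, s, ?_, ?_⟩
          · rw [GZ_sc]
            exact (isCoprime_mul_unit_left_right (isUnit_sc hN) _ _).2 e1
          · rw [GZ_sc]
            exact ((isUnit_sc hN).mul_left_dvd).2 e2) A₀ B₀ (IsPair.sc hpair hN) hdet
      by_cases ht : ∃ i j, R * t i < t j
      · refine Or.inl ⟨N, hN, by rw [hM]; exact hNM, h0', hF', ⟨i₀, ?_⟩, A, B, t, hRP, ht⟩
        rw [hcast]
        calc η * ((N : ℝ) ^ 2 * H) = (N : ℝ) ^ 2 * (η * H) := by ring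
          _ ≤ (N : ℝ) ^ 2 * |(a i₀ : ℝ)| := mul_le_mul_of_nonneg_left hi₀ hN2.le
      · push Not at ht
        exact Or.inr (Or.inl ⟨N, hN, by rw [hM]; exact hNM, A, B, t, hRP, ht, hbad⟩)
    · refine (cnt_or _ _ H).trans ?_
      gcongr
      refine (cnt_or _ _ H).trans ?_
      gcongr
      refine (cnt_or _ _ H).trans ?_
      gcongr
      refine (cnt_or _ _ H).trans ?_
      gcongr
      exact cnt_or _ _ H
  calc ((cnt n (OddSel ψ) H : ℕ) : ℝ)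
      ≤ ((cnt n P1 H + (cnt n P2 H + (cnt n P3 H + (cnt n P4 H +
        (cnt n P5 H + cnt n P7 H)))) : ℕ) : ℝ) := by exact_mod_cast hle
    _ ≤ ε * H ^ (n + 1) := by
        push_cast
        linarith

end Stoll308.SC
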