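import Pool.Agent.Work.MP_308fa9_nt.SC.MainO
import Pool.Agent.Work.MP_308fa9_nt.SC.MainE
import Pool.Agent.Work.MP_308fa9_nt.SC.OddPt
import Pool.Agent.Work.MP_308fa9_nt.SC.OddNorm
import Pool.Agent.Work.MP_308fa9_nt.SC.SqSmall

set_option autoImplicit false

/-!
The theorem on the number fields of odd degree.
-/

namespace Stoll308.SC

open Polynomial Finset Matrix BG BF

theorem oddSel_small (n : ℕ) (hn : 3 ≤ n) (ψ : ℤ[X]) (ε : ℝ) (hε : 0 < ε) :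
    ∃ H₀ : ℕ, ∀ H : ℕ, H₀ ≤ H → (cnt n (OddSel ψ) H : ℝ) ≤ ε * H ^ (n + 1) := by
  rcases Nat.even_or_odd n with he | ho
  · refine oddSel_small_even n ?_ he ψ ε hε
    rcases Nat.lt_or_ge n 4 with h | h
    · have h3 : n = 3 := by omega
      rw [h3] at he
      exact absurd he (by decide)
    · exact h
  · exact oddSel_small_odd n hn ho ψ ε hε

theorem oddField_small (n : ℕ) (hn : 3 ≤ n) (ψ : ℤ[X]) (ε : ℝ) (hε : 0 < ε) :
    ∃ H₀ : ℕ, ∀ H : ℕ, H₀ ≤ H → (cnt n (OddField ψ) H : ℝ) ≤ ε * H ^ (n + 1) := by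
  obtain ⟨H₁, h1⟩ := oddSel_small n hn ψ (ε / 3) (by positivity)
  obtain ⟨H₂, h2⟩ := BF.reducible_small n (by omega) (ε / 3) (by positivity)
  obtain ⟨H₃, h3⟩ := sq_small n (by omega) (ε / 3) (by positivity)
  refine ⟨H₁ + H₂ + H₃, fun H hH => ?_⟩
  have g1 := h1 H (by omega)
  have g2 := h2 H (by omega)
  have g3 := h3 H (by omega)
  set P2 : (Fin (n + 1) → ℤ) → Prop := fun a => a 0 = 0 ∨ IsSquare (a 0) ∨
    ¬ Irreducible (BF.GZ ℚ a) with hP2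
  set P3 : (Fin (n + 1) → ℤ) → Prop := fun a => IsSquare (-(a 0 * a (Fin.last n))) with hP3
  have hle : cnt n (OddField ψ) H ≤ cnt n (OddSel ψ) H + (cnt n P2 H + cnt n P3 H) := by
    refine le_trans (cnt_mono (Q := fun b => OddSel ψ b ∨ P2 b ∨ P3 b) H ?_) ?_
    · intro a _ h
      by_cases q2 : P2 a
      · exact Or.inr (Or.inl q2)
      by_cases q3 : P3 a
      · exact Or.inr (Or.inr q3)
      left
      rw [hP2] at q2
      simp only [not_or, not_not] at q2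
      obtain ⟨h0, hsq, hF⟩ := q2
      obtain ⟨k, hk1, hk2, ho, h | h⟩ := h
      · exact oddSel_of_point (by omega) ψ a h0 hsq hF (fun _ => q3) k ho h
      · exact oddSel_of_selOver ψ a k ho h
    · refine (cnt_or _ _ H).trans ?_
      gcongr
      exact cnt_or _ _ H
  calc ((cnt n (OddField ψ) H : ℕ) : ℝ)
      ≤ ((cnt n (OddSel ψ) H + (cnt n P2 H + cnt n P3 H) : ℕ) : ℝ) := by exact_mod_cast hle
    _ ≤ ε * H ^ (n + 1) := by
        push_cast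
        linarith

theorem main (n : ℕ) (hn : 3 ≤ n) (ψ : ℤ[X]) (hψ : 1 ≤ ψ.natDegree) :
    (∃ c₀ : ℝ, 0 < c₀ ∧ ∃ H₀ : ℕ, ∀ H : ℕ, H₀ ≤ H →
      c₀ * H ^ (n + 1) ≤ (cnt n (fun a => ELS ψ a ∧ Smooth ψ a) H : ℝ)) ∧
    ∀ ε : ℝ, 0 < ε → ∃ H₀ : ℕ, ∀ H : ℕ, H₀ ≤ H →
      (cnt n (fun a => OddField ψ a) H : ℝ) ≤ ε * H ^ (n + 1) :=
  ⟨(OF.main n hn ψ hψ).1, fun ε hε => oddField_small n hn ψ ε hε⟩

end Stoll308.SC
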