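import Pool.Agent.Work.MP_308fa9_nt.SC.LocO
import Pool.Agent.Work.MP_308fa9_nt.SC.Loc2
import Pool.Agent.Work.MP_308fa9_nt.SC.ConvO
import Pool.Agent.Work.MP_308fa9_nt.OF.PairEx
import Pool.Agent.Work.MP_308fa9_nt.BF.PairEx

set_option autoImplicit false

/-!
The integral pair, `n` odd.
-/

namespace Stoll308.SC

open Polynomial Finset Matrix BG BF

namespace PairO

open BF.PairEx

/-- A factorial is a unit at the larger primes. -/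
lemma norm_factorial_eq_one {p P : ℕ} [Fact p.Prime] (h : P < p) :
    ‖((P.factorial : ℕ) : ℚ_[p])‖ = 1 := by
  refine le_antisymm ?_ ?_
  · exact_mod_cast Padic.norm_int_le_one (p := p) (P.factorial : ℤ)
  · by_contra h1
    rw [not_le, Padic.norm_natCast_lt_one_iff, (Fact.out : p.Prime).dvd_factorial] at h1
    omega

lemma norm_factorial_le_inv {p P : ℕ} [Fact p.Prime] (h : p ≤ P) :
    ‖((P.factorial : ℕ) : ℚ_[p])‖ ≤ (p : ℝ)⁻¹ := by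
  obtain ⟨k, hk⟩ := (Fact.out : p.Prime).dvd_factorial.2 h
  rw [hk, Nat.cast_mul, norm_mul, Padic.norm_p]
  exact mul_le_of_le_one_right (by positivity)
    (by exact_mod_cast Padic.norm_int_le_one (p := p) (k : ℤ))

lemma norm_nat_le_one {p : ℕ} [Fact p.Prime] (k : ℕ) : ‖(k : ℚ_[p])‖ ≤ 1 := by
  exact_mod_cast Padic.norm_int_le_one (p := p) (k : ℤ)

/-- The local lattice at all primes, `n` odd. -/
theorem local_odd {n : ℕ} (hn : 3 ≤ n) (ho : Odd n) (P : ℕ) (hP : 2 ≤ P)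
    (a : Fin (n + 1) → ℤ) (h0 : a 0 ≠ 0) (hl : a (Fin.last n) ≠ 0)
    (p : ℕ) [hp : Fact p.Prime]
    (h2 : P < p → ¬ (p : ℤ) ^ 2 ∣ a 0)
    (h3 : P < p → (p : ℤ) ∣ a 0 → ¬ (p : ℤ) ∣ a 1 ∧ ¬ (p : ℤ) ∣ a (Fin.last n))
    (δ : ℚ_[p][X]) (hδ : IsCoprime δ (GZ ℚ_[p] a)) (hloc : p ≠ 2 → OLoc (GZ ℚ_[p] a) δ) :
    ∃ (G : Matrix (Fin n) (Fin n) ℚ_[p]) (w : Fin n → ℚ_[p]), G.det ≠ 0 ∧
      (∀ i j, ‖(G * ((a 0 : ℚ_[p])⁻¹ • Hank n (mon ℚ_[p] a) δ) * Gᵀ) i j‖ ≤ 1) ∧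
      (∀ i j, ‖(G * Hank n (mon ℚ_[p] a) (X * δ) * Gᵀ) i j‖ ≤ 1) ∧
      ‖((P.factorial : ℕ) : ℚ_[p])‖ ^ (3 * n) ≤
        ‖(G * ((a 0 : ℚ_[p])⁻¹ • Hank n (mon ℚ_[p] a) δ) * Gᵀ).det‖ ∧
      (∀ i, ‖w i‖ ≤ 1) ∧
      ((p : ℤ) ∣ a 0 →
        ∀ i j, ‖(G * Hank n (mon ℚ_[p] a) (X * δ) * Gᵀ) i j + w i * w j‖ < 1) := by
  rcases le_or_gt p P with hpP | hpP
  · obtain ⟨G, hG, e1, e2, e3⟩ := loc_two (by omega) p a h0 δ hδ
    obtain ⟨f, hf⟩ : ∃ f : ℚ_[p], f = ((P.factorial : ℕ) : ℚ_[p]) := ⟨_, rfl⟩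
    have hf0 : f ≠ 0 := by
      rw [hf]; exact_mod_cast (Nat.factorial_pos P).ne'
    have hf1 : ‖f‖ ≤ (p : ℝ)⁻¹ := by rw [hf]; exact norm_factorial_le_inv hpP
    have hp1 : (1 : ℝ) < p := by exact_mod_cast hp.out.one_lt
    have hf2 : ‖f‖ < 1 := hf1.trans_lt (inv_lt_one_of_one_lt₀ hp1)
    have hf3 : ‖f‖ ^ 2 < 1 := pow_lt_one₀ (norm_nonneg _) hf2 two_ne_zero
    have key : ∀ M : Matrix (Fin n) (Fin n) ℚ_[p],
        (f • G) * M * (f • G)ᵀ = (f ^ 2) • (G * M * Gᵀ) := by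
      intro M
      rw [Matrix.transpose_smul, Matrix.smul_mul, Matrix.smul_mul, Matrix.mul_smul, smul_smul, sq]
    have hlt : ∀ i j, ‖((f • G) * Hank n (mon ℚ_[p] a) (X * δ) * (f • G)ᵀ) i j‖ < 1 := by
      intro i j
      rw [key, Matrix.smul_apply, smul_eq_mul, norm_mul, norm_pow]
      exact mul_lt_one_of_nonneg_of_lt_one_left (by positivity) hf3 (e2 i j)
    refine ⟨f • G, fun _ => 0, ?_, ?_, fun i j => (hlt i j).le, ?_, fun i => by simp, ?_⟩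
    · rw [Matrix.det_smul]
      exact mul_ne_zero (pow_ne_zero _ hf0) hG
    · intro i j
      rw [key, Matrix.smul_apply, smul_eq_mul, norm_mul, norm_pow]
      exact mul_le_one₀ hf3.le (norm_nonneg _) (e1 i j)
    · rw [key, Matrix.det_smul, Fintype.card_fin, norm_mul, norm_pow, norm_pow, ← pow_mul, ← hf]
      calc ‖f‖ ^ (3 * n) = ‖f‖ ^ (2 * n) * ‖f‖ ^ n := by
            rw [← pow_add]
            congr 1
            omega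
        _ ≤ ‖f‖ ^ (2 * n) * ((p : ℝ)⁻¹) ^ n := by gcongr
        _ = ‖f‖ ^ (2 * n) * ((p : ℝ) ^ n)⁻¹ := by rw [inv_pow]
        _ ≤ _ := by gcongr
    · intro _ i j
      rw [mul_zero, add_zero]
      exact hlt i j
  · have hp2 : p ≠ 2 := by omega
    obtain ⟨G, w, hG, e1, e2, e3, e4, e5⟩ := loc_odd hn ho p hp2 a h0 hl (by
      by_cases h : (p : ℤ) ∣ a 0
      · exact Or.inr ⟨h2 hpP, h3 hpP h⟩
      · exact Or.inl h) δ (hloc hp2)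
    refine ⟨G, w, hG, e1, e3, ?_, e4, e5⟩
    rw [e2, norm_factorial_eq_one hpP, one_pow]

end PairO

open PairO BF.PairEx

theorem exists_pair_odd {n : ℕ} (hn : 3 ≤ n) (ho : Odd n) (P : ℕ) (hP : 2 ≤ P)
    (a : Fin (n + 1) → ℤ) (h0 : a 0 ≠ 0) (hl : a (Fin.last n) ≠ 0)
    (h2 : ∀ p : ℕ, p.Prime → P < p → ¬ (p : ℤ) ^ 2 ∣ a 0)
    (h3 : ∀ p : ℕ, p.Prime → P < p → (p : ℤ) ∣ a 0 →
      ¬ (p : ℤ) ∣ a 1 ∧ ¬ (p : ℤ) ∣ a (Fin.last n))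
    (δ : ℚ[X]) (hδ : IsCoprime δ (GZ ℚ a))
    (hloc : ∀ (p : ℕ) [Fact p.Prime], p ≠ 2 →
      OLoc (GZ ℚ_[p] a) (δ.map (algebraMap ℚ ℚ_[p]))) :
    ∃ (δ' : ℚ[X]) (A B : Matrix (Fin n) (Fin n) ℤ), IsCoprime δ' (FZ ℚ (OF.mcf a)) ∧
      BG.IsPair (OF.mcf a) δ' A B ∧ |A.det| ≤ (P.factorial : ℤ) ^ (3 * n) ∧
      ∀ p : ℕ, p.Prime → p ∣ OF.sfp (a 0) → OF.Rk1 p B := by
  have h0' : ((a 0 : ℤ) : ℚ) ≠ 0 := by exact_mod_cast h0
  have hFm : (mon ℚ a).Monic := mon_monic a h0'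
  have hFn : (mon ℚ a).natDegree = n := mon_natDegree a h0'
  have hδF : IsCoprime δ (mon ℚ a) := by
    refine hδ.of_isCoprime_of_dvd_right (mon_dvd a h0' dvd_rfl)
  have hcp : ∀ (p : ℕ) [Fact p.Prime],
      IsCoprime (δ.map (algebraMap ℚ ℚ_[p])) (GZ ℚ_[p] a) := by
    intro p _
    have := hδ.map (mapRingHom (algebraMap ℚ ℚ_[p]))
    rwa [coe_mapRingHom, GZ_map] at this
  obtain ⟨c, hc⟩ : ∃ c : ℚ, c = ((a 0 : ℤ) : ℚ)⁻¹ := ⟨_, rfl⟩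
  have hc0 : c ≠ 0 := by rw [hc]; exact inv_ne_zero h0'
  obtain ⟨H, hHdef⟩ : ∃ H, H = c • Hank n (mon ℚ a) δ := ⟨_, rfl⟩
  obtain ⟨H1, hH1def⟩ : ∃ H, H = Hank n (mon ℚ a) (X * δ) := ⟨_, rfl⟩
  have hHk : (Hank n (mon ℚ a) δ).det ≠ 0 := hank_det_ne_zero _ _ hFm hFn hδF
  have hH : H.det ≠ 0 := by
    rw [hHdef, Matrix.det_smul]
    exact mul_ne_zero (pow_ne_zero _ hc0) hHk
  have hHp : ∀ (p : ℕ) [Fact p.Prime], H.map (algebraMap ℚ ℚ_[p]) =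
      ((a 0 : ℤ) : ℚ_[p])⁻¹ • Hank n (mon ℚ_[p] a) (δ.map (algebraMap ℚ ℚ_[p])) := by
    intro p hp
    have h1 : (c • Hank n (mon ℚ a) δ).map (algebraMap ℚ ℚ_[p]) =
        ((a 0 : ℤ) : ℚ_[p])⁻¹ • (Hank n (mon ℚ a) δ).map (algebraMap ℚ ℚ_[p]) := by
      ext i j
      rw [Matrix.map_apply, Matrix.smul_apply, Matrix.smul_apply, Matrix.map_apply, smul_eq_mul,
        smul_eq_mul, map_mul, hc, map_inv₀, map_intCast]
    rw [hHdef, h1, ← hank_map _ _ _ hFm, mon_map]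
  have hH1p : ∀ (p : ℕ) [Fact p.Prime], H1.map (algebraMap ℚ ℚ_[p]) =
      Hank n (mon ℚ_[p] a) (X * δ.map (algebraMap ℚ ℚ_[p])) := by
    intro p hp
    rw [hH1def, ← hank_map _ _ _ hFm, mon_map, Polynomial.map_mul, Polynomial.map_X]
  obtain ⟨S, hS⟩ := exists_finset (1 : ℚ) one_ne_zero H H1 hH
  obtain ⟨f, hf⟩ : ∃ f : ℕ, f = P.factorial := ⟨_, rfl⟩
  have hf0 : 0 < f := by rw [hf]; exact Nat.factorial_pos P
  have hl' : ∀ (p : ℕ) [Fact p.Prime], ∃ (g : Matrix (Fin n) (Fin n) ℚ_[p])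
      (w : Fin n → ℚ_[p]), g.det ≠ 0 ∧
      (∀ i j, ‖(g * H.map (algebraMap ℚ ℚ_[p]) * gᵀ) i j‖ ≤ 1) ∧
      (∀ i j, ‖(g * H1.map (algebraMap ℚ ℚ_[p]) * gᵀ) i j‖ ≤ 1) ∧
      ‖((f : ℕ) : ℚ_[p])‖ ^ (3 * n) ≤ ‖(g * H.map (algebraMap ℚ ℚ_[p]) * gᵀ).det‖ ∧
      (∀ i, ‖w i‖ ≤ 1) ∧
      ((p : ℤ) ∣ a 0 → ∀ i j, ‖(g * H1.map (algebraMap ℚ ℚ_[p]) * gᵀ) i j + w i * w j‖ < 1) := by
    intro p hp
    obtain ⟨g, w, e1, e2, e3, e4, e5, e6⟩ := local_odd hn ho P hP a h0 hl p (h2 p hp.out)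
      (h3 p hp.out) (δ.map (algebraMap ℚ ℚ_[p])) (hcp p) (hloc p)
    rw [← hHp p] at e2 e4
    rw [← hH1p p] at e3 e6
    rw [← hf] at e4
    exact ⟨g, w, e1, e2, e3, e4, e5, e6⟩
  choose g w hg1 hg2 hg3 hg4 hg5 hg6 using hl'
  obtain ⟨G, hG, hGS, hGN⟩ := glue (S ∪ (OF.sfp (a 0)).primeFactors) (fun p _ => g p)
    (fun p _ _ => hg1 p)
  -- the transformed matrices at each prime
  have key : ∀ (p : ℕ) [Fact p.Prime],
      (∀ i j, ‖((G * H * Gᵀ).map (algebraMap ℚ ℚ_[p])) i j‖ ≤ 1) ∧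
      (∀ i j, ‖((G * H1 * Gᵀ).map (algebraMap ℚ ℚ_[p])) i j‖ ≤ 1) ∧
      ‖((f : ℕ) : ℚ_[p])‖ ^ (3 * n) ≤ ‖((G * H * Gᵀ).map (algebraMap ℚ ℚ_[p])).det‖ ∧
      (p ∣ OF.sfp (a 0) → ∃ v : Fin n → ℚ_[p], (∀ i, ‖v i‖ ≤ 1) ∧
          ∀ i j, ‖((G * H1 * Gᵀ).map (algebraMap ℚ ℚ_[p])) i j + v i * v j‖ < 1) := by
    intro p hp
    have hm : ∀ H : Matrix (Fin n) (Fin n) ℚ, (G * H * Gᵀ).map (algebraMap ℚ ℚ_[p]) =
        G.map (algebraMap ℚ ℚ_[p]) * H.map (algebraMap ℚ ℚ_[p]) *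
          (G.map (algebraMap ℚ ℚ_[p]))ᵀ := by
      intro H
      rw [Matrix.map_mul, Matrix.map_mul, Matrix.transpose_map]
    rw [hm, hm]
    by_cases hpS : p ∈ S ∪ (OF.sfp (a 0)).primeFactors
    · obtain ⟨hU1, hU2⟩ := hGS p hpS
      obtain ⟨U, hU⟩ : ∃ U, U = G.map (algebraMap ℚ ℚ_[p]) * (g p)⁻¹ := ⟨_, rfl⟩
      rw [← hU] at hU1 hU2
      have hUg : G.map (algebraMap ℚ ℚ_[p]) = U * g p := by
        rw [hU, Matrix.mul_assoc, nonsing_inv_mul _ (isUnit_iff_ne_zero.2 (hg1 p)),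
          Matrix.mul_one]
      have he : ∀ V : Matrix (Fin n) (Fin n) ℚ_[p], (U * g p) * V * (U * g p)ᵀ =
          U * (g p * V * (g p)ᵀ) * Uᵀ := by
        intro V
        rw [transpose_mul]
        simp only [Matrix.mul_assoc]
      rw [hUg, he, he]
      refine ⟨norm_congr_le_one hU1 (hg2 p), norm_congr_le_one hU1 (hg3 p), ?_, ?_⟩
      · rw [norm_congr_det hU2]; exact hg4 p
      · intro hps
        have h1 := hg6 p ((OF.prime_dvd_sfp h0 hp.out).1 hps).1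
        refine ⟨U *ᵥ (w p), OF.PairEx.norm_mulVec_le_one hU1 (hg5 p), ?_⟩
        intro i j
        rw [← OF.PairEx.congr_vec]
        exact OF.PairEx.norm_congr_lt_one hU1 (fun i j => h1 i j) i j
    · obtain ⟨hU1, hU2⟩ := hGN p hpS
      rw [mem_union, not_or] at hpS
      obtain ⟨h1, h2, h3⟩ := hS p hpS.1
      rw [map_one, norm_one] at h3
      refine ⟨norm_congr_le_one hU1 h1, norm_congr_le_one hU1 h2, ?_, ?_⟩
      · rw [norm_congr_det hU2, h3]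
        exact pow_le_one₀ (norm_nonneg _) (norm_nat_le_one _)
      · intro hps
        exact absurd (Nat.mem_primeFactors.2 ⟨hp.out, hps, (OF.sfp_pos (a 0)).ne'⟩) hpS.2
  have hA : ∀ i j, ∃ z : ℤ, (z : ℚ) = (G * H * Gᵀ) i j := fun i j =>
    int_of_norm_le_one _ fun p _ => (key p).1 i j
  have hB : ∀ i j, ∃ z : ℤ, (z : ℚ) = (G * H1 * Gᵀ) i j := fun i j =>
    int_of_norm_le_one _ fun p _ => (key p).2.1 i j
  choose A hA using hA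
  choose B hB using hB
  have hAm : (Matrix.of A).map (Int.cast : ℤ → ℚ) = G * H * Gᵀ := by
    ext i j; exact hA i j
  have hBm : (Matrix.of B).map (Int.cast : ℤ → ℚ) = G * H1 * Gᵀ := by
    ext i j; exact hB i j
  have hdet : (((Matrix.of A).det : ℤ) : ℚ) = (G * H * Gᵀ).det := by
    rw [← hAm]
    exact (Int.castRingHom ℚ).map_det (Matrix.of A)
  have hdet0 : (((Matrix.of A).det : ℤ) : ℚ) ≠ 0 := by
    rw [hdet, det_mul, det_mul, det_transpose]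
    exact mul_ne_zero (mul_ne_zero hG hH) hG
  have hdetp : ∀ (p : ℕ) [Fact p.Prime], ((G * H * Gᵀ).map (algebraMap ℚ ℚ_[p])).det =
      algebraMap ℚ ℚ_[p] (((Matrix.of A).det : ℤ) : ℚ) := by
    intro p hp
    rw [hdet, ← RingHom.mapMatrix_apply, ← RingHom.map_det]
  obtain ⟨δ', hδ', hpair⟩ := isPair_conv hn ho a h0 δ hδ G hG (Matrix.of A) (Matrix.of B)
    (by rw [hAm, hHdef, hc]) (by rw [hBm, hH1def])
  refine ⟨δ', Matrix.of A, Matrix.of B, hδ', hpair, ?_, ?_⟩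
  · obtain ⟨z, hz⟩ := int_of_norm_le_one (((f ^ (3 * n) : ℕ) : ℚ) / ((Matrix.of A).det : ℤ)) (by
      intro p hp
      have h := (key p).2.2.1
      rw [hdetp p] at h
      rw [map_div₀, norm_div, div_le_one (norm_pos_iff.2 (by
        rw [Ne, map_eq_zero]; exact hdet0)), map_natCast, Nat.cast_pow, norm_pow]
      exact h)
    rw [eq_div_iff hdet0] at hz
    have h1 : z * (Matrix.of A).det = (f : ℤ) ^ (3 * n) := by exact_mod_cast hz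
    have h2 : |(Matrix.of A).det| ∣ (f : ℤ) ^ (3 * n) := (abs_dvd _ _).2 ⟨z, by rw [← h1]; ring⟩
    rw [← hf]
    exact Int.le_of_dvd (by positivity) h2
  · intro p hp hps
    have : Fact p.Prime := ⟨hp⟩
    obtain ⟨v, hv, h2⟩ := (key p).2.2.2 hps
    have hz : ∀ i, ∃ z : ℤ, ‖v i - (z : ℚ_[p])‖ < 1 := fun i => OF.PairEx.exists_int (v i) (hv i)
    choose z hz using hz
    have hz1 : ∀ i, ‖(z i : ℚ_[p])‖ ≤ 1 := fun i => Padic.norm_int_le_one _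
    refine ⟨z, fun i j => ?_⟩
    rw [← Padic.norm_intCast_lt_one_iff (p := p)]
    have e1 : (((Matrix.of B i j + z i * z j : ℤ)) : ℚ_[p]) =
        (((G * H1 * Gᵀ).map (algebraMap ℚ ℚ_[p])) i j + v i * v j) +
          (-((v i - z i) * v j) + -(z i * (v j - z j))) := by
      rw [map_apply, ← hB i j, eq_ratCast, Rat.cast_intCast, Matrix.of_apply]
      push_cast
      ring
    rw [e1]
    refine OF.PairEx.norm_add_lt_one (h2 i j) (OF.PairEx.norm_add_lt_one ?_ ?_)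
    · rw [norm_neg, norm_mul]
      exact mul_lt_one_of_nonneg_of_lt_one_left (norm_nonneg _) (hz i) (hv j)
    · rw [norm_neg, norm_mul]
      exact mul_lt_one_of_nonneg_of_lt_one_right (hz1 i) (norm_nonneg _) (hz j)

end Stoll308.SC
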