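import Pool.Agent.Work.MP_308fa9_nt.SC.Basic
import Pool.Agent.Work.MP_308fa9_nt.OF.Rep

set_option autoImplicit false

/-!
The reduced pair, `n` odd.
-/

namespace Stoll308.SC

open Polynomial Finset Matrix BG BF

theorem red_of_pair {n : ℕ} (hn : 3 ≤ n) (η S D : ℝ) (hη : 0 < η) (hS : 1 ≤ S) (hD : 1 ≤ D) :
    ∃ K : ℝ, 1 ≤ K ∧ ∀ (a : Fin (n + 1) → ℤ) (H : ℝ), 1 ≤ H → a 0 ≠ 0 →
      η * H ≤ |(a 0 : ℝ)| → |(a 0 : ℝ)| ≤ S * OF.sfp (a 0) → (∀ i, |(a i : ℝ)| ≤ H) →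
      Irreducible (FZ ℚ (OF.mcf a)) → ∀ δ : ℚ[X], IsCoprime δ (FZ ℚ (OF.mcf a)) →
      ∀ A₀ B₀ : Matrix (Fin n) (Fin n) ℤ, BG.IsPair (OF.mcf a) δ A₀ B₀ →
      |(A₀.det : ℝ)| ≤ D → (∀ p : ℕ, p.Prime → p ∣ OF.sfp (a 0) → OF.Rk1 p B₀) →
      ∃ (A B : Matrix (Fin n) (Fin n) ℤ) (t : Fin n → ℝ), OF.RPair K H a A B t := by
  obtain ⟨K₀, hK₀, hred⟩ := red_basis n
  have hS0 : 0 < S := by linarith
  have hKS : 1 ≤ K₀ * D := one_le_mul_of_one_le_of_one_le hK₀ hD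
  have hSη : 0 < S / η := by positivity
  refine ⟨K₀ * D + 2 + S / η, by linarith, ?_⟩
  intro a H hH h0 hη' hS' ha hF δ hδ A₀ B₀ hpair hdetS hsf
  have hroot := OF.root_le a H hH ha
  obtain ⟨P, hP, hPdet, hPA, hPB⟩ :=
    BG.majorant (by omega) (OF.mcf a) hF δ hδ A₀ B₀ hpair (2 * H) hroot
  obtain ⟨U, hU, hsort, hprod⟩ := hred P hP
  have hpair' := hpair.conj hU
  set Q := U.map (Int.cast : ℤ → ℝ) * P * (U.map (Int.cast : ℤ → ℝ))ᵀ with hQ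
  have hQii : ∀ i, Q i i = (fun j => ((U i j : ℤ) : ℝ)) ⬝ᵥ P *ᵥ (fun j => ((U i j : ℤ) : ℝ)) := by
    intro i
    rw [hQ, rep_conj_apply]
    rfl
  have hQpos : ∀ i, 0 < Q i i := by
    intro i
    rw [hQii]
    have h1 := hP.dotProduct_mulVec_pos (rep_row_ne U hU i)
    simpa using h1
  have hcastA : ∀ (A' : Matrix (Fin n) (Fin n) ℤ) (i j : Fin n),
      (((U * A' * Uᵀ) i j : ℤ) : ℝ) = (fun j => ((U i j : ℤ) : ℝ)) ⬝ᵥ
        (A'.map (Int.cast : ℤ → ℝ)) *ᵥ (fun k => ((U j k : ℤ) : ℝ)) := by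
    intro A' i j
    rw [rep_conj_apply]
    simp only [dotProduct, mulVec, Matrix.map_apply]
    push_cast
    rfl
  refine ⟨U * A₀ * Uᵀ, U * B₀ * Uᵀ, fun i => √(Q i i), hpair'.symmA, hpair'.symmB,
    hpair'.hasChar hδ, fun i => Real.sqrt_pos.2 (hQpos i), ?_, ?_, ?_, ?_, ?_, ?_⟩
  · intro i j
    rw [hcastA, ← Real.sqrt_mul (hQpos i).le]
    apply Real.abs_le_sqrt
    rw [hQii i, hQii j]
    exact hPA _ _
  · intro i j
    have h1 : |(((U * B₀ * Uᵀ) i j : ℤ) : ℝ)| ≤ 2 * H * (√(Q i i) * √(Q j j)) := by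
      rw [hcastA, ← Real.sqrt_mul (hQpos i).le]
      have h1 : 2 * H * √(Q i i * Q j j) = √((2 * H) ^ 2 * (Q i i * Q j j)) := by
        rw [Real.sqrt_mul (sq_nonneg (2 * H)), Real.sqrt_sq (by linarith)]
      rw [h1]
      apply Real.abs_le_sqrt
      rw [hQii i, hQii j]
      exact hPB _ _
    refine h1.trans ?_
    refine mul_le_mul_of_nonneg_right ?_ (by positivity)
    refine mul_le_mul_of_nonneg_right ?_ (by linarith)
    linarith
  · intro i j hij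
    exact Real.sqrt_le_sqrt (hsort i j hij)
  · rw [← Real.sqrt_prod _ (fun i _ => (hQpos i).le)]
    have h1 : ∏ i, Q i i ≤ K₀ * D := by
      refine hprod.trans ?_
      rw [hPdet]
      gcongr
    have h2 : √(∏ i, Q i i) ≤ √((K₀ * D) ^ 2) := by
      apply Real.sqrt_le_sqrt
      refine h1.trans ?_
      nlinarith
    rw [Real.sqrt_sq (by linarith)] at h2
    linarith
  · have h1 : H ≤ S / η * OF.sfp (a 0) := by
      rw [div_mul_eq_mul_div, le_div_iff₀ hη]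
      linarith
    refine h1.trans ?_
    refine mul_le_mul_of_nonneg_right ?_ (Nat.cast_nonneg _)
    linarith
  · intro p hp hps
    exact (hsf p hp hps).conj U

end Stoll308.SC
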