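import Pool.Agent.Work.MP_308fa9_nt.SC.HPoly
import Pool.Agent.Work.MP_308fa9_nt.SC.PairO
import Pool.Agent.Work.MP_308fa9_nt.SC.RepO
import Pool.Agent.Work.MP_308fa9_nt.SC.LatCond
import Pool.Agent.Work.MP_308fa9_nt.SC.Excl
import Pool.Agent.Work.MP_308fa9_nt.OF.Main

set_option autoImplicit false

/-!
The upper bound, `n` odd.
-/

namespace Stoll308.SC

open Polynomial Finset Matrix BG BF

theorem oddSel_small_odd (n : ℕ) (hn : 3 ≤ n) (ho : Odd n) (ψ : ℤ[X]) (ε : ℝ) (hε : 0 < ε) :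
    ∃ H₀ : ℕ, ∀ H : ℕ, H₀ ≤ H → (cnt n (OddSel ψ) H : ℝ) ≤ ε * H ^ (n + 1) := by
  have h10 : (1 : Fin (n + 1)) ≠ 0 := by
    intro h
    have h1 := congrArg Fin.val h
    rw [Fin.val_one', Nat.mod_eq_of_lt (by omega), Fin.val_zero] at h1
    exact one_ne_zero h1
  have hl0 : (Fin.last n : Fin (n + 1)) ≠ 0 := by
    intro h
    have h1 := congrArg Fin.val h
    rw [Fin.val_last, Fin.val_zero] at h1
    omega
  obtain ⟨S, hS, h1⟩ := OF.sqf_cnt n (ε / 7) (by positivity)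
  obtain ⟨η, hη, H₁, h2⟩ := OF.lead_cnt n (ε / 7) (by positivity)
  obtain ⟨P₁, h6⟩ := excl_small n 1 h10 (ε / 7) (by positivity)
  obtain ⟨P₂, h7⟩ := excl_small n (Fin.last n) hl0 (ε / 7) (by positivity)
  obtain ⟨P, hP⟩ : ∃ P : ℕ, P = P₁ + P₂ + ⌈S⌉₊ + 2 := ⟨_, rfl⟩
  have hP2 : 2 ≤ P := by omega
  have hSP : S ≤ P := by
    refine (Nat.le_ceil S).trans ?_
    have : ⌈S⌉₊ ≤ P := by omega
    exact_mod_cast this
  obtain ⟨D, hD⟩ : ∃ D : ℝ, D = (P.factorial : ℝ) ^ (3 * n) := ⟨_, rfl⟩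
  have hD1 : 1 ≤ D := by
    rw [hD]
    exact one_le_pow₀ (by exact_mod_cast P.factorial_pos)
  obtain ⟨K, hK, hred⟩ := red_of_pair hn η S D hη hS hD1
  obtain ⟨τ₀, H₂, hτ₀, h3⟩ := OF.cusp n hn ho K hK (ε / 7) (by positivity)
  obtain ⟨H₃, h4⟩ := OF.large_t hn K τ₀ hK hτ₀ (ε / 7) (by positivity)
  obtain ⟨H₄, h5⟩ := BF.reducible_small n (by omega) (ε / 7) (by positivity)
  refine ⟨H₁ + H₂ + H₃ + H₄ + 1, ?_⟩
  intro H hH
  have hH1 : 1 ≤ H := by omega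
  have hHr : (1 : ℝ) ≤ H := by exact_mod_cast hH1
  have g1 := h1 H hH1
  have g2 := h2 H (by omega)
  have g3 := cnt_le_of_card _ H _ (h3 H (by omega))
  have g4 := cnt_le_of_card _ H _ (h4 H (by omega))
  have g5 := h5 H (by omega)
  have g6 := h6 P (by omega) H
  have g7 := h7 P (by omega) H
  set P1 : (Fin (n + 1) → ℤ) → Prop := fun a => a 0 ≠ 0 ∧ S * OF.sfp (a 0) < |(a 0 : ℝ)|
    with hP1
  set P2 : (Fin (n + 1) → ℤ) → Prop := fun a => |(a 0 : ℝ)| < η * H with hP2'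
  set P3 : (Fin (n + 1) → ℤ) → Prop := fun a => a 0 ≠ 0 ∧ |(a 0 : ℝ)| ≤ H ∧
    Irreducible (FZ ℚ (OF.mcf a)) ∧ ∃ (A B : Matrix (Fin n) (Fin n) ℤ) (t : Fin n → ℝ),
      OF.RPair K H a A B t ∧ ∃ i, t i ≤ τ₀ with hP3
  set P4 : (Fin (n + 1) → ℤ) → Prop := fun a => a 0 ≠ 0 ∧ |(a 0 : ℝ)| ≤ H ∧
    ∃ (A B : Matrix (Fin n) (Fin n) ℤ) (t : Fin n → ℝ), OF.RPair K H a A B t ∧
      ∀ i, τ₀ < t i with hP4
  set P5 : (Fin (n + 1) → ℤ) → Prop := fun a => a 0 = 0 ∨ IsSquare (a 0) ∨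
    ¬ Irreducible (BF.GZ ℚ a) with hP5
  set P6 : (Fin (n + 1) → ℤ) → Prop := fun a => a 0 ≠ 0 ∧ ∃ p : ℕ, p.Prime ∧ P < p ∧
    (p : ℤ) ∣ a 0 ∧ (p : ℤ) ∣ a 1 with hP6
  set P7 : (Fin (n + 1) → ℤ) → Prop := fun a => a 0 ≠ 0 ∧ ∃ p : ℕ, p.Prime ∧ P < p ∧
    (p : ℤ) ∣ a 0 ∧ (p : ℤ) ∣ a (Fin.last n) with hP7
  have hle : cnt n (OddSel ψ) H ≤ cnt n P1 H + (cnt n P2 H + (cnt n P3 H + (cnt n P4 H +
      (cnt n P5 H + (cnt n P6 H + cnt n P7 H))))) := by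
    refine le_trans (cnt_mono (Q := fun b => P1 b ∨ P2 b ∨ P3 b ∨ P4 b ∨ P5 b ∨ P6 b ∨ P7 b)
      H ?_) ?_
    · intro a ha h
      by_cases q5 : P5 a
      · exact Or.inr (Or.inr (Or.inr (Or.inr (Or.inl q5))))
      by_cases q6 : P6 a
      · exact Or.inr (Or.inr (Or.inr (Or.inr (Or.inr (Or.inl q6)))))
      by_cases q7 : P7 a
      · exact Or.inr (Or.inr (Or.inr (Or.inr (Or.inr (Or.inr q7)))))
      by_cases q1 : P1 a
      · exact Or.inl q1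
      by_cases q2 : P2 a
      · exact Or.inr (Or.inl q2)
      right; right
      rw [hP5] at q5
      simp only [not_or, not_not] at q5
      obtain ⟨h0, hsq, hF⟩ := q5
      have q1' : |(a 0 : ℝ)| ≤ S * OF.sfp (a 0) := by
        rw [hP1] at q1
        simp only [not_and, not_lt] at q1
        exact q1 h0
      have q2' : η * H ≤ |(a 0 : ℝ)| := by
        rw [hP2'] at q2
        exact not_lt.1 q2
      have har : ∀ i, |(a i : ℝ)| ≤ H := fun i => by exact_mod_cast ha i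
      have hirr := OF.irr_mcf (by omega) a h0 hF
      have hl := BF.last_ne_zero (by omega) a h0 hF
      obtain ⟨δ, hδ, hloc⟩ := h
      obtain ⟨δ', A₀, B₀, hδ', hpair, hdet, hrk⟩ := exists_pair_odd hn ho P hP2 a h0 hl
        (fun p hp hpP => sq_not_dvd (a 0) h0 S P hSP q1' p hp hpP)
        (fun p hp hpP hd => ⟨fun hd1 => q6 ⟨h0, p, hp, hpP, hd, hd1⟩,
          fun hd1 => q7 ⟨h0, p, hp, hpP, hd, hd1⟩⟩) δ hδ
        (fun p hp h2 => oloc_of_image ψ a δ ℚ_[p] (hloc p h2))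
      have hdet' : |(A₀.det : ℝ)| ≤ D := by
        rw [hD]
        exact_mod_cast hdet
      obtain ⟨A, B, t, hR⟩ := hred a H hHr h0 q2' q1' har hirr δ' hδ' A₀ B₀ hpair hdet' hrk
      by_cases ht : ∃ i, t i ≤ τ₀
      · exact Or.inl ⟨h0, har 0, hirr, A, B, t, hR, ht⟩
      · push Not at ht
        exact Or.inr (Or.inl ⟨h0, har 0, A, B, t, hR, ht⟩)
    · refine (cnt_or _ _ H).trans ?_
      gcongr
      refine (cnt_or _ _ H).trans ?_
      gcongr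
      refine (cnt_or _ _ H).trans ?_
      gcongr
      refine (cnt_or _ _ H).trans ?_
      gcongr
      refine (cnt_or _ _ H).trans ?_
      gcongr
      exact cnt_or _ _ H
  calc ((cnt n (OddSel ψ) H : ℕ) : ℝ)
      ≤ ((cnt n P1 H + (cnt n P2 H + (cnt n P3 H + (cnt n P4 H +
        (cnt n P5 H + (cnt n P6 H + cnt n P7 H))))) : ℕ) : ℝ) := by exact_mod_cast hle
    _ ≤ ε * H ^ (n + 1) := by
        push_cast
        linarith

end Stoll308.SC
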